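import Pool.Agent.VSG.Lang

/-!
# Vaught's conjecture and sparse graphs: the fill-in lemma

If the earlier neighbours of each point are pairwise adjacent, then a path from `x` to an earlier
point contains an earlier point which is adjacent to `x`.
-/

set_option autoImplicit false

namespace VSG

open FirstOrder Set

private theorem GSF_symm {V : Type} {S : LN.Structure V} {M : ℕ} {x y : V} (h : LAdj S M x y) :
    LAdj S M y x := by
  obtain ⟨h1, i, hi, h2⟩ := h
  exact ⟨fun e => h1 e.symm, i, hi, h2.symm⟩

/-- the fill-in lemma, for the length of the path -/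
private theorem GSF_aux {V : Type} (S : LN.Structure V) (X : Finset V) (f : V → ℕ)
    (hf : Set.InjOn f X) (M : ℕ)
    (hc : ∀ x ∈ X, ∀ y ∈ X, ∀ z ∈ X, f y < f x → f z < f x → y ≠ z → LAdj S M x y →
      LAdj S M x z → LAdj S M y z) (x y : V) (h : f y < f x) :
    ∀ (n : ℕ) (Q : List V), Q.length = n → (∀ z ∈ x :: (Q ++ [y]), z ∈ X) →
      (x :: (Q ++ [y])).Nodup → (x :: (Q ++ [y])).IsChain (LAdj S M) →
      ∃ z ∈ Q ++ [y], f z < f x ∧ LAdj S M x z := by
  classical
  intro n
  induction n with
  | zero =>
    intro Q hQ _ _ ch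
    rw [List.length_eq_zero_iff.1 hQ] at ch ⊢
    exact ⟨y, by simp, h, (List.isChain_cons_cons.1 ch).1⟩
  | succ n ih =>
    intro Q hQ hX nd ch
    obtain ⟨q, Q', rfl⟩ : ∃ q Q', Q = q :: Q' := by
      cases Q with
      | nil => simp at hQ
      | cons q Q' => exact ⟨q, Q', rfl⟩
    by_cases hq : f q < f x
    · exact ⟨q, by simp, hq, (List.isChain_cons_cons.1 ch).1⟩
    have hqx : f x < f q := by
      refine lt_of_le_of_ne (not_lt.1 hq) fun e => ?_
      have h1 : x = q := hf (hX x (by simp)) (hX q (by simp)) e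
      rw [h1] at nd
      simp at nd
    obtain ⟨m, hm, hmax⟩ := (q :: Q').toFinset.exists_max_image f ⟨q, by simp⟩
    have hmQ : m ∈ q :: Q' := List.mem_toFinset.1 hm
    have hxm : f x < f m := hqx.trans_le (hmax q (by simp))
    obtain ⟨l1, l2, hl⟩ := List.append_of_mem hmQ
    rw [hl] at hX nd ch hQ hmax ⊢
    have e1 : x :: ((l1 ++ m :: l2) ++ [y]) = (x :: l1) ++ m :: (l2 ++ [y]) := by simp
    have e2 : x :: ((l1 ++ l2) ++ [y]) = (x :: l1) ++ (l2 ++ [y]) := by simp
    rw [e1] at hX nd ch
    have hsub : ∀ z ∈ (x :: l1) ++ (l2 ++ [y]), z ∈ (x :: l1) ++ m :: (l2 ++ [y]) := by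
      intro z hz
      rcases List.mem_append.1 hz with h1 | h1
      · exact List.mem_append.2 (Or.inl h1)
      · exact List.mem_append.2 (Or.inr (List.mem_cons_of_mem _ h1))
    have hsl : List.Sublist ((x :: l1) ++ (l2 ++ [y])) ((x :: l1) ++ m :: (l2 ++ [y])) :=
      List.Sublist.append (List.Sublist.refl _) (List.sublist_cons_self _ _)
    have nd' : ((x :: l1) ++ (l2 ++ [y])).Nodup := nd.sublist hsl
    have hmn : m ∉ (x :: l1) ++ (l2 ++ [y]) := by
      intro hm'
      have h1 := List.nodup_append.1 nd
      rcases List.mem_append.1 hm' with h2 | h2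
      · exact h1.2.2 m h2 m (by simp) rfl
      · exact (List.nodup_cons.1 h1.2.1).1 h2
    have hlt : ∀ z ∈ (x :: l1) ++ (l2 ++ [y]), f z < f m := by
      intro z hz
      have hzX := hX z (hsub z hz)
      have hmX := hX m (by simp)
      have hne : f z ≠ f m := fun e => hmn (hf hzX hmX e ▸ hz)
      refine lt_of_le_of_ne ?_ hne
      rcases List.mem_append.1 hz with h1 | h1
      · rcases List.mem_cons.1 h1 with h2 | h2
        · rw [h2]; exact hxm.le
        · exact hmax z (by simp [h2])
      · rcases List.mem_append.1 h1 with h2 | h2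
        · exact hmax z (by simp [h2])
        · rw [List.mem_singleton.1 h2]
          exact (h.trans hxm).le
    have hch := List.isChain_append.1 ch
    have ch' : ((x :: l1) ++ (l2 ++ [y])).IsChain (LAdj S M) := by
      refine List.isChain_append.2 ⟨hch.1, ?_, ?_⟩
      · have h1 := hch.2.1
        cases hB : l2 ++ [y] with
        | nil => exact List.isChain_nil
        | cons b B =>
          rw [hB] at h1
          exact (List.isChain_cons_cons.1 h1).2
      · intro p hp s hs
        have hpA : p ∈ x :: l1 := List.mem_of_mem_getLast? hp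
        have hsB : s ∈ l2 ++ [y] := List.mem_of_mem_head? hs
        have hpm : LAdj S M p m := hch.2.2 p hp m (by simp)
        have hms : LAdj S M m s := by
          have h1 := hch.2.1
          cases hB : l2 ++ [y] with
          | nil => simp at hB
          | cons b B =>
            rw [hB] at h1 hs
            have h2 : b = s := by simpa using hs
            rw [← h2]
            exact (List.isChain_cons_cons.1 h1).1
        have hps : p ≠ s := (List.nodup_append.1 nd').2.2 p hpA s hsB
        have hp' : p ∈ (x :: l1) ++ (l2 ++ [y]) := List.mem_append.2 (Or.inl hpA)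
        have hs' : s ∈ (x :: l1) ++ (l2 ++ [y]) := List.mem_append.2 (Or.inr hsB)
        exact hc m (hX m (by simp)) p (hX p (hsub p hp')) s (hX s (hsub s hs')) (hlt p hp')
          (hlt s hs') hps (GSF_symm hpm) hms
    have hlen : (l1 ++ l2).length = n := by
      simp only [List.length_append, List.length_cons] at hQ ⊢
      omega
    obtain ⟨z, hz, h1⟩ := ih (l1 ++ l2) hlen (by rw [e2]; exact fun z hz => hX z (hsub z hz))
      (by rw [e2]; exact nd') (by rw [e2]; exact ch')
    refine ⟨z, ?_, h1⟩
    rcases List.mem_append.1 hz with h2 | h2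
    · rcases List.mem_append.1 h2 with h3 | h3
      · simp [h3]
      · simp [h3]
    · exact List.mem_append.2 (Or.inr h2)

/-- the fill-in lemma: a path from `x` to an earlier point contains an earlier point adjacent to
`x` -/
theorem GSF_pre {V : Type} (S : LN.Structure V) (X : Finset V) (f : V → ℕ)
    (hf : Set.InjOn f X) (M : ℕ)
    (hc : ∀ x ∈ X, ∀ y ∈ X, ∀ z ∈ X, f y < f x → f z < f x → y ≠ z → LAdj S M x y →
      LAdj S M x z → LAdj S M y z) (x y : V) (Q : List V)
    (hX : ∀ z ∈ x :: (Q ++ [y]), z ∈ X) (nd : (x :: (Q ++ [y])).Nodup)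
    (ch : (x :: (Q ++ [y])).IsChain (LAdj S M)) (h : f y < f x) :
    ∃ z ∈ Q ++ [y], f z < f x ∧ LAdj S M x z :=
  GSF_aux S X f hf M hc x y h Q.length Q rfl hX nd ch

end VSG
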