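import Pool.Agent.VSG.Lang

/-!
# VSG: the neighbours in the graph of a layered structure; no subdivision of a triangle (GS3)
-/

set_option autoImplicit false

namespace VSG

open FirstOrder Set Pool.Agent.Helper5.DU Pool.Agent.Helper6.Str Pool.Agent.Helper79.VC

section
variable {V : Type} {ℓ : ℕ → ℕ} {S : LN.Structure V}

theorem GS3_symm {u v : GV ℓ S} (h : GA u v) : GA v u := by
  rcases u with x | q <;> rcases v with y | q'
  · exact h
  · exact h
  · exact h
  · obtain ⟨h1, h2, h3⟩ := h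
    exact ⟨h1.symm, h2.symm, h3.symm⟩

theorem GS3_ne {u v : GV ℓ S} (h : GA u v) : u ≠ v := by
  rcases u with x | q <;> rcases v with y | q'
  · exact h.elim
  · exact Sum.inl_ne_inr
  · exact Sum.inr_ne_inl
  · intro e
    have e' : q = q' := Sum.inr.inj e
    subst e'
    obtain ⟨-, -, h3⟩ := h
    omega

/-- adjacency in the Gaifman graph is `GA` -/
theorem GS3_adj (u v : GV ℓ S) : (gaif (grS ℓ S)).Adj u v ↔ GA u v := by
  constructor
  · rintro ⟨hne, n, R, w, hR, ⟨i, hi⟩, ⟨j, hj⟩⟩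
    cases R with
    | col c =>
      exfalso
      apply hne
      rw [← hi, ← hj]
      congr 1
      exact Subsingleton.elim _ _
    | adj =>
      have hR' : GA (w 0) (w 1) := hR
      have hij : i ≠ j := by
        rintro rfl
        exact hne (hi.symm.trans hj)
      rw [← hi, ← hj]
      fin_cases i <;> fin_cases j
      · exact absurd rfl hij
      · exact hR'
      · exact GS3_symm hR'
      · exact absurd rfl hij
  · intro h
    exact ⟨GS3_ne h, 2, RG.adj, ![u, v], h, ⟨0, rfl⟩, ⟨1, rfl⟩⟩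

/-- the previous vertex on the path -/
def GS3_prd (q : IV ℓ S) : GV ℓ S :=
  if q.1.1.2 = 0 then Sum.inl q.1.2.1
  else Sum.inr ⟨((q.1.1.1, q.1.1.2 - 1), q.1.2), q.2.1, (Nat.sub_le _ _).trans_lt q.2.2⟩

/-- the next vertex on the path -/
def GS3_scc (q : IV ℓ S) : GV ℓ S :=
  if h : q.1.1.2 + 1 = ℓ q.1.1.1 then Sum.inl q.1.2.2
  else Sum.inr ⟨((q.1.1.1, q.1.1.2 + 1), q.1.2), q.2.1, lt_of_le_of_ne q.2.2 h⟩

/-- an inner vertex has exactly the two neighbours `GS3_prd` and `GS3_scc` -/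
theorem GS3_nbr (q : IV ℓ S) (v : GV ℓ S) : GA (Sum.inr q) v ↔ v = GS3_prd q ∨ v = GS3_scc q := by
  obtain ⟨⟨⟨i, k⟩, ⟨x, y⟩⟩, hq1, hq2⟩ := q
  have hq2' : k < ℓ i := hq2
  unfold GS3_prd GS3_scc
  rcases v with z | ⟨⟨⟨i', k'⟩, ⟨x', y'⟩⟩, hq1', hq2''⟩
  · show (k = 0 ∧ z = x) ∨ (k + 1 = ℓ i ∧ z = y) ↔ _
    constructor
    · rintro (⟨h1, h2⟩ | ⟨h1, h2⟩)
      · left
        dsimp only
        rw [if_pos h1, h2]
      · right
        dsimp only
        rw [dif_pos h1, h2]
    · rintro (h | h)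
      · dsimp only at h
        split_ifs at h with h1
        · exact Or.inl ⟨h1, Sum.inl.inj h⟩
      · dsimp only at h
        split_ifs at h with h1
        · exact Or.inr ⟨h1, Sum.inl.inj h⟩
  · show i = i' ∧ (x, y) = (x', y') ∧ (k + 1 = k' ∨ k' + 1 = k) ↔ _
    constructor
    · rintro ⟨h1, h2, h3 | h3⟩
      · right
        have h4 : ¬ k + 1 = ℓ i := by
          intro h
          have : k' < ℓ i' := hq2''
          rw [← h1] at this
          omega
        dsimp only
        rw [dif_neg h4]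
        subst h1 h3
        obtain ⟨rfl, rfl⟩ := Prod.mk.inj h2
        rfl
      · left
        have h4 : ¬ k = 0 := by omega
        dsimp only
        rw [if_neg h4]
        subst h1 h3
        obtain ⟨rfl, rfl⟩ := Prod.mk.inj h2
        rfl
    · rintro (h | h)
      · dsimp only at h
        split_ifs at h with h1
        have h2 := congrArg Subtype.val (Sum.inr.inj h)
        simp only [Prod.mk.injEq] at h2
        obtain ⟨⟨rfl, h3⟩, rfl, rfl⟩ := h2
        exact ⟨rfl, rfl, Or.inr (by omega)⟩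
      · dsimp only at h
        split_ifs at h with h1
        have h2 := congrArg Subtype.val (Sum.inr.inj h)
        simp only [Prod.mk.injEq] at h2
        obtain ⟨⟨rfl, h3⟩, rfl, rfl⟩ := h2
        exact ⟨rfl, rfl, Or.inl (by omega)⟩

end

/-! ### subdivisions of a triangle -/

section
variable {W : Type} {G : SimpleGraph W}

private theorem GS3_head {a c : W} {P : List W} (h : List.IsChain G.Adj (a :: (P ++ [c]))) :
    ∃ u, (u ∈ P ∨ u = c) ∧ G.Adj a u := by
  cases P with
  | nil =>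
    refine ⟨c, Or.inr rfl, ?_⟩
    simpa using h
  | cons p P =>
    refine ⟨p, Or.inl (List.mem_cons_self), ?_⟩
    rw [List.cons_append, List.isChain_cons_cons] at h
    exact h.1

private theorem GS3_last {a c : W} {P : List W} (h : List.IsChain G.Adj (a :: (P ++ [c]))) :
    ∃ u, (u ∈ P ∨ u = a) ∧ G.Adj c u := by
  induction P generalizing a with
  | nil =>
    refine ⟨a, Or.inr rfl, ?_⟩
    have : G.Adj a c := by simpa using h
    exact this.symm
  | cons p P ih =>
    rw [List.cons_append, List.isChain_cons_cons] at h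
    obtain ⟨u, hu, hu'⟩ := ih h.2
    refine ⟨u, ?_, hu'⟩
    rcases hu with hu | rfl
    · exact Or.inl (List.mem_cons_of_mem _ hu)
    · exact Or.inl (List.mem_cons_self)

private theorem GS3_mid {a c : W} {P : List W} (h : List.IsChain G.Adj (a :: (P ++ [c])))
    (hn : (a :: (P ++ [c])).Nodup) {z : W} (hz : z ∈ P) :
    ∃ u v, (u ∈ a :: (P ++ [c])) ∧ (v ∈ a :: (P ++ [c])) ∧ u ≠ v ∧ G.Adj z u ∧ G.Adj z v := by
  induction P generalizing a with
  | nil => simp at hz
  | cons p P ih =>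
    rw [List.cons_append] at h hn
    have h' := h
    rw [List.isChain_cons_cons] at h'
    rcases List.mem_cons.1 hz with rfl | hz
    · obtain ⟨v, hv, hv'⟩ := GS3_head h'.2
      refine ⟨a, v, List.mem_cons_self, ?_, ?_, h'.1.symm, hv'⟩
      · rw [List.cons_append]
        refine List.mem_cons_of_mem _ (List.mem_cons_of_mem _ ?_)
        rw [List.mem_append, List.mem_singleton]
        exact hv
      · rintro rfl
        have h3 := (List.nodup_cons.1 hn).1
        apply h3
        refine List.mem_cons_of_mem _ ?_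
        rw [List.mem_append, List.mem_singleton]
        exact hv
    · obtain ⟨u, v, hu, hv, h3⟩ := ih h'.2 (List.nodup_cons.1 hn).2 hz
      exact ⟨u, v, List.mem_cons_of_mem _ (by rwa [List.cons_append]),
        List.mem_cons_of_mem _ (by rwa [List.cons_append]), h3⟩

open Classical in
/-- the vertices of a subdivided triangle: at most `3 r + 3`, each with two neighbours among them -/
theorem GS3_cycle {r : ℕ} (h : HasSub G r 3) : ∃ Z : Finset W, Z.card ≤ 3 * r + 3 ∧ Z.Nonempty ∧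
    ∀ z ∈ Z, ∃ u ∈ Z, ∃ v ∈ Z, u ≠ v ∧ G.Adj z u ∧ G.Adj z v := by
  obtain ⟨b, P, hb, h1, h2, h3⟩ := h
  have i01 : (0 : Fin 3) < 1 := by decide
  have i02 : (0 : Fin 3) < 2 := by decide
  have i12 : (1 : Fin 3) < 2 := by decide
  obtain ⟨l01, n01, c01⟩ := h1 0 1 i01
  obtain ⟨l02, n02, c02⟩ := h1 0 2 i02
  obtain ⟨l12, n12, c12⟩ := h1 1 2 i12
  have d1 : List.Disjoint (P 0 1) (P 0 2) := h3 0 1 0 2 i01 i02 (by decide)
  have d2 : List.Disjoint (P 0 1) (P 1 2) := h3 0 1 1 2 i01 i12 (by decide)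
  have d3 : List.Disjoint (P 0 2) (P 1 2) := h3 0 2 1 2 i02 i12 (by decide)
  set Z : Finset W := ({b 0, b 1, b 2} : Finset W) ∪
    ((P 0 1).toFinset ∪ ((P 0 2).toFinset ∪ (P 1 2).toFinset)) with hZ
  have mZ : ∀ z, z ∈ Z ↔ (z = b 0 ∨ z = b 1 ∨ z = b 2) ∨ z ∈ P 0 1 ∨ z ∈ P 0 2 ∨ z ∈ P 1 2 := by
    intro z
    rw [hZ]
    simp only [Finset.mem_union, Finset.mem_insert, Finset.mem_singleton, List.mem_toFinset]
  have hcard : Z.card ≤ 3 * r + 3 := by
    have a1 := Finset.card_union_le ({b 0, b 1, b 2} : Finset W)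
      ((P 0 1).toFinset ∪ ((P 0 2).toFinset ∪ (P 1 2).toFinset))
    have a2 := Finset.card_union_le (P 0 1).toFinset ((P 0 2).toFinset ∪ (P 1 2).toFinset)
    have a3 := Finset.card_union_le (P 0 2).toFinset (P 1 2).toFinset
    have a4 : ({b 0, b 1, b 2} : Finset W).card ≤ 3 := Finset.card_le_three
    have a5 := (P 0 1).toFinset_card_le
    have a6 := (P 0 2).toFinset_card_le
    have a7 := (P 1 2).toFinset_card_le
    rw [hZ]
    omega
  refine ⟨Z, hcard, ⟨b 0, (mZ _).2 (Or.inl (Or.inl rfl))⟩, ?_⟩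
  have key : ∀ {i j : Fin 3} {Q : List W}, (∀ k, b k ∉ Q) → (b i :: (Q ++ [b j])).Nodup →
      List.IsChain G.Adj (b i :: (Q ++ [b j])) → (∀ z ∈ Q, z ∈ Z) →
      ∀ z ∈ Q, ∃ u ∈ Z, ∃ v ∈ Z, u ≠ v ∧ G.Adj z u ∧ G.Adj z v := by
    intro i j Q _ hn hc hQ z hz
    obtain ⟨u, v, hu, hv, h4, h5, h6⟩ := GS3_mid hc hn hz
    have mem : ∀ w ∈ b i :: (Q ++ [b j]), w ∈ Z := by
      intro w hw
      rw [List.mem_cons, List.mem_append, List.mem_singleton] at hw
      have hbm : ∀ k : Fin 3, b k ∈ Z := by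
        intro k
        refine (mZ _).2 (Or.inl ?_)
        fin_cases k
        · exact Or.inl rfl
        · exact Or.inr (Or.inl rfl)
        · exact Or.inr (Or.inr rfl)
      rcases hw with rfl | hw | rfl
      · exact hbm i
      · exact hQ w hw
      · exact hbm j
    exact ⟨u, mem u hu, v, mem v hv, h4, h5, h6⟩
  intro z hz
  rcases (mZ z).1 hz with (rfl | rfl | rfl) | hz | hz | hz
  · obtain ⟨u, hu, hu'⟩ := GS3_head c01
    obtain ⟨v, hv, hv'⟩ := GS3_head c02
    refine ⟨u, (mZ _).2 ?_, v, (mZ _).2 ?_, ?_, hu', hv'⟩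
    · rcases hu with hu | rfl
      · exact Or.inr (Or.inl hu)
      · exact Or.inl (Or.inr (Or.inl rfl))
    · rcases hv with hv | rfl
      · exact Or.inr (Or.inr (Or.inl hv))
      · exact Or.inl (Or.inr (Or.inr rfl))
    · rintro rfl
      rcases hu with hu | hu <;> rcases hv with hv | hv
      · exact d1 hu hv
      · exact h2 0 1 2 i01 (hv ▸ hu)
      · exact h2 0 2 1 i02 (hu ▸ hv)
      · exact absurd (hb (hu.symm.trans hv)) (by decide)
  · obtain ⟨u, hu, hu'⟩ := GS3_last c01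
    obtain ⟨v, hv, hv'⟩ := GS3_head c12
    refine ⟨u, (mZ _).2 ?_, v, (mZ _).2 ?_, ?_, hu', hv'⟩
    · rcases hu with hu | rfl
      · exact Or.inr (Or.inl hu)
      · exact Or.inl (Or.inl rfl)
    · rcases hv with hv | rfl
      · exact Or.inr (Or.inr (Or.inr hv))
      · exact Or.inl (Or.inr (Or.inr rfl))
    · rintro rfl
      rcases hu with hu | hu <;> rcases hv with hv | hv
      · exact d2 hu hv
      · exact h2 0 1 2 i01 (hv ▸ hu)
      · exact h2 1 2 0 i12 (hu ▸ hv)
      · exact absurd (hb (hu.symm.trans hv)) (by decide)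
  · obtain ⟨u, hu, hu'⟩ := GS3_last c02
    obtain ⟨v, hv, hv'⟩ := GS3_last c12
    refine ⟨u, (mZ _).2 ?_, v, (mZ _).2 ?_, ?_, hu', hv'⟩
    · rcases hu with hu | rfl
      · exact Or.inr (Or.inr (Or.inl hu))
      · exact Or.inl (Or.inl rfl)
    · rcases hv with hv | rfl
      · exact Or.inr (Or.inr (Or.inr hv))
      · exact Or.inl (Or.inr (Or.inl rfl))
    · rintro rfl
      rcases hu with hu | hu <;> rcases hv with hv | hv
      · exact d3 hu hv
      · exact h2 0 2 1 i02 (hv ▸ hu)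
      · exact h2 1 2 0 i12 (hu ▸ hv)
      · exact absurd (hb (hu.symm.trans hv)) (by decide)
  · exact key (fun k => h2 0 1 k i01) n01 c01 (fun w hw => (mZ _).2 (Or.inr (Or.inl hw))) z hz
  · exact key (fun k => h2 0 2 k i02) n02 c02 (fun w hw => (mZ _).2 (Or.inr (Or.inr (Or.inl hw)))) z
      hz
  · exact key (fun k => h2 1 2 k i12) n12 c12 (fun w hw => (mZ _).2 (Or.inr (Or.inr (Or.inr hw)))) z
      hz

end

/-- [GS3] no subdivision of a triangle -/
theorem GS_three (t ℓ : ℕ → ℕ) (_hm : Monotone t) (_h0 : 3 ≤ t 0) (_hℓ : ∀ i, 2 ≤ ℓ i)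
    (hs : Suit t ℓ) (V : Type) (S : LN.Structure V) (_hI : Irr S) (_hE : Elim S) (r : ℕ)
    (hr : t r = 3) : ¬ HasSub (gaif (grS ℓ S)) r 3 := by
  classical
  intro h
  obtain ⟨Z, hZ, hne, hdeg⟩ := GS3_cycle h
  -- an inner vertex
  obtain ⟨q₀, hq₀⟩ : ∃ q : IV ℓ S, (Sum.inr q : GV ℓ S) ∈ Z := by
    obtain ⟨z, hz⟩ := hne
    rcases z with x | q
    · obtain ⟨u, hu, v, hv, -, hu', -⟩ := hdeg _ hz
      rw [GS3_adj] at hu'
      rcases u with y | q
      · exact hu'.elim
      · exact ⟨q, hu⟩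
    · exact ⟨q, hz⟩
  -- both neighbours
  have both : ∀ q : IV ℓ S, (Sum.inr q : GV ℓ S) ∈ Z → GS3_prd q ∈ Z ∧ GS3_scc q ∈ Z := by
    intro q hq
    obtain ⟨u, hu, v, hv, huv, hu', hv'⟩ := hdeg _ hq
    rw [GS3_adj, GS3_nbr] at hu' hv'
    rcases hu' with rfl | rfl <;> rcases hv' with rfl | rfl
    · exact absurd rfl huv
    · exact ⟨hu, hv⟩
    · exact ⟨hv, hu⟩
    · exact absurd rfl huv
  obtain ⟨⟨⟨i, k₀⟩, ⟨x, y⟩⟩, hB, hk₀⟩ := q₀
  have hB' : Bn S i x y := hB
  have hk₀' : k₀ < ℓ i := hk₀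
  have up : ∀ d (hd : k₀ + d < ℓ i), (Sum.inr ⟨((i, k₀ + d), (x, y)), hB', hd⟩ : GV ℓ S) ∈ Z := by
    intro d
    induction d with
    | zero => exact fun _ => hq₀
    | succ d ih =>
      intro hd
      have h1 := (both _ (ih (by omega))).2
      unfold GS3_scc at h1
      dsimp only at h1
      rw [dif_neg (by omega)] at h1
      exact h1
  have down : ∀ d (hd : d ≤ k₀), (Sum.inr ⟨((i, k₀ - d), (x, y)), hB', by
      show k₀ - d < ℓ i
      omega⟩ : GV ℓ S) ∈ Z := by
    intro d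
    induction d with
    | zero => exact fun _ => hq₀
    | succ d ih =>
      intro hd
      have h1 := (both _ (ih (by omega))).1
      unfold GS3_prd at h1
      dsimp only at h1
      rw [if_neg (by omega)] at h1
      exact h1
  have all : ∀ k (hk : k < ℓ i), (Sum.inr ⟨((i, k), (x, y)), hB', hk⟩ : GV ℓ S) ∈ Z := by
    intro k hk
    rcases le_total k₀ k with h | h
    · have := up (k - k₀) (by omega)
      have e : k₀ + (k - k₀) = k := by omega
      simp only [e] at this
      exact this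
    · have := down (k₀ - k) (by omega)
      have e : k₀ - (k₀ - k) = k := by omega
      simp only [e] at this
      exact this
  have hcard : ℓ i ≤ Z.card := by
    have h1 : (Finset.univ : Finset (Fin (ℓ i))).card ≤ Z.card := by
      refine Finset.card_le_card_of_injOn
        (fun k : Fin (ℓ i) => (Sum.inr ⟨((i, k.val), (x, y)), hB', k.2⟩ : GV ℓ S))
        (fun k _ => all k.val k.2) ?_
      intro k _ k' _ hkk
      have h2 := congrArg Subtype.val (Sum.inr.inj hkk)
      simp only [Prod.mk.injEq] at h2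
      exact Fin.ext h2.1.2
    rwa [Finset.card_univ, Fintype.card_fin] at h1
  have := hs i r (hcard.trans hZ)
  omega

end VSG
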