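import Pool.Agent.VSG.GS
import Pool.Agent.VSG.GS3

/-!
# Vaught's conjecture and sparse graphs: simple paths of `grS ℓ S` between points
-/

set_option autoImplicit false

namespace VSG

open FirstOrder Set Pool.Agent.Helper5.DU Pool.Agent.Helper6.Str Pool.Agent.Helper79.VC

/-- a simple chain which enters a path whose inner vertices have degree two runs through it -/
private theorem GSQ_run {W : Type} (r : W → W → Prop) (g : ℕ → W) (L : ℕ)
    (hg : ∀ m, 1 ≤ m → m ≤ L → ∀ v, r (g m) v → v = g (m - 1) ∨ v = g (m + 1)) (w : W)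
    (hw : ∀ m, 1 ≤ m → m ≤ L → w ≠ g m) :
    ∀ d m : ℕ, m + d = L → ∀ T : List W, (g m :: g (m + 1) :: T).Nodup →
      (g m :: g (m + 1) :: T).IsChain r → (g (m + 1) :: T).getLast? = some w →
      ∃ A T', g (m + 1) :: T = A ++ g (L + 1) :: T' ∧ A.length = d := by
  intro d
  induction d with
  | zero =>
    intro m hm T _ _ _
    exact ⟨[], T, by rw [← hm]; rfl, rfl⟩
  | succ d ih =>
    intro m hm T hnd hch hlast
    rcases T with _ | ⟨t, T⟩
    · have h1 : g (m + 1) = w := by simpa using hlast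
      exact absurd h1.symm (hw (m + 1) (by omega) (by omega))
    · have h1 : r (g (m + 1)) t := by
        have := hch
        simp only [List.isChain_cons_cons] at this
        exact this.2.1
      have h2 : t = g (m + 2) := by
        rcases hg (m + 1) (by omega) (by omega) t h1 with h2 | h2
        · exfalso
          rw [Nat.add_sub_cancel] at h2
          have h3 := (List.nodup_cons.1 hnd).1
          exact h3 (by rw [h2]; simp)
        · exact h2
      subst h2
      obtain ⟨A, T', h3, h4⟩ := ih (m + 1) (by omega) T (List.nodup_cons.1 hnd).2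
        (by
          have := hch
          rw [List.isChain_cons_cons] at this
          exact this.2)
        (by rw [List.getLast?_cons_cons] at hlast; exact hlast)
      exact ⟨g (m + 1) :: A, T', by rw [List.cons_append, ← h3], by rw [List.length_cons, h4]⟩

private theorem GSQ_g {W : Type} (L : ℕ) (a b : W) (pt : ∀ m, m < L → W) :
    ∃ g : ℕ → W, g 0 = a ∧ (∀ m h, g (m + 1) = pt m h) ∧ g (L + 1) = b :=
  ⟨fun m => match m with
    | 0 => a
    | m + 1 => if h : m < L then pt m h else b, rfl, fun _ h => dif_pos h,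
    dif_neg (lt_irrefl L)⟩

section
variable {V : Type} {S : LN.Structure V} {ℓ : ℕ → ℕ}

private theorem GSQ_nb (i k : ℕ) (a c : V) (hq1 : Bn S ((i, k), (a, c)).1.1 ((i, k), (a, c)).2.1
    ((i, k), (a, c)).2.2) (hq2 : ((i, k), (a, c)).1.2 < ℓ ((i, k), (a, c)).1.1) (v : GV ℓ S)
    (h : GA (Sum.inr ⟨((i, k), (a, c)), hq1, hq2⟩) v) : (k = 0 ∧ v = Sum.inl a) ∨
    (∃ h' : k - 1 < ℓ i, k ≠ 0 ∧ v = Sum.inr ⟨((i, k - 1), (a, c)), hq1, h'⟩) ∨
    (k + 1 = ℓ i ∧ v = Sum.inl c) ∨
    (∃ h' : k + 1 < ℓ i, v = Sum.inr ⟨((i, k + 1), (a, c)), hq1, h'⟩) := by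
  rcases v with x | ⟨⟨⟨i', k'⟩, ⟨a', c'⟩⟩, hq1', hq2'⟩
  · have h' : (k = 0 ∧ x = a) ∨ (k + 1 = ℓ i ∧ x = c) := h
    rcases h' with ⟨h1, h2⟩ | ⟨h1, h2⟩
    · exact Or.inl ⟨h1, by rw [h2]⟩
    · exact Or.inr (Or.inr (Or.inl ⟨h1, by rw [h2]⟩))
  · have h' : i = i' ∧ (a, c) = (a', c') ∧ (k + 1 = k' ∨ k' + 1 = k) := h
    obtain ⟨h1, h2, h3⟩ := h'
    obtain ⟨h4, h5⟩ := Prod.mk.inj h2
    subst h1 h4 h5
    rcases h3 with h3 | h3
    · subst h3
      exact Or.inr (Or.inr (Or.inr ⟨hq2', rfl⟩))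
    · subst h3
      exact Or.inr (Or.inl ⟨hq2', Nat.succ_ne_zero _, rfl⟩)

private theorem GSQ_aux (r N : ℕ) (hN : ∀ i, ℓ i ≤ r → i < N + 1) (hl : ∀ i, 2 ≤ ℓ i) (y : V) :
    ∀ n : ℕ, ∀ (x : V) (C : List (GV ℓ S)), C.length ≤ n → C.length ≤ r + 1 →
      C.getLast? = some (Sum.inl y) → (Sum.inl x :: C).Nodup →
      (Sum.inl x :: C).IsChain (gaif (grS ℓ S)).Adj →
      ∃ Q : List V, (Q.map Sum.inl).Sublist C ∧ Q.getLast? = some y ∧
        (x :: Q).IsChain (LAdj S (N + 1)) := by
  intro n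
  induction n with
  | zero =>
    intro x C hC _ hlast
    rw [Nat.le_zero, List.length_eq_zero_iff] at hC
    rw [hC] at hlast
    simp at hlast
  | succ n ih =>
    intro x C hC hCr hlast hnd hch
    rcases C with _ | ⟨c, T⟩
    · simp at hlast
    have hadj : GA (Sum.inl x) c := by
      rw [List.isChain_cons_cons] at hch
      exact (GS3_adj _ _).1 hch.1
    rcases c with x' | ⟨⟨⟨i, k⟩, ⟨a, c⟩⟩, hq1, hq2⟩
    · exact hadj.elim
    have hL := hl i
    -- the sequence of the vertices of the path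
    have main : ∃ (g : ℕ → GV ℓ S) (z : V), g 0 = Sum.inl x ∧
        g 1 = Sum.inr ⟨((i, k), (a, c)), hq1, hq2⟩ ∧
        g (ℓ i + 1) = Sum.inl z ∧ (Bn S i x z ∨ Bn S i z x) ∧
        (∀ m, 1 ≤ m → m ≤ ℓ i → ∀ v, (gaif (grS ℓ S)).Adj (g m) v →
          v = g (m - 1) ∨ v = g (m + 1)) ∧
        (∀ m, 1 ≤ m → m ≤ ℓ i → (Sum.inl y : GV ℓ S) ≠ g m) := by
      have hadj' : (k = 0 ∧ x = a) ∨ (k + 1 = ℓ i ∧ x = c) := hadj
      have hq1' : Bn S i a c := hq1
      rcases hadj' with ⟨hk, hx⟩ | ⟨hk, hx⟩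
      · -- forwards
        subst hk hx
        obtain ⟨g, hg0, hgm, hgL⟩ := GSQ_g (ℓ i) (Sum.inl x : GV ℓ S) (Sum.inl c)
          fun m h => Sum.inr ⟨((i, m), (x, c)), hq1, h⟩
        refine ⟨g, c, hg0, hgm 0 (by omega), hgL, Or.inl hq1', ?_, ?_⟩
        · intro m h1 h2 v hv
          obtain ⟨m, rfl⟩ : ∃ m', m = m' + 1 := ⟨m - 1, by omega⟩
          rw [hgm m (by omega), GS3_adj] at hv
          rcases GSQ_nb i m x c hq1 (show m < ℓ i by omega) v hv with ⟨h3, h4⟩ | ⟨h3, h4, h5⟩ | ⟨h3, h4⟩ | ⟨h3, h4⟩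
          · left
            rw [h4, h3, ← hg0]
          · left
            obtain ⟨m, rfl⟩ : ∃ m', m = m' + 1 := ⟨m - 1, by omega⟩
            have h6 : g (m + 1 + 1 - 1) = g (m + 1) := rfl
            rw [h5, h6, hgm m (by omega)]
            rfl
          · right
            rw [h4, h3, hgL]
          · right
            rw [h4, hgm (m + 1) h3]
        · intro m h1 h2
          obtain ⟨m, rfl⟩ : ∃ m', m = m' + 1 := ⟨m - 1, by omega⟩
          rw [hgm m (by omega)]
          exact Sum.inl_ne_inr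
      · -- backwards
        subst hx
        obtain ⟨g, hg0, hgm, hgL⟩ := GSQ_g (ℓ i) (Sum.inl x : GV ℓ S) (Sum.inl a)
          fun m h => Sum.inr ⟨((i, ℓ i - 1 - m), (a, x)), hq1, by
            show ℓ i - 1 - m < ℓ i
            omega⟩
        refine ⟨g, a, hg0, ?_, hgL, Or.inr hq1', ?_, ?_⟩
        · rw [show (1 : ℕ) = 0 + 1 from rfl, hgm 0 (by omega)]
          exact congrArg _ (Subtype.ext (Prod.ext (Prod.ext rfl (by
            show ℓ i - 1 - 0 = k
            omega)) rfl))
        · intro m h1 h2 v hv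
          obtain ⟨m, rfl⟩ : ∃ m', m = m' + 1 := ⟨m - 1, by omega⟩
          rw [hgm m (by omega), GS3_adj] at hv
          rcases GSQ_nb i (ℓ i - 1 - m) a x hq1 (show ℓ i - 1 - m < ℓ i by omega) v hv with ⟨h3, h4⟩ | ⟨h3, h4, h5⟩ | ⟨h3, h4⟩ | ⟨h3, h4⟩
          · right
            have h6 : m + 1 = ℓ i := by omega
            rw [h4, h6, hgL]
          · right
            rw [h5, hgm (m + 1) (by omega)]
            exact congrArg _ (Subtype.ext (Prod.ext (Prod.ext rfl (by
              show ℓ i - 1 - m - 1 = ℓ i - 1 - (m + 1)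
              omega)) rfl))
          · left
            have h6 : m = 0 := by omega
            rw [h4, h6, ← hg0]
          · left
            obtain ⟨m, rfl⟩ : ∃ m', m = m' + 1 := ⟨m - 1, by omega⟩
            have h6 : g (m + 1 + 1 - 1) = g (m + 1) := rfl
            rw [h4, h6, hgm m (by omega)]
            exact congrArg _ (Subtype.ext (Prod.ext (Prod.ext rfl (by
              show ℓ i - 1 - (m + 1) + 1 = ℓ i - 1 - m
              omega)) rfl))
        · intro m h1 h2
          obtain ⟨m, rfl⟩ : ∃ m', m = m' + 1 := ⟨m - 1, by omega⟩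
          rw [hgm m (by omega)]
          exact Sum.inl_ne_inr
    obtain ⟨g, z, hg0, hg1, hgL, hB, hnb, hgy⟩ := main
    obtain ⟨A, T', h1, h2⟩ := GSQ_run _ g (ℓ i) hnb (Sum.inl y) hgy (ℓ i) 0
      (by omega) T (by rw [hg0, zero_add, hg1]; exact hnd) (by rw [hg0, zero_add, hg1]; exact hch)
      (by rw [zero_add, hg1]; exact hlast)
    rw [zero_add, hg1, hgL] at h1
    rw [h1] at hC hCr hlast hnd hch
    rw [h1]
    have hlen : (A ++ Sum.inl z :: T').length = ℓ i + (T'.length + 1) := by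
      rw [List.length_append, List.length_cons, h2]
    rw [hlen] at hC hCr
    have hiN : i < N + 1 := hN _ (by omega)
    have hxz : x ≠ z := by
      intro h
      refine (List.nodup_cons.1 hnd).1 ?_
      rw [h]
      simp
    have hLA : LAdj S (N + 1) x z := ⟨hxz, i, hiN, hB⟩
    have hsub : (Sum.inl z :: T').Sublist (Sum.inl x :: (A ++ Sum.inl z :: T')) :=
      (List.sublist_append_right _ _).trans (List.sublist_cons_self _ _)
    have hlast' : (Sum.inl z :: T').getLast? = some (Sum.inl y) := by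
      rw [← hlast, List.getLast?_append]
      rcases h3 : (Sum.inl z :: T').getLast? with _ | w
      · simp at h3
      · rfl
    rcases T' with _ | ⟨t, T'⟩
    · have hzy : z = y := by simpa using hlast'
      refine ⟨[z], ?_, by simp [hzy], ?_⟩
      · exact List.sublist_append_right _ _
      · simpa using hLA
    · have hch' : (Sum.inl z :: t :: T').IsChain (gaif (grS ℓ S)).Adj := by
        have h3 : (Sum.inl x :: (A ++ Sum.inl z :: t :: T')) =
            (Sum.inl x :: A) ++ (Sum.inl z :: t :: T') := rfl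
        rw [h3] at hch
        exact hch.right_of_append
      obtain ⟨Q, h3, h4, h5⟩ := ih z (t :: T') (by omega) (by omega)
        (by rw [List.getLast?_cons_cons] at hlast'; exact hlast') (hsub.nodup hnd) hch'
      refine ⟨z :: Q, ?_, ?_, ?_⟩
      · exact (List.Sublist.cons_cons _ h3).trans (List.sublist_append_right _ _)
      · rcases Q with _ | ⟨a, Q⟩
        · simp at h4
        · rw [List.getLast?_cons_cons]
          exact h4
      · rw [List.isChain_cons_cons]
        exact ⟨hLA, h5⟩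

end

theorem GSQ_pc : GS_PC := by
  intro V S ℓ r N hN hl x y P len nd ch
  obtain ⟨Q, h1, h2, h3⟩ := GSQ_aux r N hN hl y (P ++ [Sum.inl y]).length x (P ++ [Sum.inl y])
    le_rfl (by simpa using len) (by simp) nd ch
  obtain ⟨Q', rfl⟩ : ∃ Q', Q = Q' ++ [y] := by
    rcases List.eq_nil_or_concat Q with h | ⟨Q', a, h⟩
    · rw [h] at h2
      simp at h2
    · rw [List.concat_eq_append] at h
      rw [h] at h2
      simp only [List.getLast?_append, List.getLast?_singleton, Option.some_or,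
        Option.some.injEq] at h2
      exact ⟨Q', by rw [h, h2]⟩
  refine ⟨Q', ?_, h3⟩
  rw [List.map_append, List.map_singleton] at h1
  exact (List.append_sublist_append_right _).1 h1

end VSG
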