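import Pool.Agent.VSG.RI

/-!
# Vaught's conjecture and sparse graphs: decoding the colours
-/

set_option autoImplicit false

namespace VSG

open FirstOrder Set Pool.Agent.Helper5.DU Pool.Agent.Helper6.Str Pool.Agent.Helper79.VC

section
variable {V V' : Type} {W : LG.Structure V} {W' : LG.Structure V'}

theorem RD_pl (W : LG.Structure V) (v : V) (c : ℕ) :
    plen W v c = 2 * c + 3 ∨ plen W v c = 2 * c + 4 := by
  unfold plen
  split_ifs
  · exact Or.inl rfl
  · exact Or.inr rfl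

theorem RD_pos (W : LG.Structure V) (v : V) (c : ℕ) : 0 < plen W v c := by
  rcases RD_pl W v c with h | h <;> omega

theorem RD_eq {v : V} {v' : V'} {c c' : ℕ} (h : plen W v c = plen W' v' c') :
    c = c' ∧ (Co W c v ↔ Co W' c' v') := by
  unfold plen at h
  split_ifs at h with h1 h2 h2
  · exact ⟨by omega, iff_of_true h1 h2⟩
  · omega
  · omega
  · exact ⟨by omega, iff_of_false h1 h2⟩

/-- the key of a vertex -/
def RD_key : V ⊕ PV W → ℕ
  | .inl _ => 0
  | .inr q => q.1.2 + 1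

theorem RD_nb (q : PV W) (y : V ⊕ PV W) (h : PG (Sum.inr q) y) :
    RD_key y = q.1.2 ∨ RD_key y = q.1.2 + 2 := by
  cases y with
  | inl v => exact Or.inl h.1.symm
  | inr q' =>
    have h2 := h.2
    show q'.1.2 + 1 = q.1.2 ∨ q'.1.2 + 1 = q.1.2 + 2
    omega

theorem RD_inj (q : PV W) (y y' : V ⊕ PV W) (h : PG (Sum.inr q) y) (h' : PG (Sum.inr q) y')
    (hk : RD_key y = RD_key y') : y = y' := by
  cases y with
  | inl v =>
    cases y' with
    | inl v' =>
      have h1 : q.1.1.1 = v := h.2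
      have h2 : q.1.1.1 = v' := h'.2
      rw [← h1, ← h2]
    | inr q' =>
      have : (0 : ℕ) = q'.1.2 + 1 := hk
      omega
  | inr q1 =>
    cases y' with
    | inl v' =>
      have : q1.1.2 + 1 = (0 : ℕ) := hk
      omega
    | inr q' =>
      have h1 : q1.1.2 + 1 = q'.1.2 + 1 := hk
      have h2 : q1.1.1 = q'.1.1 := h.1.symm.trans h'.1
      congr 1
      exact Subtype.ext (Prod.ext h2 (by omega))

/-- three different neighbours -/
def RD_Or (u : V ⊕ PV W) : Prop :=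
  ∃ a b c : V ⊕ PV W, a ≠ b ∧ a ≠ c ∧ b ≠ c ∧ PG u a ∧ PG u b ∧ PG u c

theorem RD_inr (q : PV W) : ¬ RD_Or (Sum.inr q : V ⊕ PV W) := by
  rintro ⟨a, b, c, hab, hac, hbc, ha, hb, hc⟩
  have h1 := RD_nb q a ha
  have h2 := RD_nb q b hb
  have h3 := RD_nb q c hc
  rcases h1 with h1 | h1 <;> rcases h2 with h2 | h2
  · exact hab (RD_inj q a b ha hb (by omega))
  · rcases h3 with h3 | h3
    · exact hac (RD_inj q a c ha hc (by omega))
    · exact hbc (RD_inj q b c hb hc (by omega))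
  · rcases h3 with h3 | h3
    · exact hbc (RD_inj q b c hb hc (by omega))
    · exact hac (RD_inj q a c ha hc (by omega))
  · exact hab (RD_inj q a b ha hb (by omega))

theorem RD_inl (v : V) : RD_Or (Sum.inl v : V ⊕ PV W) := by
  have key : ∀ c c' : ℕ, c ≠ c' →
      (Sum.inr ⟨((v, c), 0), RD_pos W v c⟩ : V ⊕ PV W) ≠ Sum.inr ⟨((v, c'), 0), RD_pos W v c'⟩ := by
    intro c c' hc h
    have h1 := congrArg Subtype.val (Sum.inr.inj h)
    exact hc (congrArg (fun z : (V × ℕ) × ℕ => z.1.2) h1)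
  exact ⟨_, _, _, key 0 1 (by omega), key 0 2 (by omega), key 1 2 (by omega), ⟨rfl, rfl⟩,
    ⟨rfl, rfl⟩, ⟨rfl, rfl⟩⟩

theorem RD_or {e : (V ⊕ PV W) ≃ (V' ⊕ PV W')} (he : ∀ x y, PG x y ↔ PG (e x) (e y))
    {u : V ⊕ PV W} (h : RD_Or u) : RD_Or (e u) := by
  obtain ⟨a, b, c, hab, hac, hbc, ha, hb, hc⟩ := h
  exact ⟨e a, e b, e c, fun h => hab (e.injective h), fun h => hac (e.injective h),
    fun h => hbc (e.injective h), (he _ _).1 ha, (he _ _).1 hb, (he _ _).1 hc⟩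

theorem RD_sy {e : (V ⊕ PV W) ≃ (V' ⊕ PV W')} (he : ∀ x y, PG x y ↔ PG (e x) (e y)) :
    ∀ x y, PG x y ↔ PG (e.symm x) (e.symm y) := by
  intro x y
  rw [he, e.apply_symm_apply, e.apply_symm_apply]

theorem RD_l (e : (V ⊕ PV W) ≃ (V' ⊕ PV W')) (he : ∀ x y, PG x y ↔ PG (e x) (e y)) (v : V) :
    ∃ v', e (Sum.inl v) = Sum.inl v' := by
  have h := RD_or he (RD_inl (W := W) v)
  cases h' : e (Sum.inl v) with
  | inl v' => exact ⟨v', rfl⟩
  | inr q => exact absurd (h' ▸ h) (RD_inr q)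

theorem RD_r (e : (V ⊕ PV W) ≃ (V' ⊕ PV W')) (he : ∀ x y, PG x y ↔ PG (e x) (e y)) (q : PV W) :
    ∃ q', e (Sum.inr q) = Sum.inr q' := by
  cases h' : e (Sum.inr q) with
  | inl v' =>
    obtain ⟨v, hv⟩ := RD_l e.symm (RD_sy he) v'
    rw [← h', e.symm_apply_apply] at hv
    exact absurd hv (by simp)
  | inr q' => exact ⟨q', rfl⟩

/-- the pendant paths go to pendant paths -/
theorem RD_path (e : (V ⊕ PV W) ≃ (V' ⊕ PV W')) (he : ∀ x y, PG x y ↔ PG (e x) (e y))
    (v : V) (v' : V') (hv : e (Sum.inl v) = Sum.inl v') (c c' : ℕ)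
    (h0 : ∃ hk', e (Sum.inr ⟨((v, c), 0), RD_pos W v c⟩) = Sum.inr ⟨((v', c'), 0), hk'⟩) :
    ∀ (k : ℕ) (hk : k < plen W v c), ∃ hk' : k < plen W' v' c',
      e (Sum.inr ⟨((v, c), k), hk⟩) = Sum.inr ⟨((v', c'), k), hk'⟩ := by
  intro k
  induction k using Nat.strong_induction_on with
  | _ k ih =>
    intro hk
    rcases k with _ | k
    · obtain ⟨h1, h2⟩ := h0
      exact ⟨h1, h2⟩
    · obtain ⟨h1, h2⟩ := ih k (by omega) (by omega)
      obtain ⟨q', hq'⟩ := RD_r e he ⟨((v, c), k + 1), hk⟩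
      have ha : PG (Sum.inr ⟨((v, c), k), Nat.lt_of_succ_lt hk⟩ : V ⊕ PV W)
          (Sum.inr ⟨((v, c), k + 1), hk⟩) := ⟨rfl, Or.inl rfl⟩
      have hb := (he _ _).1 ha
      rw [h2, hq'] at hb
      obtain ⟨h3, h4⟩ := hb
      have h3' : (v', c') = q'.1.1 := h3
      have h4' : k + 1 = q'.1.2 ∨ q'.1.2 + 1 = k := h4
      rcases h4' with h4 | h4
      · have h5 : q'.1 = ((v', c'), k + 1) := Prod.ext h3'.symm h4.symm
        refine ⟨?_, ?_⟩
        · have h6 := q'.2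
          rw [h5] at h6
          exact h6
        · rw [hq']
          congr 1
          exact Subtype.ext h5
      · exfalso
        obtain ⟨h7, h8⟩ := ih (k - 1) (by omega) (by omega)
        have h9 : e (Sum.inr ⟨((v, c), k - 1), lt_of_le_of_lt (Nat.sub_le k 1) (Nat.lt_of_succ_lt hk)⟩) = e (Sum.inr ⟨((v, c), k + 1), hk⟩) := by
          rw [h8, hq']
          congr 1
          exact Subtype.ext (Prod.ext h3' (by show k - 1 = q'.1.2; omega))
        have h10 := congrArg Subtype.val (Sum.inr.inj (e.injective h9))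
        have h11 : k - 1 = k + 1 := congrArg (fun z : (V × ℕ) × ℕ => z.2) h10
        omega

theorem RD_len (e : (V ⊕ PV W) ≃ (V' ⊕ PV W')) (he : ∀ x y, PG x y ↔ PG (e x) (e y))
    (v : V) (v' : V') (hv : e (Sum.inl v) = Sum.inl v') (c c' : ℕ)
    (h0 : ∃ hk', e (Sum.inr ⟨((v, c), 0), RD_pos W v c⟩) = Sum.inr ⟨((v', c'), 0), hk'⟩) :
    plen W v c ≤ plen W' v' c' := by
  have h1 := RD_pos W v c
  obtain ⟨h2, -⟩ := RD_path e he v v' hv c c' h0 (plen W v c - 1) (by omega)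
  omega

theorem RD_co (e : (V ⊕ PV W) ≃ (V' ⊕ PV W')) (he : ∀ x y, PG x y ↔ PG (e x) (e y))
    (v : V) (v' : V') (hv : e (Sum.inl v) = Sum.inl v') (c : ℕ) : Co W c v ↔ Co W' c v' := by
  have ha : PG (Sum.inl v : V ⊕ PV W) (Sum.inr ⟨((v, c), 0), RD_pos W v c⟩) := ⟨rfl, rfl⟩
  have hb := (he _ _).1 ha
  obtain ⟨q', hq'⟩ := RD_r e he ⟨((v, c), 0), RD_pos W v c⟩
  rw [hv, hq'] at hb
  obtain ⟨h3, h4⟩ := hb
  have h5 : q'.1 = ((v', q'.1.1.2), 0) := Prod.ext (Prod.ext h4 rfl) h3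
  have h0 : ∃ hk', e (Sum.inr ⟨((v, c), 0), RD_pos W v c⟩) =
      Sum.inr ⟨((v', q'.1.1.2), 0), hk'⟩ := by
    refine ⟨RD_pos W' v' _, ?_⟩
    rw [hq']
    congr 1
    exact Subtype.ext h5
  have h1 := RD_len e he v v' hv c _ h0
  have hv' : e.symm (Sum.inl v') = Sum.inl v := by rw [← hv, e.symm_apply_apply]
  have h2 := RD_len e.symm (RD_sy he) v' v hv' q'.1.1.2 c (by
    obtain ⟨h6, h7⟩ := h0
    refine ⟨RD_pos W v c, ?_⟩
    rw [← h7, e.symm_apply_apply])
  obtain ⟨h8, h9⟩ := RD_eq (le_antisymm h1 h2)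
  rw [← h8] at h9
  exact h9

end

theorem thm_RD : St_RD := by
  intro V V' W W' ⟨e, he⟩
  have he' : ∀ x y, PG x y ↔ PG (e x) (e y) := fun x y => RI_ap he x y
  choose f hf using RD_l e he'
  choose g hg using RD_l e.symm (RD_sy he')
  have hgf : ∀ v, g (f v) = v := by
    intro v
    have h1 := hg (f v)
    rw [← hf v, e.symm_apply_apply] at h1
    exact (Sum.inl.inj h1).symm
  have hfg : ∀ v, f (g v) = v := by
    intro v
    have h1 := hf (g v)
    rw [← hg v, e.apply_symm_apply] at h1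
    exact (Sum.inl.inj h1).symm
  refine ⟨⟨f, g, hgf, hfg⟩, ?_⟩
  intro n R v
  cases R with
  | col i =>
    have h1 : v = ![v 0] := by
      funext k
      fin_cases k
      rfl
    have h2 : (f ∘ v) = ![f (v 0)] := by
      funext k
      fin_cases k
      rfl
    have h3 := RD_co e he' (v 0) (f (v 0)) (hf (v 0)) i
    show W.RelMap (RG.col i : LG.Relations 1) v ↔ W'.RelMap (RG.col i : LG.Relations 1) (f ∘ v)
    rw [h2]
    rw [h1]
    exact h3
  | adj =>
    have h1 : v = ![v 0, v 1] := by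
      funext k
      fin_cases k <;> rfl
    have h2 : (f ∘ v) = ![f (v 0), f (v 1)] := by
      funext k
      fin_cases k <;> rfl
    have h3 := he' (Sum.inl (v 0)) (Sum.inl (v 1))
    rw [hf, hf] at h3
    show W.RelMap (RG.adj : LG.Relations 2) v ↔ W'.RelMap (RG.adj : LG.Relations 2) (f ∘ v)
    rw [h2]
    rw [h1]
    exact h3

end VSG
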