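import Pool.Agent.VSG.St3
import Pool.Agent.VSG.GSQ
import Pool.Agent.VSG.GSF
import Pool.Agent.VSG.RD

/-!
# Vaught's conjecture and sparse graphs: bounded expansion
-/

set_option autoImplicit false

namespace VSG

open FirstOrder Set Pool.Agent.Helper5.DU Pool.Agent.Helper6.Str Pool.Agent.Helper79.VC

section
variable {V : Type} {W : LG.Structure V}

private theorem BEG_symm (hW : IsGraph W) {x y : V ⊕ PV W} (h : PG x y) : PG y x := by
  rcases x with u | q <;> rcases y with v | q'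
  · exact hW.2 u v h
  · exact h
  · exact h
  · exact ⟨h.1.symm, h.2.symm⟩

private theorem BEG_adj (hW : IsGraph W) {x y : V ⊕ PV W} :
    (gaif (pur W)).Adj x y → PG x y := by
  rintro ⟨hne, n, R, w, hR, ⟨i, hi⟩, ⟨j, hj⟩⟩
  cases R with
  | adj =>
    have hR' : PG (w 0) (w 1) := hR
    have hij : i ≠ j := by
      rintro rfl
      exact hne (hi.symm.trans hj)
    rw [← hi, ← hj]
    fin_cases i <;> fin_cases j
    · exact absurd rfl hij
    · exact hR'
    · exact BEG_symm hW hR'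
    · exact absurd rfl hij

private theorem BEG_adj0 (hW : IsGraph W) {u v : V} (h : Ad W u v) : (gaif W).Adj u v := by
  have h8 : u ≠ v := by
    rintro rfl
    exact hW.1 u h
  exact ⟨h8, 2, RG.adj, ![u, v], h, ⟨0, rfl⟩, ⟨1, rfl⟩⟩

/-- a simple chain which enters a pendant path does not leave it -/
private theorem BEG_dead (T : List (V ⊕ PV W)) : ∀ (u : V ⊕ PV W) (q : PV W),
    PG (Sum.inr q) u → RD_key u = q.1.2 → (u :: Sum.inr q :: T).Nodup →
    (Sum.inr q :: T).IsChain PG → ∀ z ∈ T, ∀ v : V, z ≠ Sum.inl v := by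
  induction T with
  | nil => intro _ _ _ _ _ _ z hz; simp at hz
  | cons t T ih =>
    intro u q hu hk hnd hch
    rw [List.isChain_cons_cons] at hch
    have h1 : RD_key t = q.1.2 + 2 := by
      rcases RD_nb q t hch.1 with h2 | h2
      · exfalso
        have h3 := RD_inj q u t hu hch.1 (hk.trans h2.symm)
        rw [h3] at hnd
        simp at hnd
      · exact h2
    cases t with
    | inl v =>
      have : (0 : ℕ) = q.1.2 + 2 := h1
      omega
    | inr q' =>
      have h2 : q'.1.2 + 1 = q.1.2 + 2 := h1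
      have h3 : PG (Sum.inr q' : V ⊕ PV W) (Sum.inr q) := ⟨hch.1.1.symm, hch.1.2.symm⟩
      have h4 := ih (Sum.inr q) q' h3 (by show q.1.2 + 1 = q'.1.2; omega)
        (List.nodup_cons.1 hnd).2 hch.2
      intro z hz v
      rcases List.mem_cons.1 hz with rfl | hz
      · exact Sum.inr_ne_inl
      · exact h4 z hz v

private theorem BEG_inl (R : List (V ⊕ PV W)) : ∀ (a c : V),
    (Sum.inl a :: (R ++ [Sum.inl c]) : List (V ⊕ PV W)).Nodup →
    (Sum.inl a :: (R ++ [Sum.inl c]) : List (V ⊕ PV W)).IsChain PG →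
    ∀ z ∈ R, ∃ v : V, z = Sum.inl v := by
  induction R with
  | nil => intro _ _ _ _ z hz; simp at hz
  | cons x R ih =>
    intro a c hnd hch
    rw [List.cons_append] at hnd hch
    cases x with
    | inl v =>
      intro z hz
      rcases List.mem_cons.1 hz with rfl | hz
      · exact ⟨v, rfl⟩
      · exact ih v c (List.nodup_cons.1 hnd).2 (List.isChain_cons_cons.1 hch).2 z hz
    | inr q =>
      exfalso
      have h1 : PG (Sum.inl a : V ⊕ PV W) (Sum.inr q) := (List.isChain_cons_cons.1 hch).1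
      have h2 : q.1.2 = 0 ∧ q.1.1.1 = a := h1
      exact BEG_dead (R ++ [Sum.inl c]) (Sum.inl a) q h2 h2.1.symm hnd
        (List.isChain_cons_cons.1 hch).2 (Sum.inl c) (by simp) c rfl

private theorem BEG_lift {V X : Type} (l : List (V ⊕ X)) (h : ∀ z ∈ l, ∃ v : V, z = Sum.inl v) :
    (l.filterMap Sum.getLeft?).map Sum.inl = l := by
  induction l with
  | nil => rfl
  | cons a l ih =>
    obtain ⟨v, rfl⟩ := h a (List.mem_cons_self)
    have h1 : List.filterMap Sum.getLeft? ((Sum.inl v : V ⊕ X) :: l) =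
        v :: List.filterMap Sum.getLeft? l := rfl
    rw [h1, List.map_cons, ih fun z hz => h z (List.mem_cons_of_mem _ hz)]

end

private theorem BEG_head {W : Type} {r : W → W → Prop} {a c : W} {P : List W}
    (h : List.IsChain r (a :: (P ++ [c]))) : ∃ u, u ∈ P ++ [c] ∧ r a u := by
  cases P with
  | nil =>
    refine ⟨c, by simp, ?_⟩
    simpa using h
  | cons p P =>
    refine ⟨p, by simp, ?_⟩
    rw [List.cons_append, List.isChain_cons_cons] at h
    exact h.1

private theorem BEG_pair {α : Type} {n : ℕ} (J : Set (Fin n)) (g : Fin n → α)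
    (hg : ∀ i ∈ J, ∀ j ∈ J, g i = g j → i = j) (a b : α) (hab : ∀ j ∈ J, g j = a ∨ g j = b) :
    J.ncard ≤ 2 := by
  have h1 : J.ncard ≤ ({a, b} : Set α).ncard :=
    Set.ncard_le_ncard_of_injOn g (fun j hj => by
      rcases hab j hj with h | h
      · rw [h]; simp
      · rw [h]; simp) (fun i hi j hj h => hg i hi j hj h) (Set.toFinite _)
  refine h1.trans ((Set.ncard_insert_le a {b}).trans ?_)
  rw [Set.ncard_singleton]

/-- the rank of a vertex -/
private def BEG_rk {V : Type} {S : LN.Structure V} {ℓ : ℕ → ℕ} :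
    GV ℓ S ⊕ PV (grS ℓ S) → ℕ
  | .inl (.inl _) => 0
  | .inl (.inr _) => 1
  | .inr _ => 2

theorem thm_BEG : St_BEG := by
  classical
  intro ℓ s hs2 hl hs V S hI hE r n F hF
  obtain ⟨b, R, hb, hR, -, hfan, -⟩ := hF.dir
  have hW : IsGraph (grS ℓ S) := ⟨fun x h => GS3_ne h rfl, fun x y h => GS3_symm h⟩
  set G := gaif (pur (grS ℓ S)) with hG
  have hch : ∀ i j, F.Adj i j → List.IsChain PG (b i :: (R i j ++ [b j])) := fun i j hij =>
    (hR i j hij).2.2.1.imp fun x y h => BEG_adj hW h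
  -- the first vertex of the path
  have hh : ∀ i j, F.Adj i j → ∃ h, h ∈ R i j ++ [b j] ∧ PG (b i) h := fun i j hij =>
    BEG_head (hch i j hij)
  -- the finite set of points
  have hfin : (Set.range b ∪ ⋃ i, ⋃ j, {z | z ∈ R i j}).Finite := by
    refine (Set.finite_range b).union (Set.finite_iUnion fun i => Set.finite_iUnion fun j => ?_)
    exact List.finite_toSet _
  have hinj : Function.Injective (fun x : V => (Sum.inl (Sum.inl x) : GV ℓ S ⊕ PV (grS ℓ S))) :=
    fun x y h => Sum.inl.inj (Sum.inl.inj h)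
  set X : Finset V := (hfin.preimage (hinj.injOn (s := _))).toFinset with hX
  have hmX : ∀ v, v ∈ X ↔ (Sum.inl (Sum.inl v) : GV ℓ S ⊕ PV (grS ℓ S)) ∈
      (Set.range b ∪ ⋃ i, ⋃ j, {z | z ∈ R i j}) := by
    intro v
    rw [hX, Set.Finite.mem_toFinset]
    rfl
  have hpX : ∀ i x, b i = Sum.inl (Sum.inl x) → x ∈ X := fun i x h => (hmX _).2 (Or.inl ⟨i, h⟩)
  have hRX : ∀ i j v, (Sum.inl (Sum.inl v) : GV ℓ S ⊕ PV (grS ℓ S)) ∈ R i j → v ∈ X :=
    fun i j v h => (hmX _).2 (Or.inr (Set.mem_iUnion.2 ⟨i, Set.mem_iUnion.2 ⟨j, h⟩⟩))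
  obtain ⟨f, hf, hE1⟩ := hE X
  refine card_edges_le F (fun i j => BEG_rk (b j) < BEG_rk (b i) ∨
    (BEG_rk (b j) = BEG_rk (b i) ∧ 0 < BEG_rk (b i)) ∨
    ∃ x y, b i = Sum.inl (Sum.inl x) ∧ b j = Sum.inl (Sum.inl y) ∧ f y < f x) ?_ ?_
  · intro i j hij
    rcases lt_trichotomy (BEG_rk (b j)) (BEG_rk (b i)) with h1 | h1 | h1
    · exact Or.inl (Or.inl h1)
    · rcases Nat.eq_zero_or_pos (BEG_rk (b i)) with h2 | h2
      · have key : ∀ z : GV ℓ S ⊕ PV (grS ℓ S), BEG_rk z = 0 → ∃ x, z = Sum.inl (Sum.inl x) := by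
          intro z hz
          rcases z with (x | q) | q
          · exact ⟨x, rfl⟩
          · exact absurd hz (by show (1 : ℕ) ≠ 0; omega)
          · exact absurd hz (by show (2 : ℕ) ≠ 0; omega)
        obtain ⟨x, hx⟩ := key _ h2
        obtain ⟨y, hy⟩ := key _ (h1.trans h2)
        have hxy : f x ≠ f y := by
          intro h3
          have h4 := hf (hpX i x hx) (hpX j y hy) h3
          exact hij.ne (hb (by rw [hx, hy, h4]))
        rcases lt_or_gt_of_ne hxy with h3 | h3
        · exact Or.inr (Or.inr (Or.inr ⟨y, x, hy, hx, h3⟩))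
        · exact Or.inl (Or.inr (Or.inr ⟨x, y, hx, hy, h3⟩))
      · exact Or.inl (Or.inr (Or.inl ⟨h1, h2⟩))
    · exact Or.inr (Or.inl h1)
  · intro i
    -- a function which is injective because of the fan
    have hfj : ∀ (g : Fin n → GV ℓ S ⊕ PV (grS ℓ S)) (J : Set (Fin n)),
        (∀ j ∈ J, F.Adj i j ∧ g j ∈ R i j ++ [b j]) → ∀ j ∈ J, ∀ j' ∈ J, g j = g j' → j = j' := by
      intro g J hg j hj j' hj' h
      by_contra hne
      exact hfan i j j' (hg j hj).1 (hg j' hj').1 hne (g j) (hg j hj).2 (h ▸ (hg j' hj').2)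
    have hcase : (∃ x, b i = Sum.inl (Sum.inl x)) ∨ (∃ q, b i = Sum.inl (Sum.inr q)) ∨
        ∃ q, b i = Sum.inr q := by
      rcases b i with (x | q) | q
      · exact Or.inl ⟨x, rfl⟩
      · exact Or.inr (Or.inl ⟨q, rfl⟩)
      · exact Or.inr (Or.inr ⟨q, rfl⟩)
    rcases hcase with ⟨x, hbi⟩ | ⟨q, hbi⟩ | ⟨q, hbi⟩
    · -- a point
      have hD : ∀ j, F.Adj i j → (BEG_rk (b j) < BEG_rk (b i) ∨
          (BEG_rk (b j) = BEG_rk (b i) ∧ 0 < BEG_rk (b i)) ∨
          ∃ x y, b i = Sum.inl (Sum.inl x) ∧ b j = Sum.inl (Sum.inl y) ∧ f y < f x) →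
          ∃ y, b j = Sum.inl (Sum.inl y) ∧ f y < f x := by
        intro j hij h
        have h0 : BEG_rk (b i) = 0 := by rw [hbi]; rfl
        rcases h with h | ⟨-, h⟩ | ⟨x', y, h1, h2, h3⟩
        · omega
        · omega
        · rw [hbi] at h1
          have h4 : x = x' := Sum.inl.inj (Sum.inl.inj h1)
          subst h4
          exact ⟨y, h2, h3⟩
      have hz : ∀ j, F.Adj i j ∧ (BEG_rk (b j) < BEG_rk (b i) ∨
          (BEG_rk (b j) = BEG_rk (b i) ∧ 0 < BEG_rk (b i)) ∨
          ∃ x y, b i = Sum.inl (Sum.inl x) ∧ b j = Sum.inl (Sum.inl y) ∧ f y < f x) →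
          ∃ z, (Sum.inl (Sum.inl z) : GV ℓ S ⊕ PV (grS ℓ S)) ∈ R i j ++ [b j] ∧ z ∈ X ∧
            f z < f x ∧ LAdj S (s r) x z := by
        rintro j ⟨hij, hDj⟩
        obtain ⟨y, hy, hfy⟩ := hD j hij hDj
        obtain ⟨h1, h2, h3, h4⟩ := hR i j hij
        have h3' := hch i j hij
        rw [hbi, hy] at h2 h3 h3'
        have h5 := BEG_inl (R i j) (Sum.inl x) (Sum.inl y) h2 h3'
        have h6 := BEG_lift _ h5
        have hcat : ((Sum.inl x : GV ℓ S) :: ((R i j).filterMap Sum.getLeft? ++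
            [Sum.inl y])).map Sum.inl =
            (Sum.inl (Sum.inl x) :: (R i j ++ [Sum.inl (Sum.inl y)]) :
              List (GV ℓ S ⊕ PV (grS ℓ S))) := by
          rw [List.map_cons, List.map_append, h6, List.map_cons, List.map_nil]
        have h1' : ((R i j).filterMap Sum.getLeft?).length ≤ r := by
          rw [← h6, List.length_map] at h1
          exact h1
        have h2' : ((Sum.inl x : GV ℓ S) :: ((R i j).filterMap Sum.getLeft? ++
            [Sum.inl y])).Nodup := by
          rw [← hcat] at h2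
          exact h2.of_map _
        have h3'' : List.IsChain (gaif (grS ℓ S)).Adj ((Sum.inl x : GV ℓ S) ::
            ((R i j).filterMap Sum.getLeft? ++ [Sum.inl y])) := by
          rw [← hcat, List.isChain_map] at h3'
          exact h3'.imp fun u v huv => BEG_adj0 hW huv
        have hsr := hs2 r
        obtain ⟨Q, hQ1, hQ2⟩ := GSQ_pc r (s r - 1) (fun i hi => by have := hs i r hi; omega) hl
          x y ((R i j).filterMap Sum.getLeft?) h1' h2' h3''
        rw [show s r - 1 + 1 = s r by omega] at hQ2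
        have h7 : ((x :: (Q ++ [y])).map (Sum.inl : V → GV ℓ S)).Sublist
            (Sum.inl x :: ((R i j).filterMap Sum.getLeft? ++ [Sum.inl y])) := by
          rw [List.map_cons, List.map_append]
          exact List.Sublist.cons_cons _ (List.Sublist.append hQ1 (List.Sublist.refl _))
        have h8 : (x :: (Q ++ [y])).Nodup := (h7.nodup h2').of_map _
        have h9 : ∀ z ∈ Q, (Sum.inl (Sum.inl z) : GV ℓ S ⊕ PV (grS ℓ S)) ∈ R i j := by
          intro z hz
          rw [← h6]
          exact List.mem_map_of_mem (hQ1.subset (List.mem_map_of_mem hz))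
        have h10 : ∀ z ∈ x :: (Q ++ [y]), z ∈ X := by
          intro z hz
          rw [List.mem_cons, List.mem_append, List.mem_singleton] at hz
          rcases hz with hz | hz | hz
          · exact hz ▸ hpX i x hbi
          · exact hRX _ _ _ (h9 z hz)
          · exact hz ▸ hpX j y hy
        obtain ⟨z, hz1, hz2, hz3⟩ := GSF_pre S X f hf (s r) (fun x hx => (hE1 (s r) x hx).1)
          x y Q h10 h8 hQ2 hfy
        refine ⟨z, ?_, h10 z (List.mem_cons_of_mem _ hz1), hz2, hz3⟩
        rw [List.mem_append, List.mem_singleton] at hz1 ⊢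
        rcases hz1 with hz1 | hz1
        · exact Or.inl (h9 z hz1)
        · exact Or.inr (by rw [hz1, hy])
      have : Nonempty V := ⟨x⟩
      choose! z hz1 hz2 hz3 hz4 using hz
      have hcard := (hE1 (s r) x (hpX i x hbi)).2
      refine le_trans ?_ hcard
      rw [← Set.ncard_coe_finset]
      refine Set.ncard_le_ncard_of_injOn z (fun j hj => ?_) (fun j hj j' hj' h => ?_)
        (Finset.finite_toSet _)
      · exact Finset.mem_coe.2 (Finset.mem_filter.2 ⟨hz2 j hj, hz3 j hj, hz4 j hj⟩)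
      · exact hfj (fun j => Sum.inl (Sum.inl (z j))) _ (fun j hj => ⟨hj.1, hz1 j hj⟩) j hj j' hj'
          (by show Sum.inl (Sum.inl (z j)) = Sum.inl (Sum.inl (z j')); rw [h])
    · -- an inner vertex
      refine le_trans ?_ (hs2 r)
      have hz : ∀ j, F.Adj i j ∧ (BEG_rk (b j) < BEG_rk (b i) ∨
          (BEG_rk (b j) = BEG_rk (b i) ∧ 0 < BEG_rk (b i)) ∨
          ∃ x y, b i = Sum.inl (Sum.inl x) ∧ b j = Sum.inl (Sum.inl y) ∧ f y < f x) →
          ∃ z : GV ℓ S, (Sum.inl z : GV ℓ S ⊕ PV (grS ℓ S)) ∈ R i j ++ [b j] ∧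
            GA (Sum.inr q) z := by
        rintro j ⟨hij, hDj⟩
        have h0 : BEG_rk (b i) = 1 := by rw [hbi]; rfl
        have h1 : BEG_rk (b j) ≤ 1 := by
          rcases hDj with h | ⟨h, -⟩ | ⟨x', y, h1, h2, h3⟩
          · omega
          · omega
          · rw [hbi] at h1
            exact absurd (Sum.inl.inj h1) Sum.inr_ne_inl
        obtain ⟨c, hc⟩ : ∃ c : GV ℓ S, b j = Sum.inl c := by
          rcases hbj : b j with c | p
          · exact ⟨c, rfl⟩
          · rw [hbj] at h1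
            exact absurd h1 (by show ¬ (2 : ℕ) ≤ 1; omega)
        obtain ⟨h, hh1, hh2⟩ := hh i j hij
        have h3 := hch i j hij
        have h2 := (hR i j hij).2.1
        rw [hbi, hc] at h2 h3
        have h5 := BEG_inl (R i j) (Sum.inr q) c h2 h3
        obtain ⟨z, rfl⟩ : ∃ z, h = Sum.inl z := by
          rw [List.mem_append, List.mem_singleton] at hh1
          rcases hh1 with hh1 | hh1
          · exact h5 h hh1
          · exact ⟨c, hh1.trans hc⟩
        rw [hbi] at hh2
        exact ⟨z, hh1, hh2⟩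
      have : Nonempty (GV ℓ S) := ⟨Sum.inr q⟩
      choose! z hz1 hz2 using hz
      refine BEG_pair _ z (fun j hj j' hj' h => ?_) (GS3_prd q) (GS3_scc q) fun j hj =>
        (GS3_nbr q _).1 (hz2 j hj)
      exact hfj (fun j => Sum.inl (z j)) _ (fun j hj => ⟨hj.1, hz1 j hj⟩) j hj j' hj'
        (by show Sum.inl (z j) = Sum.inl (z j'); rw [h])
    · -- a pendant vertex
      refine le_trans ?_ (hs2 r)
      have hz : ∀ j, F.Adj i j → ∃ z : GV ℓ S ⊕ PV (grS ℓ S), z ∈ R i j ++ [b j] ∧
            PG (Sum.inr q) z := by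
        intro j hij
        obtain ⟨h, hh1, hh2⟩ := hh i j hij
        rw [hbi] at hh2
        exact ⟨h, hh1, hh2⟩
      have : Nonempty (GV ℓ S ⊕ PV (grS ℓ S)) := ⟨Sum.inr q⟩
      choose! z hz1 hz2 using hz
      refine BEG_pair _ (fun j => RD_key (z j)) (fun j hj j' hj' h => ?_) q.1.2 (q.1.2 + 2)
        fun j hj => RD_nb q _ (hz2 j hj.1)
      exact hfj z _ (fun j hj => ⟨hj.1, hz1 j hj.1⟩) j hj j' hj'
        (RD_inj q _ _ (hz2 j hj.1) (hz2 j' hj'.1) h)

end VSG
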