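import Pool.Agent.VSG.St3

/-!
# Vaught's conjecture and sparse graphs: locally bounded tree-width implies nowhere density
-/

set_option autoImplicit false

namespace VSG

open FirstOrder Set

section
variable {V : Type}

/-- the fill-in lemma for a graph, for the length of the path -/
private theorem LTB_aux (H : SimpleGraph V) (X : Finset V) (f : V → ℕ)
    (hf : Set.InjOn f X) 
    (hc : ∀ x ∈ X, ∀ y ∈ X, ∀ z ∈ X, f y < f x → f z < f x → y ≠ z → H.Adj x y →
      H.Adj x z → H.Adj y z) (x y : V) (h : f y < f x) :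
    ∀ (n : ℕ) (Q : List V), Q.length = n → (∀ z ∈ x :: (Q ++ [y]), z ∈ X) →
      (x :: (Q ++ [y])).Nodup → (x :: (Q ++ [y])).IsChain H.Adj →
      ∃ z ∈ Q ++ [y], f z < f x ∧ H.Adj x z := by
  classical
  intro n
  induction n with
  | zero =>
    intro Q hQ _ _ ch
    rw [List.length_eq_zero_iff.1 hQ] at ch ⊢
    exact ⟨y, by simp, h, (List.isChain_cons_cons.1 ch).1⟩
  | succ n ih =>
    intro Q hQ hX nd ch
    obtain ⟨q, Q', rfl⟩ : ∃ q Q', Q = q :: Q' := by
      cases Q with
      | nil => simp at hQ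
      | cons q Q' => exact ⟨q, Q', rfl⟩
    by_cases hq : f q < f x
    · exact ⟨q, by simp, hq, (List.isChain_cons_cons.1 ch).1⟩
    have hqx : f x < f q := by
      refine lt_of_le_of_ne (not_lt.1 hq) fun e => ?_
      have h1 : x = q := hf (hX x (by simp)) (hX q (by simp)) e
      rw [h1] at nd
      simp at nd
    obtain ⟨m, hm, hmax⟩ := (q :: Q').toFinset.exists_max_image f ⟨q, by simp⟩
    have hmQ : m ∈ q :: Q' := List.mem_toFinset.1 hm
    have hxm : f x < f m := hqx.trans_le (hmax q (by simp))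
    obtain ⟨l1, l2, hl⟩ := List.append_of_mem hmQ
    rw [hl] at hX nd ch hQ hmax ⊢
    have e1 : x :: ((l1 ++ m :: l2) ++ [y]) = (x :: l1) ++ m :: (l2 ++ [y]) := by simp
    have e2 : x :: ((l1 ++ l2) ++ [y]) = (x :: l1) ++ (l2 ++ [y]) := by simp
    rw [e1] at hX nd ch
    have hsub : ∀ z ∈ (x :: l1) ++ (l2 ++ [y]), z ∈ (x :: l1) ++ m :: (l2 ++ [y]) := by
      intro z hz
      rcases List.mem_append.1 hz with h1 | h1
      · exact List.mem_append.2 (Or.inl h1)
      · exact List.mem_append.2 (Or.inr (List.mem_cons_of_mem _ h1))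
    have hsl : List.Sublist ((x :: l1) ++ (l2 ++ [y])) ((x :: l1) ++ m :: (l2 ++ [y])) :=
      List.Sublist.append (List.Sublist.refl _) (List.sublist_cons_self _ _)
    have nd' : ((x :: l1) ++ (l2 ++ [y])).Nodup := nd.sublist hsl
    have hmn : m ∉ (x :: l1) ++ (l2 ++ [y]) := by
      intro hm'
      have h1 := List.nodup_append.1 nd
      rcases List.mem_append.1 hm' with h2 | h2
      · exact h1.2.2 m h2 m (by simp) rfl
      · exact (List.nodup_cons.1 h1.2.1).1 h2
    have hlt : ∀ z ∈ (x :: l1) ++ (l2 ++ [y]), f z < f m := by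
      intro z hz
      have hzX := hX z (hsub z hz)
      have hmX := hX m (by simp)
      have hne : f z ≠ f m := fun e => hmn (hf hzX hmX e ▸ hz)
      refine lt_of_le_of_ne ?_ hne
      rcases List.mem_append.1 hz with h1 | h1
      · rcases List.mem_cons.1 h1 with h2 | h2
        · rw [h2]; exact hxm.le
        · exact hmax z (by simp [h2])
      · rcases List.mem_append.1 h1 with h2 | h2
        · exact hmax z (by simp [h2])
        · rw [List.mem_singleton.1 h2]
          exact (h.trans hxm).le
    have hch := List.isChain_append.1 ch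
    have ch' : ((x :: l1) ++ (l2 ++ [y])).IsChain H.Adj := by
      refine List.isChain_append.2 ⟨hch.1, ?_, ?_⟩
      · have h1 := hch.2.1
        cases hB : l2 ++ [y] with
        | nil => exact List.isChain_nil
        | cons b B =>
          rw [hB] at h1
          exact (List.isChain_cons_cons.1 h1).2
      · intro p hp s hs
        have hpA : p ∈ x :: l1 := List.mem_of_mem_getLast? hp
        have hsB : s ∈ l2 ++ [y] := List.mem_of_mem_head? hs
        have hpm : H.Adj p m := hch.2.2 p hp m (by simp)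
        have hms : H.Adj m s := by
          have h1 := hch.2.1
          cases hB : l2 ++ [y] with
          | nil => simp at hB
          | cons b B =>
            rw [hB] at h1 hs
            have h2 : b = s := by simpa using hs
            rw [← h2]
            exact (List.isChain_cons_cons.1 h1).1
        have hps : p ≠ s := (List.nodup_append.1 nd').2.2 p hpA s hsB
        have hp' : p ∈ (x :: l1) ++ (l2 ++ [y]) := List.mem_append.2 (Or.inl hpA)
        have hs' : s ∈ (x :: l1) ++ (l2 ++ [y]) := List.mem_append.2 (Or.inr hsB)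
        exact hc m (hX m (by simp)) p (hX p (hsub p hp')) s (hX s (hsub s hs')) (hlt p hp')
          (hlt s hs') hps hpm.symm hms
    have hlen : (l1 ++ l2).length = n := by
      simp only [List.length_append, List.length_cons] at hQ ⊢
      omega
    obtain ⟨z, hz, h1⟩ := ih (l1 ++ l2) hlen (by rw [e2]; exact fun z hz => hX z (hsub z hz))
      (by rw [e2]; exact nd') (by rw [e2]; exact ch')
    refine ⟨z, ?_, h1⟩
    rcases List.mem_append.1 hz with h2 | h2
    · rcases List.mem_append.1 h2 with h3 | h3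
      · simp [h3]
      · simp [h3]
    · exact List.mem_append.2 (Or.inr h2)

/-- an elimination ordering -/
private theorem LTB_ord {H : SimpleGraph V} {k : ℕ} {X : Finset V} (h : Elm H k X) :
    ∃ f : V → ℕ, Set.InjOn f X ∧
      (∀ x ∈ X, ∀ y ∈ X, ∀ z ∈ X, f y < f x → f z < f x → y ≠ z → H.Adj x y → H.Adj x z →
        H.Adj y z) ∧
      ∀ x ∈ X, ∀ Y : Finset V, (∀ y ∈ Y, y ∈ X ∧ f y < f x ∧ H.Adj x y) → Y.card ≤ k := by
  classical
  induction h with
  | emp => exact ⟨fun _ => 0, by simp, by simp, by simp⟩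
  | add X x _ hx hcl hcard ih =>
    obtain ⟨f, hf, h1, h2⟩ := ih
    have hfX : ∀ y ∈ X, (if y = x then X.sup f + 1 else f y) = f y := by
      intro y hy
      rw [if_neg]
      rintro rfl
      exact hx hy
    have hlt : ∀ y ∈ X, f y < X.sup f + 1 := fun y hy => Nat.lt_succ_of_le (Finset.le_sup hy)
    have hmem : ∀ (u y : V), y ∈ insert x X → u ∈ X →
        (if y = x then X.sup f + 1 else f y) < (if u = x then X.sup f + 1 else f u) → y ∈ X := by
      intro u y hy hu hyu
      rcases Finset.mem_insert.1 hy with h3 | h3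
      · rw [hfX u hu, h3, if_pos rfl] at hyu
        exact absurd hyu (not_lt.2 (hlt u hu).le)
      · exact h3
    have hmem' : ∀ y : V, y ∈ insert x X →
        (if y = x then X.sup f + 1 else f y) < (if x = x then X.sup f + 1 else f x) →
          y ∈ X := by
      intro y hy hyu
      rcases Finset.mem_insert.1 hy with h3 | h3
      · rw [h3] at hyu
        exact absurd hyu (lt_irrefl _)
      · exact h3
    refine ⟨fun y => if y = x then X.sup f + 1 else f y, ?_, ?_, ?_⟩
    · intro y hy z hz hyz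
      rw [Finset.mem_coe, Finset.mem_insert] at hy hz
      simp only at hyz
      rcases hy with rfl | hy <;> rcases hz with rfl | hz
      · rfl
      · rw [if_pos rfl, hfX z hz] at hyz
        exact absurd hyz (hlt z hz).ne'
      · rw [if_pos rfl, hfX y hy] at hyz
        exact absurd hyz (hlt y hy).ne
      · rw [hfX y hy, hfX z hz] at hyz
        exact hf hy hz hyz
    · intro u hu y hy z hz hyu hzu hyz
      simp only at hyu hzu
      rcases Finset.mem_insert.1 hu with rfl | hu
      · exact hcl y (hmem' y hy hyu) z (hmem' z hz hzu) hyz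
      · have hy' := hmem u y hy hu hyu
        have hz' := hmem u z hz hu hzu
        rw [hfX y hy', hfX u hu] at hyu
        rw [hfX z hz', hfX u hu] at hzu
        exact h1 u hu y hy' z hz' hyu hzu hyz
    · intro u hu Y hY
      simp only at hY
      rcases Finset.mem_insert.1 hu with rfl | hu
      · refine (Finset.card_le_card fun y hy => ?_).trans hcard
        have h3 := hY y hy
        exact Finset.mem_filter.2 ⟨hmem' y h3.1 h3.2.1, h3.2.2⟩
      · refine h2 u hu Y fun y hy => ?_
        have h3 := hY y hy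
        have hy' := hmem u y h3.1 hu h3.2.1
        refine ⟨hy', ?_, h3.2.2⟩
        have h4 := h3.2.1
        rwa [hfX y hy', hfX u hu] at h4

/-- a vertex of a chain is near its first vertex -/
private theorem LTB_walk (G : SimpleGraph V) : ∀ (l : List V) (a z : V),
    (a :: l).IsChain G.Adj → z ∈ a :: l → ∃ p : G.Walk a z, p.length ≤ l.length := by
  intro l
  induction l with
  | nil =>
    intro a z _ hz
    rw [List.mem_singleton] at hz
    subst hz
    exact ⟨SimpleGraph.Walk.nil, le_refl _⟩
  | cons c t ih =>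
    intro a z hch hz
    rcases List.mem_cons.1 hz with rfl | hz
    · exact ⟨SimpleGraph.Walk.nil, Nat.zero_le _⟩
    · rw [List.isChain_cons_cons] at hch
      obtain ⟨p, hp⟩ := ih c z hch.2 hz
      refine ⟨SimpleGraph.Walk.cons hch.1 p, ?_⟩
      rw [SimpleGraph.Walk.length_cons, List.length_cons]
      omega

end

theorem thm_LTB : St_LTB := by
  classical
  intro V G s hL r hsub
  obtain ⟨k, hk⟩ : ∃ k, s (2 * r + 1) = k := ⟨_, rfl⟩
  rw [hk] at hsub
  have h0 : SubF G r (k + 2) ⊤ := by
    obtain ⟨b, P, hb, hP, hbP, hdis⟩ := hsub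
    exact ⟨b, P, hb, fun i j h _ => hP i j h, fun i j m h _ => hbP i j m h,
      fun i j i' j' h _ h' _ hne => hdis i j i' j' h h' hne⟩
  obtain ⟨b, R, hb, hR, -, hdd, -⟩ := h0.dir
  simp only [SimpleGraph.top_adj] at hR hdd
  -- the vertices of the subdivision
  let X : Finset V := Finset.univ.image b ∪ (Finset.univ : Finset (Fin (k + 2) × Fin (k + 2))).biUnion
    fun p => if p.1 ≠ p.2 then (R p.1 p.2).toFinset else ∅
  have hbX : ∀ i, b i ∈ X := fun i =>
    Finset.mem_union_left _ (Finset.mem_image_of_mem _ (Finset.mem_univ i))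
  have hRX : ∀ i j, i ≠ j → ∀ z, z ∈ R i j → z ∈ X := by
    intro i j hij z hz
    refine Finset.mem_union_right _ (Finset.mem_biUnion.2 ⟨(i, j), Finset.mem_univ _, ?_⟩)
    simp only
    rw [if_pos hij]
    exact List.mem_toFinset.2 hz
  have hwb : ∀ i, ∃ p : G.Walk (b 0) (b i), p.length ≤ r + 1 := by
    intro i
    by_cases hi : (0 : Fin (k + 2)) = i
    · subst hi
      exact ⟨SimpleGraph.Walk.nil, Nat.zero_le _⟩
    · obtain ⟨h1, _, h3, _⟩ := hR 0 i hi
      obtain ⟨p, hp⟩ := LTB_walk G _ _ (b i) h3 (by simp)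
      refine ⟨p, hp.trans ?_⟩
      rw [List.length_append, List.length_singleton]
      omega
  have hwX : ∀ u ∈ X, ∃ p : G.Walk (b 0) u, p.length ≤ 2 * r + 1 := by
    intro u hu
    rcases Finset.mem_union.1 hu with h1 | h1
    · obtain ⟨i, _, rfl⟩ := Finset.mem_image.1 h1
      obtain ⟨p, hp⟩ := hwb i
      exact ⟨p, by omega⟩
    · obtain ⟨⟨i, j⟩, _, h2⟩ := Finset.mem_biUnion.1 h1
      simp only at h2
      by_cases hij : i ≠ j
      · rw [if_pos hij, List.mem_toFinset] at h2
        obtain ⟨h3, _, h4, _⟩ := hR i j hij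
        have h5 : (b i :: R i j).IsChain G.Adj := by
          have h6 : b i :: (R i j ++ [b j]) = (b i :: R i j) ++ [b j] := by simp
          rw [h6] at h4
          exact (List.isChain_append.1 h4).1
        obtain ⟨p, hp⟩ := hwb i
        obtain ⟨q, hq⟩ := LTB_walk G _ _ u h5 (List.mem_cons_of_mem _ h2)
        refine ⟨p.append q, ?_⟩
        rw [SimpleGraph.Walk.length_append]
        omega
      · rw [if_neg hij] at h2
        simp at h2
  obtain ⟨H, hGH, hE⟩ := hL (2 * r + 1) (b 0) X hwX
  rw [hk] at hE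
  obtain ⟨f, hf, hc, hcard⟩ := LTB_ord hE
  obtain ⟨i₀, hi₀⟩ := Finite.exists_max (fun i => f (b i))
  have hlt : ∀ j, i₀ ≠ j → f (b j) < f (b i₀) := by
    intro j hj
    refine lt_of_le_of_ne (hi₀ j) fun h => hj ?_
    exact (hb (hf (hbX j) (hbX i₀) h)).symm
  have hz : ∀ j, i₀ ≠ j → ∃ z, z ∈ R i₀ j ++ [b j] ∧ z ∈ X ∧ f z < f (b i₀) ∧
      H.Adj (b i₀) z := by
    intro j hj
    obtain ⟨h1, h2, h3, h4⟩ := hR i₀ j hj
    have h8 : ∀ z ∈ b i₀ :: (R i₀ j ++ [b j]), z ∈ X := by
      intro z hz
      rw [List.mem_cons, List.mem_append, List.mem_singleton] at hz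
      rcases hz with hz | hz | hz
      · exact hz ▸ hbX i₀
      · exact hRX _ _ hj _ hz
      · exact hz ▸ hbX j
    have h9 : (b i₀ :: (R i₀ j ++ [b j])).IsChain H.Adj := by
      refine List.IsChain.imp_of_mem_imp (fun u v hu hv huv => ?_) h3
      exact hGH u (h8 u hu) v (h8 v hv) huv
    obtain ⟨z, hz1, hz2, hz3⟩ := LTB_aux H X f hf hc (b i₀) (b j) (hlt j hj) _ _ rfl h8 h2 h9
    exact ⟨z, hz1, h8 z (List.mem_cons_of_mem _ hz1), hz2, hz3⟩
  have : Nonempty V := ⟨b i₀⟩
  choose! z hz1 hz2 hz3 hz4 using hz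
  have h5 := hcard (b i₀) (hbX i₀) ((Finset.univ.erase i₀).image z) fun y hy => by
    obtain ⟨j, hj, rfl⟩ := Finset.mem_image.1 hy
    have hj' : i₀ ≠ j := (Finset.ne_of_mem_erase hj).symm
    exact ⟨hz2 j hj', hz3 j hj', hz4 j hj'⟩
  rw [Finset.card_image_of_injOn, Finset.card_erase_of_mem (Finset.mem_univ i₀), Finset.card_univ,
    Fintype.card_fin] at h5
  · omega
  · intro j hj j' hj' h
    by_contra hjj'
    have h1 : i₀ ≠ j := (Finset.ne_of_mem_erase (Finset.mem_coe.1 hj)).symm
    have h2 : i₀ ≠ j' := (Finset.ne_of_mem_erase (Finset.mem_coe.1 hj')).symm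
    have h3 : z j = z j' := h
    exact hdd i₀ j j' h1 h2 hjj' _ (hz1 j h1) (h3 ▸ hz1 j' h2)

end VSG
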