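import Pool.Agent.VSG.St3
import Pool.Agent.VSG.GS3

/-!
# Vaught's conjecture and sparse graphs: the graphs of layered structures have locally bounded
tree-width
-/

set_option autoImplicit false

namespace VSG

open FirstOrder Set Pool.Agent.Helper5.DU Pool.Agent.Helper6.Str Pool.Agent.Helper79.VC

section
variable {V : Type} {S : LN.Structure V} {ℓ : ℕ → ℕ}

/-- the position on a path, modulo its length -/
private theorem LTG_pos (i : ℕ) (x y : V) :
    ∃ φ : GV ℓ S → ZMod (ℓ i + 1), (∀ u v, GA u v → ∃ d : ℤ, |d| ≤ 1 ∧ φ v = φ u + d) ∧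
      ∀ (k : ℕ) (hB : Bn S i x y) (hk : k < ℓ i),
        φ (Sum.inr ⟨((i, k), (x, y)), hB, hk⟩) = ((k + 1 : ℕ) : ZMod (ℓ i + 1)) := by
  classical
  let φ : GV ℓ S → ZMod (ℓ i + 1) := Sum.elim (fun _ => 0) fun q =>
    if q.1.1.1 = i ∧ q.1.2 = (x, y) then ((q.1.1.2 + 1 : ℕ) : ZMod (ℓ i + 1)) else 0
  have hφl : ∀ z, φ (Sum.inl z) = 0 := fun z => rfl
  have hφ1 : ∀ q : IV ℓ S, q.1.1.1 = i ∧ q.1.2 = (x, y) →
      φ (Sum.inr q) = ((q.1.1.2 + 1 : ℕ) : ZMod (ℓ i + 1)) := fun q h => if_pos h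
  have hφ2 : ∀ q : IV ℓ S, ¬ (q.1.1.1 = i ∧ q.1.2 = (x, y)) → φ (Sum.inr q) = 0 :=
    fun q h => if_neg h
  have hL : ((ℓ i + 1 : ℕ) : ZMod (ℓ i + 1)) = 0 := ZMod.natCast_self _
  have hPA : ∀ (z : V) (q : IV ℓ S), PA z q → ∃ d : ℤ, |d| ≤ 1 ∧ φ (Sum.inr q) = d := by
    intro z q h
    by_cases hq : q.1.1.1 = i ∧ q.1.2 = (x, y)
    · rcases h with ⟨h1, -⟩ | ⟨h1, -⟩
      · refine ⟨1, by norm_num, ?_⟩
        rw [hφ1 q hq, h1]
        simp
      · refine ⟨-1, by norm_num, ?_⟩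
        rw [hφ1 q hq, h1, hq.1]
        have : ((ℓ i : ℕ) : ZMod (ℓ i + 1)) + 1 = 0 := by
          rw [← hL]
          push_cast
          rfl
        rw [eq_neg_of_add_eq_zero_left this]
        simp
    · exact ⟨0, by norm_num, by rw [hφ2 q hq]; simp⟩
  refine ⟨φ, ?_, ?_⟩
  · intro u v h
    rcases u with z | q <;> rcases v with z' | q'
    · exact h.elim
    · obtain ⟨d, h1, h2⟩ := hPA z q' h
      exact ⟨d, h1, by rw [hφl, zero_add, h2]⟩
    · obtain ⟨d, h1, h2⟩ := hPA z' q h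
      refine ⟨-d, by rwa [abs_neg], ?_⟩
      rw [hφl, h2]
      push_cast
      ring
    · obtain ⟨h1, h2, h3⟩ := h
      by_cases hq : q.1.1.1 = i ∧ q.1.2 = (x, y)
      · have hq' : q'.1.1.1 = i ∧ q'.1.2 = (x, y) := ⟨h1 ▸ hq.1, h2 ▸ hq.2⟩
        rcases h3 with h3 | h3
        · refine ⟨1, by norm_num, ?_⟩
          rw [hφ1 q hq, hφ1 q' hq', ← h3]
          push_cast
          ring
        · refine ⟨-1, by norm_num, ?_⟩
          rw [hφ1 q hq, hφ1 q' hq', ← h3]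
          push_cast
          ring
      · have hq' : ¬ (q'.1.1.1 = i ∧ q'.1.2 = (x, y)) := by
          rintro ⟨h4, h5⟩
          exact hq ⟨h1.trans h4, h2.trans h5⟩
        exact ⟨0, by norm_num, by rw [hφ2 q hq, hφ2 q' hq']; simp⟩
  · intro k hB hk
    exact hφ1 _ ⟨rfl, rfl⟩

private theorem LTG_walk {m : ℕ} (φ : GV ℓ S → ZMod m)
    (hφ : ∀ u v, GA u v → ∃ d : ℤ, |d| ≤ 1 ∧ φ v = φ u + d) {v u : GV ℓ S}
    (p : (gaif (grS ℓ S)).Walk v u) : ∃ d : ℤ, |d| ≤ p.length ∧ φ u = φ v + d := by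
  induction p with
  | nil => exact ⟨0, by simp, by simp⟩
  | @cons a c b h p ih =>
    obtain ⟨d, hd, h1⟩ := ih
    obtain ⟨e, he, h2⟩ := hφ a c ((GS3_adj a c).1 h)
    refine ⟨e + d, ?_, ?_⟩
    · rw [SimpleGraph.Walk.length_cons]
      push_cast
      have := abs_add_le e d
      omega
    · rw [h1, h2]
      push_cast
      ring

/-- a long path is cut -/
private theorem LTG_cut (r i : ℕ) (x y : V) (hB : Bn S i x y) (hl : 2 * r + 2 ≤ ℓ i) (v : GV ℓ S) :
    ∃ (k : ℕ) (hk : k < ℓ i), ¬ ∃ p : (gaif (grS ℓ S)).Walk v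
      (Sum.inr ⟨((i, k), (x, y)), hB, hk⟩), p.length ≤ r := by
  classical
  by_contra hcon
  push Not at hcon
  obtain ⟨φ, h1, h2⟩ := LTG_pos (S := S) (ℓ := ℓ) i x y
  have h3 : ∀ k : Fin (ℓ i), ∃ d : ℤ, d ∈ Finset.Icc (-(r : ℤ)) r ∧
      ((k.1 + 1 : ℕ) : ZMod (ℓ i + 1)) = φ v + d := by
    intro k
    obtain ⟨p, hp⟩ := hcon k.1 k.2
    obtain ⟨d, hd, h4⟩ := LTG_walk φ h1 p
    refine ⟨d, ?_, ?_⟩
    · have h5 : |d| ≤ (r : ℤ) := hd.trans (by exact_mod_cast hp)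
      rw [Finset.mem_Icc]
      exact abs_le.1 h5
    · rw [← h4, h2 k.1 hB k.2]
  choose d hd1 hd2 using h3
  have hinj : Set.InjOn d (Finset.univ : Finset (Fin (ℓ i))) := by
    intro k _ k' _ h
    have h4 : ((k.1 + 1 : ℕ) : ZMod (ℓ i + 1)) = ((k'.1 + 1 : ℕ) : ZMod (ℓ i + 1)) := by
      rw [hd2 k, hd2 k', h]
    rw [ZMod.natCast_eq_natCast_iff', Nat.mod_eq_of_lt (by omega), Nat.mod_eq_of_lt (by omega)] at h4
    exact Fin.ext (by omega)
  have hc := Finset.card_le_card_of_injOn d (fun k _ => hd1 k) hinj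
  rw [Finset.card_univ, Fintype.card_fin, Int.card_Icc] at hc
  omega

/-- adjacency in the chordal graph -/
private def LTG_H (r n : ℕ) : GV ℓ S → GV ℓ S → Prop
  | .inl x, .inl y => LAdj S n x y
  | .inl x, .inr q => PA x q ∨ (ℓ q.1.1.1 ≤ 2 * r + 1 ∧ x = q.1.2.2)
  | .inr q, .inl x => PA x q ∨ (ℓ q.1.1.1 ≤ 2 * r + 1 ∧ x = q.1.2.2)
  | .inr q, .inr q' => q.1.1.1 = q'.1.1.1 ∧ q.1.2 = q'.1.2 ∧
      (q.1.1.2 + 1 = q'.1.1.2 ∨ q'.1.1.2 + 1 = q.1.1.2)

private def LTG_G (ℓ : ℕ → ℕ) (S : LN.Structure V) (r n : ℕ) : SimpleGraph (GV ℓ S) where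
  Adj a b := LTG_H r n a b
  symm := ⟨by
    intro a b h
    rcases a with u | q <;> rcases b with v | q'
    · obtain ⟨h1, i, hi, h2⟩ := h
      exact ⟨fun e => h1 e.symm, i, hi, h2.symm⟩
    · exact h
    · exact h
    · exact ⟨h.1.symm, h.2.1.symm, h.2.2.symm⟩⟩
  loopless := ⟨by
    intro a h
    rcases a with u | q
    · exact h.1 rfl
    · rcases h.2.2 with h | h <;> omega⟩

private theorem LTG_le {r n : ℕ} {a b : GV ℓ S} (h : GA a b) : (LTG_G ℓ S r n).Adj a b := by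
  rcases a with u | q <;> rcases b with v | q'
  · exact h.elim
  · exact Or.inl h
  · exact Or.inl h
  · exact h

private theorem LTG_flt {α : Type} (s : Finset α) (p : α → Prop) (inst : DecidablePred p) {a : α}
    (h : a ∈ @Finset.filter α p inst s) : a ∈ s ∧ p a := Finset.mem_filter.1 h

end

theorem thm_LTG : St_LTG := by
  classical
  intro ℓ s hs1 hl hs2 V S hI hE r v X hX
  let n := s r - 1
  have hn : n + 1 = s r := by
    have := hs1 r
    show s r - 1 + 1 = s r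
    omega
  -- the cuts of the long paths
  have hcut : ∀ (i : ℕ) (x y : V), ∃ c : ℕ, Bn S i x y → 2 * r + 2 ≤ ℓ i → c < ℓ i ∧
      ∀ (hB : Bn S i x y) (hk : c < ℓ i), (Sum.inr ⟨((i, c), (x, y)), hB, hk⟩ : GV ℓ S) ∉ X := by
    intro i x y
    by_cases h : Bn S i x y ∧ 2 * r + 2 ≤ ℓ i
    · obtain ⟨k, hk, h1⟩ := LTG_cut r i x y h.1 h.2 v
      exact ⟨k, fun _ _ => ⟨hk, fun _ _ h2 => h1 (hX _ h2)⟩⟩
    · exact ⟨0, fun h1 h2 => absurd ⟨h1, h2⟩ h⟩
  choose c hc using hcut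
  refine ⟨LTG_G ℓ S r n, fun a ha b hb hab => LTG_le ((GS3_adj a b).1 hab), ?_⟩
  -- the points
  let P : Finset V := X.preimage Sum.inl Sum.inl_injective.injOn
  have hP : ∀ u, u ∈ P ↔ Sum.inl u ∈ X := fun u => Finset.mem_preimage
  obtain ⟨f, hf, hEf⟩ := hE P
  set Z : Finset (GV ℓ S) := P.map ⟨Sum.inl, Sum.inl_injective⟩ with hZ
  have hmZ : ∀ a, a ∈ Z ↔ ∃ u, a = Sum.inl u ∧ u ∈ P := by
    intro a
    rw [hZ, Finset.mem_map]
    constructor
    · rintro ⟨u, hu, rfl⟩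
      exact ⟨u, rfl, hu⟩
    · rintro ⟨u, rfl, h⟩
      exact ⟨u, h, rfl⟩
  have hsub : Z ⊆ X := fun a ha => by
    obtain ⟨u, rfl, h⟩ := (hmZ a).1 ha
    exact (hP u).1 h
  have hnr : ∀ q : IV ℓ S, Sum.inr q ∉ Z := by
    intro q h
    obtain ⟨u, h, _⟩ := (hmZ _).1 h
    exact absurd h (by simp)
  have hEZ : Elm (LTG_G ℓ S r n) (s r) Z := by
    have h0 : Z = @Union.union _ (@Finset.instUnion _ fun a b => Classical.propDecidable (a = b))
        ∅ Z := by
      ext a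
      simp only [Finset.mem_union, Finset.notMem_empty, false_or]
    rw [h0]
    refine Elm.emp.rank (Sum.elim f fun _ => 0) Z (Finset.disjoint_empty_left Z) fun a ha => ?_
    obtain ⟨x, rfl, hx⟩ := (hmZ a).1 ha
    have hmem : ∀ z : GV ℓ S, z ∈ (∅ : Finset (GV ℓ S)) ∪ Z →
        (z ∈ (∅ : Finset (GV ℓ S)) ∨ (Sum.elim f (fun _ => 0) z : ℕ) ≤ f x) →
        (LTG_G ℓ S r n).Adj (Sum.inl x) z →
        ∃ y, z = Sum.inl y ∧ y ∈ P ∧ f y < f x ∧ LAdj S n x y := by
      intro z hz hfz hadj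
      rw [Finset.empty_union] at hz
      obtain ⟨y, rfl, hy⟩ := (hmZ z).1 hz
      have h1 : LAdj S n x y := hadj
      have h2 : f y ≤ f x := hfz.resolve_left (Finset.notMem_empty _)
      refine ⟨y, rfl, hy, lt_of_le_of_ne h2 fun e => h1.1 (hf hx hy e.symm), h1⟩
    constructor
    · intro z hz w hw hgz hgw hzw hadj1 hadj2
      obtain ⟨y, rfl, hy, h1, h2⟩ := hmem z (by simpa using hz) hgz hadj1
      obtain ⟨y', rfl, hy', h1', h2'⟩ := hmem w (by simpa using hw) hgw hadj2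
      exact (hEf n x hx).1 y hy y' hy' h1 h1' (fun e => hzw (by rw [e])) h2 h2'
    · have h1 := (hEf n x hx).2
      refine le_trans ?_ (h1.trans (by omega))
      rw [← Finset.card_map (⟨Sum.inl, Sum.inl_injective⟩ : V ↪ GV ℓ S)]
      refine Finset.card_le_card fun z hz => ?_
      have hz' := LTG_flt _ _ _ hz
      obtain ⟨y, rfl, hy, h2, h3⟩ := hmem z (by simpa using hz'.1) hz'.2.2 hz'.2.1
      rw [Finset.mem_map]
      exact ⟨y, Finset.mem_filter.2 ⟨hy, h2, h3⟩, rfl⟩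
  -- the inner vertices
  have hXZ : X = @Union.union _
      (@Finset.instUnion _ fun a b => Classical.propDecidable (a = b)) Z (X \ Z) := by
    ext a
    simp only [Finset.mem_union, Finset.mem_sdiff]
    have := @hsub a
    tauto
  rw [hXZ]
  let g : GV ℓ S → ℕ := Sum.elim (fun _ => 0) fun q =>
    if ℓ q.1.1.1 ≤ 2 * r + 1 then q.1.1.2
    else if q.1.1.2 < c q.1.1.1 q.1.2.1 q.1.2.2 then q.1.1.2 else ℓ q.1.1.1 - q.1.1.2
  refine hEZ.rank g (X \ Z) Finset.disjoint_sdiff fun a ha => ?_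
  rcases a with x | q
  · exfalso
    rw [Finset.mem_sdiff] at ha
    exact ha.2 ((hmZ _).2 ⟨x, rfl, (hP x).2 ha.1⟩)
  have hqX : (Sum.inr q : GV ℓ S) ∈ X := (Finset.mem_sdiff.1 ha).1
  have hinX : ∀ z : GV ℓ S, z ∈ @Union.union _
      (@Finset.instUnion _ fun a b => Classical.propDecidable (a = b)) Z (X \ Z) → z ∈ X := by
    intro z hz
    rw [hXZ]
    exact hz
  by_cases hsh : ℓ q.1.1.1 ≤ 2 * r + 1
  · -- a short path
    have hs2' := hs2 _ _ hsh
    have hgq : g (Sum.inr q) = q.1.1.2 := if_pos hsh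
    have key : ∀ z : GV ℓ S, z ∈ X → (z ∈ Z ∨ g z ≤ g (Sum.inr q)) →
        (LTG_G ℓ S r n).Adj (Sum.inr q) z → z = GS3_prd q ∨ z = Sum.inl q.1.2.2 := by
      intro z hz hgz hadj
      have h1 : GA (Sum.inr q) z ∨ z = Sum.inl q.1.2.2 := by
        rcases z with x | q'
        · have h2 : PA x q ∨ (ℓ q.1.1.1 ≤ 2 * r + 1 ∧ x = q.1.2.2) := hadj
          rcases h2 with h2 | h2
          · exact Or.inl h2
          · exact Or.inr (by rw [h2.2])
        · exact Or.inl hadj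
      rcases h1 with h1 | h1
      · rcases (GS3_nbr q z).1 h1 with h2 | h2
        · exact Or.inl h2
        · unfold GS3_scc at h2
          split_ifs at h2 with h3
          · exact Or.inr h2
          · exfalso
            subst h2
            have h4 := hgz.resolve_left (hnr _)
            rw [hgq] at h4
            have h5 : g (Sum.inr ⟨((q.1.1.1, q.1.1.2 + 1), q.1.2), q.2.1,
                lt_of_le_of_ne q.2.2 h3⟩) = q.1.1.2 + 1 := if_pos hsh
            rw [h5] at h4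
            omega
      · exact Or.inr h1
    have hpr : (LTG_G ℓ S r n).Adj (GS3_prd q) (Sum.inl q.1.2.2) := by
      unfold GS3_prd
      split_ifs with h1
      · refine ⟨fun e => ?_, q.1.1.1, by omega, Or.inl q.2.1⟩
        have h2 := q.2.1
        rw [e] at h2
        exact hI _ _ h2
      · exact Or.inr ⟨hsh, rfl⟩
    constructor
    · intro z hz w hw hgz hgw hzw hadj1 hadj2
      rcases key z (hinX z hz) hgz hadj1 with h1 | h1 <;>
        rcases key w (hinX w hw) hgw hadj2 with h2 | h2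
      · exact absurd (h1.trans h2.symm) hzw
      · rw [h1, h2]
        exact hpr
      · rw [h1, h2]
        exact hpr.symm
      · exact absurd (h1.trans h2.symm) hzw
    · refine le_trans (Finset.card_le_card (t := {GS3_prd q, Sum.inl q.1.2.2}) fun z hz => ?_) ?_
      · have hz' := LTG_flt _ _ _ hz
        rw [Finset.mem_insert, Finset.mem_singleton]
        exact key z (hinX z hz'.1) hz'.2.2 hz'.2.1
      · exact Finset.card_le_two.trans (by omega)
  · -- a long path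
    have hc' := hc q.1.1.1 q.1.2.1 q.1.2.2 q.2.1 (by omega)
    set k₀ := c q.1.1.1 q.1.2.1 q.1.2.2 with hk₀
    have hqlt : q.1.1.2 < ℓ q.1.1.1 := q.2.2
    have hnk : q.1.1.2 ≠ k₀ := by
      intro e
      have h1 := hc'.2 q.2.1 hc'.1
      refine h1 ?_
      have h2 : (⟨((q.1.1.1, k₀), (q.1.2.1, q.1.2.2)), q.2.1, hc'.1⟩ : IV ℓ S) = q :=
        Subtype.ext (Prod.ext (Prod.ext rfl e.symm) rfl)
      have h3 : (Sum.inr (⟨((q.1.1.1, k₀), (q.1.2.1, q.1.2.2)), q.2.1, hc'.1⟩ : IV ℓ S) :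
          GV ℓ S) = Sum.inr q := congrArg Sum.inr h2
      exact h3.symm ▸ hqX
    have hadjGA : ∀ z : GV ℓ S, (LTG_G ℓ S r n).Adj (Sum.inr q) z → GA (Sum.inr q) z := by
      intro z hadj
      rcases z with x | q'
      · have h2 : PA x q ∨ (ℓ q.1.1.1 ≤ 2 * r + 1 ∧ x = q.1.2.2) := hadj
        rcases h2 with h2 | h2
        · exact h2
        · exact absurd h2.1 hsh
      · exact hadj
    have hone : ∃ t : GV ℓ S, ∀ z : GV ℓ S, z ∈ X → (z ∈ Z ∨ g z ≤ g (Sum.inr q)) →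
        (LTG_G ℓ S r n).Adj (Sum.inr q) z → z = t := by
      rcases lt_or_gt_of_ne hnk with hlt | hgt
      · refine ⟨GS3_prd q, fun z hz hgz hadj => ?_⟩
        have hgq : g (Sum.inr q) = q.1.1.2 := (if_neg hsh).trans (if_pos hlt)
        rcases (GS3_nbr q z).1 (hadjGA z hadj) with h2 | h2
        · exact h2
        · exfalso
          have h3 : ¬ q.1.1.2 + 1 = ℓ q.1.1.1 := by omega
          unfold GS3_scc at h2
          rw [dif_neg h3] at h2
          subst h2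
          have h4 := hgz.resolve_left (hnr _)
          rw [hgq] at h4
          by_cases h5 : q.1.1.2 + 1 < k₀
          · have h6 : g (Sum.inr ⟨((q.1.1.1, q.1.1.2 + 1), q.1.2), q.2.1,
                lt_of_le_of_ne q.2.2 h3⟩) = q.1.1.2 + 1 := (if_neg hsh).trans (if_pos h5)
            rw [h6] at h4
            omega
          · have h7 : k₀ = q.1.1.2 + 1 := by omega
            refine hc'.2 q.2.1 hc'.1 ?_
            have h2 : (⟨((q.1.1.1, k₀), (q.1.2.1, q.1.2.2)), q.2.1, hc'.1⟩ : IV ℓ S) =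
                ⟨((q.1.1.1, q.1.1.2 + 1), q.1.2), q.2.1, lt_of_le_of_ne q.2.2 h3⟩ :=
              Subtype.ext (Prod.ext (Prod.ext rfl h7) rfl)
            exact h2 ▸ hz
      · refine ⟨GS3_scc q, fun z hz hgz hadj => ?_⟩
        have hgq : g (Sum.inr q) = ℓ q.1.1.1 - q.1.1.2 :=
          (if_neg hsh).trans (if_neg (by omega))
        rcases (GS3_nbr q z).1 (hadjGA z hadj) with h2 | h2
        · exfalso
          have h3 : ¬ q.1.1.2 = 0 := by omega
          unfold GS3_prd at h2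
          rw [if_neg h3] at h2
          subst h2
          have h4 := hgz.resolve_left (hnr _)
          rw [hgq] at h4
          by_cases h5 : q.1.1.2 - 1 = k₀
          · refine hc'.2 q.2.1 hc'.1 ?_
            have h2 : (⟨((q.1.1.1, k₀), (q.1.2.1, q.1.2.2)), q.2.1, hc'.1⟩ : IV ℓ S) =
                ⟨((q.1.1.1, q.1.1.2 - 1), q.1.2), q.2.1, (Nat.sub_le _ _).trans_lt q.2.2⟩ :=
              Subtype.ext (Prod.ext (Prod.ext rfl h5.symm) rfl)
            exact h2 ▸ hz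
          · have h6 : g (Sum.inr ⟨((q.1.1.1, q.1.1.2 - 1), q.1.2), q.2.1,
                (Nat.sub_le _ _).trans_lt q.2.2⟩) = ℓ q.1.1.1 - (q.1.1.2 - 1) :=
              (if_neg hsh).trans (if_neg (by
                show ¬ q.1.1.2 - 1 < k₀
                omega))
            rw [h6] at h4
            omega
        · exact h2
    obtain ⟨t, ht⟩ := hone
    refine ⟨fun z hz w hw hgz hgw hzw h1 h2 => absurd
      ((ht z (hinX z hz) hgz h1).trans (ht w (hinX w hw) hgw h2).symm) hzw, ?_⟩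
    refine le_trans (Finset.card_le_one.2 ?_) (hs1 r)
    intro a ha b hb
    have ha' := LTG_flt _ _ _ ha
    have hb' := LTG_flt _ _ _ hb
    exact (ht a (hinX a ha'.1) ha'.2.2 ha'.2.1).trans (ht b (hinX b hb'.1) hb'.2.2 hb'.2.1).symm

end VSG
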