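import Pool.Agent.VSG.St3

/-!
# Vaught's conjecture and sparse graphs: pendant paths preserve locally bounded tree-width
-/

set_option autoImplicit false

namespace VSG

open FirstOrder Set Pool.Agent.Helper5.DU Pool.Agent.Helper6.Str Pool.Agent.Helper79.VC

section
variable {V : Type} {W : LG.Structure V}

private theorem LTP_symm (hW : IsGraph W) {a b : V ⊕ PV W} (h : PG a b) : PG b a := by
  rcases a with u | q <;> rcases b with v | q'
  · exact hW.2 u v h
  · exact h
  · exact h
  · exact ⟨h.1.symm, h.2.symm⟩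

private theorem LTP_adj (hW : IsGraph W) {a b : V ⊕ PV W} (h : (gaif (pur W)).Adj a b) :
    PG a b := by
  obtain ⟨hab, n, R, v, h1, h2, h3⟩ := h
  cases R
  have h1' : PG (v 0) (v 1) := h1
  obtain ⟨i, rfl⟩ := h2
  obtain ⟨j, rfl⟩ := h3
  match i, j with
  | 0, 0 => exact absurd rfl hab
  | 1, 1 => exact absurd rfl hab
  | 0, 1 => exact h1'
  | 1, 0 => exact LTP_symm hW h1'

private theorem LTP_adj0 (hW : IsGraph W) {u v : V} (h : Ad W u v) : (gaif W).Adj u v := by
  refine ⟨?_, 2, (RG.adj : LG.Relations 2), ![u, v], h, ⟨0, rfl⟩, ⟨1, rfl⟩⟩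
  rintro rfl
  exact hW.1 u h

/-- the vertex at which the pendant path starts -/
private def LTP_pr (W : LG.Structure V) : V ⊕ PV W → V
  | .inl u => u
  | .inr q => q.1.1.1

private theorem LTP_walk (hW : IsGraph W) {a b : V ⊕ PV W} (p : (gaif (pur W)).Walk a b) :
    ∃ q : (gaif W).Walk (LTP_pr W a) (LTP_pr W b), q.length ≤ p.length := by
  induction p with
  | nil => exact ⟨SimpleGraph.Walk.nil, le_rfl⟩
  | @cons a c b h p ih =>
    obtain ⟨q, hq⟩ := ih
    have h1 := LTP_adj hW h
    have h2 : LTP_pr W a = LTP_pr W c ∨ (gaif W).Adj (LTP_pr W a) (LTP_pr W c) := by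
      rcases a with u | x <;> rcases c with v | y
      · exact Or.inr (LTP_adj0 hW h1)
      · exact Or.inl h1.2.symm
      · exact Or.inl h1.2
      · left
        show x.1.1.1 = y.1.1.1
        rw [h1.1]
    rcases h2 with h2 | h2
    · rw [h2]
      refine ⟨q, hq.trans ?_⟩
      rw [SimpleGraph.Walk.length_cons]
      exact Nat.le_succ _
    · refine ⟨SimpleGraph.Walk.cons h2 q, ?_⟩
      rw [SimpleGraph.Walk.length_cons, SimpleGraph.Walk.length_cons]
      exact Nat.succ_le_succ hq

/-- adjacency in the chordal graph -/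
private def LTP_H (H₀ : SimpleGraph V) : V ⊕ PV W → V ⊕ PV W → Prop
  | .inl u, .inl v => H₀.Adj u v
  | .inl v, .inr q => q.1.2 = 0 ∧ q.1.1.1 = v
  | .inr q, .inl v => q.1.2 = 0 ∧ q.1.1.1 = v
  | .inr q, .inr q' => q.1.1 = q'.1.1 ∧ (q.1.2 + 1 = q'.1.2 ∨ q'.1.2 + 1 = q.1.2)

private def LTP_G (H₀ : SimpleGraph V) : SimpleGraph (V ⊕ PV W) where
  Adj a b := LTP_H H₀ a b
  symm := ⟨by
    intro a b h
    rcases a with u | q <;> rcases b with v | q'
    · exact SimpleGraph.Adj.symm h
    · exact h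
    · exact h
    · exact ⟨h.1.symm, h.2.symm⟩⟩
  loopless := ⟨by
    intro a h
    rcases a with u | q
    · exact H₀.loopless.irrefl u h
    · rcases h.2 with h | h <;> omega⟩

private theorem LTP_elm {H₀ : SimpleGraph V} {k : ℕ} {X : Finset V} (h : Elm H₀ k X) :
    Elm (LTP_G (W := W) H₀) k (X.map ⟨Sum.inl, Sum.inl_injective⟩) := by
  classical
  induction h with
  | emp => exact Elm.emp
  | add X x h1 h2 h3 h4 ih =>
    have e : (insert x X).map (⟨Sum.inl, Sum.inl_injective⟩ : V ↪ V ⊕ PV W) =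
        @insert _ _ (@Finset.instInsert _ fun a b => Classical.propDecidable (a = b))
          (Sum.inl x : V ⊕ PV W) (X.map ⟨Sum.inl, Sum.inl_injective⟩) := by
      ext a
      simp only [Finset.mem_map, Finset.mem_insert, Function.Embedding.coeFn_mk]
      constructor
      · rintro ⟨y, rfl | hy, rfl⟩
        · exact Or.inl rfl
        · exact Or.inr ⟨y, hy, rfl⟩
      · rintro (rfl | ⟨y, hy, rfl⟩)
        · exact ⟨x, Or.inl rfl, rfl⟩
        · exact ⟨y, Or.inr hy, rfl⟩
    rw [e]
    refine ih.add _ _ ?_ ?_ ?_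
    · intro h
      rw [Finset.mem_map] at h
      obtain ⟨y, hy, h⟩ := h
      exact h2 (Sum.inl_injective h ▸ hy)
    · intro a ha b hb hab h5 h6
      rw [Finset.mem_map] at ha hb
      obtain ⟨y, hy, rfl⟩ := ha
      obtain ⟨z, hz, rfl⟩ := hb
      exact h3 y hy z hz (fun h => hab (by rw [h])) h5 h6
    · rw [Finset.filter_map, Finset.card_map]
      exact h4

private theorem LTP_flt {α : Type} (s : Finset α) (p : α → Prop) (inst : DecidablePred p) {a : α}
    (h : a ∈ @Finset.filter α p inst s) : a ∈ s ∧ p a := Finset.mem_filter.1 h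

end

theorem thm_LTP : St_LTP := by
  classical
  intro V W hW s hs hLT r v X hX
  let X₀ : Finset V := X.preimage Sum.inl Sum.inl_injective.injOn
  have hX₀ : ∀ u, u ∈ X₀ ↔ Sum.inl u ∈ X := fun u => Finset.mem_preimage
  obtain ⟨H₀, hH₀, hE⟩ := hLT r (LTP_pr W v) X₀ fun u hu => by
    obtain ⟨p, hp⟩ := hX _ ((hX₀ u).1 hu)
    obtain ⟨q, hq⟩ := LTP_walk hW p
    exact ⟨q, hq.trans hp⟩
  refine ⟨LTP_G H₀, ?_, ?_⟩
  · intro a ha b hb hab
    have h1 := LTP_adj hW hab
    rcases a with u | q <;> rcases b with v | q'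
    · exact hH₀ u ((hX₀ u).2 ha) v ((hX₀ v).2 hb) (LTP_adj0 hW h1)
    · exact h1
    · exact h1
    · exact h1
  · have hE' := LTP_elm (W := W) hE
    set Z : Finset (V ⊕ PV W) := X₀.map ⟨Sum.inl, Sum.inl_injective⟩ with hZ
    have hmZ : ∀ a, a ∈ Z ↔ ∃ u, a = Sum.inl u ∧ a ∈ X := by
      intro a
      rw [hZ, Finset.mem_map]
      constructor
      · rintro ⟨u, hu, rfl⟩
        exact ⟨u, rfl, (hX₀ u).1 hu⟩
      · rintro ⟨u, rfl, h⟩
        exact ⟨u, (hX₀ u).2 h, rfl⟩
    have hsub : Z ⊆ X := fun a ha => by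
      obtain ⟨u, _, h⟩ := (hmZ a).1 ha
      exact h
    have hXZ : X = @Union.union _
        (@Finset.instUnion _ fun a b => Classical.propDecidable (a = b)) Z (X \ Z) := by
      ext a
      simp only [Finset.mem_union, Finset.mem_sdiff]
      have := @hsub a
      tauto
    rw [hXZ]
    let g : V ⊕ PV W → ℕ := Sum.elim (fun _ => 0) fun q => q.1.2
    refine hE'.rank g (X \ Z) Finset.disjoint_sdiff fun y hy => ?_
    -- `y` has only one earlier neighbour
    have hone : ∀ z w : V ⊕ PV W, (z ∈ Z ∨ g z ≤ g y) → (w ∈ Z ∨ g w ≤ g y) →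
        (LTP_G H₀).Adj y z → (LTP_G H₀).Adj y w → z = w := by
      rcases y with u | q
      · exfalso
        rw [Finset.mem_sdiff] at hy
        exact hy.2 ((hmZ _).2 ⟨u, rfl, hy.1⟩)
      · intro z w hz hw h1 h2
        have hnz : ∀ q' : PV W, Sum.inr q' ∉ Z := by
          intro q' h
          obtain ⟨u, h, _⟩ := (hmZ _).1 h
          exact absurd h (by simp)
        rcases z with z | z <;> rcases w with w | w
        · have e1 : q.1.1.1 = z := h1.2
          have e2 : q.1.1.1 = w := h2.2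
          rw [← e1, ← e2]
        · exfalso
          have e1 : q.1.2 = 0 := h1.1
          have e2 : w.1.2 ≤ q.1.2 := hw.resolve_left (hnz w)
          rcases h2.2 with h | h <;> omega
        · exfalso
          have e1 : q.1.2 = 0 := h2.1
          have e2 : z.1.2 ≤ q.1.2 := hz.resolve_left (hnz z)
          rcases h1.2 with h | h <;> omega
        · have e1 : z.1.2 ≤ q.1.2 := hz.resolve_left (hnz z)
          have e2 : w.1.2 ≤ q.1.2 := hw.resolve_left (hnz w)
          have e3 : q.1.1 = z.1.1 := h1.1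
          have e4 : q.1.1 = w.1.1 := h2.1
          have e5 : z.1.2 = w.1.2 := by
            rcases h1.2 with h | h <;> rcases h2.2 with h' | h' <;> omega
          congr 1
          apply Subtype.ext
          exact Prod.ext (e3.symm.trans e4) e5
    refine ⟨fun z _ w _ hz hw hzw h1 h2 => absurd (hone z w hz hw h1 h2) hzw, ?_⟩
    refine le_trans (Finset.card_le_one.2 ?_) (hs r)
    intro a ha b hb
    have ha' := LTP_flt _ _ _ ha
    have hb' := LTP_flt _ _ _ hb
    exact hone a b ha'.2.2 hb'.2.2 ha'.2.1 hb'.2.1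

end VSG
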