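import Pool.Agent.VSG.Defs

/-!
# Strong sets: elementary properties
-/

set_option autoImplicit false

namespace VSG

open Finset

open Classical in
theorem AdR.mono {V : Type} {ρ : V → V → ℕ} {P Q : Finset V} {r : V → ℕ} (h : AdR ρ Q r)
    (hPQ : P ⊆ Q) : AdR ρ P r :=
  ⟨fun y hy z hz hyz => h.1 y (hPQ hy) z (hPQ hz) hyz,
    fun m => (card_le_card (filter_subset_filter _ hPQ)).trans (h.2 m)⟩

theorem Adm.mono {V : Type} {ρ : V → V → ℕ} {P Q : Finset V} {x : V} (h : Adm ρ Q x)
    (hPQ : P ⊆ Q) : Adm ρ P x := AdR.mono h hPQ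

open Classical in
theorem Strg.sub {V : Type} {ρ : V → V → ℕ} {F X : Finset V} (h : Strg ρ F X) : F ⊆ X := by
  induction h with
  | refl => exact Subset.refl _
  | step X x h hx ha ih => exact ih.trans (subset_insert _ _)

theorem Strg.trans {V : Type} {ρ : V → V → ℕ} {F X Y : Finset V} (h : Strg ρ F X)
    (h' : Strg ρ X Y) : Strg ρ F Y := by
  induction h' with
  | refl => exact h
  | step Y y h' hy ha ih => exact ih.step _ _ hy ha

/-- restriction to a set between `F` and `X` -/
theorem Strg.restrict {V : Type} {ρ : V → V → ℕ} {F X : Finset V} (h : Strg ρ F X) :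
    ∀ Y : Finset V, F ⊆ Y → Y ⊆ X → Strg ρ F Y := by
  classical
  induction h with
  | refl =>
    intro Y h1 h2
    rw [Subset.antisymm h2 h1]
    exact Strg.refl
  | step X x h hx ha ih =>
    intro Y h1 h2
    by_cases hxY : x ∈ Y
    · have hxF : x ∉ F := fun h3 => hx (h.sub h3)
      have h3 : F ⊆ Y.erase x := fun y hy => mem_erase.2 ⟨fun h4 => hxF (h4 ▸ hy), h1 hy⟩
      have h4 : Y.erase x ⊆ X := by
        intro y hy
        have h5 := h2 (mem_of_mem_erase hy)
        rcases mem_insert.1 h5 with h6 | h6
        · exact absurd h6 (ne_of_mem_erase hy)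
        · exact h6
      have h5 := (ih _ h3 h4).step _ x (notMem_erase x Y) (ha.mono h4)
      rwa [insert_erase hxY] at h5
    · refine ih Y h1 fun y hy => ?_
      rcases mem_insert.1 (h2 hy) with h6 | h6
      · exact absurd (h6 ▸ hy) hxY
      · exact h6

theorem SM.of_strg {V : Type} {ρ : V → V → ℕ} {F X : Finset V} (h : Strg ρ F X) (h' : SM ρ X) :
    SM ρ F := by
  classical
  intro Y hY
  exact (h.trans (h' (X ∪ Y) subset_union_left)).restrict Y hY subset_union_right

open Classical in
/-- the one-point extension of a strong set by large labels: `F` plus the new point `x` is strong in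
`X` plus `x`. -/
theorem Strg.amalgam {V : Type} {ρ : V → V → ℕ} (hs : ∀ x y, ρ x y = ρ y x) {F X : Finset V}
    (h : Strg ρ F X) : ∀ (x : V) (M : ℕ), x ∉ X → (∀ y ∈ F, ρ x y ≤ M) →
      (∀ y ∈ X, y ∉ F → ρ x y = M) → X.card ≤ M → Strg ρ (insert x F) (insert x X) := by
  classical
  induction h with
  | refl =>
    intro x M _ _ _ _
    exact Strg.refl
  | step X y h hy ha ih =>
    intro x M hx h1 h2 h3
    have hxX : x ∉ X := fun h4 => hx (mem_insert_of_mem h4)
    have hxy : x ≠ y := fun h4 => hx (h4 ▸ mem_insert_self _ _)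
    have hyF : y ∉ F := fun h4 => hy (h.sub h4)
    rw [card_insert_of_notMem hy] at h3
    have h4 := ih x M hxX h1 (fun z hz hzF => h2 z (mem_insert_of_mem hz) hzF) (by omega)
    have h5 : ρ x y = M := h2 y (mem_insert_self _ _) hyF
    have h6 : ∀ z ∈ X, ρ x z ≤ M := by
      intro z hz
      by_cases hzF : z ∈ F
      · exact h1 z hzF
      · exact (h2 z (mem_insert_of_mem hz) hzF).le
    have h7 : Adm ρ (insert x X) y := by
      refine ⟨fun u hu v hv huv => ?_, fun m => ?_⟩
      · rcases mem_insert.1 hu with hu1 | hu1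
        · rcases mem_insert.1 hv with hv1 | hv1
          · exact absurd (hu1.trans hv1.symm) huv
          · rw [hu1]
            refine (h6 v hv1).trans ?_
            rw [hs y x, h5]
            exact le_max_left _ _
        · rcases mem_insert.1 hv with hv1 | hv1
          · rw [hv1, hs u x]
            refine (h6 _ hu1).trans ?_
            rw [hs y x, h5]
            exact le_max_right _ _
          · exact ha.1 u hu1 v hv1 huv
      · by_cases hm : M ≤ m
        · refine (card_filter_le _ _).trans ?_
          rw [card_insert_of_notMem hxX]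
          omega
        · have h8 : ((insert x X).filter fun z => ρ y z ≤ m) = X.filter fun z => ρ y z ≤ m := by
            rw [filter_insert, if_neg]
            rw [hs y x, h5]
            exact hm
          rw [h8]
          exact ha.2 m
    have h8 : y ∉ insert x X := fun h9 => by
      rcases mem_insert.1 h9 with h9 | h9
      · exact hxy h9.symm
      · exact hy h9
    have h9 := h4.step _ y h8 h7
    rwa [insert_comm] at h9

end VSG
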