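import Pool.Agent.VSG.St

/-!
# Vaught's conjecture and sparse graphs: assembly
-/

set_option autoImplicit false

namespace VSG

open FirstOrder Set Pool.Agent.Helper5.DU Pool.Agent.Helper6.Str Pool.Agent.Helper79.VC

/-- satisfaction is invariant under isomorphism -/
theorem sat_iso {L : FirstOrder.Language.{0, 0}} {M N : Type} {S : L.Structure M}
    {S' : L.Structure N} (e : M ≃ N) (he : RelIso S S' e) {n : ℕ} (φ : FmI L n) :
    ∀ v : Fin n → M, Sat S φ v ↔ Sat S' φ (e ∘ v) := by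
  induction φ with
  | eq i j =>
    intro v
    exact ⟨fun h => congrArg e h, fun h => e.injective h⟩
  | rel R w =>
    intro v
    exact he _ R _
  | neg φ ih =>
    intro v
    exact not_congr (ih v)
  | conj φ ih =>
    intro v
    exact forall_congr' fun k => ih k v
  | ex φ ih =>
    intro v
    constructor
    · rintro ⟨a, ha⟩
      refine ⟨e a, ?_⟩
      have h1 := (ih _).1 ha
      have h2 : e ∘ (Fin.snoc v a : Fin _ → M) = (Fin.snoc (e ∘ v) (e a) : Fin _ → N) := by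
        funext i
        refine Fin.lastCases ?_ (fun i => ?_) i
        · simp
        · simp
      rwa [h2] at h1
    · rintro ⟨b, hb⟩
      obtain ⟨a, rfl⟩ := e.surjective b
      refine ⟨a, ?_⟩
      refine (ih _).2 ?_
      have h2 : e ∘ (Fin.snoc v a : Fin _ → M) = (Fin.snoc (e ∘ v) (e a) : Fin _ → N) := by
        funext i
        refine Fin.lastCases ?_ (fun i => ?_) i
        · simp
        · simp
      rwa [h2]

theorem modI_iso {L : FirstOrder.Language.{0, 0}} (φ : FmI L 0) (S S' : L.Structure ℕ)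
    (h : Iso S S') (hS : S ∈ ModI φ) : S' ∈ ModI φ := by
  obtain ⟨e, he⟩ := h
  have h1 := (sat_iso e he φ Fin.elim0).1 hS
  have h2 : (e ∘ (Fin.elim0 : Fin 0 → ℕ)) = Fin.elim0 := by
    funext i
    exact i.elim0
  rw [h2] at h1
  exact h1

/-- lengths of paths suitable for an unbounded `t` -/
theorem exists_suit (t : ℕ → ℕ) (ht : Monotone t) (hu : ∀ c, ∃ r, c < t r) :
    ∃ ℓ : ℕ → ℕ, (∀ i, 2 ≤ ℓ i) ∧ Suit t ℓ := by
  choose r hr using hu
  refine ⟨fun i => 3 * r (i + 4) + 4, fun i => ?_, fun i s h => ?_⟩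
  · show 2 ≤ 3 * r (i + 4) + 4
    omega
  have h1 : r (i + 4) ≤ s := by
    have : 3 * r (i + 4) + 4 ≤ 3 * s + 3 := h
    omega
  exact (hr (i + 4)).le.trans (ht h1)

/-- Part 1: the dichotomy for layered structures implies the dichotomy for theories in languages with
unary and binary relation symbols -/
theorem part1 (hCS : St_CS)
    (hCW : St_CW) (hCC : St_CC) (hCP : St_CP) (hCF : St_CF) (hV : VCL)
    (L : FirstOrder.Language.{0, 0}) (hR : ∀ n, Countable (L.Relations n))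
    (hF : ∀ n, IsEmpty (L.Functions n)) (h12 : ∀ n, n ≠ 1 → n ≠ 2 → IsEmpty (L.Relations n))
    (T : L.Theory) : CtblK (VPF.ModF T) ∨ PerfK (VPF.ModF T) := by
  obtain ⟨e1, he1⟩ := exists_injective_nat (L.Relations 1)
  obtain ⟨e2, he2⟩ := exists_injective_nat (L.Relations 2)
  have hb : Base L e1 e2 := ⟨hF, h12, he1, he2⟩
  obtain ⟨ψ, hψ⟩ := hCF L e1 e2 hb T
  have h1 := hV ψ (fun S hS => by
    rw [hψ] at hS
    obtain ⟨A, _, ρ, π, h⟩ := hS
    exact hCS L e1 e2 A S ρ π h) (by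
    rw [hψ]
    exact hCW L e1 e2 hb T)
  rw [hψ] at h1
  exact h1.imp (hCC L e1 e2 hb T) (hCP L e1 e2 hb T)

/-- Part 2: the dichotomy for sparse coloured graphs implies the dichotomy for layered structures -/
theorem part2 (t : ℕ → ℕ) (ht : Monotone t) (h3 : 3 ≤ t 0) (hu : ∀ c, ∃ r, c < t r)
    (hGG : St_GG) (hGS : St_GS) (hGSI : St_GSI) (hGC : St_GC) (hGP : St_GP) (hGF : St_GF)
    (hV : VCGraph t) : VCL := by
  intro ψ hψ hW
  obtain ⟨ℓ, hℓ, hs⟩ := exists_suit t ht hu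
  obtain ⟨χ, hχ⟩ := hGF ℓ hℓ ψ fun S hS => (hψ S hS).1
  have h1 := hV χ fun W hWχ => by
    rw [hχ] at hWχ
    obtain ⟨S, hS, hI⟩ := hWχ
    refine ⟨hGG ℓ ℕ S W hI, fun r hsub => ?_⟩
    exact hGS t ℓ ht h3 hℓ hs ℕ S (hψ S hS).1 (hψ S hS).2 r (hGSI _ _ _ _ hI r (t r) hsub)
  rw [hχ] at h1
  exact h1.imp (hGC ℓ hℓ _) (hGP ℓ hℓ _ (fun S hS => (hψ S hS).1) hW
    fun S S' hI hS => modI_iso ψ S S' hI hS)

end VSG
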