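import Pool.Agent.VSG.St2

/-!
# A Borel family of pairwise non-isomorphic structures gives a continuous one
-/

set_option autoImplicit false

namespace VSG

open FirstOrder Set Pool.Agent.Helper5.DU Pool.Agent.Helper6.Str Pool.Agent.Helper79.VC

theorem thm_BC : St_BC := by
  intro L hF hR K f hK hinj hmeas
  have : ∀ n, IsEmpty (L.Functions n) := hF
  have : ∀ n, Countable (L.Relations n) := hR
  let F : (ℕ → Bool) → Code L := fun x => ofStr (f x)
  have hFm : Measurable F := by
    refine measurable_pi_iff.2 fun p => ?_
    refine measurable_to_bool ?_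
    have h1 : (fun x => F x p) ⁻¹' {true} = {x | (f x).RelMap p.2.1 p.2.2} := by
      ext x
      show (ofStr (f x)) p = true ↔ _
      simp [ofStr]
    rw [h1]
    exact hmeas _ _ _
  obtain ⟨t₁, ht₁, hft, hP₁⟩ := hFm.exists_continuous
  have hr : ¬ (range F).Countable := by
    have h1 : Function.Injective F := by
      intro x y hxy
      refine hinj x y ?_
      have h2 : toStr (F x) = toStr (F y) := by rw [hxy]
      have h3 : f x = f y := by
        have h4 : toStr (F x) = f x := toStr_ofStr (f x)
        have h5 : toStr (F y) = f y := toStr_ofStr (f y)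
        rw [← h4, ← h5, h2]
      rw [h3]
      exact Iso.refl _
    intro hc
    have : Countable (range F) := hc.to_subtype
    have h2 : Countable (ℕ → Bool) :=
      Function.Injective.countable (f := fun x => (⟨F x, mem_range_self x⟩ : range F))
        fun x y hxy => h1 (congrArg Subtype.val hxy)
    have h3 := Cardinal.mk_le_aleph0_iff.2 h2
    have h4 : Cardinal.mk (ℕ → Bool) = Cardinal.continuum := by
      rw [← Cardinal.power_def, Cardinal.mk_bool, Cardinal.mk_nat, Cardinal.two_power_aleph0]
    rw [h4] at h3
    exact absurd Cardinal.aleph0_lt_continuum h3.not_gt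
  obtain ⟨g, hg, hgf⟩ := @Pool.Agent.Helper6.exists_cantor_of_continuous (ℕ → Bool) (Code L) t₁ hP₁ _ _ F hft hr
  have hFg : @Continuous (ℕ → Bool) (Code L) Pi.topologicalSpace _ fun x => F (g x) :=
    @Continuous.comp (ℕ → Bool) (ℕ → Bool) (Code L) Pi.topologicalSpace t₁ _ g F hft hg
  refine ⟨fun x => f (g x), fun x => hK _, fun x y hxy => ?_, fun n R a => ?_⟩
  · by_contra hne
    have h1 := hinj _ _ hxy
    exact hgf x y hne (congrArg F h1)
  · have h1 := @IsClopen.preimage _ _ Pi.topologicalSpace _ _ (isClopen_relMap (L := L) R a) _ hFg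
    have h2 : {x | (f (g x)).RelMap R a} = (fun x => F (g x)) ⁻¹' {c | (toStr c).RelMap R a} := by
      ext x
      show _ ↔ (toStr (ofStr (f (g x)))).RelMap R a
      rw [toStr_ofStr]
      exact Iff.rfl
    rw [h2]
    exact h1

end VSG
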