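import Pool.Agent.VSG.St3
import Pool.Agent.VSG.RD
import Pool.Agent.VSG.GS3

/-!
# Vaught's conjecture and sparse graphs: pendant paths are dead ends (for BEG)
-/

set_option autoImplicit false

namespace VSG

open FirstOrder Set Pool.Agent.Helper5.DU Pool.Agent.Helper6.Str Pool.Agent.Helper79.VC

section
variable {V : Type} {W : LG.Structure V}

/-- adjacency in the Gaifman graph of `pur W` is `PG` -/
theorem BEG_adj (hW : ∀ u v, Ad W u v → Ad W v u) {x y : V ⊕ PV W}
    (h : (gaif (pur W)).Adj x y) : PG x y ∧ x ≠ y := by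
  obtain ⟨hne, n, R, w, hR, ⟨i, hi⟩, ⟨j, hj⟩⟩ := h
  refine ⟨?_, hne⟩
  cases R with
  | adj =>
    have hR' : PG (w 0) (w 1) := hR
    have hs : ∀ x y : V ⊕ PV W, PG x y → PG y x := by
      intro x y h
      rcases x with u | q <;> rcases y with v | q'
      · exact hW u v h
      · exact h
      · exact h
      · exact ⟨h.1.symm, h.2.symm⟩
    have hij : i ≠ j := by
      rintro rfl
      exact hne (hi.symm.trans hj)
    rw [← hi, ← hj]
    fin_cases i <;> fin_cases j
    · exact absurd rfl hij
    · exact hR'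
    · exact hs _ _ hR'
    · exact absurd rfl hij

private theorem BEG0_run (hW : ∀ u v, Ad W u v → Ad W v u) (l : List (V ⊕ PV W)) :
    ∀ (q : PV W) (p : V ⊕ PV W), PG (Sum.inr q) p → RD_key p = q.1.2 →
      (p :: Sum.inr q :: l).Nodup → (Sum.inr q :: l).IsChain (gaif (pur W)).Adj →
      ∀ z ∈ l, ∃ q' : PV W, z = Sum.inr q' := by
  induction l with
  | nil => simp
  | cons y l ih =>
    intro q p hp hk hnd hch z hz
    rw [List.isChain_cons_cons] at hch
    have hy := (BEG_adj hW hch.1).1
    rcases RD_nb q y hy with h1 | h1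
    · have h2 : y = p := RD_inj q y p hy hp (h1.trans hk.symm)
      subst h2
      simp at hnd
    · rcases y with v | q''
      · exact absurd h1 (by show (0 : ℕ) ≠ _; omega)
      · have h3 : q''.1.2 + 1 = q.1.2 + 2 := h1
        rcases List.mem_cons.1 hz with h4 | h4
        · exact ⟨q'', h4⟩
        · refine ih q'' (Sum.inr q) ⟨hy.1.symm, hy.2.symm⟩ (by show q.1.2 + 1 = _; omega)
            (List.nodup_cons.1 hnd).2 hch.2 z h4

/-- a simple chain from an `inl` vertex to an `inl` vertex consists of `inl` vertices -/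
theorem BEG_inl (hW : ∀ u v, Ad W u v → Ad W v u) (c : V) (l : List (V ⊕ PV W)) :
    ∀ a : V, (Sum.inl a :: l).Nodup → (Sum.inl a :: l).IsChain (gaif (pur W)).Adj →
      l.getLast? = some (Sum.inl c) → ∀ z ∈ l, ∃ v : V, z = Sum.inl v := by
  induction l with
  | nil => simp
  | cons y l ih =>
    intro a hnd hch hl z hz
    have hch' := hch
    rw [List.isChain_cons_cons] at hch'
    rcases y with v | q
    · rcases List.mem_cons.1 hz with h4 | h4
      · exact ⟨v, h4⟩
      · rcases l with _ | ⟨y', l⟩
        · simp at h4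
        · rw [List.getLast?_cons_cons] at hl
          exact ih v (List.nodup_cons.1 hnd).2 hch'.2 hl z h4
    · exfalso
      have hy := (BEG_adj hW hch'.1).1
      have h1 : PG (Sum.inr q) (Sum.inl a : V ⊕ PV W) := hy
      have h2 := BEG0_run hW l q (Sum.inl a) h1 (by show (0 : ℕ) = _; exact hy.1.symm) hnd hch'.2
      rcases l with _ | ⟨y', l⟩
      · simp at hl
      · rw [List.getLast?_cons_cons] at hl
        obtain ⟨q', h3⟩ := h2 _ (List.mem_of_mem_getLast? hl)
        exact Sum.inl_ne_inr h3

end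

section
variable {V : Type} {S : LN.Structure V} {ℓ : ℕ → ℕ}

theorem BEG_sy (u v : GV ℓ S) (h : Ad (grS ℓ S) u v) : Ad (grS ℓ S) v u := by
  have h1 : GA u v := h
  exact GS3_symm h1

end

end VSG
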