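import Pool.Agent.VSG.St

/-!
# Transfer of countability from the codings of the models of a theory to the models
-/

set_option autoImplicit false

namespace VSG

open FirstOrder Set Pool.Agent.Helper5.DU Pool.Agent.Helper6.Str Pool.Agent.Helper79.VC

theorem thm_CC (he : St_CE) (hd : St_CD) : St_CC := by
  classical
  intro L e1 e2 hB T hK
  obtain ⟨g, hg⟩ := hK
  let P : ℕ → L.Structure ℕ → Prop := fun n A => A ∈ VPF.ModF T ∧
    ∃ (S : LN.Structure ℕ) (ρ : ℕ → ℕ → ℕ) (π : ℕ → ℕ), IsCod e1 e2 A S ρ π ∧ Iso S (g n)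
  let A₀ : L.Structure ℕ := ⟨fun _ _ => 0, fun _ _ => False⟩
  refine ⟨fun n => if h : ∃ A, P n A then h.choose else A₀, ?_⟩
  intro A hA
  obtain ⟨S, ρ, π, hS⟩ := he L e1 e2 A
  obtain ⟨n, hn⟩ := hg S ⟨A, hA, ρ, π, hS⟩
  have hex : ∃ A, P n A := ⟨A, hA, S, ρ, π, hS, hn⟩
  refine ⟨n, ?_⟩
  simp only
  rw [dif_pos hex]
  obtain ⟨-, S', ρ', π', hS', hn'⟩ := hex.choose_spec
  exact hd L e1 e2 hB A _ S S' ρ ρ' π π' hS hS' (hn.trans hn'.symm)

end VSG
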