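import Pool.Agent.VSG.CF

/-!
# Decoding the coded structure
-/

set_option autoImplicit false

namespace VSG

open FirstOrder Set Pool.Agent.Helper5.DU Pool.Agent.Helper6.Str Pool.Agent.Helper79.VC

theorem CD_bn {S S' : LN.Structure ℕ} {e : ℕ ≃ ℕ} (he : RelIso S S' e) (i x y : ℕ) :
    Bn S i x y ↔ Bn S' i (e x) (e y) := by
  unfold Bn
  rw [he 2 (RN.bin i : LN.Relations 2) (![x, y])]
  have h1 : e ∘ ![x, y] = ![e x, e y] := by
    funext k
    fin_cases k <;> rfl
  rw [h1]

theorem CD_un {S S' : LN.Structure ℕ} {e : ℕ ≃ ℕ} (he : RelIso S S' e) (i x : ℕ) :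
    Un S i x ↔ Un S' i (e x) := by
  unfold Un
  rw [he 1 (RN.col i : LN.Relations 1) (![x])]
  have h1 : e ∘ ![x] = ![e x] := by
    funext k
    fin_cases k
    rfl
  rw [h1]

theorem CD_eqv {S S' : LN.Structure ℕ} {e : ℕ ≃ ℕ} (he : RelIso S S' e) (x y : ℕ) :
    eqv S x y ↔ eqv S' (e x) (e y) := by
  unfold eqv
  rw [e.injective.eq_iff]
  simp only [CD_bn he]

theorem CD_quo {L : FirstOrder.Language.{0, 0}} {e1 : L.Relations 1 → ℕ} {e2 : L.Relations 2 → ℕ}
    (hb : Base L e1 e2) {A A' : L.Structure ℕ} {S S' : LN.Structure ℕ} {π π' : ℕ → ℕ}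
    (h : Quo e1 e2 A S π) (h' : Quo e1 e2 A' S' π') (hI : Iso S S') : Iso A A' := by
  obtain ⟨e, he⟩ := hI
  have key : ∀ x y, π x = π y ↔ π' (e x) = π' (e y) := fun x y => by
    rw [← h.eqv, ← h'.eqv]
    exact CD_eqv he x y
  choose s hs using h.sur
  let H : ℕ → ℕ := fun a => π' (e (s a))
  have hH : ∀ x, H (π x) = π' (e x) := fun x => (key _ _).1 (hs (π x))
  have hinj : Function.Injective H := by
    intro a b hab
    have h1 := (key (s a) (s b)).2 hab
    rw [hs, hs] at h1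
    exact h1
  have hsur : Function.Surjective H := by
    intro b
    obtain ⟨y, rfl⟩ := h'.sur b
    refine ⟨π (e.symm y), ?_⟩
    rw [hH, Equiv.apply_symm_apply]
  refine ⟨Equiv.ofBijective H ⟨hinj, hsur⟩, fun n R v => ?_⟩
  have hcomp : ∀ v : Fin n → ℕ, (Equiv.ofBijective H ⟨hinj, hsur⟩) ∘ v = fun k => H (v k) :=
    fun v => rfl
  rw [hcomp]
  by_cases h1 : n = 1
  · subst h1
    have hv : v = ![v 0] := by
      funext k
      fin_cases k
      rfl
    have hw : (fun k => H (v k)) = ![H (v 0)] := by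
      funext k
      fin_cases k
      rfl
    rw [hw, hv]
    obtain ⟨x, hx⟩ := h.sur (v 0)
    show A.RelMap R ![v 0] ↔ A'.RelMap R ![H (v 0)]
    rw [← hx, hH, ← h.col, ← h'.col]
    exact CD_un he _ _
  · by_cases h2 : n = 2
    · subst h2
      have hv : v = ![v 0, v 1] := by
        funext k
        fin_cases k <;> rfl
      have hw : (fun k => H (v k)) = ![H (v 0), H (v 1)] := by
        funext k
        fin_cases k <;> rfl
      rw [hw, hv]
      show A.RelMap R ![v 0, v 1] ↔ A'.RelMap R ![H (v 0), H (v 1)]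
      obtain ⟨x, hx⟩ := h.sur (v 0)
      obtain ⟨y, hy⟩ := h.sur (v 1)
      by_cases hxy : v 0 = v 1
      · rw [← hxy, ← hx, hH, ← h.dia, ← h'.dia]
        exact CD_un he _ _
      · have hne : x ≠ y := fun h3 => hxy (by rw [← hx, ← hy, h3])
        have hne' : e x ≠ e y := fun h3 => hne (e.injective h3)
        rw [← hx, ← hy, hH, hH, ← h.bin _ x y hne, ← h'.bin _ (e x) (e y) hne']
        exact exists_congr fun a => CD_bn he _ _ _
    · exact ((hb.ar n h1 h2).false R).elim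

theorem thm_CD : St_CD := by
  intro L e1 e2 hb A A' S S' ρ ρ' π π' hc hc' hI
  exact CD_quo hb (CF_quo hb.i1 hb.i2 hc) (CF_quo hb.i1 hb.i2 hc') hI

end VSG
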