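import Pool.Agent.VSG.St
import Pool.Agent.VSG.Alg

/-!
# Existence of the generic labelled set over a countable set of colours
-/

set_option autoImplicit false

namespace VSG

open Classical

variable {V H : Type}

theorem AdR.congr {ρ ρ' : V → V → ℕ} {P : Finset V} {r r' : V → ℕ} (h : AdR ρ P r)
    (hρ : ∀ y ∈ P, ∀ z ∈ P, y ≠ z → ρ' y z = ρ y z) (hr : ∀ y ∈ P, r' y = r y) : AdR ρ' P r' := by
  refine ⟨fun y hy z hz hn => ?_, fun m => ?_⟩
  · rw [hr y hy, hr z hz, hρ y hy z hz hn]
    exact h.1 y hy z hz hn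
  · have : (P.filter fun y => r' y ≤ m) = P.filter fun y => r y ≤ m :=
      Finset.filter_congr fun y hy => by rw [hr y hy]
    rw [this]
    exact h.2 m

theorem Strg.congr {ρ ρ' : V → V → ℕ} {F X : Finset V} (h : Strg ρ F X) :
    (∀ y ∈ X, ∀ z ∈ X, y ≠ z → ρ' y z = ρ y z) → Strg ρ' F X := by
  induction h with
  | refl => exact fun _ => Strg.refl
  | step X x _ hx hok ih =>
    intro h1
    exact Strg.step X x (ih fun y hy z hz => h1 y (Finset.mem_insert_of_mem hy) z
      (Finset.mem_insert_of_mem hz)) hx (hok.congr (fun y hy z hz => h1 y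
      (Finset.mem_insert_of_mem hy) z (Finset.mem_insert_of_mem hz)) fun y hy =>
      h1 x (Finset.mem_insert_self _ _) y (Finset.mem_insert_of_mem hy) fun e => hx (e ▸ hy))

/-- amalgamation, first part -/
theorem AdR.extend {ρ : V → V → ℕ} {F X : Finset V} {r : V → ℕ} {K : ℕ} (h : AdR ρ F r)
    (hK : ∀ y ∈ X, ∀ z ∈ X, y ≠ z → ρ y z ≤ K) (hc : X.card ≤ K)
    (hr : ∀ y ∈ X, y ∉ F → r y = K) : AdR ρ X r := by
  refine ⟨fun y hy z hz hn => ?_, fun m => ?_⟩
  · by_cases h1 : y ∈ F
    · by_cases h2 : z ∈ F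
      · exact h.1 y h1 z h2 hn
      · rw [hr z hz h2]
        exact (hK y hy z hz hn).trans (le_max_right _ _)
    · rw [hr y hy h1]
      exact (hK y hy z hz hn).trans (le_max_left _ _)
  · by_cases hm : m < K
    · have h1 : (X.filter fun y => r y ≤ m) ⊆ F.filter fun y => r y ≤ m := by
        intro y hy
        obtain ⟨h2, h3⟩ := Finset.mem_filter.1 hy
        refine Finset.mem_filter.2 ⟨?_, h3⟩
        by_contra h4
        rw [hr y h2 h4] at h3
        omega
      exact (Finset.card_le_card h1).trans (h.2 m)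
    · exact (Finset.card_le_card (Finset.filter_subset _ _)).trans (hc.trans (not_lt.1 hm))

/-! ### the construction -/

/-- a task: a finite set, labels, a colour -/
abbrev Tk : Type := Finset ℕ × (ℕ →₀ ℕ) × ℕ

/-- every task comes infinitely often -/
theorem exists_tasks : ∃ τ : ℕ → Tk, ∀ (t : Tk) (N : ℕ), ∃ n, N ≤ n ∧ τ n = t := by
  obtain ⟨e, he⟩ := exists_surjective_nat Tk
  refine ⟨fun n => e n.unpair.2, fun t N => ?_⟩
  obtain ⟨k, hk⟩ := he t
  refine ⟨Nat.pair N k, Nat.left_le_pair N k, ?_⟩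
  change e (Nat.unpair (Nat.pair N k)).2 = t
  rw [Nat.unpair_pair]
  exact hk

/-- the finite set to which the point `n` is attached -/
noncomputable def att (t : Tk) (ρ : ℕ → ℕ → ℕ) (n : ℕ) : Finset ℕ :=
  if t.1 ⊆ Finset.range n ∧ Strg ρ t.1 (Finset.range n) ∧ AdR ρ t.1 t.2.1 then t.1 else ∅

/-- the large label of the point `n` -/
noncomputable def big (t : Tk) (ρ : ℕ → ℕ → ℕ) (n : ℕ) : ℕ :=
  n + (∑ y ∈ Finset.range n, ∑ z ∈ Finset.range n, ρ y z) + ∑ y ∈ Finset.range n, t.2.1 y

/-- the labels of the point `n` -/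
noncomputable def row (t : Tk) (ρ : ℕ → ℕ → ℕ) (n : ℕ) (y : ℕ) : ℕ :=
  if y ∈ att t ρ n then t.2.1 y else big t ρ n

/-- the labels after `n` steps -/
noncomputable def stg (τ : ℕ → Tk) : ℕ → ℕ → ℕ → ℕ
  | 0 => fun _ _ => 0
  | n + 1 => fun x y =>
      if x = n then row (τ n) (stg τ n) n y else
      if y = n then row (τ n) (stg τ n) n x else stg τ n x y

/-- the labels -/
noncomputable def lim (τ : ℕ → Tk) (x y : ℕ) : ℕ :=
  if x < y then row (τ y) (stg τ y) y x else row (τ x) (stg τ x) x y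

theorem lim_symm (τ : ℕ → Tk) (x y : ℕ) : lim τ x y = lim τ y x := by
  unfold lim
  rcases lt_trichotomy x y with h | h | h
  · rw [if_pos h, if_neg (not_lt.2 h.le)]
  · rw [h]
  · rw [if_neg (not_lt.2 h.le), if_pos h]

theorem stg_eq (τ : ℕ → Tk) : ∀ n x y, x < n → y < n → x ≠ y → stg τ n x y = lim τ x y := by
  intro n
  induction n with
  | zero => intro x y hx; omega
  | succ n ih =>
    intro x y hx hy hn
    by_cases h1 : x = n
    · subst h1
      have h2 : ¬ x < y := by omega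
      simp only [stg, lim, if_true, if_neg h2]
    · by_cases h2 : y = n
      · subst h2
        have h3 : x < y := by omega
        simp only [stg, lim, if_neg h1, if_true, if_pos h3]
      · simp only [stg, if_neg h1, if_neg h2]
        exact ih x y (by omega) (by omega) hn

theorem strg_stg (τ : ℕ → Tk) {F : Finset ℕ} {n : ℕ} :
    Strg (stg τ n) F (Finset.range n) ↔ Strg (lim τ) F (Finset.range n) := by
  constructor
  · exact fun h => h.congr fun y hy z hz hn =>
      (stg_eq τ n y z (Finset.mem_range.1 hy) (Finset.mem_range.1 hz) hn).symm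
  · exact fun h => h.congr fun y hy z hz hn =>
      stg_eq τ n y z (Finset.mem_range.1 hy) (Finset.mem_range.1 hz) hn

theorem adr_stg (τ : ℕ → Tk) {F : Finset ℕ} {n : ℕ} (hF : F ⊆ Finset.range n) {r : ℕ → ℕ} :
    AdR (stg τ n) F r ↔ AdR (lim τ) F r := by
  constructor
  · exact fun h => h.congr (fun y hy z hz hn => (stg_eq τ n y z (Finset.mem_range.1 (hF hy))
      (Finset.mem_range.1 (hF hz)) hn).symm) fun _ _ => rfl
  · exact fun h => h.congr (fun y hy z hz hn => stg_eq τ n y z (Finset.mem_range.1 (hF hy))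
      (Finset.mem_range.1 (hF hz)) hn) fun _ _ => rfl

theorem adr_empty {ρ : V → V → ℕ} {r : V → ℕ} : AdR ρ ∅ r :=
  ⟨fun y hy => absurd hy (Finset.notMem_empty _), fun m => by simp⟩

/-- the data of the step `n` in terms of the limit -/
theorem step_lim (τ : ℕ → Tk) (n : ℕ) (h0 : Strg (lim τ) ∅ (Finset.range n)) :
    ∃ (A : Finset ℕ) (K : ℕ), A ⊆ Finset.range n ∧ Strg (lim τ) A (Finset.range n) ∧
      AdR (lim τ) A (lim τ n) ∧ n ≤ K ∧
      (∀ y < n, ∀ z < n, y ≠ z → lim τ y z ≤ K) ∧ (∀ y < n, lim τ n y ≤ K) ∧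
      (∀ y < n, y ∉ A → lim τ n y = K) ∧
      (((τ n).1 ⊆ Finset.range n ∧ Strg (lim τ) (τ n).1 (Finset.range n) ∧
        AdR (lim τ) (τ n).1 (τ n).2.1) → A = (τ n).1 ∧ ∀ y ∈ A, lim τ n y = (τ n).2.1 y) := by
  have hrow : ∀ y < n, lim τ n y = row (τ n) (stg τ n) n y := fun y hy => by
    unfold lim
    rw [if_neg (by omega)]
  have hA : att (τ n) (stg τ n) n ⊆ Finset.range n := by
    unfold att
    split_ifs with h
    · exact h.1
    · exact Finset.empty_subset _
  have hval : ∀ y ∈ att (τ n) (stg τ n) n, lim τ n y = (τ n).2.1 y := fun y hy => by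
    rw [hrow y (Finset.mem_range.1 (hA hy)), row, if_pos hy]
  have hK1 : ∀ y < n, ∀ z < n, stg τ n y z ≤ big (τ n) (stg τ n) n := fun y hy z hz => by
    unfold big
    have h1 : stg τ n y z ≤ ∑ z ∈ Finset.range n, stg τ n y z :=
      Finset.single_le_sum (f := fun z => stg τ n y z) (fun _ _ => Nat.zero_le _)
        (Finset.mem_range.2 hz)
    have h2 : ∑ z ∈ Finset.range n, stg τ n y z ≤
        ∑ y ∈ Finset.range n, ∑ z ∈ Finset.range n, stg τ n y z :=
      Finset.single_le_sum (f := fun y => ∑ z ∈ Finset.range n, stg τ n y z)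
        (fun _ _ => Nat.zero_le _) (Finset.mem_range.2 hy)
    omega
  have hK2 : ∀ y < n, (τ n).2.1 y ≤ big (τ n) (stg τ n) n := fun y hy => by
    unfold big
    have h1 : (τ n).2.1 y ≤ ∑ y ∈ Finset.range n, (τ n).2.1 y :=
      Finset.single_le_sum (f := fun y => (τ n).2.1 y) (fun _ _ => Nat.zero_le _)
        (Finset.mem_range.2 hy)
    omega
  refine ⟨att (τ n) (stg τ n) n, big (τ n) (stg τ n) n, hA, ?_, ?_, ?_, ?_, ?_, ?_, ?_⟩
  · rw [← strg_stg]
    unfold att
    split_ifs with h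
    · exact h.2.1
    · exact (strg_stg τ).2 h0
  · rw [← adr_stg τ hA]
    have : AdR (stg τ n) (att (τ n) (stg τ n) n) (τ n).2.1 := by
      unfold att
      split_ifs with h
      · exact h.2.2
      · exact adr_empty
    exact this.congr (fun _ _ _ _ _ => rfl) hval
  · unfold big
    omega
  · intro y hy z hz hn
    rw [← stg_eq τ n y z hy hz hn]
    exact hK1 y hy z hz
  · intro y hy
    rw [hrow y hy, row]
    split_ifs
    · exact hK2 y hy
    · exact le_rfl
  · intro y hy hn
    rw [hrow y hy, row, if_neg hn]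
  · rintro ⟨h1, h2, h3⟩
    have h4 : att (τ n) (stg τ n) n = (τ n).1 := by
      unfold att
      rw [if_pos ⟨h1, (strg_stg τ).2 h2, (adr_stg τ h1).2 h3⟩]
    exact ⟨h4, hval⟩

theorem adr_range (τ : ℕ → Tk) (n : ℕ) (h0 : Strg (lim τ) ∅ (Finset.range n)) :
    AdR (lim τ) (Finset.range n) (lim τ n) := by
  obtain ⟨A, K, hA, h1, h2, h3, h4, h5, h6, -⟩ := step_lim τ n h0
  exact h2.extend (K := K) (fun y hy z hz hn => h4 y (Finset.mem_range.1 hy) z
    (Finset.mem_range.1 hz) hn) (by rw [Finset.card_range]; exact h3)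
    fun y hy hn => h6 y (Finset.mem_range.1 hy) hn

theorem range_ins (n : ℕ) : @insert ℕ (Finset ℕ)
    (@Finset.instInsert ℕ fun a b => propDecidable (a = b)) n (Finset.range n) =
    Finset.range (n + 1) := by
  ext x
  rw [@Finset.mem_insert ℕ (fun a b => propDecidable (a = b)), Finset.mem_range,
    Finset.mem_range]
  omega

theorem strg_range (τ : ℕ → Tk) (n : ℕ) : Strg (lim τ) ∅ (Finset.range n) := by
  induction n with
  | zero => exact Strg.refl
  | succ n ih =>
    have h := Strg.step _ n ih Finset.notMem_range_self (adr_range τ n ih)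
    rwa [range_ins] at h

theorem strg_range_le (τ : ℕ → Tk) {n m : ℕ} (h : n ≤ m) :
    Strg (lim τ) (Finset.range n) (Finset.range m) := by
  induction m, h using Nat.le_induction with
  | base => exact Strg.refl
  | succ m _ ih =>
    have h := Strg.step _ m ih Finset.notMem_range_self (adr_range τ m (strg_range τ m))
    rwa [range_ins] at h

theorem subset_range (X : Finset ℕ) : ∃ n, X ⊆ Finset.range n :=
  ⟨X.sup id + 1, fun _ hx => Finset.mem_range.2 (Nat.lt_succ_of_le (Finset.le_sup (f := id) hx))⟩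

theorem sm_of_range (τ : ℕ → Tk) {F : Finset ℕ} {n : ℕ}
    (h : Strg (lim τ) F (Finset.range n)) : SM (lim τ) F := by
  intro X hX
  obtain ⟨m, hm⟩ := subset_range X
  have h1 : Strg (lim τ) F (Finset.range (max n m)) :=
    h.trans (strg_range_le τ (le_max_left _ _))
  exact h1.restrict _ hX (hm.trans (Finset.range_subset_range.2 (le_max_right _ _)))

theorem gen_lim (τ : ℕ → Tk) (hτ : ∀ (t : Tk) (N : ℕ), ∃ n, N ≤ n ∧ τ n = t) :
    Gen (lim τ) fun n => (τ n).2.2 := by
  refine ⟨lim_symm τ, sm_of_range τ (strg_range τ 0), fun X => ?_, fun F hF r hr h => ?_⟩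
  · obtain ⟨n, hn⟩ := subset_range X
    exact ⟨Finset.range n, hn, sm_of_range τ Strg.refl⟩
  · obtain ⟨N, hN⟩ := subset_range F
    obtain ⟨n, hn, ht⟩ := hτ (F, Finsupp.onFinset F (fun y => if y ∈ F then r y else 0)
      (fun y hy => by by_contra h1; exact hy (if_neg h1)), h) N
    have hFn : F ⊆ Finset.range n := hN.trans (Finset.range_subset_range.2 hn)
    have hv : ∀ y ∈ F, (τ n).2.1 y = r y := fun y hy => by
      rw [ht]
      simp only [Finsupp.onFinset_apply, if_pos hy]
    have h0 := strg_range τ n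
    obtain ⟨A, K, hA, h1, h2, h3, h4, h5, h6, h7⟩ := step_lim τ n h0
    have h8 := h7 (by
      rw [ht]
      exact ⟨hFn, hF _ hFn, hr.congr (fun _ _ _ _ _ => rfl) fun y hy => by
        rw [← hv y hy, ht]⟩)
    have hAF : A = F := by rw [h8.1, ht]
    subst hAF
    refine ⟨n, fun h9 => absurd (Finset.mem_range.1 (hFn h9)) (lt_irrefl _), fun y hy => ?_, ?_,
      sm_of_range τ (n := n + 1) ?_⟩
    · rw [h8.2 y hy, hv y hy]
    · rw [ht]
    · rw [← range_ins]
      exact h1.amalgam (lim_symm τ) n K Finset.notMem_range_self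
        (fun y hy => h5 y (Finset.mem_range.1 (hA hy)))
        (fun y hy hn => h6 y (Finset.mem_range.1 hy) hn) (by rw [Finset.card_range]; exact h3)

/-- **Existence** of a generic labelled set over every countable nonempty set of colours. -/
theorem exists_gen (H : Type) [Nonempty H] [Countable H] :
    ∃ (ρ : ℕ → ℕ → ℕ) (π : ℕ → H), Gen ρ π := by
  obtain ⟨τ, hτ⟩ := exists_tasks
  obtain ⟨e, he⟩ := exists_surjective_nat H
  have g := gen_lim τ hτ
  refine ⟨lim τ, fun n => e (τ n).2.2, g.symm, g.emp, g.fin, fun F hF r hr h => ?_⟩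
  obtain ⟨k, rfl⟩ := he h
  obtain ⟨x, h1, h2, h3, h4⟩ := g.ext F hF r hr k
  exact ⟨x, h1, h2, by rw [← h3], h4⟩

theorem thm_EX : St_EX := by
  obtain ⟨ρ, π, h⟩ := exists_gen ℕ
  exact ⟨ρ, π, h⟩

end VSG
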