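import Pool.Agent.VSG.St
import Pool.Agent.VSG.EX

/-!
# Existence of the generic coding of a structure
-/

set_option autoImplicit false

namespace VSG

open FirstOrder Set Pool.Agent.Helper5.DU Pool.Agent.Helper6.Str Pool.Agent.Helper79.VC

/-- the generic coding of a structure on `ℕ` exists -/
theorem thm_CE : St_CE := by
  intro L e1 e2 A
  obtain ⟨ρ, π, hg⟩ := thm_EX
  refine ⟨mkN
    (fun i x => (∃ R : L.Relations 1, i = 2 * e1 R ∧ A.RelMap R ![π x]) ∨
      ∃ Q : L.Relations 2, i = 2 * e2 Q + 1 ∧ A.RelMap Q ![π x, π x])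
    (fun i x y => x ≠ y ∧ ρ x y = i.unpair.1 ∧ Dat e2 A π i.unpair.2 x y), ρ, π, hg, ?_, ?_⟩
  · intro i x
    exact Iff.rfl
  · intro i x y
    exact Iff.rfl

end VSG
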