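import Pool.Agent.VSG.St

/-!
# The class of codings is definable (CF)
-/

set_option autoImplicit false

namespace VSG

open FirstOrder Set Pool.Agent.Helper5.DU Pool.Agent.Helper6.Str

/-! ### Definability -/

section dfn

theorem CF_congr {L : FirstOrder.Language.{0, 0}} {n : ℕ}
    {P Q : L.Structure ℕ → (Fin n → ℕ) → Prop} (h : Dfn P) (hPQ : ∀ S v, P S v ↔ Q S v) :
    Dfn Q := by
  obtain ⟨φ, hφ⟩ := h
  exact ⟨φ, fun S v => (hφ S v).trans (hPQ S v)⟩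

variable (hd : St_DFN)

include hd

theorem CF_not {n : ℕ} {P : LN.Structure ℕ → (Fin n → ℕ) → Prop} (h : Dfn P) :
    Dfn fun S v => ¬ P S v := (hd LN).1 n P h

theorem CF_alli {n : ℕ} {ι : Type} [Countable ι] {P : ι → LN.Structure ℕ → (Fin n → ℕ) → Prop}
    (h : ∀ i, Dfn (P i)) : Dfn fun S v => ∀ i, P i S v := (hd LN).2.1 n ι P h

theorem CF_exi {n : ℕ} {ι : Type} [Countable ι] {P : ι → LN.Structure ℕ → (Fin n → ℕ) → Prop}
    (h : ∀ i, Dfn (P i)) : Dfn fun S v => ∃ i, P i S v := (hd LN).2.2.1 n ι P h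

theorem CF_and {n : ℕ} {P Q : LN.Structure ℕ → (Fin n → ℕ) → Prop} (h : Dfn P) (h' : Dfn Q) :
    Dfn fun S v => P S v ∧ Q S v := ((hd LN).2.2.2.1 n P Q h h').1

theorem CF_or {n : ℕ} {P Q : LN.Structure ℕ → (Fin n → ℕ) → Prop} (h : Dfn P) (h' : Dfn Q) :
    Dfn fun S v => P S v ∨ Q S v := ((hd LN).2.2.2.1 n P Q h h').2.1

theorem CF_imp {n : ℕ} {P Q : LN.Structure ℕ → (Fin n → ℕ) → Prop} (h : Dfn P) (h' : Dfn Q) :
    Dfn fun S v => P S v → Q S v := ((hd LN).2.2.2.1 n P Q h h').2.2.1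

theorem CF_iff {n : ℕ} {P Q : LN.Structure ℕ → (Fin n → ℕ) → Prop} (h : Dfn P) (h' : Dfn Q) :
    Dfn fun S v => P S v ↔ Q S v := ((hd LN).2.2.2.1 n P Q h h').2.2.2

theorem CF_const {n : ℕ} (p : Prop) : Dfn (L := LN) (n := n) fun _ _ => p := (hd LN).2.2.2.2.1 n p

theorem CF_eq {n : ℕ} (i j : Fin n) : Dfn (L := LN) fun _ v => v i = v j :=
  (hd LN).2.2.2.2.2.1 n i j

theorem CF_Bn {n : ℕ} (i : ℕ) (a b : Fin n) : Dfn fun (S : LN.Structure ℕ) v =>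
    Bn S i (v a) (v b) := by
  refine CF_congr ((hd LN).2.2.2.2.2.2.1 n 2 (RN.bin i : LN.Relations 2) ![a, b]) fun S v => ?_
  have h : (fun j => v (![a, b] j)) = ![v a, v b] := by
    funext j
    fin_cases j <;> rfl
  rw [h]
  rfl

theorem CF_Un {n : ℕ} (i : ℕ) (a : Fin n) : Dfn fun (S : LN.Structure ℕ) v => Un S i (v a) := by
  refine CF_congr ((hd LN).2.2.2.2.2.2.1 n 1 (RN.col i : LN.Relations 1) ![a]) fun S v => ?_
  have h : (fun j => v (![a] j)) = ![v a] := by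
    funext j
    fin_cases j
    rfl
  rw [h]
  rfl

theorem CF_allv {k : ℕ} {P : LN.Structure ℕ → (Fin k → ℕ) → Prop} (h : Dfn P) :
    Dfn (n := 0) fun S _ => ∀ w : Fin k → ℕ, P S w := by
  have h1 := (hd LN).2.2.2.2.2.2.2.1 k (0 + k) (Fin.natAdd 0) P h
  have h2 := ((hd LN).2.2.2.2.2.2.2.2 0 k _ h1).2
  refine CF_congr h2 fun S v => forall_congr' fun w => ?_
  have h3 : (fun i => Fin.append v w (Fin.natAdd 0 i)) = w := by
    funext i
    exact Fin.append_right v w i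
  rw [h3]

theorem CF_exv {k : ℕ} {P : LN.Structure ℕ → (Fin k → ℕ) → Prop} (h : Dfn P) :
    Dfn (n := 0) fun S _ => ∃ w : Fin k → ℕ, P S w := by
  have h1 := (hd LN).2.2.2.2.2.2.2.1 k (0 + k) (Fin.natAdd 0) P h
  have h2 := ((hd LN).2.2.2.2.2.2.2.2 0 k _ h1).1
  refine CF_congr h2 fun S v => exists_congr fun w => ?_
  have h3 : (fun i => Fin.append v w (Fin.natAdd 0 i)) = w := by
    funext i
    exact Fin.append_right v w i
  rw [h3]

theorem CF_eqv {n : ℕ} (a b : Fin n) : Dfn fun (S : LN.Structure ℕ) v => eqv S (v a) (v b) :=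
  CF_or hd (CF_eq hd a b) (CF_exi hd fun c => CF_Bn hd (Nat.pair c 1) a b)

end dfn

/-! ### The axioms -/

section
variable {L : FirstOrder.Language.{0, 0}} (e1 : L.Relations 1 → ℕ) (e2 : L.Relations 2 → ℕ)

/-- the binary relation `Q` of the coded structure -/
def CF_q (S : LN.Structure ℕ) (Q : L.Relations 2) (x y : ℕ) : Prop :=
  (x ≠ y ∧ ∃ a, Bn S (Nat.pair a (2 * e2 Q + 3)) x y) ∨ (x = y ∧ Un S (2 * e2 Q + 1) x)

/-- the axioms of codings -/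
structure CF_Ax (S : LN.Structure ℕ) : Prop where
  irr : ∀ i x, ¬ Bn S i x x
  lab1 : ∀ x y, x ≠ y → ∃ a, Bn S (Nat.pair a 0) x y
  lab2 : ∀ a a' x y, Bn S (Nat.pair a 0) x y → Bn S (Nat.pair a' 0) x y → a = a'
  low : ∀ a b x y, Bn S (Nat.pair a b) x y → Bn S (Nat.pair a 0) x y
  esym : ∀ x y, eqv S x y → eqv S y x
  etr : ∀ x y z, eqv S x y → eqv S y z → eqv S x z
  inf : ∀ k : ℕ, ∃ v : Fin k → ℕ, ∀ i j, i ≠ j → ¬ eqv S (v i) (v j)
  two : ∀ a x y, Bn S (Nat.pair a 2) x y ↔ Bn S (Nat.pair a 0) x y ∧ ¬ eqv S x y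
  qr : ∀ (Q : L.Relations 2) x y x' y', eqv S x x' → eqv S y y' → CF_q e2 S Q x y →
    CF_q e2 S Q x' y'
  ur : ∀ (R : L.Relations 1) x x', eqv S x x' → Un S (2 * e1 R) x → Un S (2 * e1 R) x'
  uo : ∀ i x, Un S i x → (∃ R : L.Relations 1, i = 2 * e1 R) ∨
    ∃ Q : L.Relations 2, i = 2 * e2 Q + 1
  bf : ∀ a (Q : L.Relations 2) x y, Bn S (Nat.pair a (2 * e2 Q + 4)) x y ↔
    Bn S (Nat.pair a 0) x y ∧ ¬ CF_q e2 S Q x y
  bo : ∀ a b x y, Bn S (Nat.pair a b) x y → b = 0 ∨ b = 1 ∨ b = 2 ∨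
    (∃ Q : L.Relations 2, b = 2 * e2 Q + 3) ∨ ∃ Q : L.Relations 2, b = 2 * e2 Q + 4
  gen : GenE (lab S) (eqv S)

variable {e1 e2}

theorem CF_dq (hd : St_DFN) {n : ℕ} (Q : L.Relations 2) (a b : Fin n) :
    Dfn fun (S : LN.Structure ℕ) v => CF_q e2 S Q (v a) (v b) :=
  CF_or hd (CF_and hd (CF_not hd (CF_eq hd a b))
    (CF_exi hd fun c => CF_Bn hd (Nat.pair c (2 * e2 Q + 3)) a b))
    (CF_and hd (CF_eq hd a b) (CF_Un hd (2 * e2 Q + 1) a))

theorem CF_dax (hd : St_DFN) (hg : St_GDF) [Countable (L.Relations 1)]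
    [Countable (L.Relations 2)] :
    Dfn (n := 0) fun (S : LN.Structure ℕ) _ => CF_Ax e1 e2 S := by
  have irr : Dfn (n := 0) fun (S : LN.Structure ℕ) _ => ∀ i x, ¬ Bn S i x x :=
    CF_alli hd fun i => CF_congr (CF_allv hd (k := 1) (CF_not hd (CF_Bn hd i 0 0)))
      fun S _ => ⟨fun h x => h ![x], fun h w => h (w 0)⟩
  have lab1 : Dfn (n := 0) fun (S : LN.Structure ℕ) _ =>
      ∀ x y, x ≠ y → ∃ a, Bn S (Nat.pair a 0) x y :=
    CF_congr (CF_allv hd (k := 2) (CF_imp hd (CF_not hd (CF_eq hd 0 1))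
      (CF_exi hd fun a => CF_Bn hd (Nat.pair a 0) 0 1)))
      fun S _ => ⟨fun h x y => h ![x, y], fun h w => h (w 0) (w 1)⟩
  have lab2 : Dfn (n := 0) fun (S : LN.Structure ℕ) _ => ∀ a a' x y,
      Bn S (Nat.pair a 0) x y → Bn S (Nat.pair a' 0) x y → a = a' :=
    CF_alli hd fun a => CF_alli hd fun a' => CF_congr (CF_allv hd (k := 2)
      (CF_imp hd (CF_Bn hd (Nat.pair a 0) 0 1) (CF_imp hd (CF_Bn hd (Nat.pair a' 0) 0 1)
        (CF_const hd (a = a')))))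
      fun S _ => ⟨fun h x y => h ![x, y], fun h w => h (w 0) (w 1)⟩
  have low : Dfn (n := 0) fun (S : LN.Structure ℕ) _ => ∀ a b x y,
      Bn S (Nat.pair a b) x y → Bn S (Nat.pair a 0) x y :=
    CF_alli hd fun a => CF_alli hd fun b => CF_congr (CF_allv hd (k := 2)
      (CF_imp hd (CF_Bn hd (Nat.pair a b) 0 1) (CF_Bn hd (Nat.pair a 0) 0 1)))
      fun S _ => ⟨fun h x y => h ![x, y], fun h w => h (w 0) (w 1)⟩
  have esym : Dfn (n := 0) fun (S : LN.Structure ℕ) _ => ∀ x y, eqv S x y → eqv S y x :=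
    CF_congr (CF_allv hd (k := 2) (CF_imp hd (CF_eqv hd 0 1) (CF_eqv hd 1 0)))
      fun S _ => ⟨fun h x y => h ![x, y], fun h w => h (w 0) (w 1)⟩
  have etr : Dfn (n := 0) fun (S : LN.Structure ℕ) _ =>
      ∀ x y z, eqv S x y → eqv S y z → eqv S x z :=
    CF_congr (CF_allv hd (k := 3) (CF_imp hd (CF_eqv hd 0 1) (CF_imp hd (CF_eqv hd 1 2)
      (CF_eqv hd 0 2))))
      fun S _ => ⟨fun h x y z => h ![x, y, z], fun h w => h (w 0) (w 1) (w 2)⟩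
  have inf : Dfn (n := 0) fun (S : LN.Structure ℕ) _ =>
      ∀ k : ℕ, ∃ v : Fin k → ℕ, ∀ i j, i ≠ j → ¬ eqv S (v i) (v j) :=
    CF_alli hd fun k => CF_exv hd (k := k) (CF_alli hd fun i => CF_alli hd fun j =>
      CF_imp hd (CF_const hd (i ≠ j)) (CF_not hd (CF_eqv hd i j)))
  have two : Dfn (n := 0) fun (S : LN.Structure ℕ) _ => ∀ a x y,
      Bn S (Nat.pair a 2) x y ↔ Bn S (Nat.pair a 0) x y ∧ ¬ eqv S x y :=
    CF_alli hd fun a => CF_congr (CF_allv hd (k := 2)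
      (CF_iff hd (CF_Bn hd (Nat.pair a 2) 0 1) (CF_and hd (CF_Bn hd (Nat.pair a 0) 0 1)
        (CF_not hd (CF_eqv hd 0 1)))))
      fun S _ => ⟨fun h x y => h ![x, y], fun h w => h (w 0) (w 1)⟩
  have qr : Dfn (n := 0) fun (S : LN.Structure ℕ) _ => ∀ (Q : L.Relations 2) x y x' y',
      eqv S x x' → eqv S y y' → CF_q e2 S Q x y → CF_q e2 S Q x' y' :=
    CF_alli hd fun Q => CF_congr (CF_allv hd (k := 4) (CF_imp hd (CF_eqv hd 0 2)
      (CF_imp hd (CF_eqv hd 1 3) (CF_imp hd (CF_dq hd (e2 := e2) Q 0 1)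
        (CF_dq hd (e2 := e2) Q 2 3)))))
      fun S _ => ⟨fun h x y x' y' => h ![x, y, x', y'], fun h w => h (w 0) (w 1) (w 2) (w 3)⟩
  have ur : Dfn (n := 0) fun (S : LN.Structure ℕ) _ => ∀ (R : L.Relations 1) x x',
      eqv S x x' → Un S (2 * e1 R) x → Un S (2 * e1 R) x' :=
    CF_alli hd fun R => CF_congr (CF_allv hd (k := 2) (CF_imp hd (CF_eqv hd 0 1)
      (CF_imp hd (CF_Un hd (2 * e1 R) 0) (CF_Un hd (2 * e1 R) 1))))
      fun S _ => ⟨fun h x y => h ![x, y], fun h w => h (w 0) (w 1)⟩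
  have uo : Dfn (n := 0) fun (S : LN.Structure ℕ) _ => ∀ i x, Un S i x →
      (∃ R : L.Relations 1, i = 2 * e1 R) ∨ ∃ Q : L.Relations 2, i = 2 * e2 Q + 1 :=
    CF_alli hd fun i => CF_congr (CF_allv hd (k := 1) (CF_imp hd (CF_Un hd i 0)
      (CF_const hd ((∃ R : L.Relations 1, i = 2 * e1 R) ∨ ∃ Q : L.Relations 2, i = 2 * e2 Q + 1))))
      fun S _ => ⟨fun h x => h ![x], fun h w => h (w 0)⟩
  have bf : Dfn (n := 0) fun (S : LN.Structure ℕ) _ => ∀ a (Q : L.Relations 2) x y,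
      Bn S (Nat.pair a (2 * e2 Q + 4)) x y ↔ Bn S (Nat.pair a 0) x y ∧ ¬ CF_q e2 S Q x y :=
    CF_alli hd fun a => CF_alli hd fun Q => CF_congr (CF_allv hd (k := 2)
      (CF_iff hd (CF_Bn hd (Nat.pair a (2 * e2 Q + 4)) 0 1)
        (CF_and hd (CF_Bn hd (Nat.pair a 0) 0 1) (CF_not hd (CF_dq hd (e2 := e2) Q 0 1)))))
      fun S _ => ⟨fun h x y => h ![x, y], fun h w => h (w 0) (w 1)⟩
  have bo : Dfn (n := 0) fun (S : LN.Structure ℕ) _ => ∀ a b x y,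
      Bn S (Nat.pair a b) x y → b = 0 ∨ b = 1 ∨ b = 2 ∨
        (∃ Q : L.Relations 2, b = 2 * e2 Q + 3) ∨ ∃ Q : L.Relations 2, b = 2 * e2 Q + 4 :=
    CF_alli hd fun a => CF_alli hd fun b => CF_congr (CF_allv hd (k := 2)
      (CF_imp hd (CF_Bn hd (Nat.pair a b) 0 1) (CF_const hd (b = 0 ∨ b = 1 ∨ b = 2 ∨
        (∃ Q : L.Relations 2, b = 2 * e2 Q + 3) ∨ ∃ Q : L.Relations 2, b = 2 * e2 Q + 4))))
      fun S _ => ⟨fun h x y => h ![x, y], fun h w => h (w 0) (w 1)⟩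
  refine CF_congr (CF_and hd irr (CF_and hd lab1 (CF_and hd lab2 (CF_and hd low (CF_and hd esym
    (CF_and hd etr (CF_and hd inf (CF_and hd two (CF_and hd qr (CF_and hd ur (CF_and hd uo
    (CF_and hd bf (CF_and hd bo hg))))))))))))) fun S _ => ?_
  constructor
  · rintro ⟨h1, h2, h3, h4, h5, h6, h7, h8, h9, h10, h11, h12, h13, h14⟩
    exact ⟨h1, h2, h3, h4, h5, h6, h7, h8, h9, h10, h11, h12, h13, h14⟩
  · rintro ⟨h1, h2, h3, h4, h5, h6, h7, h8, h9, h10, h11, h12, h13, h14⟩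
    exact ⟨h1, h2, h3, h4, h5, h6, h7, h8, h9, h10, h11, h12, h13, h14⟩

end

/-! ### Labels off the diagonal -/

theorem CF_adr {V : Type} {ρ ρ' : V → V → ℕ} (h : ∀ x y, x ≠ y → ρ x y = ρ' x y) {P : Finset V}
    {r : V → ℕ} (ha : AdR ρ P r) : AdR ρ' P r :=
  ⟨fun y hy z hz hyz => (h y z hyz) ▸ ha.1 y hy z hz hyz, ha.2⟩

open Classical in
theorem CF_adm {V : Type} {ρ ρ' : V → V → ℕ} (h : ∀ x y, x ≠ y → ρ x y = ρ' x y) {P : Finset V}
    {x : V} (hx : x ∉ P) (ha : Adm ρ P x) : Adm ρ' P x := by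
  have hxy : ∀ y ∈ P, ρ x y = ρ' x y := fun y hy => h x y fun h1 => hx (h1 ▸ hy)
  refine ⟨fun y hy z hz hyz => ?_, fun m => ?_⟩
  · rw [← h y z hyz, ← hxy y hy, ← hxy z hz]
    exact ha.1 y hy z hz hyz
  · have h1 : (P.filter fun y => ρ' x y ≤ m) = P.filter fun y => ρ x y ≤ m := by
      refine Finset.filter_congr fun y hy => ?_
      rw [hxy y hy]
    rw [h1]
    exact ha.2 m

theorem CF_strg {V : Type} {ρ ρ' : V → V → ℕ} (h : ∀ x y, x ≠ y → ρ x y = ρ' x y)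
    {F X : Finset V} (hs : Strg ρ F X) : Strg ρ' F X := by
  induction hs with
  | refl => exact Strg.refl
  | step X x _ hx ha ih => exact ih.step _ _ hx (CF_adm h hx ha)

theorem CF_sm {V : Type} {ρ ρ' : V → V → ℕ} (h : ∀ x y, x ≠ y → ρ x y = ρ' x y)
    {F : Finset V} (hs : SM ρ F) : SM ρ' F := fun X hX => CF_strg h (hs X hX)

/-! ### From codings to the axioms -/

section
variable {L : FirstOrder.Language.{0, 0}} {e1 : L.Relations 1 → ℕ} {e2 : L.Relations 2 → ℕ}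

theorem CF_sur {A : L.Structure ℕ} {S : LN.Structure ℕ} {ρ : ℕ → ℕ → ℕ} {π : ℕ → ℕ}
    (h : IsCod e1 e2 A S ρ π) : Function.Surjective π := by
  classical
  intro z
  obtain ⟨x, _, _, hx, _⟩ := h.gen.ext ∅ h.gen.emp (fun _ => 0)
    ⟨fun y hy => absurd hy (Finset.notMem_empty y), fun m => by simp⟩ z
  exact ⟨x, hx⟩

theorem CF_bn {A : L.Structure ℕ} {S : LN.Structure ℕ} {ρ : ℕ → ℕ → ℕ} {π : ℕ → ℕ}
    (h : IsCod e1 e2 A S ρ π) (a b x y : ℕ) : Bn S (Nat.pair a b) x y ↔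
      x ≠ y ∧ ρ x y = a ∧ Dat e2 A π b x y := by
  rw [h.bin, Nat.unpair_pair]

theorem CF_b0 {A : L.Structure ℕ} {S : LN.Structure ℕ} {ρ : ℕ → ℕ → ℕ} {π : ℕ → ℕ}
    (h : IsCod e1 e2 A S ρ π) (a x y : ℕ) : Bn S (Nat.pair a 0) x y ↔ x ≠ y ∧ ρ x y = a := by
  rw [CF_bn h]
  exact ⟨fun h1 => ⟨h1.1, h1.2.1⟩, fun h1 => ⟨h1.1, h1.2, Or.inl rfl⟩⟩

theorem CF_b1 {A : L.Structure ℕ} {S : LN.Structure ℕ} {ρ : ℕ → ℕ → ℕ} {π : ℕ → ℕ}
    (h : IsCod e1 e2 A S ρ π) (a x y : ℕ) : Bn S (Nat.pair a 1) x y ↔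
      x ≠ y ∧ ρ x y = a ∧ π x = π y := by
  rw [CF_bn h]
  refine and_congr_right fun _ => and_congr_right fun _ => ⟨?_, fun h1 => Or.inr (Or.inl ⟨rfl, h1⟩)⟩
  rintro (h1 | h1 | h1 | ⟨Q, h1, _⟩ | ⟨Q, h1, _⟩)
  · omega
  · exact h1.2
  · omega
  · omega
  · omega

theorem CF_b2 {A : L.Structure ℕ} {S : LN.Structure ℕ} {ρ : ℕ → ℕ → ℕ} {π : ℕ → ℕ}
    (h : IsCod e1 e2 A S ρ π) (a x y : ℕ) : Bn S (Nat.pair a 2) x y ↔
      x ≠ y ∧ ρ x y = a ∧ π x ≠ π y := by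
  rw [CF_bn h]
  refine and_congr_right fun _ => and_congr_right fun _ =>
    ⟨?_, fun h1 => Or.inr (Or.inr (Or.inl ⟨rfl, h1⟩))⟩
  rintro (h1 | h1 | h1 | ⟨Q, h1, _⟩ | ⟨Q, h1, _⟩)
  · omega
  · omega
  · exact h1.2
  · omega
  · omega

theorem CF_b3 (h2 : Function.Injective e2) {A : L.Structure ℕ} {S : LN.Structure ℕ}
    {ρ : ℕ → ℕ → ℕ} {π : ℕ → ℕ} (h : IsCod e1 e2 A S ρ π) (Q : L.Relations 2) (a x y : ℕ) :
    Bn S (Nat.pair a (2 * e2 Q + 3)) x y ↔ x ≠ y ∧ ρ x y = a ∧ A.RelMap Q ![π x, π y] := by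
  rw [CF_bn h]
  refine and_congr_right fun _ => and_congr_right fun _ =>
    ⟨?_, fun h1 => Or.inr (Or.inr (Or.inr (Or.inl ⟨Q, rfl, h1⟩)))⟩
  rintro (h1 | h1 | h1 | ⟨Q', h1, h3⟩ | ⟨Q', h1, _⟩)
  · omega
  · omega
  · omega
  · have h4 : Q = Q' := h2 (by omega)
    rw [h4]
    exact h3
  · omega

theorem CF_b4 (h2 : Function.Injective e2) {A : L.Structure ℕ} {S : LN.Structure ℕ}
    {ρ : ℕ → ℕ → ℕ} {π : ℕ → ℕ} (h : IsCod e1 e2 A S ρ π) (Q : L.Relations 2) (a x y : ℕ) :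
    Bn S (Nat.pair a (2 * e2 Q + 4)) x y ↔ x ≠ y ∧ ρ x y = a ∧ ¬ A.RelMap Q ![π x, π y] := by
  rw [CF_bn h]
  refine and_congr_right fun _ => and_congr_right fun _ =>
    ⟨?_, fun h1 => Or.inr (Or.inr (Or.inr (Or.inr ⟨Q, rfl, h1⟩)))⟩
  rintro (h1 | h1 | h1 | ⟨Q', h1, _⟩ | ⟨Q', h1, h3⟩)
  · omega
  · omega
  · omega
  · omega
  · have h4 : Q = Q' := h2 (by omega)
    rw [h4]
    exact h3

theorem CF_ev {A : L.Structure ℕ} {S : LN.Structure ℕ} {ρ : ℕ → ℕ → ℕ} {π : ℕ → ℕ}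
    (h : IsCod e1 e2 A S ρ π) (x y : ℕ) : eqv S x y ↔ π x = π y := by
  constructor
  · rintro (h1 | ⟨a, h1⟩)
    · rw [h1]
    · exact ((CF_b1 h a x y).1 h1).2.2
  · intro h1
    by_cases hxy : x = y
    · exact Or.inl hxy
    · exact Or.inr ⟨ρ x y, (CF_b1 h _ x y).2 ⟨hxy, rfl, h1⟩⟩

theorem CF_dia (h2 : Function.Injective e2) {A : L.Structure ℕ} {S : LN.Structure ℕ}
    {ρ : ℕ → ℕ → ℕ} {π : ℕ → ℕ} (h : IsCod e1 e2 A S ρ π) (Q : L.Relations 2) (x : ℕ) :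
    Un S (2 * e2 Q + 1) x ↔ A.RelMap Q ![π x, π x] := by
  rw [h.col]
  constructor
  · rintro (⟨R, h1, _⟩ | ⟨Q', h1, h3⟩)
    · omega
    · have h4 : Q = Q' := h2 (by omega)
      rw [h4]
      exact h3
  · intro h1
    exact Or.inr ⟨Q, rfl, h1⟩

theorem CF_col (h1 : Function.Injective e1) {A : L.Structure ℕ} {S : LN.Structure ℕ}
    {ρ : ℕ → ℕ → ℕ} {π : ℕ → ℕ} (h : IsCod e1 e2 A S ρ π) (R : L.Relations 1) (x : ℕ) :
    Un S (2 * e1 R) x ↔ A.RelMap R ![π x] := by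
  rw [h.col]
  constructor
  · rintro (⟨R', h3, h4⟩ | ⟨Q', h3, _⟩)
    · have h5 : R = R' := h1 (by omega)
      rw [h5]
      exact h4
    · omega
  · intro h3
    exact Or.inl ⟨R, rfl, h3⟩

theorem CF_qq (h2 : Function.Injective e2) {A : L.Structure ℕ} {S : LN.Structure ℕ}
    {ρ : ℕ → ℕ → ℕ} {π : ℕ → ℕ} (h : IsCod e1 e2 A S ρ π) (Q : L.Relations 2) (x y : ℕ) :
    CF_q e2 S Q x y ↔ A.RelMap Q ![π x, π y] := by
  constructor
  · rintro (⟨_, a, h1⟩ | ⟨h1, h3⟩)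
    · exact ((CF_b3 h2 h Q a x y).1 h1).2.2
    · rw [← h1]
      exact (CF_dia h2 h Q x).1 h3
  · intro h1
    by_cases hxy : x = y
    · refine Or.inr ⟨hxy, (CF_dia h2 h Q x).2 ?_⟩
      rw [← hxy] at h1
      exact h1
    · exact Or.inl ⟨hxy, ρ x y, (CF_b3 h2 h Q _ x y).2 ⟨hxy, rfl, h1⟩⟩

theorem CF_quo (h1 : Function.Injective e1) (h2 : Function.Injective e2) {A : L.Structure ℕ}
    {S : LN.Structure ℕ} {ρ : ℕ → ℕ → ℕ} {π : ℕ → ℕ} (h : IsCod e1 e2 A S ρ π) :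
    Quo e1 e2 A S π where
  sur := CF_sur h
  eqv := CF_ev h
  col := CF_col h1 h
  dia := CF_dia h2 h
  bin := fun Q x y hxy => ⟨fun ⟨a, h3⟩ => ((CF_b3 h2 h Q a x y).1 h3).2.2,
    fun h3 => ⟨ρ x y, (CF_b3 h2 h Q _ x y).2 ⟨hxy, rfl, h3⟩⟩⟩

theorem CF_lab {S : LN.Structure ℕ}
    (l1 : ∀ x y, x ≠ y → ∃ a, Bn S (Nat.pair a 0) x y) {x y : ℕ} (hxy : x ≠ y) :
    Bn S (Nat.pair (lab S x y) 0) x y := by
  classical
  have h := l1 x y hxy
  unfold lab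
  rw [dif_pos h]
  exact Nat.find_spec h

theorem CF_labr {A : L.Structure ℕ} {S : LN.Structure ℕ} {ρ : ℕ → ℕ → ℕ} {π : ℕ → ℕ}
    (h : IsCod e1 e2 A S ρ π) (x y : ℕ) (hxy : x ≠ y) : ρ x y = lab S x y :=
  ((CF_b0 h _ x y).1 (CF_lab (fun x y hxy => ⟨ρ x y, (CF_b0 h _ x y).2 ⟨hxy, rfl⟩⟩) hxy)).2

theorem CF_gen {A : L.Structure ℕ} {S : LN.Structure ℕ} {ρ : ℕ → ℕ → ℕ} {π : ℕ → ℕ}
    (h : IsCod e1 e2 A S ρ π) : GenE (lab S) (eqv S) := by
  have hl := CF_labr h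
  have hl' : ∀ x y, x ≠ y → lab S x y = ρ x y := fun x y hxy => (hl x y hxy).symm
  refine ⟨fun x y => ?_, CF_sm hl h.gen.emp, fun X => ?_, fun F hF r hr z => ?_⟩
  · by_cases hxy : x = y
    · rw [hxy]
    · rw [← hl x y hxy, ← hl y x (Ne.symm hxy)]
      exact h.gen.symm x y
  · obtain ⟨F, hF, hF'⟩ := h.gen.fin X
    exact ⟨F, hF, CF_sm hl hF'⟩
  · obtain ⟨x, h1, h2, h3, h4⟩ := h.gen.ext F (CF_sm hl' hF) r (CF_adr hl' hr) (π z)
    refine ⟨x, h1, fun y hy => ?_, (CF_ev h x z).2 h3, CF_sm hl ?_⟩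
    · rw [← hl x y fun h5 => h1 (h5 ▸ hy)]
      exact h2 y hy
    · exact h4

theorem CF_axs (h1 : Function.Injective e1) (h2 : Function.Injective e2) {A : L.Structure ℕ}
    {S : LN.Structure ℕ} {ρ : ℕ → ℕ → ℕ} {π : ℕ → ℕ} (h : IsCod e1 e2 A S ρ π) :
    CF_Ax e1 e2 S where
  irr := fun i x h3 => ((h.bin i x x).1 h3).1 rfl
  lab1 := fun x y hxy => ⟨ρ x y, (CF_b0 h _ x y).2 ⟨hxy, rfl⟩⟩
  lab2 := fun a a' x y h3 h4 => ((CF_b0 h a x y).1 h3).2.symm.trans ((CF_b0 h a' x y).1 h4).2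
  low := fun a b x y h3 => by
    rw [CF_bn h] at h3
    exact (CF_b0 h a x y).2 ⟨h3.1, h3.2.1⟩
  esym := fun x y h3 => (CF_ev h y x).2 ((CF_ev h x y).1 h3).symm
  etr := fun x y z h3 h4 => (CF_ev h x z).2 (((CF_ev h x y).1 h3).trans ((CF_ev h y z).1 h4))
  inf := fun k => by
    choose s hs using CF_sur h
    refine ⟨fun i => s i, fun i j hij h3 => hij (Fin.ext ?_)⟩
    have h4 := (CF_ev h _ _).1 h3
    rwa [hs, hs] at h4
  two := fun a x y => by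
    rw [CF_b2 h, CF_b0 h, CF_ev h, and_assoc]
  qr := fun Q x y x' y' h3 h4 h5 => by
    rw [CF_qq h2 h] at h5 ⊢
    rwa [← (CF_ev h _ _).1 h3, ← (CF_ev h _ _).1 h4]
  ur := fun R x x' h3 h4 => by
    rw [CF_col h1 h] at h4 ⊢
    rwa [← (CF_ev h _ _).1 h3]
  uo := fun i x h3 => by
    rcases (h.col i x).1 h3 with ⟨R, h4, _⟩ | ⟨Q, h4, _⟩
    · exact Or.inl ⟨R, h4⟩
    · exact Or.inr ⟨Q, h4⟩
  bf := fun a Q x y => by
    rw [CF_b4 h2 h, CF_b0 h, CF_qq h2 h, and_assoc]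
  bo := fun a b x y h3 => by
    rcases ((CF_bn h a b x y).1 h3).2.2 with h4 | h4 | h4 | ⟨Q, h4, _⟩ | ⟨Q, h4, _⟩
    · exact Or.inl h4
    · exact Or.inr (Or.inl h4.1)
    · exact Or.inr (Or.inr (Or.inl h4.1))
    · exact Or.inr (Or.inr (Or.inr (Or.inl ⟨Q, h4⟩)))
    · exact Or.inr (Or.inr (Or.inr (Or.inr ⟨Q, h4⟩)))
  gen := CF_gen h

end

/-! ### From the axioms to codings -/

section
variable {L : FirstOrder.Language.{0, 0}}

/-- the structure with given unary and binary relations -/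
@[instance_reducible]
def CF_A (hf : ∀ n, IsEmpty (L.Functions n)) (P1 : L.Relations 1 → ℕ → Prop)
    (P2 : L.Relations 2 → ℕ → ℕ → Prop) : L.Structure ℕ where
  funMap := fun {n} f _ => (hf n).elim f
  RelMap := fun {n} R v => match n, R, v with
    | 1, R, v => P1 R (v 0)
    | 2, R, v => P2 R (v 0) (v 1)
    | _, _, _ => False

variable {e1 : L.Relations 1 → ℕ} {e2 : L.Relations 2 → ℕ}

theorem CF_pi {S : LN.Structure ℕ} (h : CF_Ax e1 e2 S) :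
    ∃ π : ℕ → ℕ, Function.Surjective π ∧ ∀ x y, eqv S x y ↔ π x = π y := by
  classical
  let s : Setoid ℕ := ⟨eqv S, ⟨fun x => Or.inl rfl, fun {x y} h1 => h.esym x y h1,
    fun {x y z} h1 h3 => h.etr x y z h1 h3⟩⟩
  have hinf : Infinite (Quotient s) := by
    by_contra hfin
    rw [not_infinite_iff_finite] at hfin
    have hft := Fintype.ofFinite (Quotient s)
    obtain ⟨v, hv⟩ := h.inf (Fintype.card (Quotient s) + 1)
    have hinj : Function.Injective fun i : Fin (Fintype.card (Quotient s) + 1) =>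
        (Quotient.mk s (v i)) := by
      intro i j hij
      by_contra hne
      exact hv i j hne (Quotient.exact hij)
    have h3 := Fintype.card_le_of_injective _ hinj
    rw [Fintype.card_fin] at h3
    omega
  obtain ⟨hden⟩ := nonempty_denumerable (Quotient s)
  refine ⟨fun x => Denumerable.eqv (Quotient s) (Quotient.mk s x), fun z => ?_, fun x y => ?_⟩
  · obtain ⟨x, hx⟩ := Quotient.exists_rep ((Denumerable.eqv (Quotient s)).symm z)
    refine ⟨x, ?_⟩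
    show Denumerable.eqv (Quotient s) (Quotient.mk s x) = z
    rw [hx, Equiv.apply_symm_apply]
  · constructor
    · intro h1
      show Denumerable.eqv (Quotient s) (Quotient.mk s x) =
        Denumerable.eqv (Quotient s) (Quotient.mk s y)
      rw [Quotient.sound (s := s) h1]
    · intro h1
      exact Quotient.exact ((Denumerable.eqv (Quotient s)).injective h1)

theorem CF_rev (hb : Base L e1 e2) {S : LN.Structure ℕ} (h : CF_Ax e1 e2 S) :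
    ∃ (A : L.Structure ℕ) (ρ : ℕ → ℕ → ℕ) (π : ℕ → ℕ), IsCod e1 e2 A S ρ π := by
  classical
  obtain ⟨π, hs, he⟩ := CF_pi h
  let A : L.Structure ℕ := CF_A hb.fn (fun R z => ∃ x, π x = z ∧ Un S (2 * e1 R) x)
    fun Q z z' => ∃ x y, π x = z ∧ π y = z' ∧ CF_q e2 S Q x y
  have hrefl : ∀ x, eqv S x x := fun x => Or.inl rfl
  have hcol : ∀ (R : L.Relations 1) x, A.RelMap R ![π x] ↔ Un S (2 * e1 R) x := by
    intro R x
    constructor
    · rintro ⟨x', h1, h3⟩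
      exact h.ur R x' x ((he x' x).2 h1) h3
    · intro h1
      exact ⟨x, rfl, h1⟩
  have hqq : ∀ (Q : L.Relations 2) x y, A.RelMap Q ![π x, π y] ↔ CF_q e2 S Q x y := by
    intro Q x y
    constructor
    · rintro ⟨x', y', h1, h3, h4⟩
      exact h.qr Q x' y' x y ((he x' x).2 h1) ((he y' y).2 h3) h4
    · intro h1
      exact ⟨x, y, rfl, rfl, h1⟩
  have hdia : ∀ (Q : L.Relations 2) x, A.RelMap Q ![π x, π x] ↔ Un S (2 * e2 Q + 1) x := by
    intro Q x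
    rw [hqq]
    constructor
    · rintro (⟨h1, _⟩ | ⟨_, h1⟩)
      · exact absurd rfl h1
      · exact h1
    · intro h1
      exact Or.inr ⟨rfl, h1⟩
  have hlab : ∀ a x y, x ≠ y → (Bn S (Nat.pair a 0) x y ↔ lab S x y = a) := by
    intro a x y hxy
    have h1 := CF_lab h.lab1 hxy
    constructor
    · intro h3
      exact h.lab2 _ _ x y h1 h3
    · intro h3
      rw [← h3]
      exact h1
  refine ⟨A, lab S, π, ⟨⟨h.gen.symm, h.gen.emp, h.gen.fin, fun F hF r hr z => ?_⟩,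
    fun i x => ?_, fun i x y => ?_⟩⟩
  · obtain ⟨z', hz'⟩ := hs z
    obtain ⟨x, h1, h3, h4, h5⟩ := h.gen.ext F hF r hr z'
    exact ⟨x, h1, h3, ((he x z').1 h4).trans hz', h5⟩
  · constructor
    · intro h1
      rcases h.uo i x h1 with ⟨R, h3⟩ | ⟨Q, h3⟩
      · refine Or.inl ⟨R, h3, (hcol R x).2 ?_⟩
        rw [← h3]
        exact h1
      · refine Or.inr ⟨Q, h3, (hdia Q x).2 ?_⟩
        rw [← h3]
        exact h1
    · rintro (⟨R, h1, h3⟩ | ⟨Q, h1, h3⟩)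
      · rw [h1]
        exact (hcol R x).1 h3
      · rw [h1]
        exact (hdia Q x).1 h3
  · obtain ⟨a, b, hi⟩ : ∃ a b, i = Nat.pair a b := ⟨i.unpair.1, i.unpair.2, (Nat.pair_unpair i).symm⟩
    rw [hi, Nat.unpair_pair]
    show Bn S (Nat.pair a b) x y ↔ x ≠ y ∧ lab S x y = a ∧ Dat e2 A π b x y
    constructor
    · intro h1
      have hxy : x ≠ y := by
        intro h3
        rw [h3] at h1
        exact h.irr _ _ h1
      have h0 := h.low a b x y h1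
      refine ⟨hxy, (hlab a x y hxy).1 h0, ?_⟩
      rcases h.bo a b x y h1 with h3 | h3 | h3 | ⟨Q, h3⟩ | ⟨Q, h3⟩
      · exact Or.inl h3
      · rw [h3] at h1
        exact Or.inr (Or.inl ⟨h3, (he x y).1 (Or.inr ⟨a, h1⟩)⟩)
      · rw [h3] at h1
        exact Or.inr (Or.inr (Or.inl ⟨h3, fun h4 =>
          ((h.two a x y).1 h1).2 ((he x y).2 h4)⟩))
      · rw [h3] at h1
        exact Or.inr (Or.inr (Or.inr (Or.inl ⟨Q, h3, (hqq Q x y).2 (Or.inl ⟨hxy, a, h1⟩)⟩)))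
      · rw [h3] at h1
        exact Or.inr (Or.inr (Or.inr (Or.inr ⟨Q, h3, fun h4 =>
          ((h.bf a Q x y).1 h1).2 ((hqq Q x y).1 h4)⟩)))
    · rintro ⟨hxy, h1, h3⟩
      have h0 := (hlab a x y hxy).2 h1
      rcases h3 with h3 | ⟨h3, h4⟩ | ⟨h3, h4⟩ | ⟨Q, h3, h4⟩ | ⟨Q, h3, h4⟩
      · rw [h3]
        exact h0
      · rw [h3]
        rcases (he x y).2 h4 with h5 | ⟨a', h5⟩
        · exact absurd h5 hxy
        · rw [h.lab2 a a' x y h0 (h.low a' 1 x y h5)]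
          exact h5
      · rw [h3]
        exact (h.two a x y).2 ⟨h0, fun h5 => h4 ((he x y).1 h5)⟩
      · rw [h3]
        rcases (hqq Q x y).1 h4 with ⟨_, a', h5⟩ | ⟨h5, _⟩
        · rw [h.lab2 a a' x y h0 (h.low a' _ x y h5)]
          exact h5
        · exact absurd h5 hxy
      · rw [h3]
        exact (h.bf a Q x y).2 ⟨h0, fun h5 => h4 ((hqq Q x y).2 h5)⟩

/-- the class of codings is the class of models of a sentence -/
theorem thm_CF (hd : St_DFN) (hg : St_GDF) (hq : St_QF) : St_CF := by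
  intro L e1 e2 hb T
  have hc1 : Countable (L.Relations 1) := hb.i1.countable
  have hc2 : Countable (L.Relations 2) := hb.i2.countable
  have hcr : ∀ n, Countable (L.Relations n) := by
    intro n
    by_cases h1 : n = 1
    · rw [h1]
      exact hc1
    · by_cases h2 : n = 2
      · rw [h2]
        exact hc2
      · have := hb.ar n h1 h2
        infer_instance
  have hcf : ∀ n, Countable (L.Functions n) := by
    intro n
    have := hb.fn n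
    infer_instance
  have hsy : Countable L.Symbols := by
    have h1 : Countable ((l : ℕ) × L.Functions l) := inferInstance
    have h2 : Countable ((l : ℕ) × L.Relations l) := inferInstance
    exact inferInstanceAs (Countable (((l : ℕ) × L.Functions l) ⊕ ((l : ℕ) × L.Relations l)))
  have hcs : Countable L.Sentence := inferInstanceAs (Countable (L.Formula Empty))
  have hTc : Countable T := inferInstance
  choose χ hχ using fun φ : T => hq L e1 e2 hb 0 (φ : L.Sentence)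
  have h1 : Dfn (L := LN) (n := 0) fun S v => CF_Ax e1 e2 S ∧ ∀ φ : T, Sat S (χ φ) v :=
    CF_and hd (CF_dax hd hg) (CF_alli hd fun φ => ⟨χ φ, fun S v => Iff.rfl⟩)
  obtain ⟨ψ, hψ⟩ := h1
  refine ⟨ψ, ?_⟩
  have hT : ∀ (A : L.Structure ℕ) (S : LN.Structure ℕ) (π : ℕ → ℕ), Quo e1 e2 A S π →
      ((∀ φ : T, Sat S (χ φ) Fin.elim0) ↔ A ∈ VPF.ModF T) := by
    intro A S π hQ
    have h3 : ∀ φ : T, Sat S (χ φ) Fin.elim0 ↔
        @FirstOrder.Language.Sentence.Realize L ℕ A (φ : L.Sentence) := by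
      intro φ
      rw [hχ φ A S π hQ Fin.elim0]
      exact iff_of_eq (congrArg₂ (fun a b => @FirstOrder.Language.BoundedFormula.Realize L ℕ A
        Empty 0 (φ : L.Sentence) a b) (Subsingleton.elim _ _) (Subsingleton.elim _ _))
    constructor
    · intro h4
      refine ⟨fun φ hφ => ?_⟩
      exact (h3 ⟨φ, hφ⟩).1 (h4 ⟨φ, hφ⟩)
    · intro h4 φ
      exact (h3 φ).2 (h4.realize_of_mem φ φ.2)
  ext S
  show Sat S ψ Fin.elim0 ↔ _
  rw [hψ]
  constructor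
  · rintro ⟨h3, h4⟩
    obtain ⟨A, ρ, π, hcod⟩ := CF_rev hb h3
    exact ⟨A, (hT A S π (CF_quo hb.i1 hb.i2 hcod)).1 h4, ρ, π, hcod⟩
  · rintro ⟨A, hA, ρ, π, hcod⟩
    exact ⟨CF_axs hb.i1 hb.i2 hcod, (hT A S π (CF_quo hb.i1 hb.i2 hcod)).2 hA⟩

end

end VSG
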