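import Pool.Agent.VSG.St

/-!
# Codings of the structures of a class: transfer of perfect sets
-/

set_option autoImplicit false

namespace VSG

open FirstOrder Set Pool.Agent.Helper5.DU Pool.Agent.Helper6.Str Pool.Agent.Helper79.VC

/-- the class of the codings of the structures in `K` -/
def CodG {L : FirstOrder.Language.{0, 0}} (e1 : L.Relations 1 → ℕ) (e2 : L.Relations 2 → ℕ)
    (K : Set (L.Structure ℕ)) : Set (LN.Structure ℕ) :=
  {S | ∃ A : L.Structure ℕ, A ∈ K ∧ ∃ ρ π, IsCod e1 e2 A S ρ π}

/-! ### Clopen enumerations -/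

section
variable {X : Type} [TopologicalSpace X]

open Classical in
private theorem CP_count {P : X → ℕ → Prop} (hP : ∀ u, IsClopen {x | P x u}) (c : ℕ) :
    ∀ b : ℕ, IsClopen {x | Nat.count (P x) c = b} := by
  induction c with
  | zero =>
    intro b
    by_cases hb : 0 = b
    · have h1 : {x | Nat.count (P x) 0 = b} = univ := by
        subst hb
        ext x
        simp
      rw [h1]
      exact isClopen_univ
    · have h1 : {x | Nat.count (P x) 0 = b} = ∅ := by
        ext x
        simp [hb]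
      rw [h1]
      exact isClopen_empty
  | succ c ih =>
    intro b
    have h1 : {x | Nat.count (P x) (c + 1) = b} =
        ({x | P x c} ∩ ⋃ b' : {b' : Fin (b + 1) // b'.1 + 1 = b},
          {x | Nat.count (P x) c = b'.1.1}) ∪
        ({x | P x c}ᶜ ∩ {x | Nat.count (P x) c = b}) := by
      ext x
      simp only [mem_ofPred_eq, mem_union, mem_inter_iff, mem_compl_iff, mem_iUnion]
      rw [Nat.count_succ]
      by_cases hx : P x c
      · simp only [hx, if_true, true_and, not_true_eq_false, false_and, or_false]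
        constructor
        · intro h
          exact ⟨⟨⟨Nat.count (P x) c, by omega⟩, h⟩, rfl⟩
        · rintro ⟨⟨b', hb'⟩, h⟩
          rw [h]
          exact hb'
      · simp [hx]
    rw [h1]
    exact ((hP c).inter (isClopen_iUnion_of_finite fun b' => ih _)).union
      ((hP c).compl.inter (ih b))

private theorem CP_nth {P : X → ℕ → Prop} (hP : ∀ u, IsClopen {x | P x u})
    (hinf : ∀ x, ({a | P x a} : Set ℕ).Infinite) (a u : ℕ) :
    IsOpen {x | Nat.nth (P x) a = u} := by
  classical
  have h1 : {x | Nat.nth (P x) a = u} = {x | P x u} ∩ {x | Nat.count (P x) u = a} := by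
    ext x
    simp only [mem_ofPred_eq, mem_inter_iff]
    constructor
    · intro h1
      have h2 : P x u := by
        rw [← h1]
        exact Nat.nth_mem_of_infinite (hinf x) a
      refine ⟨h2, ?_⟩
      rw [← h1]
      exact Nat.count_nth_of_infinite (hinf x) a
    · rintro ⟨h1, h2⟩
      rw [← h2]
      exact Nat.nth_count h1
  rw [h1]
  exact ((hP u).inter (CP_count hP u a)).isOpen

private theorem CP_open {N : X → ℕ} (hN : ∀ u, IsOpen {x | N x = u}) {F : X → ℕ → Prop}
    (hF : ∀ u, IsOpen {x | F x u}) : IsOpen {x | F x (N x)} := by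
  have h1 : {x | F x (N x)} = ⋃ u : ℕ, {x | N x = u} ∩ {x | F x u} := by
    ext x
    simp only [mem_ofPred_eq, mem_iUnion, mem_inter_iff]
    constructor
    · exact fun h => ⟨_, rfl, h⟩
    · rintro ⟨u, h1, h2⟩
      rw [h1]
      exact h2
  rw [h1]
  exact isOpen_iUnion fun u => (hN u).inter (hF u)

private theorem CP_clopen {N : X → ℕ} (hN : ∀ u, IsOpen {x | N x = u}) {F : X → ℕ → Prop}
    (hF : ∀ u, IsClopen {x | F x u}) : IsClopen {x | F x (N x)} := by
  constructor
  · rw [← isOpen_compl_iff]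
    exact CP_open (F := fun x u => ¬ F x u) hN fun u => (hF u).compl.isOpen
  · exact CP_open hN fun u => (hF u).isOpen

end

/-! ### Facts about codings -/

section
variable {L : FirstOrder.Language.{0, 0}} {e1 : L.Relations 1 → ℕ} {e2 : L.Relations 2 → ℕ}
  {A : L.Structure ℕ} {S : LN.Structure ℕ} {ρ : ℕ → ℕ → ℕ} {π : ℕ → ℕ}

private theorem CP_sur (hS : IsCod e1 e2 A S ρ π) : Function.Surjective π := by
  intro h
  obtain ⟨x, -, -, hx, -⟩ := hS.gen.ext ∅ hS.gen.emp (fun _ => 0)
    ⟨fun y hy => absurd hy (Finset.notMem_empty y), fun m => by simp⟩ h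
  exact ⟨x, hx⟩

private theorem CP_eq (hS : IsCod e1 e2 A S ρ π) {u v : ℕ} (huv : u ≠ v) :
    π u = π v ↔ ∃ a, Bn S (Nat.pair a 1) u v := by
  constructor
  · intro h
    refine ⟨ρ u v, (hS.bin _ u v).2 ⟨huv, ?_, ?_⟩⟩
    · rw [Nat.unpair_pair]
    · rw [Nat.unpair_pair]
      exact Or.inr (Or.inl ⟨rfl, h⟩)
  · rintro ⟨a, ha⟩
    have h1 := ((hS.bin _ u v).1 ha).2.2
    rw [Nat.unpair_pair] at h1
    rcases h1 with h1 | ⟨-, h1⟩ | ⟨h1, -⟩ | ⟨Q, h1, -⟩ | ⟨Q, h1, -⟩
    · simp at h1
    · exact h1
    · simp at h1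
    · simp only at h1
      omega
    · simp only at h1
      omega

private theorem CP_ne (hS : IsCod e1 e2 A S ρ π) {u v : ℕ} (huv : u ≠ v) :
    ¬ π u = π v ↔ ∃ a, Bn S (Nat.pair a 2) u v := by
  constructor
  · intro h
    refine ⟨ρ u v, (hS.bin _ u v).2 ⟨huv, ?_, ?_⟩⟩
    · rw [Nat.unpair_pair]
    · rw [Nat.unpair_pair]
      exact Or.inr (Or.inr (Or.inl ⟨rfl, h⟩))
  · rintro ⟨a, ha⟩
    have h1 := ((hS.bin _ u v).1 ha).2.2
    rw [Nat.unpair_pair] at h1
    rcases h1 with h1 | ⟨h1, -⟩ | ⟨-, h1⟩ | ⟨Q, h1, -⟩ | ⟨Q, h1, -⟩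
    · simp at h1
    · simp at h1
    · exact h1
    · simp only at h1
      omega
    · simp only at h1
      omega

private theorem CP_rel (hB : Base L e1 e2) (hS : IsCod e1 e2 A S ρ π) (Q : L.Relations 2)
    {u v : ℕ} (huv : u ≠ v) :
    A.RelMap Q ![π u, π v] ↔ ∃ a, Bn S (Nat.pair a (2 * e2 Q + 3)) u v := by
  constructor
  · intro h
    refine ⟨ρ u v, (hS.bin _ u v).2 ⟨huv, ?_, ?_⟩⟩
    · rw [Nat.unpair_pair]
    · rw [Nat.unpair_pair]
      exact Or.inr (Or.inr (Or.inr (Or.inl ⟨Q, rfl, h⟩)))
  · rintro ⟨a, ha⟩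
    have h1 := ((hS.bin _ u v).1 ha).2.2
    rw [Nat.unpair_pair] at h1
    rcases h1 with h1 | ⟨h1, -⟩ | ⟨h1, -⟩ | ⟨Q', h1, h2⟩ | ⟨Q', h1, -⟩
    · simp only at h1
      omega
    · simp only at h1
      omega
    · simp only at h1
      omega
    · simp only at h1
      have h3 : Q = Q' := hB.i2 (by omega)
      rw [h3]
      exact h2
    · simp only at h1
      omega

private theorem CP_nrel (hB : Base L e1 e2) (hS : IsCod e1 e2 A S ρ π) (Q : L.Relations 2)
    {u v : ℕ} (huv : u ≠ v) :
    ¬ A.RelMap Q ![π u, π v] ↔ ∃ a, Bn S (Nat.pair a (2 * e2 Q + 4)) u v := by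
  constructor
  · intro h
    refine ⟨ρ u v, (hS.bin _ u v).2 ⟨huv, ?_, ?_⟩⟩
    · rw [Nat.unpair_pair]
    · rw [Nat.unpair_pair]
      exact Or.inr (Or.inr (Or.inr (Or.inr ⟨Q, rfl, h⟩)))
  · rintro ⟨a, ha⟩
    have h1 := ((hS.bin _ u v).1 ha).2.2
    rw [Nat.unpair_pair] at h1
    rcases h1 with h1 | ⟨h1, -⟩ | ⟨h1, -⟩ | ⟨Q', h1, -⟩ | ⟨Q', h1, h2⟩
    · simp only at h1
      omega
    · simp only at h1
      omega
    · simp only at h1
      omega
    · simp only at h1
      omega
    · simp only at h1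
      have h3 : Q = Q' := hB.i2 (by omega)
      rw [h3]
      exact h2

private theorem CP_un (hB : Base L e1 e2) (hS : IsCod e1 e2 A S ρ π) (R : L.Relations 1)
    (u : ℕ) : A.RelMap R ![π u] ↔ Un S (2 * e1 R) u := by
  rw [hS.col]
  constructor
  · exact fun h => Or.inl ⟨R, rfl, h⟩
  · rintro (⟨R', h1, h2⟩ | ⟨Q, h1, -⟩)
    · have h3 : R = R' := hB.i1 (by omega)
      rw [h3]
      exact h2
    · omega

private theorem CP_dia (hB : Base L e1 e2) (hS : IsCod e1 e2 A S ρ π) (Q : L.Relations 2)
    (u : ℕ) : A.RelMap Q ![π u, π u] ↔ Un S (2 * e2 Q + 1) u := by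
  rw [hS.col]
  constructor
  · exact fun h => Or.inr ⟨Q, rfl, h⟩
  · rintro (⟨R', h1, -⟩ | ⟨Q', h1, h2⟩)
    · omega
    · have h3 : Q = Q' := hB.i2 (by omega)
      rw [h3]
      exact h2

end

/-! ### The transfer -/

theorem thm_CPg (hu : St_CU) (L : FirstOrder.Language.{0, 0}) (e1 : L.Relations 1 → ℕ)
    (e2 : L.Relations 2 → ℕ) (hB : Base L e1 e2) (K : Set (L.Structure ℕ))
    (hiK : ∀ A A' : L.Structure ℕ, Iso A A' → A ∈ K → A' ∈ K) (hK : PerfK (CodG e1 e2 K)) :
    PerfK K := by
  classical
  obtain ⟨f, hf, hinj, hcl⟩ := hK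
  choose A hA ρ π hS using hf
  -- clopen facts of the codings
  have hUn : ∀ i u, IsClopen {x | Un (f x) i u} := fun i u => hcl 1 _ _
  have hBn : ∀ i u v, IsClopen {x | Bn (f x) i u v} := fun i u v => hcl 2 _ _
  have hEq : ∀ u v, IsClopen {x | π x u = π x v} := by
    intro u v
    by_cases huv : u = v
    · have h1 : {x | π x u = π x v} = univ := by
        ext x
        simp [huv]
      rw [h1]
      exact isClopen_univ
    · have h1 : {x | π x u = π x v} = ⋃ a : ℕ, {x | Bn (f x) (Nat.pair a 1) u v} := by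
        ext x
        simp only [mem_ofPred_eq, mem_iUnion]
        exact CP_eq (hS x) huv
      have h2 : {x | π x u = π x v}ᶜ = ⋃ a : ℕ, {x | Bn (f x) (Nat.pair a 2) u v} := by
        ext x
        simp only [mem_ofPred_eq, mem_iUnion, mem_compl_iff]
        exact CP_ne (hS x) huv
      constructor
      · rw [← isOpen_compl_iff, h2]
        exact isOpen_iUnion fun a => (hBn _ u v).isOpen
      · rw [h1]
        exact isOpen_iUnion fun a => (hBn _ u v).isOpen
  -- the least elements of the classes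
  let P : (ℕ → Bool) → ℕ → Prop := fun x u => ∀ w : Fin u, ¬ π x w = π x u
  have hP : ∀ u, IsClopen {x | P x u} := by
    intro u
    have h1 : {x | P x u} = ⋂ w : Fin u, {x | π x w = π x u}ᶜ := by
      ext x
      simp only [P, mem_ofPred_eq, mem_iInter, mem_compl_iff]
    rw [h1]
    exact isClopen_iInter_of_finite fun w => (hEq _ _).compl
  have hrep : ∀ x b, ∃ u, P x u ∧ π x u = b := by
    intro x b
    have hex : ∃ u, π x u = b := CP_sur (hS x) b
    refine ⟨Nat.find hex, ?_, Nat.find_spec hex⟩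
    intro w hw
    rw [Nat.find_spec hex] at hw
    exact Nat.find_min hex w.2 hw
  have hPinj : ∀ x u v, P x u → P x v → π x u = π x v → u = v := by
    intro x u v hu' hv huv
    rcases lt_trichotomy u v with h | h | h
    · exact absurd huv (hv ⟨u, h⟩)
    · exact h
    · exact absurd huv.symm (hu' ⟨v, h⟩)
  have hinf : ∀ x, ({a | P x a} : Set ℕ).Infinite := by
    intro x
    have h1 : (π x '' {a | P x a}) = univ := by
      ext b
      simp only [mem_image, mem_ofPred_eq, mem_univ, iff_true]
      exact hrep x b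
    intro hfin
    have h2 := hfin.image (π x)
    rw [h1] at h2
    exact Set.infinite_univ h2
  -- the enumeration of the coded structure
  have hbij : ∀ x, Function.Bijective fun a => π x (Nat.nth (P x) a) := by
    intro x
    constructor
    · intro a b hab
      exact Nat.nth_injective (hinf x) (hPinj x _ _ (Nat.nth_mem_of_infinite (hinf x) a)
        (Nat.nth_mem_of_infinite (hinf x) b) hab)
    · intro b
      obtain ⟨u, h1, h2⟩ := hrep x b
      refine ⟨Nat.count (P x) u, ?_⟩
      show π x (Nat.nth (P x) (Nat.count (P x) u)) = b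
      rw [Nat.nth_count h1, h2]
  let E : (ℕ → Bool) → ℕ ≃ ℕ := fun x => Equiv.ofBijective _ (hbij x)
  have hE : ∀ x a, E x a = π x (Nat.nth (P x) a) := fun x a => rfl
  let h : (ℕ → Bool) → L.Structure ℕ := fun x =>
    { funMap := fun {n} F _ => ((hB.fn n).false F).elim
      RelMap := fun {_} R v => (A x).RelMap R (E x ∘ v) }
  have hrel : ∀ x n (R : L.Relations n) (a : Fin n → ℕ),
      (h x).RelMap R a ↔ (A x).RelMap R (E x ∘ a) := fun x n R a => Iff.rfl
  have hiso : ∀ x, Iso (h x) (A x) := by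
    intro x
    exact ⟨E x, fun n R v => hrel x n R v⟩
  have hmod : ∀ x, h x ∈ K := fun x => hiK _ _ (hiso x).symm (hA x)
  have hN : ∀ a u, IsOpen {x | Nat.nth (P x) a = u} := fun a u => CP_nth hP hinf a u
  refine ⟨h, hmod, fun x y hxy => ?_, fun n R a => ?_⟩
  · refine hinj x y (hu L e1 e2 hB (A x) (A y) (f x) (f y) (ρ x) (ρ y) (π x) (π y) (hS x) (hS y) ?_)
    exact ((hiso x).symm.trans hxy).trans (hiso y)
  · by_cases hn1 : n = 1
    · subst hn1
      have h1 : {x | (h x).RelMap R a} =
          {x | Un (f x) (2 * e1 R) (Nat.nth (P x) (a 0))} := by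
        ext x
        simp only [mem_ofPred_eq]
        rw [hrel, ← CP_un hB (hS x)]
        have h2 : (E x ∘ a) = ![π x (Nat.nth (P x) (a 0))] := by
          funext k
          rw [Fin.fin_one_eq_zero k]
          rfl
        rw [h2]
      rw [h1]
      exact CP_clopen (F := fun x u => Un (f x) (2 * e1 R) u) (hN (a 0)) fun u => hUn _ u
    · by_cases hn2 : n = 2
      · subst hn2
        have h1 : {x | (h x).RelMap R a} =
            {x | (A x).RelMap R ![π x (Nat.nth (P x) (a 0)), π x (Nat.nth (P x) (a 1))]} := by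
          ext x
          simp only [mem_ofPred_eq]
          rw [hrel]
          have h2 : (E x ∘ a) = ![π x (Nat.nth (P x) (a 0)), π x (Nat.nth (P x) (a 1))] := by
            funext k
            fin_cases k <;> rfl
          rw [h2]
        have h2 : ∀ u v, IsClopen {x | (A x).RelMap R ![π x u, π x v]} := by
          intro u v
          by_cases huv : u = v
          · subst huv
            have h3 : {x | (A x).RelMap R ![π x u, π x u]} = {x | Un (f x) (2 * e2 R + 1) u} := by
              ext x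
              exact CP_dia hB (hS x) R u
            rw [h3]
            exact hUn _ u
          · have h3 : {x | (A x).RelMap R ![π x u, π x v]} =
                ⋃ a : ℕ, {x | Bn (f x) (Nat.pair a (2 * e2 R + 3)) u v} := by
              ext x
              simp only [mem_ofPred_eq, mem_iUnion]
              exact CP_rel hB (hS x) R huv
            have h4 : {x | (A x).RelMap R ![π x u, π x v]}ᶜ =
                ⋃ a : ℕ, {x | Bn (f x) (Nat.pair a (2 * e2 R + 4)) u v} := by
              ext x
              simp only [mem_ofPred_eq, mem_iUnion, mem_compl_iff]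
              exact CP_nrel hB (hS x) R huv
            constructor
            · rw [← isOpen_compl_iff, h4]
              exact isOpen_iUnion fun a => (hBn _ u v).isOpen
            · rw [h3]
              exact isOpen_iUnion fun a => (hBn _ u v).isOpen
        rw [h1]
        exact CP_clopen (F := fun x u => (A x).RelMap R ![π x u, π x (Nat.nth (P x) (a 1))])
          (hN (a 0)) fun u =>
            CP_clopen (F := fun x v => (A x).RelMap R ![π x u, π x v]) (hN (a 1)) fun v => h2 u v
      · exact ((hB.ar n hn1 hn2).false R).elim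

end VSG
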