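import Pool.Agent.VSG.St

/-!
# Vaught's conjecture and sparse graphs: [CS]
-/

set_option autoImplicit false

namespace VSG

open Finset

open Classical in
private lemma CS_order {V : Type} {ρ : V → V → ℕ} {X : Finset V} (h : Strg ρ ∅ X) :
    ∃ f : V → ℕ, Set.InjOn f X ∧ ∀ x ∈ X,
      (∀ y ∈ X, ∀ z ∈ X, f y < f x → f z < f x → y ≠ z → ρ y z ≤ max (ρ x y) (ρ x z)) ∧
      ∀ m, (X.filter fun y => f y < f x ∧ ρ x y ≤ m).card ≤ m := by
  induction h with
  | refl => exact ⟨fun _ => 0, by simp, by simp⟩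
  | step X x hX hx ha ih =>
    obtain ⟨f, hf, hf2⟩ := ih
    set M := X.sup f + 1 with hM
    have hlt : ∀ y ∈ X, f y < M := fun y hy => Nat.lt_succ_of_le (Finset.le_sup (f := f) hy)
    let g : V → ℕ := fun y => if y = x then M else f y
    have hgx : g x = M := by simp [g]
    have hgy : ∀ y ∈ X, g y = f y := by
      intro y hy
      have : y ≠ x := fun h => hx (h ▸ hy)
      simp [g, this]
    refine ⟨g, ?_, ?_⟩
    · intro a ha b hb hab
      rcases mem_insert.1 (mem_coe.1 ha) with ha | ha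
      · rcases mem_insert.1 (mem_coe.1 hb) with hb | hb
        · exact ha.trans hb.symm
        · rw [ha, hgx, hgy b hb] at hab
          exact absurd (hlt b hb) (by omega)
      · rcases mem_insert.1 (mem_coe.1 hb) with hb | hb
        · rw [hb, hgx, hgy a ha] at hab
          exact absurd (hlt a ha) (by omega)
        · rw [hgy a ha, hgy b hb] at hab
          exact hf (mem_coe.2 ha) (mem_coe.2 hb) hab
    · intro w hw
      rcases mem_insert.1 hw with hw | hw
      · subst hw
        have hin : ∀ y ∈ insert w X, g y < g w → y ∈ X := by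
          intro y hy hlt'
          rcases mem_insert.1 hy with hy | hy
          · rw [hy] at hlt'
            exact absurd hlt' (lt_irrefl _)
          · exact hy
        refine ⟨fun y hy z hz h1 h2 hyz => ha.1 y (hin y hy h1) z (hin z hz h2) hyz, fun m => ?_⟩
        refine le_trans (card_le_card ?_) (ha.2 m)
        intro y hy
        rw [mem_filter] at hy ⊢
        exact ⟨hin y hy.1 hy.2.1, hy.2.2⟩
      · have hin : ∀ y ∈ insert x X, g y < g w → y ∈ X ∧ f y < f w := by
          intro y hy hlt'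
          rcases mem_insert.1 hy with hy | hy
          · rw [hy, hgx, hgy w hw] at hlt'
            exact absurd hlt' (not_lt.2 (hlt w hw).le)
          · rw [hgy y hy, hgy w hw] at hlt'
            exact ⟨hy, hlt'⟩
        refine ⟨fun y hy z hz h1 h2 hyz => (hf2 w hw).1 y (hin y hy h1).1 z (hin z hz h2).1
          (hin y hy h1).2 (hin z hz h2).2 hyz, fun m => ?_⟩
        refine le_trans (card_le_card ?_) ((hf2 w hw).2 m)
        intro y hy
        rw [mem_filter] at hy ⊢
        exact ⟨(hin y hy.1 hy.2.1).1, (hin y hy.1 hy.2.1).2, hy.2.2⟩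

private lemma CS_pair (a b : ℕ) : Nat.pair a 0 ≤ Nat.pair a b := by
  rcases Nat.eq_zero_or_pos b with h | h
  · rw [h]
  · exact (Nat.pair_lt_pair_right a h).le

/-- [CS] -/
theorem thm_CS : St_CS := by
  intro L e1 e2 A S ρ π h
  have hsym := h.gen.symm
  have hL : ∀ n x y, LAdj S n x y ↔ x ≠ y ∧ Nat.pair (ρ x y) 0 < n := by
    intro n x y
    constructor
    · rintro ⟨hxy, i, hi, hb⟩
      have h1 : ρ x y = i.unpair.1 := by
        rcases hb with hb | hb
        · exact ((h.bin i x y).1 hb).2.1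
        · rw [hsym]
          exact ((h.bin i y x).1 hb).2.1
      refine ⟨hxy, lt_of_le_of_lt ?_ hi⟩
      rw [h1]
      refine (CS_pair _ i.unpair.2).trans (le_of_eq (Nat.pair_unpair i))
    · rintro ⟨hxy, hn⟩
      refine ⟨hxy, _, hn, Or.inl ((h.bin _ x y).2 ⟨hxy, ?_, ?_⟩)⟩
      · rw [Nat.unpair_pair]
      · rw [Nat.unpair_pair]
        exact Or.inl rfl
  refine ⟨fun i x hb => ((h.bin i x x).1 hb).1 rfl, ?_⟩
  intro X
  obtain ⟨f, hf, hf2⟩ := CS_order (h.gen.emp X (Finset.empty_subset X))
  refine ⟨f, hf, fun n x hx => ⟨?_, ?_⟩⟩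
  · intro y hy z hz h1 h2 hyz h3 h4
    rw [hL] at h3 h4 ⊢
    refine ⟨hyz, ?_⟩
    have h5 := (hf2 x hx).1 y hy z hz h1 h2 hyz
    have hmono : ∀ a b : ℕ, a ≤ b → Nat.pair a 0 ≤ Nat.pair b 0 := by
      intro a b hab
      rcases hab.eq_or_lt with hab | hab
      · rw [hab]
      · exact (Nat.pair_lt_pair_left 0 hab).le
    refine lt_of_le_of_lt (hmono _ _ h5) ?_
    rcases le_total (ρ x y) (ρ x z) with hle | hle
    · rw [max_eq_right hle]
      exact h4.2
    · rw [max_eq_left hle]
      exact h3.2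
  · classical
    refine le_trans (card_le_card ?_) ((hf2 x hx).2 n)
    intro y hy
    rw [mem_filter] at hy ⊢
    refine ⟨hy.1, hy.2.1, ?_⟩
    have h6 := ((hL n x y).1 hy.2.2).2
    exact (Nat.left_le_pair _ _).trans h6.le

end VSG
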