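import Pool.Agent.VSG.St

/-!
# Uniqueness of the generic coding
-/

set_option autoImplicit false

namespace VSG

open FirstOrder Set Pool.Agent.Helper5.DU Pool.Agent.Helper6.Str Pool.Agent.Helper79.VC

private theorem CU_one {L : FirstOrder.Language.{0, 0}} {A A' : L.Structure ℕ} {h : ℕ ≃ ℕ}
    (hh : RelIso A A' h) (R : L.Relations 1) (a b : ℕ) (hab : b = h a) :
    A.RelMap R ![a] ↔ A'.RelMap R ![b] := by
  rw [hh 1 R]
  have h1 : h ∘ ![a] = ![b] := by
    funext k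
    fin_cases k
    simp [hab]
  rw [h1]

private theorem CU_two {L : FirstOrder.Language.{0, 0}} {A A' : L.Structure ℕ} {h : ℕ ≃ ℕ}
    (hh : RelIso A A' h) (R : L.Relations 2) (a a' b b' : ℕ) (hab : b = h a) (hab' : b' = h a') :
    A.RelMap R ![a, a'] ↔ A'.RelMap R ![b, b'] := by
  rw [hh 2 R]
  have h1 : h ∘ ![a, a'] = ![b, b'] := by
    funext k
    fin_cases k
    · simp [hab]
    · simp [hab']
  rw [h1]

private theorem CU_dat {L : FirstOrder.Language.{0, 0}} (e2 : L.Relations 2 → ℕ)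
    {A A' : L.Structure ℕ} {h : ℕ ≃ ℕ} (hh : RelIso A A' h) {π π' : ℕ → ℕ} {e : ℕ ≃ ℕ}
    (hp : ∀ x, π' (e x) = h (π x)) (b x y : ℕ) :
    Dat e2 A π b x y ↔ Dat e2 A' π' b (e x) (e y) := by
  have h1 : π' (e x) = π' (e y) ↔ π x = π y := by
    rw [hp x, hp y]
    exact h.injective.eq_iff
  have h2 : ∀ Q : L.Relations 2, A.RelMap Q ![π x, π y] ↔ A'.RelMap Q ![π' (e x), π' (e y)] :=
    fun Q => CU_two hh Q _ _ _ _ (hp x) (hp y)
  unfold Dat
  simp only [h1, h2, ne_eq]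

theorem thm_CU (hu : St_UNI) : St_CU := by
  intro L e1 e2 _ A A' S S' ρ ρ' π π' hc hc' hi
  obtain ⟨h, hh⟩ := hi
  have hg : Gen ρ (fun x => h (π x)) := by
    refine ⟨hc.gen.symm, hc.gen.emp, hc.gen.fin, fun F hF r hr k => ?_⟩
    obtain ⟨x, hx, hy, hk, hs⟩ := hc.gen.ext F hF r hr (h.symm k)
    refine ⟨x, hx, hy, ?_, hs⟩
    show h (π x) = k
    rw [hk, Equiv.apply_symm_apply]
  obtain ⟨e, he, hp⟩ := hu ℕ ℕ ℕ ρ ρ' (fun x => h (π x)) π' hg hc'.gen
  refine ⟨e, ?_⟩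
  intro n R v
  cases R with
  | col i =>
    have h1 : v = ![v 0] := by
      funext k
      fin_cases k
      rfl
    have h2 : e ∘ v = ![e (v 0)] := by
      funext k
      fin_cases k
      rfl
    rw [h2]
    conv_lhs => rw [h1]
    have h3 : Un S i (v 0) ↔ Un S' i (e (v 0)) := by
      rw [hc.col, hc'.col]
      have h4 : ∀ R : L.Relations 1, A.RelMap R ![π (v 0)] ↔ A'.RelMap R ![π' (e (v 0))] :=
        fun R => CU_one hh R _ _ (hp _)
      have h5 : ∀ Q : L.Relations 2, A.RelMap Q ![π (v 0), π (v 0)] ↔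
          A'.RelMap Q ![π' (e (v 0)), π' (e (v 0))] :=
        fun Q => CU_two hh Q _ _ _ _ (hp _) (hp _)
      simp only [h4, h5]
    exact h3
  | bin i =>
    have h1 : v = ![v 0, v 1] := by
      funext k
      fin_cases k <;> rfl
    have h2 : e ∘ v = ![e (v 0), e (v 1)] := by
      funext k
      fin_cases k <;> rfl
    rw [h2]
    conv_lhs => rw [h1]
    have h3 : Bn S i (v 0) (v 1) ↔ Bn S' i (e (v 0)) (e (v 1)) := by
      rw [hc.bin, hc'.bin, CU_dat e2 hh hp]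
      constructor
      · rintro ⟨h4, h5, h6⟩
        exact ⟨fun h7 => h4 (e.injective h7), by rw [he _ _ h4, h5], h6⟩
      · rintro ⟨h4, h5, h6⟩
        have h7 : v 0 ≠ v 1 := fun h8 => h4 (by rw [h8])
        exact ⟨h7, by rw [← he _ _ h7, h5], h6⟩
    exact h3

end VSG
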