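import Pool.Agent.VSG.St

/-!
# Vaught's conjecture and sparse graphs: module CW
-/

set_option autoImplicit false

namespace VSG

open FirstOrder Set Pool.Agent.Helper5.DU Pool.Agent.Helper6.Str Pool.Agent.Helper79.VC

private def CW_N {L : FirstOrder.Language.{0, 0}} (e2 : L.Relations 2 → ℕ) (b c : ℕ) : Prop :=
  (b = 1 ∧ c = 2) ∨ (b = 2 ∧ c = 1) ∨ (∃ Q : L.Relations 2, b = 2 * e2 Q + 3 ∧ c = 2 * e2 Q + 4) ∨
    (∃ Q : L.Relations 2, b = 2 * e2 Q + 4 ∧ c = 2 * e2 Q + 3) ∨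
    (b ≠ 0 ∧ b ≠ 1 ∧ b ≠ 2 ∧ (∀ Q : L.Relations 2, b ≠ 2 * e2 Q + 3 ∧ b ≠ 2 * e2 Q + 4) ∧ c = 0)

private theorem CW_dat3 {L : FirstOrder.Language.{0, 0}} {V H : Type} {e2 : L.Relations 2 → ℕ}
    (h2 : Function.Injective e2) (A : L.Structure H) (π : V → H) (x y : V) (Q : L.Relations 2) :
    Dat e2 A π (2 * e2 Q + 3) x y ↔ A.RelMap Q ![π x, π y] := by
  constructor
  · rintro (h | ⟨h, -⟩ | ⟨h, -⟩ | ⟨R, h, hR⟩ | ⟨R, h, -⟩)
    · omega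
    · omega
    · omega
    · have : R = Q := h2 (by omega)
      rw [← this]
      exact hR
    · omega
  · exact fun h => Or.inr (Or.inr (Or.inr (Or.inl ⟨Q, rfl, h⟩)))

private theorem CW_dat4 {L : FirstOrder.Language.{0, 0}} {V H : Type} {e2 : L.Relations 2 → ℕ}
    (h2 : Function.Injective e2) (A : L.Structure H) (π : V → H) (x y : V) (Q : L.Relations 2) :
    Dat e2 A π (2 * e2 Q + 4) x y ↔ ¬ A.RelMap Q ![π x, π y] := by
  constructor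
  · rintro (h | ⟨h, -⟩ | ⟨h, -⟩ | ⟨R, h, -⟩ | ⟨R, h, hR⟩)
    · omega
    · omega
    · omega
    · omega
    · have : R = Q := h2 (by omega)
      rw [← this]
      exact hR
  · exact fun h => Or.inr (Or.inr (Or.inr (Or.inr ⟨Q, rfl, h⟩)))

private theorem CW_dat1 {L : FirstOrder.Language.{0, 0}} {V H : Type} {e2 : L.Relations 2 → ℕ}
    (A : L.Structure H) (π : V → H) (x y : V) : Dat e2 A π 1 x y ↔ π x = π y := by
  constructor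
  · rintro (h | ⟨-, h⟩ | ⟨h, -⟩ | ⟨R, h, -⟩ | ⟨R, h, -⟩)
    · omega
    · exact h
    · omega
    · omega
    · omega
  · exact fun h => Or.inr (Or.inl ⟨rfl, h⟩)

private theorem CW_dat2 {L : FirstOrder.Language.{0, 0}} {V H : Type} {e2 : L.Relations 2 → ℕ}
    (A : L.Structure H) (π : V → H) (x y : V) : Dat e2 A π 2 x y ↔ π x ≠ π y := by
  constructor
  · rintro (h | ⟨h, -⟩ | ⟨-, h⟩ | ⟨R, h, -⟩ | ⟨R, h, -⟩)
    · omega
    · omega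
    · exact h
    · omega
    · omega
  · exact fun h => Or.inr (Or.inr (Or.inl ⟨rfl, h⟩))

private theorem CW_neg {L : FirstOrder.Language.{0, 0}} {V H : Type} {e2 : L.Relations 2 → ℕ}
    (h2 : Function.Injective e2) (A : L.Structure H) (π : V → H) (x y : V) (b : ℕ) :
    ¬ Dat e2 A π b x y ↔ ∃ c, CW_N e2 b c ∧ Dat e2 A π c x y := by
  by_cases h0 : b = 0
  · refine iff_of_false (fun h => h (Or.inl h0)) ?_
    rintro ⟨c, (⟨h, -⟩ | ⟨h, -⟩ | ⟨Q, h, -⟩ | ⟨Q, h, -⟩ | ⟨h, -⟩), -⟩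
    · omega
    · omega
    · omega
    · omega
    · exact h h0
  by_cases h1 : b = 1
  · rw [h1, CW_dat1]
    constructor
    · exact fun h => ⟨2, Or.inl ⟨rfl, rfl⟩, (CW_dat2 A π x y).2 h⟩
    · rintro ⟨c, (⟨-, h⟩ | ⟨h, -⟩ | ⟨Q, h, -⟩ | ⟨Q, h, -⟩ | ⟨-, h, -⟩), hc⟩
      · rw [h] at hc
        exact (CW_dat2 A π x y).1 hc
      · omega
      · omega
      · omega
      · exact absurd rfl h
  by_cases h3 : b = 2
  · rw [h3, CW_dat2]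
    constructor
    · exact fun h => ⟨1, Or.inr (Or.inl ⟨rfl, rfl⟩), (CW_dat1 A π x y).2 (not_not.1 h)⟩
    · rintro ⟨c, (⟨h, -⟩ | ⟨-, h⟩ | ⟨Q, h, -⟩ | ⟨Q, h, -⟩ | ⟨-, -, h, -⟩), hc⟩
      · omega
      · rw [h] at hc
        exact fun h' => h' ((CW_dat1 A π x y).1 hc)
      · omega
      · omega
      · exact absurd rfl h
  by_cases h4 : ∃ Q : L.Relations 2, b = 2 * e2 Q + 3
  · obtain ⟨Q, hQ⟩ := h4
    rw [hQ, CW_dat3 h2]
    constructor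
    · exact fun h => ⟨2 * e2 Q + 4, Or.inr (Or.inr (Or.inl ⟨Q, rfl, rfl⟩)),
        (CW_dat4 h2 A π x y Q).2 h⟩
    · rintro ⟨c, (⟨h, -⟩ | ⟨h, -⟩ | ⟨R, h, h'⟩ | ⟨R, h, -⟩ | ⟨-, -, -, h, -⟩), hc⟩
      · omega
      · omega
      · have : R = Q := h2 (by omega)
        rw [h', this] at hc
        exact (CW_dat4 h2 A π x y Q).1 hc
      · omega
      · exact absurd rfl (h Q).1
  by_cases h5 : ∃ Q : L.Relations 2, b = 2 * e2 Q + 4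
  · obtain ⟨Q, hQ⟩ := h5
    rw [hQ, CW_dat4 h2]
    constructor
    · exact fun h => ⟨2 * e2 Q + 3, Or.inr (Or.inr (Or.inr (Or.inl ⟨Q, rfl, rfl⟩))),
        (CW_dat3 h2 A π x y Q).2 (not_not.1 h)⟩
    · rintro ⟨c, (⟨h, -⟩ | ⟨h, -⟩ | ⟨R, h, -⟩ | ⟨R, h, h'⟩ | ⟨-, -, -, h, -⟩), hc⟩
      · omega
      · omega
      · omega
      · have : R = Q := h2 (by omega)
        rw [h', this] at hc
        exact fun h'' => h'' ((CW_dat3 h2 A π x y Q).1 hc)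
      · exact absurd rfl (h Q).2
  · refine iff_of_true ?_ ⟨0, Or.inr (Or.inr (Or.inr (Or.inr ⟨h0, h1, h3, fun Q =>
      ⟨fun h => h4 ⟨Q, h⟩, fun h => h5 ⟨Q, h⟩⟩, rfl⟩))), Or.inl rfl⟩
    rintro (h | ⟨h, -⟩ | ⟨h, -⟩ | ⟨Q, h, -⟩ | ⟨Q, h, -⟩)
    · exact h0 h
    · exact h1 h
    · exact h3 h
    · exact h4 ⟨Q, h⟩
    · exact h5 ⟨Q, h⟩

theorem thm_CW : St_CW := by
  intro L e1 e2 hB T i
  refine ⟨{j | (j.unpair.1 ≠ i.unpair.1 ∧ j.unpair.2 = 0) ∨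
    (j.unpair.1 = i.unpair.1 ∧ CW_N e2 i.unpair.2 j.unpair.2)}, ?_⟩
  rintro S ⟨A, -, ρ, π, hC⟩ x y hxy
  rw [hC.bin]
  constructor
  · intro h
    by_cases ha : ρ x y = i.unpair.1
    · have h1 : ¬ Dat e2 A π i.unpair.2 x y := fun h1 => h ⟨hxy, ha, h1⟩
      obtain ⟨c, hc, hd⟩ := (CW_neg hB.i2 A π x y _).1 h1
      refine ⟨Nat.pair (ρ x y) c, Or.inr ?_, ?_⟩
      · rw [Nat.unpair_pair]
        exact ⟨ha, hc⟩
      · rw [hC.bin, Nat.unpair_pair]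
        exact ⟨hxy, rfl, hd⟩
    · refine ⟨Nat.pair (ρ x y) 0, Or.inl ?_, ?_⟩
      · rw [Nat.unpair_pair]
        exact ⟨ha, rfl⟩
      · rw [hC.bin, Nat.unpair_pair]
        exact ⟨hxy, rfl, Or.inl rfl⟩
  · rintro ⟨j, hj, hb⟩ ⟨-, ha, hd⟩
    rw [hC.bin] at hb
    obtain ⟨-, hb1, hb2⟩ := hb
    rcases hj with ⟨h1, -⟩ | ⟨-, h2⟩
    · exact h1 (hb1.symm.trans ha)
    · exact (CW_neg hB.i2 A π x y _).2 ⟨_, h2, hb2⟩ hd

end VSG
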