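import Pool.Agent.VSG.St

/-!
# Closure properties of definability in `L_{ω₁,ω}`
-/

set_option autoImplicit false

namespace VSG

open FirstOrder Set Pool.Agent.Helper5.DU Pool.Agent.Helper6.Str Pool.Agent.Helper79.VC

section
variable {L : FirstOrder.Language.{0, 0}}

private theorem DFN_neg {n : ℕ} {P : L.Structure ℕ → (Fin n → ℕ) → Prop} (h : Dfn P) :
    Dfn fun S v => ¬ P S v := by
  obtain ⟨φ, hφ⟩ := h
  exact ⟨.neg φ, fun S v => not_congr (hφ S v)⟩

private theorem DFN_congr {n : ℕ} {P Q : L.Structure ℕ → (Fin n → ℕ) → Prop} (h : Dfn P)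
    (hPQ : ∀ S v, P S v ↔ Q S v) : Dfn Q := by
  obtain ⟨φ, hφ⟩ := h
  exact ⟨φ, fun S v => (hφ S v).trans (hPQ S v)⟩

private theorem DFN_true {n : ℕ} : Dfn (L := L) (n := n) fun _ _ => True := by
  refine ⟨.ex (.eq (Fin.last n) (Fin.last n)), fun S v => ?_⟩
  simp [Sat]

private theorem DFN_const {n : ℕ} (p : Prop) : Dfn (L := L) (n := n) fun _ _ => p := by
  by_cases hp : p
  · exact DFN_congr DFN_true fun _ _ => by simp [hp]
  · exact DFN_congr (DFN_neg DFN_true) fun _ _ => by simp [hp]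

private theorem DFN_all {n : ℕ} {ι : Type} [Countable ι]
    {P : ι → L.Structure ℕ → (Fin n → ℕ) → Prop} (h : ∀ i, Dfn (P i)) :
    Dfn fun S v => ∀ i, P i S v := by
  rcases isEmpty_or_nonempty ι with hι | hι
  · exact DFN_congr DFN_true fun _ _ => by simp
  · obtain ⟨f, hf⟩ := exists_surjective_nat ι
    choose φ hφ using h
    refine ⟨.conj fun k => φ (f k), fun S v => ?_⟩
    constructor
    · intro h i
      obtain ⟨k, rfl⟩ := hf i
      exact (hφ (f k) S v).1 (h k)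
    · intro h k
      exact (hφ (f k) S v).2 (h (f k))

private theorem DFN_exi {n : ℕ} {ι : Type} [Countable ι]
    {P : ι → L.Structure ℕ → (Fin n → ℕ) → Prop} (h : ∀ i, Dfn (P i)) :
    Dfn fun S v => ∃ i, P i S v := by
  refine DFN_congr (DFN_neg (DFN_all fun i => DFN_neg (h i))) fun S v => ?_
  simp

private theorem DFN_and {n : ℕ} {P Q : L.Structure ℕ → (Fin n → ℕ) → Prop} (hP : Dfn P)
    (hQ : Dfn Q) : Dfn fun S v => P S v ∧ Q S v := by
  have h : ∀ b : Bool, Dfn (fun S v => if b = true then P S v else Q S v) := by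
    intro b
    cases b
    · exact DFN_congr hQ fun _ _ => by simp
    · exact DFN_congr hP fun _ _ => by simp
  refine DFN_congr (DFN_all h) fun S v => ?_
  simp [and_comm]

private theorem DFN_or {n : ℕ} {P Q : L.Structure ℕ → (Fin n → ℕ) → Prop} (hP : Dfn P)
    (hQ : Dfn Q) : Dfn fun S v => P S v ∨ Q S v := by
  refine DFN_congr (DFN_neg (DFN_and (DFN_neg hP) (DFN_neg hQ))) fun S v => ?_
  tauto

private theorem DFN_imp {n : ℕ} {P Q : L.Structure ℕ → (Fin n → ℕ) → Prop} (hP : Dfn P)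
    (hQ : Dfn Q) : Dfn fun S v => P S v → Q S v := by
  refine DFN_congr (DFN_or (DFN_neg hP) hQ) fun S v => ?_
  tauto

private theorem DFN_iff {n : ℕ} {P Q : L.Structure ℕ → (Fin n → ℕ) → Prop} (hP : Dfn P)
    (hQ : Dfn Q) : Dfn fun S v => P S v ↔ Q S v := by
  refine DFN_congr (DFN_and (DFN_imp hP hQ) (DFN_imp hQ hP)) fun S v => ?_
  tauto

private theorem DFN_ren {n : ℕ} (φ : FmI L n) : ∀ (m : ℕ) (s : Fin n → Fin m),
    ∃ ψ : FmI L m, ∀ (S : L.Structure ℕ) (v : Fin m → ℕ), Sat S ψ v ↔ Sat S φ fun i => v (s i) := by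
  induction φ with
  | eq i j => exact fun m s => ⟨.eq (s i) (s j), fun S v => Iff.rfl⟩
  | rel R w => exact fun m s => ⟨.rel R fun i => s (w i), fun S v => Iff.rfl⟩
  | neg φ ih =>
    intro m s
    obtain ⟨ψ, hψ⟩ := ih m s
    exact ⟨.neg ψ, fun S v => not_congr (hψ S v)⟩
  | conj φ ih =>
    intro m s
    choose ψ hψ using fun k => ih k m s
    exact ⟨.conj ψ, fun S v => forall_congr' fun k => hψ k S v⟩
  | @ex n φ ih =>
    intro m s
    obtain ⟨ψ, hψ⟩ := ih (m + 1)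
      (Fin.snoc (α := fun _ => Fin (m + 1)) (fun j => (s j).castSucc) (Fin.last m))
    refine ⟨.ex ψ, fun S v => exists_congr fun a => (hψ S _).trans (iff_of_eq (congrArg _ ?_))⟩
    funext i
    refine Fin.lastCases ?_ (fun i => ?_) i
    · simp
    · simp

private theorem DFN_ex1 {n : ℕ} {P : L.Structure ℕ → (Fin (n + 1) → ℕ) → Prop} (hP : Dfn P) :
    Dfn fun S (v : Fin n → ℕ) => ∃ a : ℕ, P S (Fin.snoc (α := fun _ => ℕ) v a) := by
  obtain ⟨φ, hφ⟩ := hP
  exact ⟨.ex φ, fun S v => exists_congr fun a => hφ S _⟩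

private theorem DFN_rn {n m : ℕ} (s : Fin n → Fin m) {P : L.Structure ℕ → (Fin n → ℕ) → Prop}
    (hP : Dfn P) : Dfn fun S (v : Fin m → ℕ) => P S (fun i => v (s i)) := by
  obtain ⟨φ, hφ⟩ := hP
  obtain ⟨ψ, hψ⟩ := DFN_ren φ m s
  exact ⟨ψ, fun S v => (hψ S v).trans (hφ S _)⟩

private theorem DFN_exk {n : ℕ} (k : ℕ) : ∀ {P : L.Structure ℕ → (Fin (n + k) → ℕ) → Prop},
    Dfn P → Dfn fun S (v : Fin n → ℕ) => ∃ w : Fin k → ℕ, P S (Fin.append v w) := by
  induction k with
  | zero =>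
    intro P hP
    refine DFN_congr (DFN_rn (m := n) (Fin.cast (Nat.add_zero n)) hP) fun S v => ?_
    have h : ∀ w : Fin 0 → ℕ, Fin.append v w = fun i => v (Fin.cast (Nat.add_zero n) i) := by
      intro w
      rw [Subsingleton.elim w Fin.elim0, Fin.append_elim0]
      rfl
    constructor
    · intro hh
      exact ⟨Fin.elim0, by rw [h]; exact hh⟩
    · rintro ⟨w, hw⟩
      rw [h] at hw
      exact hw
  | succ k ih =>
    intro P hP
    refine DFN_congr (ih (DFN_ex1 (n := n + k) hP)) fun S v => ?_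
    have key : ∀ (w : Fin k → ℕ) (a : ℕ),
        (Fin.snoc (α := fun _ => ℕ) (Fin.append v w) a : Fin (n + k + 1) → ℕ) =
          Fin.append v (Fin.snoc (α := fun _ => ℕ) w a) := by
      intro w a
      exact (Fin.append_snoc v w a).symm
    constructor
    · rintro ⟨w, a, h⟩
      refine ⟨Fin.snoc (α := fun _ => ℕ) w a, ?_⟩
      rw [← key]
      exact h
    · rintro ⟨w, h⟩
      refine ⟨Fin.init w, w (Fin.last k), ?_⟩
      rw [key]
      have : (Fin.snoc (α := fun _ => ℕ) (Fin.init w) (w (Fin.last k)) : Fin (k + 1) → ℕ) = w :=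
        Fin.snoc_init_self w
      rw [this]
      exact h

end

theorem thm_DFN : St_DFN := by
  intro L
  refine ⟨fun n P hP => DFN_neg hP, fun n ι _ P hP => DFN_all hP, fun n ι _ P hP => DFN_exi hP,
    fun n P Q hP hQ => ⟨DFN_and hP hQ, DFN_or hP hQ, DFN_imp hP hQ, DFN_iff hP hQ⟩,
    fun n p => DFN_const p, fun n i j => ⟨.eq i j, fun _ _ => Iff.rfl⟩,
    fun n k R w => ⟨.rel R w, fun _ _ => Iff.rfl⟩, fun n m s P hP => DFN_rn s hP,
    fun n k P hP => ⟨DFN_exk k hP, ?_⟩⟩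
  refine DFN_congr (DFN_neg (DFN_exk k (DFN_neg hP))) fun S v => ?_
  simp

end VSG
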