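import Mathlib

/-!
# Vaught's conjecture and sparse graphs: generic labellings with layers of small tree-width

`Adm ρ P x`: the point `x` may be added to the finite set `P`: the labels `ρ x y` satisfy
`ρ y z ≤ max (ρ x y) (ρ x z)` and at most `m` of the labels `ρ x y`, `y ∈ P`, are `≤ m`.
`Strg ρ F X`: `X` is obtained from `F` by adding such points one at a time.
`SM ρ F`: `F` is strong in the whole set. `Gen ρ π`: the labelling `ρ` with the colouring `π` is
generic.
-/

set_option autoImplicit false

namespace VSG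

open Classical in
/-- the labels `r y`, `y ∈ P`, are admissible for a new point -/
def AdR {V : Type} (ρ : V → V → ℕ) (P : Finset V) (r : V → ℕ) : Prop :=
  (∀ y ∈ P, ∀ z ∈ P, y ≠ z → ρ y z ≤ max (r y) (r z)) ∧
    ∀ m : ℕ, (P.filter fun y => r y ≤ m).card ≤ m

/-- `x` may be added to `P` -/
def Adm {V : Type} (ρ : V → V → ℕ) (P : Finset V) (x : V) : Prop := AdR ρ P (ρ x)

open Classical in
/-- `X` is obtained from `F` by adding points one at a time -/
inductive Strg {V : Type} (ρ : V → V → ℕ) (F : Finset V) : Finset V → Prop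
  | refl : Strg ρ F F
  | step (X : Finset V) (x : V) : Strg ρ F X → x ∉ X → Adm ρ X x → Strg ρ F (insert x X)

/-- `F` is strong in the whole set -/
def SM {V : Type} (ρ : V → V → ℕ) (F : Finset V) : Prop := ∀ X : Finset V, F ⊆ X → Strg ρ F X

open Classical in
/-- the labelling `ρ` with the colouring `π` is generic -/
structure Gen {V H : Type} (ρ : V → V → ℕ) (π : V → H) : Prop where
  symm : ∀ x y, ρ x y = ρ y x
  emp : SM ρ ∅
  fin : ∀ X : Finset V, ∃ F : Finset V, X ⊆ F ∧ SM ρ F
  ext : ∀ F : Finset V, SM ρ F → ∀ r : V → ℕ, AdR ρ F r → ∀ h : H,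
    ∃ x : V, x ∉ F ∧ (∀ y ∈ F, ρ x y = r y) ∧ π x = h ∧ SM ρ (insert x F)

end VSG
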