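import Pool.Agent.VSG.St

/-!
# Vaught's conjecture and sparse graphs: removing the colours

`pur W`: the graph without colours of a coloured graph `W`: at every vertex `v` and for every colour `c` a
pendant path with `2 c + 3` vertices is attached if `v` has the colour `c`, and with `2 c + 4` vertices
otherwise. So the vertices of `W` are those with at least three neighbours.
-/

set_option autoImplicit false

namespace VSG

open FirstOrder Set Pool.Agent.Helper5.DU Pool.Agent.Helper6.Str Pool.Agent.Helper79.VC

/-- the language of graphs -/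
abbrev LP : FirstOrder.Language.{0, 0} := FirstOrder.Language.graph

instance (n : ℕ) : IsEmpty (LP.Functions n) := inferInstanceAs (IsEmpty Empty)

/-- `x` and `y` are adjacent -/
def Ap {V : Type} (G : LP.Structure V) (x y : V) : Prop :=
  G.RelMap FirstOrder.Language.adj ![x, y]

/-- `G` is a graph -/
def IsGr {V : Type} (G : LP.Structure V) : Prop :=
  (∀ x, ¬ Ap G x x) ∧ ∀ x y, Ap G x y → Ap G y x

/-- the structure of a relation -/
@[instance_reducible]
def mkP {V : Type} (a : V → V → Prop) : LP.Structure V where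
  funMap := fun f _ => (f : Empty).elim
  RelMap := fun {_} R => match R with
    | .adj => fun v => a (v 0) (v 1)

/-- the dichotomy for sentences of `L_{ω₁,ω}` about graphs without `≤ r`-subdivisions of the complete
graph on `t r` vertices -/
def VCPure (t : ℕ → ℕ) : Prop :=
  ∀ κ : FmI LP 0, (∀ G ∈ ModI κ, IsGr G ∧ ∀ r, ¬ HasSub (gaif G) r (t r)) →
    CtblK (ModI κ) ∨ PerfK (ModI κ)

section
variable {V : Type}

open Classical in
/-- the number of vertices of the pendant path at `v` for the colour `c` -/
noncomputable def plen (W : LG.Structure V) (v : V) (c : ℕ) : ℕ :=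
  if Co W c v then 2 * c + 3 else 2 * c + 4

/-- the vertex number `k` of the pendant path at `v` for the colour `c`, written `((v, c), k)` -/
def PV (W : LG.Structure V) : Type := {q : (V × ℕ) × ℕ // q.2 < plen W q.1.1 q.1.2}

/-- adjacency -/
def PG {W : LG.Structure V} : V ⊕ PV W → V ⊕ PV W → Prop
  | .inl u, .inl v => Ad W u v
  | .inl v, .inr q => q.1.2 = 0 ∧ q.1.1.1 = v
  | .inr q, .inl v => q.1.2 = 0 ∧ q.1.1.1 = v
  | .inr q, .inr q' => q.1.1 = q'.1.1 ∧ (q.1.2 + 1 = q'.1.2 ∨ q'.1.2 + 1 = q.1.2)

/-- the graph without colours of a coloured graph -/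
@[instance_reducible]
def pur (W : LG.Structure V) : LP.Structure (V ⊕ PV W) := mkP (fun u v => PG u v)

/-- the graphs on `ℕ` of the coloured graphs in `K` -/
def PurK (K : Set (LG.Structure ℕ)) : Set (LP.Structure ℕ) := {G | ∃ W ∈ K, Iso (pur W) G}

end

/-- RU. -/
def St_RU : Prop :=
  ∀ (V V' : Type) (W : LG.Structure V) (W' : LG.Structure V'), Iso W W' → Iso (pur W) (pur W')

/-- RD. `Or u` := `u` has three different neighbours; in `pur W` this holds exactly for the vertices `inl v` (three of the
infinitely many `inr ((v,c),0)`; a vertex of a pendant path has at most two neighbours: `k-1` (or `v`) and `k+1`). `c` is a colour of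
`v` iff there are different `w_0, .., w_(2c+2)`, not `Or`, `v - w_0 - w_1 - ..`, such that every neighbour of `w_(2c+2)` is `w_(2c+1)`: in
`pur W` such a path is a whole pendant path at `v` (`w_0 = ((v,c'),0)`, by induction `w_k = ((v,c'),k)`, the last one is the end), so
`plen W v c' = 2 c + 3`, `c' = c` and `Co W c v`. -/
def St_RD : Prop :=
  ∀ (V V' : Type) (W : LG.Structure V) (W' : LG.Structure V'), Iso (pur W) (pur W') → Iso W W'

/-- RS. Let `Z` be the finitely many vertices of the subdivision (`n ≥ 3`): every `z ∈ Z` has two different neighbours in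
`Z`. So `Z` contains no vertex of a pendant path (take one with the largest number `k` on its path: its neighbours in `Z` are only
number `k-1` or `v`). So the subdivision lies in `W`. Also: `pur W` is a graph. -/
def St_RS : Prop :=
  ∀ (V : Type) (W : LG.Structure V), IsGraph W → IsGr (pur W) ∧
    ∀ r n, 3 ≤ n → HasSub (gaif (pur W)) r n → HasSub (gaif W) r n

/-- RI. Invariance under isomorphism. -/
def St_RI : Prop :=
  ∀ (V V' : Type) (G : LP.Structure V) (G' : LP.Structure V'), Iso G G' →
    (IsGr G → IsGr G') ∧ ∀ r n, HasSub (gaif G') r n → HasSub (gaif G) r n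

/-- RT. From DFN: translation, relativised to `Or` of RD. -/
def St_RT : Prop :=
  ∀ (n : ℕ) (φ : FmI LG n), ∃ χ : FmI LP n,
    ∀ (W : LG.Structure ℕ) (G : LP.Structure ℕ) (e : (ℕ ⊕ PV W) ≃ ℕ), RelIso (pur W) G e →
      ∀ v : Fin n → ℕ, Sat G χ (fun i => e (Sum.inl (v i))) ↔ Sat W φ v

/-- RA. From DFN. `G` is isomorphic to `pur W` for some coloured graph `W` on `ℕ` iff (`Or` as in RD, `P_m(v)` := `Or v` and there is
`w : Fin m → ℕ` injective, all `w_k` not `Or`, `v - w_0 - .. - w_(m-1)`, all neighbours of `w_(m-1)` among the `w_k`, `w` is then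
called a tail of `v`): `G` is a graph; infinitely many vertices are `Or`; every vertex which is not `Or` is in a tail of some `v`;
`Or v`: for every `c` there is exactly one `m ∈ {2c+3, 2c+4}` for which `v` has a tail of length `m`, there is exactly one tail of this
length, and all tails of `v` have length `≥ 3`. (`⇐`: a vertex which is not `Or` has at most two neighbours, so it is in only one
tail, at one place.) -/
def St_RA : Prop :=
  ∃ χ : FmI LP 0, ∀ G : LP.Structure ℕ,
    G ∈ ModI χ ↔ ∃ W : LG.Structure ℕ, IsGraph W ∧ Iso (pur W) G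

/-- RF. From DFN, RT, RA. -/
def St_RF : Prop :=
  ∀ χ : FmI LG 0, (∀ W ∈ ModI χ, IsGraph W) → ∃ κ : FmI LP 0, ModI κ = PurK (ModI χ)

/-- BC. A Borel family is as good as a continuous one. Let `F x = ofStr (f x)`, measurable into `Code L`; make it continuous by a
finer Polish topology (`Measurable.exists_continuous`), take a copy of the Cantor space on which it is injective
(`exists_cantor_of_continuous`, see `exists_cantor_of_uncountable_image` in `VB/A.lean`), continuous for the finer topology. -/
def St_BC : Prop :=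
  ∀ (L : FirstOrder.Language.{0, 0}), (∀ n, IsEmpty (L.Functions n)) → (∀ n, Countable (L.Relations n)) →
    ∀ (K : Set (L.Structure ℕ)) (f : (ℕ → Bool) → L.Structure ℕ), (∀ x, f x ∈ K) →
    (∀ x y, Iso (f x) (f y) → x = y) →
    (∀ (n : ℕ) (R : L.Relations n) (a : Fin n → ℕ), MeasurableSet {x | (f x).RelMap R a}) → PerfK K

/-- RC. From RD (`ℕ ⊕ PV W` is countably infinite). -/
def St_RC : Prop := ∀ K : Set (LG.Structure ℕ), CtblK (PurK K) → CtblK K

/-- RP. From BC, RU, RD. `f` into `PurK K` with clopen facts. `Or_x(u)` (three different neighbours) is Borel in `x`; infinitely many;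
`{x | Nat.nth (Or_x) a = u}` is Borel (`Nat.count`; as `clopen_count` in `VPF/CodC6`). `h x` = `mkG` of the colours (the formula of RD
at `nth a`: countable Boolean combination) and of the adjacency of `nth a`, `nth b`; it is isomorphic to the `W ∈ K` with
`pur W ≅ f x`. -/
def St_RP : Prop :=
  ∀ K : Set (LG.Structure ℕ), (∀ W W' : LG.Structure ℕ, Iso W W' → W ∈ K → W' ∈ K) →
    PerfK (PurK K) → PerfK K

/-- Part 4: the dichotomy for sparse graphs implies the dichotomy for sparse coloured graphs. -/
theorem part4 (t : ℕ → ℕ) (ht : Monotone t) (h3 : 3 ≤ t 0) (hRS : St_RS) (hRI : St_RI)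
    (hRF : St_RF) (hRC : St_RC) (hRP : St_RP)
    (hm : ∀ (φ : FmI LG 0) (S S' : LG.Structure ℕ), Iso S S' → S ∈ ModI φ → S' ∈ ModI φ)
    (hV : VCPure t) : VCGraph t := by
  intro χ hχ
  obtain ⟨κ, hκ⟩ := hRF χ fun W hW => (hχ W hW).1
  have h1 := hV κ fun G hG => by
    rw [hκ] at hG
    obtain ⟨W, hW, hI⟩ := hG
    have h2 := hRS ℕ W (hχ W hW).1
    have h4 := hRI _ _ _ _ hI
    refine ⟨h4.1 h2.1, fun r hsub => ?_⟩
    have h5 : 3 ≤ t r := h3.trans (ht (Nat.zero_le r))
    exact (hχ W hW).2 r (h2.2 r (t r) h5 (h4.2 r (t r) hsub))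
  rw [hκ] at h1
  exact h1.imp (hRC _) (hRP _ (hm χ))

end VSG
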