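import Pool.Agent.VSG.Asm
import Pool.Agent.VSG.St2

/-!
# Vaught's conjecture and sparse graphs: the final theorem from the statements of the modules
-/

set_option autoImplicit false

namespace VSG

open FirstOrder Set Pool.Agent.Helper5.DU Pool.Agent.Helper6.Str Pool.Agent.Helper79.VC

/-- the conclusion of Vaught's conjecture for all theories, from the dichotomy for sparse graphs -/
theorem full_of_pure (hCS : St_CS) (hCW : St_CW) (hCC : St_CC) (hCP : St_CP) (hCF : St_CF)
    (hGG : St_GG) (hGS : St_GS) (hGSI : St_GSI) (hGC : St_GC) (hGP : St_GP) (hGF : St_GF)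
    (hRS : St_RS) (hRI : St_RI) (hRF : St_RF) (hRC : St_RC) (hRP : St_RP)
    (t : ℕ → ℕ) (ht : Monotone t) (h3 : 3 ≤ t 0) (hu : ∀ c, ∃ r, c < t r) (hV : VCPure t) :
    ∀ (L : FirstOrder.Language.{0, 0}), Countable L.Symbols → ∀ (T : L.Theory),
      (∃ g : ℕ → L.Structure ℕ, ∀ S : L.Structure ℕ,
          @FirstOrder.Language.Theory.Model L ℕ S T →
            ∃ n : ℕ, Nonempty (@FirstOrder.Language.Equiv L ℕ ℕ S (g n))) ∨
      (∃ f : (ℕ → Bool) → L.Structure ℕ,
          (∀ x : ℕ → Bool, @FirstOrder.Language.Theory.Model L ℕ (f x) T) ∧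
          (∀ x y : ℕ → Bool,
              Nonempty (@FirstOrder.Language.Equiv L ℕ ℕ (f x) (f y)) → x = y) ∧
          (∀ (n : ℕ) (R : L.Relations n) (a : Fin n → ℕ),
              IsClopen {x : ℕ → Bool | @FirstOrder.Language.Structure.RelMap L ℕ (f x) n R a}) ∧
          (∀ (n : ℕ) (F : L.Functions n) (a : Fin n → ℕ) (b : ℕ),
              IsOpen {x : ℕ → Bool | @FirstOrder.Language.Structure.funMap L ℕ (f x) n F a = b})) := by
  have hVG : VCGraph t := part4 t ht h3 hRS hRI hRF hRC hRP (fun φ S S' => modI_iso φ S S') hV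
  have hVL : VCL := part2 t ht h3 hu hGG hGS hGSI hGC hGP hGF hVG
  exact VPF.thm_C (fun _ => True) trivial (Or.inl trivial) fun L' hR hF h12 T' _ =>
    part1 hCS hCW hCC hCP hCF hVL L' hR hF h12 T'

end VSG
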