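import Pool.Agent.VSG.St

/-!
# Vaught's conjecture and sparse graphs, module GAX: the graphs of layered structures are axiomatised
by one sentence of `L_{ω₁,ω}`
-/

set_option autoImplicit false

namespace VSG

open FirstOrder Set Pool.Agent.Helper5.DU Pool.Agent.Helper6.Str Pool.Agent.Helper79.VC

/-! ### Closure properties -/

/-- closure properties of definability, with names -/
private structure GAX_Clo : Prop where
  neg : ∀ {n : ℕ} {P : LG.Structure ℕ → (Fin n → ℕ) → Prop}, Dfn P → Dfn fun S v => ¬ P S v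
  all : ∀ {n : ℕ} {ι : Type} [Countable ι] {P : ι → LG.Structure ℕ → (Fin n → ℕ) → Prop},
      (∀ i, Dfn (P i)) → Dfn fun S v => ∀ i, P i S v
  exs : ∀ {n : ℕ} {P : ℕ → LG.Structure ℕ → (Fin n → ℕ) → Prop},
      (∀ i, Dfn (P i)) → Dfn fun S v => ∃ i, P i S v
  and : ∀ {n : ℕ} {P Q : LG.Structure ℕ → (Fin n → ℕ) → Prop}, Dfn P → Dfn Q →
      Dfn fun S v => P S v ∧ Q S v
  or : ∀ {n : ℕ} {P Q : LG.Structure ℕ → (Fin n → ℕ) → Prop}, Dfn P → Dfn Q →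
      Dfn fun S v => P S v ∨ Q S v
  imp : ∀ {n : ℕ} {P Q : LG.Structure ℕ → (Fin n → ℕ) → Prop}, Dfn P → Dfn Q →
      Dfn fun S v => P S v → Q S v
  cst : ∀ {n : ℕ} (p : Prop), Dfn (L := LG) (n := n) fun _ _ => p
  eq : ∀ {n : ℕ} (i j : Fin n), Dfn (L := LG) fun _ v => v i = v j
  co : ∀ {n : ℕ} (c : ℕ) (i : Fin n), Dfn (L := LG) fun S v => Co S c (v i)
  ad : ∀ {n : ℕ} (i j : Fin n), Dfn (L := LG) fun S v => Ad S (v i) (v j)
  ex1 : ∀ {n : ℕ} {Q : LG.Structure ℕ → (Fin n → ℕ) → ℕ → Prop},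
      (Dfn (n := n + 1) fun S u => Q S (fun i => u i.castSucc) (u (Fin.last n))) →
      Dfn fun S v => ∃ x, Q S v x
  all1 : ∀ {n : ℕ} {Q : LG.Structure ℕ → (Fin n → ℕ) → ℕ → Prop},
      (Dfn (n := n + 1) fun S u => Q S (fun i => u i.castSucc) (u (Fin.last n))) →
      Dfn fun S v => ∀ x, Q S v x
  exk : ∀ (k : ℕ) {P : LG.Structure ℕ → (Fin k → ℕ) → Prop}, Dfn P →
      Dfn (n := 0) fun S _ => ∃ w : Fin k → ℕ, P S w

private theorem GAX_congr {n : ℕ} {P Q : LG.Structure ℕ → (Fin n → ℕ) → Prop} (h : Dfn P)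
    (h' : ∀ S v, P S v ↔ Q S v) : Dfn Q := by
  obtain ⟨φ, hφ⟩ := h
  exact ⟨φ, fun S v => (hφ S v).trans (h' S v)⟩

private theorem GAX_app_l {n : ℕ} (v : Fin n → ℕ) (w : Fin 1 → ℕ) :
    (fun i : Fin n => (Fin.append v w : Fin (n + 1) → ℕ) i.castSucc) = v := by
  funext i
  exact Fin.append_left v w i

private theorem GAX_app_r {n : ℕ} (v : Fin n → ℕ) (w : Fin 1 → ℕ) :
    (Fin.append v w : Fin (n + 1) → ℕ) (Fin.last n) = w 0 :=
  Fin.append_right v w 0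

private theorem GAX_clo (hd : St_DFN) : GAX_Clo := by
  obtain ⟨h1, h2, h3, h4, h5, h6, h7, h8, h9⟩ := hd LG
  refine ⟨fun {n P} h => h1 n P h, fun {n ι _ P} h => h2 n ι P h, fun {n P} h => h3 n ℕ P h,
    fun {n P Q} h h' => (h4 n P Q h h').1, fun {n P Q} h h' => (h4 n P Q h h').2.1,
    fun {n P Q} h h' => (h4 n P Q h h').2.2.1, fun {n} p => h5 n p, fun {n} i j => h6 n i j,
    fun {n} c i => ?_, fun {n} i j => ?_, fun {n Q} h => ?_, fun {n Q} h => ?_,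
    fun k {P} h => ?_⟩
  · refine GAX_congr (h7 n 1 (RG.col c) (fun _ => i)) fun S v => ?_
    unfold Co
    have e : (fun _ : Fin 1 => v i) = ![v i] := by
      funext j
      fin_cases j
      rfl
    rw [← e]
  · refine GAX_congr (h7 n 2 RG.adj ![i, j]) fun S v => ?_
    unfold Ad
    have e : (fun k : Fin 2 => v (![i, j] k)) = ![v i, v j] := by
      funext k
      fin_cases k <;> rfl
    rw [← e]
  · refine GAX_congr (h9 n 1 _ h).1 fun S v => ?_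
    constructor
    · rintro ⟨w, hw⟩
      rw [GAX_app_l, GAX_app_r] at hw
      exact ⟨_, hw⟩
    · rintro ⟨x, hx⟩
      refine ⟨fun _ => x, ?_⟩
      rw [GAX_app_l, GAX_app_r]
      exact hx
  · refine GAX_congr (h9 n 1 _ h).2 fun S v => ?_
    constructor
    · intro h x
      have := h fun _ => x
      rw [GAX_app_l, GAX_app_r] at this
      exact this
    · intro h w
      rw [GAX_app_l, GAX_app_r]
      exact h _
  · have h' := h8 k (0 + k) (fun i => Fin.natAdd 0 i) P h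
    refine GAX_congr (h9 0 k _ h').1 fun S v => ?_
    have e : ∀ w : Fin k → ℕ, (fun i => Fin.append v w (Fin.natAdd 0 i)) = w := by
      intro w
      funext i
      exact Fin.append_right v w i
    simp only [e]

/-! ### The axioms -/

/-- the colour of the inner vertices number `k` of the symbol `i` -/
private def GAX_C {V : Type} (W : LG.Structure V) (i k : ℕ) (v : V) : Prop :=
  Co W (2 * Nat.pair i k + 2) v

/-- the path starting at `v`, with `m` further inner vertices, ends at the point `y` -/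
private def GAX_T {V : Type} (ℓ : ℕ → ℕ) (W : LG.Structure V) (i : ℕ) : ℕ → V → V → Prop
  | 0, v, y => GAX_C W i (ℓ i - 1) v ∧ Co W 0 y ∧ Ad W v y
  | m + 1, v, y => GAX_C W i (ℓ i - 1 - (m + 1)) v ∧ ∃ u, Ad W v u ∧ GAX_T ℓ W i m u y

/-- the possible adjacent pairs -/
private def GAX_L {V : Type} (ℓ : ℕ → ℕ) (W : LG.Structure V) (u v : V) : Prop :=
  ∃ i, (Co W 0 u ∧ GAX_C W i 0 v) ∨ (GAX_C W i (ℓ i - 1) u ∧ Co W 0 v) ∨
    ∃ k, GAX_C W i k u ∧ GAX_C W i (k + 1) v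

/-- the axioms -/
private structure GAX_Ax {V : Type} (ℓ : ℕ → ℕ) (W : LG.Structure V) : Prop where
  a1 : ∀ v i k, GAX_C W i k v → ¬ Co W 0 v ∧ k < ℓ i
  a1u : ∀ v i k i' k', GAX_C W i k v → GAX_C W i' k' v → i = i' ∧ k = k'
  a1e : ∀ v, ¬ Co W 0 v → ∃ i k, GAX_C W i k v
  a2 : ∀ v j, Co W (2 * j + 1) v → Co W 0 v
  a3 : ∀ u v, Ad W u v → Ad W v u
  a3c : ∀ u v, Ad W u v → GAX_L ℓ W u v ∨ GAX_L ℓ W v u
  a4a : ∀ i v, GAX_C W i 0 v → ∃ x, Co W 0 x ∧ Ad W x v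
  a4au : ∀ i v x x', GAX_C W i 0 v → Co W 0 x → Ad W x v → Co W 0 x' → Ad W x' v → x = x'
  a4b : ∀ i v, GAX_C W i (ℓ i - 1) v → ∃ y, Co W 0 y ∧ Ad W v y
  a4bu : ∀ i v y y', GAX_C W i (ℓ i - 1) v → Co W 0 y → Ad W v y → Co W 0 y' → Ad W v y' → y = y'
  a4c : ∀ i k v, GAX_C W i k v → k + 1 < ℓ i → ∃ u, GAX_C W i (k + 1) u ∧ Ad W v u
  a4cu : ∀ i k v u u', GAX_C W i k v → GAX_C W i (k + 1) u → Ad W v u → GAX_C W i (k + 1) u' →
    Ad W v u' → u = u'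
  a4d : ∀ i k v, GAX_C W i (k + 1) v → ∃ u, GAX_C W i k u ∧ Ad W u v
  a4du : ∀ i k v u u', GAX_C W i (k + 1) v → GAX_C W i k u → Ad W u v → GAX_C W i k u' →
    Ad W u' v → u = u'
  a5 : ∀ i x y v v', Co W 0 x → GAX_C W i 0 v → Ad W x v → GAX_T ℓ W i (ℓ i - 1) v y →
    GAX_C W i 0 v' → Ad W x v' → GAX_T ℓ W i (ℓ i - 1) v' y → v = v'
  a5n : ∀ i x y v, Co W 0 x → GAX_C W i 0 v → Ad W x v → GAX_T ℓ W i (ℓ i - 1) v y → x ≠ y
  a6 : ∀ k, ∃ w : Fin k → V, ∀ i, Co W 0 (w i) ∧ ∀ j, i = j ∨ w i ≠ w j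

private theorem GAX_dT (hc : GAX_Clo) (ℓ : ℕ → ℕ) (i m : ℕ) : ∀ {n : ℕ} (a b : Fin n),
    Dfn (L := LG) fun S v => GAX_T ℓ S i m (v a) (v b) := by
  induction m with
  | zero => exact fun a b => hc.and (hc.co _ _) (hc.and (hc.co _ _) (hc.ad _ _))
  | succ m ih =>
    intro n a b
    exact hc.and (hc.co _ _) (hc.ex1 (hc.and (hc.ad _ _) (ih _ _)))

private theorem GAX_dL (hc : GAX_Clo) (ℓ : ℕ → ℕ) {n : ℕ} (a b : Fin n) :
    Dfn (L := LG) fun S v => GAX_L ℓ S (v a) (v b) :=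
  hc.exs fun _ => hc.or (hc.and (hc.co _ _) (hc.co _ _)) (hc.or (hc.and (hc.co _ _) (hc.co _ _))
    (hc.exs fun _ => hc.and (hc.co _ _) (hc.co _ _)))

private theorem GAX_dAx (hc : GAX_Clo) (ℓ : ℕ → ℕ) :
    Dfn (L := LG) (n := 0) fun S _ => GAX_Ax ℓ S := by
  have key : Dfn (L := LG) (n := 0) fun W _ =>
      (∀ v i k, GAX_C W i k v → ¬ Co W 0 v ∧ k < ℓ i) ∧
      (∀ v i k i' k', GAX_C W i k v → GAX_C W i' k' v → i = i' ∧ k = k') ∧
      (∀ v, ¬ Co W 0 v → ∃ i k, GAX_C W i k v) ∧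
      (∀ v j, Co W (2 * j + 1) v → Co W 0 v) ∧
      (∀ u v, Ad W u v → Ad W v u) ∧
      (∀ u v, Ad W u v → GAX_L ℓ W u v ∨ GAX_L ℓ W v u) ∧
      (∀ i v, GAX_C W i 0 v → ∃ x, Co W 0 x ∧ Ad W x v) ∧
      (∀ i v x x', GAX_C W i 0 v → Co W 0 x → Ad W x v → Co W 0 x' → Ad W x' v → x = x') ∧
      (∀ i v, GAX_C W i (ℓ i - 1) v → ∃ y, Co W 0 y ∧ Ad W v y) ∧
      (∀ i v y y', GAX_C W i (ℓ i - 1) v → Co W 0 y → Ad W v y → Co W 0 y' → Ad W v y' → y = y') ∧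
      (∀ i k v, GAX_C W i k v → k + 1 < ℓ i → ∃ u, GAX_C W i (k + 1) u ∧ Ad W v u) ∧
      (∀ i k v u u', GAX_C W i k v → GAX_C W i (k + 1) u → Ad W v u → GAX_C W i (k + 1) u' →
        Ad W v u' → u = u') ∧
      (∀ i k v, GAX_C W i (k + 1) v → ∃ u, GAX_C W i k u ∧ Ad W u v) ∧
      (∀ i k v u u', GAX_C W i (k + 1) v → GAX_C W i k u → Ad W u v → GAX_C W i k u' →
        Ad W u' v → u = u') ∧
      (∀ i x y v v', Co W 0 x → GAX_C W i 0 v → Ad W x v → GAX_T ℓ W i (ℓ i - 1) v y →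
        GAX_C W i 0 v' → Ad W x v' → GAX_T ℓ W i (ℓ i - 1) v' y → v = v') ∧
      (∀ i x y v, Co W 0 x → GAX_C W i 0 v → Ad W x v → GAX_T ℓ W i (ℓ i - 1) v y → x ≠ y) ∧
      (∀ k, ∃ w : Fin k → ℕ, ∀ i, Co W 0 (w i) ∧ ∀ j, i = j ∨ w i ≠ w j) := by
    have hC : ∀ {n : ℕ} (i k : ℕ) (a : Fin n), Dfn (L := LG) fun S v => GAX_C S i k (v a) :=
      fun i k a => hc.co _ _
    have hT := @GAX_dT hc ℓ
    have hL := @GAX_dL hc ℓ
    refine hc.and ?_ (hc.and ?_ (hc.and ?_ (hc.and ?_ (hc.and ?_ (hc.and ?_ (hc.and ?_ (hc.and ?_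
      (hc.and ?_ (hc.and ?_ (hc.and ?_ (hc.and ?_ (hc.and ?_ (hc.and ?_ (hc.and ?_
      (hc.and ?_ ?_)))))))))))))))
    · exact hc.all1 (hc.all fun i => hc.all fun k => hc.imp (hC _ _ _)
        (hc.and (hc.neg (hc.co _ _)) (hc.cst _)))
    · exact hc.all1 (hc.all fun i => hc.all fun k => hc.all fun i' => hc.all fun k' =>
        hc.imp (hC _ _ _) (hc.imp (hC _ _ _) (hc.cst _)))
    · exact hc.all1 (hc.imp (hc.neg (hc.co _ _)) (hc.exs fun i => hc.exs fun k => hC _ _ _))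
    · exact hc.all1 (hc.all fun j => hc.imp (hc.co _ _) (hc.co _ _))
    · exact hc.all1 (hc.all1 (hc.imp (hc.ad _ _) (hc.ad _ _)))
    · exact hc.all1 (hc.all1 (hc.imp (hc.ad _ _) (hc.or (hL _ _) (hL _ _))))
    · exact hc.all fun i => hc.all1 (hc.imp (hC _ _ _) (hc.ex1 (hc.and (hc.co _ _) (hc.ad _ _))))
    · exact hc.all fun i => hc.all1 (hc.all1 (hc.all1 (hc.imp (hC _ _ _) (hc.imp (hc.co _ _)
        (hc.imp (hc.ad _ _) (hc.imp (hc.co _ _) (hc.imp (hc.ad _ _) (hc.eq _ _))))))))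
    · exact hc.all fun i => hc.all1 (hc.imp (hC _ _ _) (hc.ex1 (hc.and (hc.co _ _) (hc.ad _ _))))
    · exact hc.all fun i => hc.all1 (hc.all1 (hc.all1 (hc.imp (hC _ _ _) (hc.imp (hc.co _ _)
        (hc.imp (hc.ad _ _) (hc.imp (hc.co _ _) (hc.imp (hc.ad _ _) (hc.eq _ _))))))))
    · exact hc.all fun i => hc.all fun k => hc.all1 (hc.imp (hC _ _ _) (hc.imp (hc.cst _)
        (hc.ex1 (hc.and (hC _ _ _) (hc.ad _ _)))))
    · exact hc.all fun i => hc.all fun k => hc.all1 (hc.all1 (hc.all1 (hc.imp (hC _ _ _)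
        (hc.imp (hC _ _ _) (hc.imp (hc.ad _ _) (hc.imp (hC _ _ _) (hc.imp (hc.ad _ _)
        (hc.eq _ _))))))))
    · exact hc.all fun i => hc.all fun k => hc.all1 (hc.imp (hC _ _ _)
        (hc.ex1 (hc.and (hC _ _ _) (hc.ad _ _))))
    · exact hc.all fun i => hc.all fun k => hc.all1 (hc.all1 (hc.all1 (hc.imp (hC _ _ _)
        (hc.imp (hC _ _ _) (hc.imp (hc.ad _ _) (hc.imp (hC _ _ _) (hc.imp (hc.ad _ _)
        (hc.eq _ _))))))))
    · exact hc.all fun i => hc.all1 (hc.all1 (hc.all1 (hc.all1 (hc.imp (hc.co _ _)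
        (hc.imp (hC _ _ _) (hc.imp (hc.ad _ _) (hc.imp (hT _ _ _ _) (hc.imp (hC _ _ _)
        (hc.imp (hc.ad _ _) (hc.imp (hT _ _ _ _) (hc.eq _ _)))))))))))
    · exact hc.all fun i => hc.all1 (hc.all1 (hc.all1 (hc.imp (hc.co _ _)
        (hc.imp (hC _ _ _) (hc.imp (hc.ad _ _) (hc.imp (hT _ _ _ _) (hc.neg (hc.eq _ _))))))))
    · exact hc.all fun k => hc.exk k (hc.all fun i => hc.and (hc.co _ _)
        (hc.all fun j => hc.or (hc.cst _) (hc.neg (hc.eq _ _))))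
  refine GAX_congr key fun W _ => ?_
  constructor
  · rintro ⟨h1, h2, h3, h4, h5, h6, h7, h8, h9, h10, h11, h12, h13, h14, h15, h16, h17⟩
    exact ⟨h1, h2, h3, h4, h5, h6, h7, h8, h9, h10, h11, h12, h13, h14, h15, h16, h17⟩
  · rintro ⟨h1, h2, h3, h4, h5, h6, h7, h8, h9, h10, h11, h12, h13, h14, h15, h16, h17⟩
    exact ⟨h1, h2, h3, h4, h5, h6, h7, h8, h9, h10, h11, h12, h13, h14, h15, h16, h17⟩

/-! ### From the axioms to a layered structure -/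

section
variable {ℓ : ℕ → ℕ} {W : LG.Structure ℕ}

/-- `v` is the inner vertex number `k` of the path with first inner vertex `w` -/
private def GAX_Q (W : LG.Structure ℕ) (i : ℕ) : ℕ → ℕ → ℕ → Prop
  | 0, w, v => GAX_C W i 0 v ∧ v = w
  | k + 1, w, v => GAX_C W i (k + 1) v ∧ ∃ u, GAX_Q W i k w u ∧ Ad W u v

private theorem GAX_Q_col {i k w v : ℕ} (h : GAX_Q W i k w v) : GAX_C W i k v := by
  cases k with
  | zero => exact h.1
  | succ k => exact h.1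

private theorem GAX_Q_fst {i k w v : ℕ} (h : GAX_Q W i k w v) : GAX_C W i 0 w := by
  induction k generalizing v with
  | zero => exact h.2 ▸ h.1
  | succ k ih =>
    obtain ⟨-, u, hu, -⟩ := h
    exact ih hu

private theorem GAX_Q_fwd (h : GAX_Ax ℓ W) {i k w v v' : ℕ} (h1 : GAX_Q W i k w v)
    (h2 : GAX_Q W i k w v') : v = v' := by
  induction k generalizing v v' with
  | zero => rw [h1.2, h2.2]
  | succ k ih =>
    obtain ⟨c1, u, q1, a1⟩ := h1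
    obtain ⟨c2, u', q2, a2⟩ := h2
    have := ih q1 q2
    subst this
    exact h.a4cu i k u v v' (GAX_Q_col q1) c1 a1 c2 a2

private theorem GAX_Q_bwd (h : GAX_Ax ℓ W) {i k w w' v : ℕ} (h1 : GAX_Q W i k w v)
    (h2 : GAX_Q W i k w' v) : w = w' := by
  induction k generalizing v with
  | zero => rw [← h1.2, ← h2.2]
  | succ k ih =>
    obtain ⟨c1, u, q1, a1⟩ := h1
    obtain ⟨c2, u', q2, a2⟩ := h2
    have := h.a4du i k v u u' c1 (GAX_Q_col q1) a1 (GAX_Q_col q2) a2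
    subst this
    exact ih q1 q2

private theorem GAX_Q_exb (h : GAX_Ax ℓ W) {i k v : ℕ} (hv : GAX_C W i k v) :
    ∃ w, GAX_Q W i k w v := by
  induction k generalizing v with
  | zero => exact ⟨v, hv, rfl⟩
  | succ k ih =>
    obtain ⟨u, hu, ha⟩ := h.a4d i k v hv
    obtain ⟨w, hw⟩ := ih hu
    exact ⟨w, hv, u, hw, ha⟩

private theorem GAX_Q_exf (h : GAX_Ax ℓ W) {i w : ℕ} (hw : GAX_C W i 0 w) {k : ℕ} (hk : k < ℓ i) :
    ∃ v, GAX_Q W i k w v := by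
  induction k with
  | zero => exact ⟨w, hw, rfl⟩
  | succ k ih =>
    obtain ⟨u, hu⟩ := ih (by omega)
    obtain ⟨v, hv, ha⟩ := h.a4c i k u (GAX_Q_col hu) hk
    exact ⟨v, hv, u, hu, ha⟩

private theorem GAX_T_col {i m v y : ℕ} (h : GAX_T ℓ W i m v y) :
    GAX_C W i (ℓ i - 1 - m) v := by
  cases m with
  | zero => exact h.1
  | succ k => exact h.1

private theorem GAX_T_pt {i m v y : ℕ} (h : GAX_T ℓ W i m v y) : Co W 0 y := by
  induction m generalizing v with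
  | zero => exact h.2.1
  | succ m ih =>
    obtain ⟨-, u, -, hu⟩ := h
    exact ih hu

private theorem GAX_T_uniq (h : GAX_Ax ℓ W) {i m k v y y' : ℕ} (hk : k + m + 1 = ℓ i)
    (h1 : GAX_T ℓ W i m v y) (h2 : GAX_T ℓ W i m v y') : y = y' := by
  induction m generalizing k v with
  | zero => exact h.a4bu i v y y' h1.1 h1.2.1 h1.2.2 h2.2.1 h2.2.2
  | succ m ih =>
    obtain ⟨c1, u, a1, t1⟩ := h1
    obtain ⟨c2, u', a2, t2⟩ := h2
    have e : ℓ i - 1 - m = ℓ i - 1 - (m + 1) + 1 := by omega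
    have hu := GAX_T_col t1
    have hu' := GAX_T_col t2
    rw [e] at hu hu'
    have := h.a4cu i _ v u u' c1 hu a1 hu' a2
    subst this
    exact ih (k := k + 1) (by omega) t1 t2

private theorem GAX_T_ex (h : GAX_Ax ℓ W) {i m k v : ℕ} (hk : k + m + 1 = ℓ i)
    (hv : GAX_C W i k v) : ∃ y, GAX_T ℓ W i m v y := by
  induction m generalizing k v with
  | zero =>
    have e : k = ℓ i - 1 := by omega
    subst e
    obtain ⟨y, hy, ha⟩ := h.a4b i v hv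
    exact ⟨y, hv, hy, ha⟩
  | succ m ih =>
    obtain ⟨u, hu, ha⟩ := h.a4c i k v hv (by omega)
    obtain ⟨y, hy⟩ := ih (k := k + 1) (by omega) hu
    have e : k = ℓ i - 1 - (m + 1) := by omega
    subst e
    exact ⟨y, hv, u, ha, hy⟩

private theorem GAX_T_shift (h : GAX_Ax ℓ W) {i k m w v y : ℕ} (hk : k + m + 1 = ℓ i)
    (hq : GAX_Q W i k w v) : GAX_T ℓ W i m v y ↔ GAX_T ℓ W i (ℓ i - 1) w y := by
  induction k generalizing m v with
  | zero =>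
    have e : m = ℓ i - 1 := by omega
    rw [e, hq.2]
  | succ k ih =>
    obtain ⟨c, u, hq', ha⟩ := hq
    rw [← ih (m := m + 1) (by omega) hq']
    have e : ℓ i - 1 - m = k + 1 := by omega
    constructor
    · intro ht
      have hc := GAX_Q_col hq'
      rw [show k = ℓ i - 1 - (m + 1) by omega] at hc
      exact ⟨hc, v, ha, ht⟩
    · rintro ⟨c', u', ha', ht'⟩
      have hu' := GAX_T_col ht'
      rw [e] at hu'
      have := h.a4cu i k u u' v (GAX_Q_col hq') hu' ha' c ha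
      subst this
      exact ht'

/-- `v` is the inner vertex number `k` of the path of the symbol `i` from `x` to `y` -/
private def GAX_A (ℓ : ℕ → ℕ) (W : LG.Structure ℕ) (v i k x y : ℕ) : Prop :=
  ∃ w, GAX_Q W i k w v ∧ Co W 0 x ∧ Ad W x w ∧ GAX_T ℓ W i (ℓ i - 1) w y

private theorem GAX_A_col {v i k x y : ℕ} (ha : GAX_A ℓ W v i k x y) : GAX_C W i k v := by
  obtain ⟨w, hw, -⟩ := ha
  exact GAX_Q_col hw

private theorem GAX_A_ex (h : GAX_Ax ℓ W) {v : ℕ} (hv : ¬ Co W 0 v) :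
    ∃ i k x y, GAX_A ℓ W v i k x y := by
  obtain ⟨i, k, hc⟩ := h.a1e v hv
  obtain ⟨w, hw⟩ := GAX_Q_exb h hc
  have hw0 := GAX_Q_fst hw
  obtain ⟨x, hx, hxa⟩ := h.a4a i w hw0
  have hl := (h.a1 w i 0 hw0).2
  obtain ⟨y, hy⟩ := GAX_T_ex h (m := ℓ i - 1) (k := 0) (by omega) hw0
  exact ⟨i, k, x, y, w, hw, hx, hxa, hy⟩

private theorem GAX_A_uniq (h : GAX_Ax ℓ W) {v i k x y i' k' x' y' : ℕ}
    (h1 : GAX_A ℓ W v i k x y) (h2 : GAX_A ℓ W v i' k' x' y') :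
    i = i' ∧ k = k' ∧ x = x' ∧ y = y' := by
  obtain ⟨rfl, rfl⟩ := h.a1u v i k i' k' (GAX_A_col h1) (GAX_A_col h2)
  obtain ⟨w, hw, hx, hxa, hy⟩ := h1
  obtain ⟨w', hw', hx', hxa', hy'⟩ := h2
  have := GAX_Q_bwd h hw hw'
  subst this
  have hw0 := GAX_Q_fst hw
  have hl := (h.a1 w i 0 hw0).2
  exact ⟨rfl, rfl, h.a4au i w x x' hw0 hx hxa hx' hxa',
    GAX_T_uniq h (m := ℓ i - 1) (k := 0) (by omega) hy hy'⟩

private theorem GAX_A_inj (h : GAX_Ax ℓ W) {v v' i k x y : ℕ}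
    (h1 : GAX_A ℓ W v i k x y) (h2 : GAX_A ℓ W v' i k x y) : v = v' := by
  obtain ⟨w, hw, hx, hxa, hy⟩ := h1
  obtain ⟨w', hw', hx', hxa', hy'⟩ := h2
  have := h.a5 i x y w w' hx (GAX_Q_fst hw) hxa hy (GAX_Q_fst hw') hxa' hy'
  subst this
  exact GAX_Q_fwd h hw hw'

private theorem GAX_A_succ {v v' i k x y : ℕ} (h1 : GAX_A ℓ W v i k x y)
    (hc : GAX_C W i (k + 1) v') (ha : Ad W v v') : GAX_A ℓ W v' i (k + 1) x y := by
  obtain ⟨w, hw, hx, hxa, hy⟩ := h1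
  exact ⟨w, ⟨hc, v, hw, ha⟩, hx, hxa, hy⟩

private theorem GAX_np (h : GAX_Ax ℓ W) {v i k : ℕ} (hv : GAX_C W i k v) : ¬ Co W 0 v :=
  (h.a1 v i k hv).1

/-- two points are not adjacent -/
private theorem GAX_pp (h : GAX_Ax ℓ W) {x y : ℕ} (hx : Co W 0 x) (hy : Co W 0 y) :
    ¬ Ad W x y := by
  have key : ∀ {x y : ℕ}, Co W 0 x → Co W 0 y → ¬ GAX_L ℓ W x y := by
    rintro x y hx hy ⟨i, ⟨-, h2⟩ | ⟨h2, -⟩ | ⟨k, h2, -⟩⟩
    · exact GAX_np h h2 hy
    · exact GAX_np h h2 hx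
    · exact GAX_np h h2 hx
  intro ha
  rcases h.a3c x y ha with h1 | h1
  · exact key hx hy h1
  · exact key hy hx h1

/-- a point and an inner vertex -/
private theorem GAX_pi (h : GAX_Ax ℓ W) (hl : ∀ i, 2 ≤ ℓ i) {x v i k a b : ℕ} (hx : Co W 0 x)
    (hv : GAX_A ℓ W v i k a b) :
    Ad W x v ↔ (k = 0 ∧ x = a) ∨ (k + 1 = ℓ i ∧ x = b) := by
  have hc := GAX_A_col hv
  have hli := hl i
  constructor
  · intro ha
    rcases h.a3c x v ha with ⟨j, ⟨-, h2⟩ | ⟨h2, -⟩ | ⟨k', h2, -⟩⟩ |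
      ⟨j, ⟨h2, -⟩ | ⟨h2, -⟩ | ⟨k', -, h2⟩⟩
    · obtain ⟨rfl, rfl⟩ := h.a1u v i k j 0 hc h2
      left
      obtain ⟨w, hw, ha', hxa, -⟩ := hv
      obtain ⟨-, rfl⟩ := hw
      exact ⟨rfl, h.a4au i v x a hc hx ha ha' hxa⟩
    · exact absurd hx (GAX_np h h2)
    · exact absurd hx (GAX_np h h2)
    · exact absurd h2 (GAX_np h hc)
    · obtain ⟨rfl, rfl⟩ := h.a1u v i k j (ℓ j - 1) hc h2
      right
      obtain ⟨w, hw, ha', hxa, ht⟩ := hv
      have h3 := (GAX_T_shift h (m := 0) (by omega) hw).2 ht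
      exact ⟨by omega, h.a4bu i v x b hc hx (h.a3 _ _ ha) h3.2.1 h3.2.2⟩
    · exact absurd hx (GAX_np h h2)
  · rintro (⟨rfl, rfl⟩ | ⟨h1, rfl⟩)
    · obtain ⟨w, hw, ha', hxa, -⟩ := hv
      obtain ⟨-, rfl⟩ := hw
      exact hxa
    · obtain ⟨w, hw, ha', hxa, ht⟩ := hv
      have h3 := (GAX_T_shift h (m := 0) (by omega) hw).2 ht
      exact h.a3 _ _ h3.2.2

/-- two inner vertices -/
private theorem GAX_ii (h : GAX_Ax ℓ W) {v v' i k a b i' k' a' b' : ℕ}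
    (hv : GAX_A ℓ W v i k a b) (hv' : GAX_A ℓ W v' i' k' a' b') :
    Ad W v v' ↔ i = i' ∧ (a, b) = (a', b') ∧ (k + 1 = k' ∨ k' + 1 = k) := by
  have key1 : ∀ {v v' i k a b i' k' a' b' : ℕ}, GAX_A ℓ W v i k a b →
      GAX_A ℓ W v' i' k' a' b' → Ad W v v' → GAX_L ℓ W v v' →
      i = i' ∧ (a, b) = (a', b') ∧ k + 1 = k' := by
    rintro v v' i k a b i' k' a' b' hv hv' ha ⟨j, ⟨h1, -⟩ | ⟨-, h2⟩ | ⟨k'', h1, h2⟩⟩
    · exact absurd h1 (GAX_np h (GAX_A_col hv))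
    · exact absurd h2 (GAX_np h (GAX_A_col hv'))
    · obtain ⟨rfl, rfl⟩ := h.a1u v i k j k'' (GAX_A_col hv) h1
      obtain ⟨rfl, rfl⟩ := h.a1u v' i' k' i (k + 1) (GAX_A_col hv') h2
      have h3 := GAX_A_succ hv h2 ha
      obtain ⟨-, -, rfl, rfl⟩ := GAX_A_uniq h h3 hv'
      exact ⟨rfl, rfl, rfl⟩
  have key2 : ∀ {v v' i k a b : ℕ}, GAX_A ℓ W v i k a b →
      GAX_A ℓ W v' i (k + 1) a b → Ad W v v' := by
    intro v v' i k a b hv hv'
    have h1 := (h.a1 v' i (k + 1) (GAX_A_col hv')).2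
    obtain ⟨u, hu, ha⟩ := h.a4c i k v (GAX_A_col hv) h1
    have h2 := GAX_A_inj h (GAX_A_succ hv hu ha) hv'
    rwa [h2] at ha
  constructor
  · intro ha
    rcases h.a3c v v' ha with h1 | h1
    · obtain ⟨e1, e2, e3⟩ := key1 hv hv' ha h1
      exact ⟨e1, e2, Or.inl e3⟩
    · obtain ⟨e1, e2, e3⟩ := key1 hv' hv (h.a3 _ _ ha) h1
      exact ⟨e1.symm, e2.symm, Or.inr e3⟩
  · rintro ⟨rfl, h2, rfl | rfl⟩
    · obtain ⟨rfl, rfl⟩ := Prod.mk.inj h2
      exact key2 hv hv'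
    · obtain ⟨rfl, rfl⟩ := Prod.mk.inj h2
      exact h.a3 _ _ (key2 hv' hv)

private theorem GAX_inf (h : GAX_Ax ℓ W) : Infinite {v : ℕ // Co W 0 v} := by
  by_contra hn
  rw [not_infinite_iff_finite] at hn
  have := Fintype.ofFinite {v : ℕ // Co W 0 v}
  obtain ⟨w, hw⟩ := h.a6 (Fintype.card {v : ℕ // Co W 0 v} + 1)
  have hinj : Function.Injective
      (fun i => (⟨w i, (hw i).1⟩ : {v : ℕ // Co W 0 v})) := by
    intro i j hij
    rcases (hw i).2 j with h1 | h1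
    · exact h1
    · exact absurd (congrArg Subtype.val hij) h1
  have := Fintype.card_le_of_injective _ hinj
  rw [Fintype.card_fin] at this
  omega

private theorem GAX_back (hl : ∀ i, 2 ≤ ℓ i) (h : GAX_Ax ℓ W) :
    ∃ S : LN.Structure ℕ, Irr S ∧ Iso (grS ℓ S) W := by
  have := GAX_inf h
  obtain ⟨p⟩ := nonempty_equiv_of_countable (α := ℕ) (β := {v : ℕ // Co W 0 v})
  set S : LN.Structure ℕ := mkN (fun j a => Co W (2 * j + 1) (p a))
    (fun i a b => ∃ w, GAX_C W i 0 w ∧ Ad W (p a) w ∧ GAX_T ℓ W i (ℓ i - 1) w (p b)) with hS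
  have hUn : ∀ j a, Un S j a ↔ Co W (2 * j + 1) (p a) := fun j a => Iff.rfl
  have hBn : ∀ i a b, Bn S i a b ↔
      ∃ w, GAX_C W i 0 w ∧ Ad W (p a) w ∧ GAX_T ℓ W i (ℓ i - 1) w (p b) :=
    fun i a b => Iff.rfl
  have hex : ∀ q : IV ℓ S, ∃ v, GAX_A ℓ W v q.1.1.1 q.1.1.2 (p q.1.2.1) (p q.1.2.2) := by
    rintro ⟨⟨⟨i, k⟩, a, b⟩, h1, h2⟩
    obtain ⟨w, hw, ha, ht⟩ := (hBn _ _ _).1 h1
    obtain ⟨v, hv⟩ := GAX_Q_exf h hw h2
    exact ⟨v, w, hv, (p a).2, ha, ht⟩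
  choose F hF using hex
  set f : GV ℓ S → ℕ := Sum.elim (fun a => ((p a : {v : ℕ // Co W 0 v}) : ℕ)) F with hf
  have hp : ∀ a, Co W 0 (p a) := fun a => (p a).2
  have hinj : Function.Injective f := by
    rintro (a | q) (b | q') hab
    · have : p a = p b := Subtype.ext hab
      rw [p.injective this]
    · have h1 : ((p a : {v : ℕ // Co W 0 v}) : ℕ) = F q' := hab
      exact absurd (h1 ▸ hp a) (GAX_np h (GAX_A_col (hF q')))
    · have h1 : ((p b : {v : ℕ // Co W 0 v}) : ℕ) = F q := hab.symm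
      exact absurd (h1 ▸ hp b) (GAX_np h (GAX_A_col (hF q)))
    · have h1 : F q = F q' := hab
      have h2 := hF q
      rw [h1] at h2
      obtain ⟨e1, e2, e3, e4⟩ := GAX_A_uniq h h2 (hF q')
      congr 1
      apply Subtype.ext
      exact Prod.ext (Prod.ext e1 e2) (Prod.ext (p.injective (Subtype.ext e3))
        (p.injective (Subtype.ext e4)))
  have hsur : Function.Surjective f := by
    intro v
    by_cases hv : Co W 0 v
    · exact ⟨Sum.inl (p.symm ⟨v, hv⟩), by simp [hf]⟩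
    · obtain ⟨i, k, x, y, hA⟩ := GAX_A_ex h hv
      have hA' := hA
      obtain ⟨w, hw, hx, hxa, ht⟩ := hA'
      have hy := GAX_T_pt ht
      obtain ⟨a, ha⟩ := p.surjective ⟨x, hx⟩
      obtain ⟨b, hb⟩ := p.surjective ⟨y, hy⟩
      have e1 : x = ((p a : {v : ℕ // Co W 0 v}) : ℕ) := by rw [ha]
      have e2 : y = ((p b : {v : ℕ // Co W 0 v}) : ℕ) := by rw [hb]
      subst e1
      subst e2
      have hq : Bn S i a b ∧ k < ℓ i :=
        ⟨(hBn _ _ _).2 ⟨w, GAX_Q_fst hw, hxa, ht⟩, (h.a1 v i k (GAX_A_col hA)).2⟩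
      exact ⟨Sum.inr ⟨((i, k), (a, b)), hq⟩, GAX_A_inj h (hF ⟨((i, k), (a, b)), hq⟩) hA⟩
  refine ⟨S, ?_, Equiv.ofBijective f ⟨hinj, hsur⟩, ?_⟩
  · intro i x hx
    obtain ⟨w, hw, ha, ht⟩ := (hBn _ _ _).1 hx
    exact h.a5n i _ _ w (hp x) hw ha ht rfl
  · have hco : ∀ c u, GC c u ↔ Co W c (f u) := by
      rintro c (a | q)
      · constructor
        · rintro (rfl | ⟨j, rfl, hj⟩)
          · exact hp a
          · exact hj
        · intro hc
          rcases Nat.eq_zero_or_pos c with rfl | hc0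
          · exact Or.inl rfl
          · right
            rcases Nat.even_or_odd' c with ⟨j, rfl | rfl⟩
            · exfalso
              have h1 : GAX_C W (Nat.unpair (j - 1)).1 (Nat.unpair (j - 1)).2 (p a) := by
                unfold GAX_C
                rw [Nat.pair_unpair]
                have : 2 * (j - 1) + 2 = 2 * j := by omega
                rw [this]
                exact hc
              exact GAX_np h h1 (hp a)
            · exact ⟨j, rfl, hc⟩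
      · have h1 := GAX_A_col (hF q)
        constructor
        · intro hc
          have hc' : c = 2 * Nat.pair q.1.1.1 q.1.1.2 + 2 := hc
          rw [hc']
          exact h1
        · intro hc
          change c = 2 * Nat.pair q.1.1.1 q.1.1.2 + 2
          have hc' : Co W c (F q) := hc
          rcases Nat.eq_zero_or_pos c with rfl | hc0
          · exact absurd hc' (GAX_np h h1)
          · rcases Nat.even_or_odd' c with ⟨j, rfl | rfl⟩
            · have h2 : GAX_C W (Nat.unpair (j - 1)).1 (Nat.unpair (j - 1)).2 (F q) := by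
                unfold GAX_C
                rw [Nat.pair_unpair]
                have : 2 * (j - 1) + 2 = 2 * j := by omega
                rw [this]
                exact hc'
              obtain ⟨e1, e2⟩ := h.a1u _ _ _ _ _ h1 h2
              rw [e1, e2, Nat.pair_unpair]
              omega
            · exact absurd (h.a2 _ _ hc') (GAX_np h h1)
    have had : ∀ u v, GA u v ↔ Ad W (f u) (f v) := by
      rintro (a | q) (b | q')
      · exact iff_of_false (fun h' => h') (GAX_pp h (hp a) (hp b))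
      · have h1 := GAX_pi h hl (hp a) (hF q')
        change PA a q' ↔ Ad W (p a) (F q')
        rw [h1]
        unfold PA
        rw [Subtype.coe_inj, Subtype.coe_inj, p.apply_eq_iff_eq, p.apply_eq_iff_eq]
      · have h1 := GAX_pi h hl (hp b) (hF q)
        change PA b q ↔ Ad W (F q) (p b)
        have h2 : Ad W (F q) (p b) ↔ Ad W (p b) (F q) := ⟨h.a3 _ _, h.a3 _ _⟩
        rw [h2, h1]
        unfold PA
        rw [Subtype.coe_inj, Subtype.coe_inj, p.apply_eq_iff_eq, p.apply_eq_iff_eq]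
      · have h1 := GAX_ii h (hF q) (hF q')
        change (q.1.1.1 = q'.1.1.1 ∧ q.1.2 = q'.1.2 ∧
          (q.1.1.2 + 1 = q'.1.1.2 ∨ q'.1.1.2 + 1 = q.1.1.2)) ↔ Ad W (F q) (F q')
        have h2 : ((((p q.1.2.1 : {v : ℕ // Co W 0 v}) : ℕ),
            ((p q.1.2.2 : {v : ℕ // Co W 0 v}) : ℕ)) =
            (((p q'.1.2.1 : {v : ℕ // Co W 0 v}) : ℕ),
            ((p q'.1.2.2 : {v : ℕ // Co W 0 v}) : ℕ))) ↔ q.1.2 = q'.1.2 := by
          constructor
          · intro h3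
            obtain ⟨h4, h5⟩ := Prod.mk.inj h3
            exact Prod.ext (p.injective (Subtype.ext h4)) (p.injective (Subtype.ext h5))
          · intro h3
            rw [h3]
        rw [h1, h2]
    intro n R v
    cases R with
    | col c =>
      have e1 : (⇑(Equiv.ofBijective f ⟨hinj, hsur⟩) ∘ v) = ![f (v 0)] := by
        funext j
        fin_cases j
        rfl
      rw [e1]
      exact hco c (v 0)
    | adj =>
      have e1 : (⇑(Equiv.ofBijective f ⟨hinj, hsur⟩) ∘ v) = ![f (v 0), f (v 1)] := by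
        funext j
        fin_cases j <;> rfl
      rw [e1]
      exact had (v 0) (v 1)

end

/-! ### From a layered structure to the axioms -/

private theorem GAX_forth {ℓ : ℕ → ℕ} (hl : ∀ i, 2 ≤ ℓ i) {W : LG.Structure ℕ}
    {S : LN.Structure ℕ} (hS : Irr S) (e : GV ℓ S ≃ ℕ) (he : RelIso (grS ℓ S) W e) :
    GAX_Ax ℓ W := by
  have hco : ∀ c u, Co W c (e u) ↔ GC c u := by
    intro c u
    have h1 := he 1 (RG.col c) ![u]
    have e1 : (⇑e ∘ ![u]) = ![e u] := by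
      funext j
      fin_cases j
      rfl
    rw [e1] at h1
    exact h1.symm
  have had : ∀ u v, Ad W (e u) (e v) ↔ GA u v := by
    intro u v
    have h1 := he 2 RG.adj ![u, v]
    have e1 : (⇑e ∘ ![u, v]) = ![e u, e v] := by
      funext j
      fin_cases j <;> rfl
    rw [e1] at h1
    exact h1.symm
  have hP : ∀ v, Co W 0 v ↔ ∃ a, v = e (Sum.inl a) := by
    intro v
    obtain ⟨u, rfl⟩ := e.surjective v
    rw [hco]
    constructor
    · intro h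
      rcases u with a | q
      · exact ⟨a, rfl⟩
      · have h' : 0 = 2 * Nat.pair q.1.1.1 q.1.1.2 + 2 := h
        omega
    · rintro ⟨a, ha⟩
      have := e.injective ha
      subst this
      exact Or.inl rfl
  have hC : ∀ i k v, GAX_C W i k v ↔ ∃ (x y : ℕ) (h : Bn S i x y ∧ k < ℓ i),
      v = e (Sum.inr ⟨((i, k), (x, y)), h⟩) := by
    intro i k v
    obtain ⟨u, rfl⟩ := e.surjective v
    unfold GAX_C
    rw [hco]
    constructor
    · intro h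
      rcases u with a | ⟨⟨⟨i', k'⟩, x, y⟩, h1, h2⟩
      · have h' : 2 * Nat.pair i k + 2 = 0 ∨ ∃ j, 2 * Nat.pair i k + 2 = 2 * j + 1 ∧ Un S j a := h
        rcases h' with h' | ⟨j, h', -⟩ <;> omega
      · have h' : 2 * Nat.pair i k + 2 = 2 * Nat.pair i' k' + 2 := h
        have h3 : Nat.pair i k = Nat.pair i' k' := by omega
        obtain ⟨rfl, rfl⟩ := Nat.pair_eq_pair.1 h3
        exact ⟨x, y, ⟨h1, h2⟩, rfl⟩
    · rintro ⟨x, y, h, hu⟩
      have := e.injective hu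
      subst this
      rfl
  have hpi : ∀ a (q : IV ℓ S), Ad W (e (Sum.inl a)) (e (Sum.inr q)) ↔ PA a q :=
    fun a q => had _ _
  have hip : ∀ a (q : IV ℓ S), Ad W (e (Sum.inr q)) (e (Sum.inl a)) ↔ PA a q :=
    fun a q => had _ _
  have hii : ∀ q q' : IV ℓ S, Ad W (e (Sum.inr q)) (e (Sum.inr q')) ↔
      (q.1.1.1 = q'.1.1.1 ∧ q.1.2 = q'.1.2 ∧
        (q.1.1.2 + 1 = q'.1.1.2 ∨ q'.1.1.2 + 1 = q.1.1.2)) := fun q q' => had _ _
  have hne : ∀ a (q : IV ℓ S), e (Sum.inl a) ≠ e (Sum.inr q) := fun a q h => by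
    have := e.injective h
    exact Sum.inl_ne_inr this
  have hqq : ∀ {i k x y i' k' x' y' : ℕ} {h : Bn S i x y ∧ k < ℓ i}
      {h' : Bn S i' x' y' ∧ k' < ℓ i'},
      (e (Sum.inr ⟨((i, k), (x, y)), h⟩) = e (Sum.inr ⟨((i', k'), (x', y')), h'⟩)) →
      i = i' ∧ k = k' ∧ x = x' ∧ y = y' := by
    intro i k x y i' k' x' y' h h' heq
    have h1 := congrArg Subtype.val (Sum.inr.inj (e.injective heq))
    have h2 : ((i, k), (x, y)) = ((i', k'), (x', y')) := h1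
    simp only [Prod.mk.injEq] at h2
    exact ⟨h2.1.1, h2.1.2, h2.2.1, h2.2.2⟩
  -- the ends of a path
  have hT : ∀ i m v y, GAX_T ℓ W i m v y → ∃ (a b : ℕ) (h : Bn S i a b ∧ ℓ i - 1 - m < ℓ i),
      v = e (Sum.inr ⟨((i, ℓ i - 1 - m), (a, b)), h⟩) ∧ y = e (Sum.inl b) := by
    intro i m
    induction m with
    | zero =>
      rintro v y ⟨h1, h2, h3⟩
      obtain ⟨a, b, h, rfl⟩ := (hC _ _ _).1 h1
      obtain ⟨c, rfl⟩ := (hP _).1 h2
      refine ⟨a, b, h, rfl, ?_⟩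
      replace h3 := (hip _ _).1 h3
      rcases h3 with ⟨h4, -⟩ | ⟨-, h4⟩
      · have h5 : ℓ i - 1 = 0 := h4
        have := hl i
        omega
      · have h5 : c = b := h4
        rw [h5]
    | succ m ih =>
      rintro v y ⟨h1, u, h2, h3⟩
      obtain ⟨a, b, h, rfl⟩ := (hC _ _ _).1 h1
      obtain ⟨a', b', h', rfl, rfl⟩ := ih u y h3
      refine ⟨a, b, h, rfl, ?_⟩
      replace h2 := (hii _ _).1 h2
      have h4 : (a, b) = (a', b') := h2.2.1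
      rw [(Prod.mk.inj h4).2]
  refine ⟨?_, ?_, ?_, ?_, ?_, ?_, ?_, ?_, ?_, ?_, ?_, ?_, ?_, ?_, ?_, ?_, ?_⟩
  · intro v i k h1
    obtain ⟨x, y, h, rfl⟩ := (hC _ _ _).1 h1
    refine ⟨fun h2 => ?_, h.2⟩
    obtain ⟨a, ha⟩ := (hP _).1 h2
    exact hne _ _ ha.symm
  · intro v i k i' k' h1 h2
    obtain ⟨x, y, h, rfl⟩ := (hC _ _ _).1 h1
    obtain ⟨x', y', h', hv⟩ := (hC _ _ _).1 h2
    obtain ⟨e1, e2, -, -⟩ := hqq hv
    exact ⟨e1, e2⟩
  · intro v hv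
    obtain ⟨u, rfl⟩ := e.surjective v
    rcases u with a | ⟨⟨⟨i, k⟩, x, y⟩, h⟩
    · exact absurd ((hP _).2 ⟨a, rfl⟩) hv
    · exact ⟨i, k, (hC _ _ _).2 ⟨x, y, h, rfl⟩⟩
  · intro v j hv
    obtain ⟨u, rfl⟩ := e.surjective v
    rcases u with a | q
    · exact (hP _).2 ⟨a, rfl⟩
    · rw [hco] at hv
      have h' : 2 * j + 1 = 2 * Nat.pair q.1.1.1 q.1.1.2 + 2 := hv
      omega
  · intro u v ha
    obtain ⟨u, rfl⟩ := e.surjective u
    obtain ⟨v, rfl⟩ := e.surjective v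
    rcases u with a | q <;> rcases v with b | q'
    · exact absurd ((had _ _).1 ha) (fun h => h)
    · exact (hip _ _).2 ((hpi _ _).1 ha)
    · exact (hpi _ _).2 ((hip _ _).1 ha)
    · replace ha := (hii _ _).1 ha
      exact (hii _ _).2 ⟨ha.1.symm, ha.2.1.symm, ha.2.2.symm⟩
  · intro u v ha
    obtain ⟨u, rfl⟩ := e.surjective u
    obtain ⟨v, rfl⟩ := e.surjective v
    rcases u with a | ⟨⟨⟨i, k⟩, x, y⟩, h⟩ <;> rcases v with b | ⟨⟨⟨i', k'⟩, x', y'⟩, h'⟩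
    · exact absurd ((had _ _).1 ha) (fun h => h)
    · replace ha := (hpi _ _).1 ha
      rcases ha with ⟨h1, -⟩ | ⟨h1, -⟩
      · have h2 : k' = 0 := h1
        subst h2
        exact Or.inl ⟨i', Or.inl ⟨(hP _).2 ⟨a, rfl⟩, (hC _ _ _).2 ⟨x', y', h', rfl⟩⟩⟩
      · have h2 : k' + 1 = ℓ i' := h1
        have h3 : k' = ℓ i' - 1 := by omega
        subst h3
        exact Or.inr ⟨i', Or.inr (Or.inl ⟨(hC _ _ _).2 ⟨x', y', h', rfl⟩, (hP _).2 ⟨a, rfl⟩⟩)⟩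
    · replace ha := (hip _ _).1 ha
      rcases ha with ⟨h1, -⟩ | ⟨h1, -⟩
      · have h2 : k = 0 := h1
        subst h2
        exact Or.inr ⟨i, Or.inl ⟨(hP _).2 ⟨b, rfl⟩, (hC _ _ _).2 ⟨x, y, h, rfl⟩⟩⟩
      · have h2 : k + 1 = ℓ i := h1
        have h3 : k = ℓ i - 1 := by omega
        subst h3
        exact Or.inl ⟨i, Or.inr (Or.inl ⟨(hC _ _ _).2 ⟨x, y, h, rfl⟩, (hP _).2 ⟨b, rfl⟩⟩)⟩
    · replace ha := (hii _ _).1 ha
      obtain ⟨h1, h2, h3⟩ := ha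
      have h4 : i = i' := h1
      subst h4
      rcases h3 with h3 | h3
      · have h5 : k + 1 = k' := h3
        subst h5
        exact Or.inl ⟨i, Or.inr (Or.inr ⟨k, (hC _ _ _).2 ⟨x, y, h, rfl⟩,
          (hC _ _ _).2 ⟨x', y', h', rfl⟩⟩)⟩
      · have h5 : k' + 1 = k := h3
        subst h5
        exact Or.inr ⟨i, Or.inr (Or.inr ⟨k', (hC _ _ _).2 ⟨x', y', h', rfl⟩,
          (hC _ _ _).2 ⟨x, y, h, rfl⟩⟩)⟩
  · intro i v h1
    obtain ⟨x, y, h, rfl⟩ := (hC _ _ _).1 h1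
    exact ⟨e (Sum.inl x), (hP _).2 ⟨x, rfl⟩, (hpi _ _).2 (Or.inl ⟨rfl, rfl⟩)⟩
  · intro i v x x' h1 h2 h3 h4 h5
    obtain ⟨a, b, h, rfl⟩ := (hC _ _ _).1 h1
    have key : ∀ x, Co W 0 x → Ad W x (e (Sum.inr ⟨((i, 0), (a, b)), h⟩)) → x = e (Sum.inl a) := by
      intro x h2 h3
      obtain ⟨c, rfl⟩ := (hP _).1 h2
      replace h3 := (hpi _ _).1 h3
      rcases h3 with ⟨-, h4⟩ | ⟨h4, -⟩
      · have h5 : c = a := h4
        rw [h5]
      · have h5 : 0 + 1 = ℓ i := h4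
        have := hl i
        omega
    rw [key x h2 h3, key x' h4 h5]
  · intro i v h1
    obtain ⟨x, y, h, rfl⟩ := (hC _ _ _).1 h1
    have := hl i
    refine ⟨e (Sum.inl y), (hP _).2 ⟨y, rfl⟩, (hip _ _).2 (Or.inr ⟨?_, rfl⟩)⟩
    change ℓ i - 1 + 1 = ℓ i
    omega
  · intro i v x x' h1 h2 h3 h4 h5
    obtain ⟨a, b, h, rfl⟩ := (hC _ _ _).1 h1
    have key : ∀ x, Co W 0 x → Ad W (e (Sum.inr ⟨((i, ℓ i - 1), (a, b)), h⟩)) x →
        x = e (Sum.inl b) := by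
      intro x h2 h3
      obtain ⟨c, rfl⟩ := (hP _).1 h2
      replace h3 := (hip _ _).1 h3
      rcases h3 with ⟨h4, -⟩ | ⟨-, h4⟩
      · have h5 : ℓ i - 1 = 0 := h4
        have := hl i
        omega
      · have h5 : c = b := h4
        rw [h5]
    rw [key x h2 h3, key x' h4 h5]
  · intro i k v h1 h2
    obtain ⟨x, y, h, rfl⟩ := (hC _ _ _).1 h1
    exact ⟨e (Sum.inr ⟨((i, k + 1), (x, y)), ⟨h.1, h2⟩⟩), (hC _ _ _).2 ⟨x, y, ⟨h.1, h2⟩, rfl⟩,
      (hii _ _).2 ⟨rfl, rfl, Or.inl rfl⟩⟩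
  · intro i k v u u' h1 h2 h3 h4 h5
    obtain ⟨x, y, h, rfl⟩ := (hC _ _ _).1 h1
    obtain ⟨x1, y1, h1', rfl⟩ := (hC _ _ _).1 h2
    obtain ⟨x2, y2, h2', rfl⟩ := (hC _ _ _).1 h4
    replace h3 := (hii _ _).1 h3
    replace h5 := (hii _ _).1 h5
    have h6 : (x, y) = (x1, y1) := h3.2.1
    have h7 : (x, y) = (x2, y2) := h5.2.1
    obtain ⟨rfl, rfl⟩ := Prod.mk.inj h6
    obtain ⟨rfl, rfl⟩ := Prod.mk.inj h7
    rfl
  · intro i k v h1
    obtain ⟨x, y, h, rfl⟩ := (hC _ _ _).1 h1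
    have hk : k < ℓ i := by
      have := h.2
      omega
    exact ⟨e (Sum.inr ⟨((i, k), (x, y)), ⟨h.1, hk⟩⟩), (hC _ _ _).2 ⟨x, y, ⟨h.1, hk⟩, rfl⟩,
      (hii _ _).2 ⟨rfl, rfl, Or.inl rfl⟩⟩
  · intro i k v u u' h1 h2 h3 h4 h5
    obtain ⟨x, y, h, rfl⟩ := (hC _ _ _).1 h1
    obtain ⟨x1, y1, h1', rfl⟩ := (hC _ _ _).1 h2
    obtain ⟨x2, y2, h2', rfl⟩ := (hC _ _ _).1 h4
    replace h3 := (hii _ _).1 h3
    replace h5 := (hii _ _).1 h5
    have h6 : (x1, y1) = (x, y) := h3.2.1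
    have h7 : (x2, y2) = (x, y) := h5.2.1
    obtain ⟨rfl, rfl⟩ := Prod.mk.inj h6
    obtain ⟨rfl, rfl⟩ := Prod.mk.inj h7
    rfl
  · intro i x y v v' h1 h2 h3 h4 h5 h6 h7
    have key : ∀ v, GAX_C W i 0 v → Ad W x v → GAX_T ℓ W i (ℓ i - 1) v y →
        ∃ (a b : ℕ) (h : Bn S i a b ∧ 0 < ℓ i), v = e (Sum.inr ⟨((i, 0), (a, b)), h⟩) ∧
          x = e (Sum.inl a) ∧ y = e (Sum.inl b) := by
      intro v h2 h3 h4
      obtain ⟨a, b, h, rfl⟩ := (hC _ _ _).1 h2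
      obtain ⟨c, rfl⟩ := (hP _).1 h1
      obtain ⟨a', b', h', hv, hy⟩ := hT _ _ _ _ h4
      obtain ⟨-, -, -, rfl⟩ := hqq hv
      refine ⟨a, b, h, rfl, ?_, hy⟩
      replace h3 := (hpi _ _).1 h3
      rcases h3 with ⟨-, h4⟩ | ⟨h4, -⟩
      · have h5 : c = a := h4
        rw [h5]
      · have h5 : 0 + 1 = ℓ i := h4
        have := hl i
        omega
    obtain ⟨a, b, h, rfl, hx, hy⟩ := key v h2 h3 h4
    obtain ⟨a', b', h', rfl, hx', hy'⟩ := key v' h5 h6 h7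
    have e1 := Sum.inl.inj (e.injective (hx.symm.trans hx'))
    have e2 := Sum.inl.inj (e.injective (hy.symm.trans hy'))
    subst e1
    subst e2
    rfl
  · intro i x y v h1 h2 h3 h4 hxy
    obtain ⟨a, b, h, rfl⟩ := (hC _ _ _).1 h2
    obtain ⟨c, rfl⟩ := (hP _).1 h1
    obtain ⟨a', b', h', hv, rfl⟩ := hT _ _ _ _ h4
    obtain ⟨-, -, -, rfl⟩ := hqq hv
    have h6 := Sum.inl.inj (e.injective hxy)
    subst h6
    replace h3 := (hpi _ _).1 h3
    rcases h3 with ⟨-, h4⟩ | ⟨h4, -⟩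
    · have h5 : c = a := h4
      subst h5
      exact hS i c h.1
    · have h5 : 0 + 1 = ℓ i := h4
      have := hl i
      omega
  · intro k
    refine ⟨fun i => e (Sum.inl (i : ℕ)), fun i => ⟨(hP _).2 ⟨_, rfl⟩, fun j => ?_⟩⟩
    by_cases hij : i = j
    · exact Or.inl hij
    · right
      intro h
      exact hij (Fin.ext (Sum.inl.inj (e.injective h)))

/-- **GAX** -/
theorem thm_GAX (hd : St_DFN) : St_GAX := by
  intro ℓ hl
  obtain ⟨χ, hχ⟩ := GAX_dAx (GAX_clo hd) ℓ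
  refine ⟨χ, fun W => ?_⟩
  have h1 : W ∈ ModI χ ↔ GAX_Ax ℓ W := hχ W Fin.elim0
  rw [h1]
  constructor
  · exact GAX_back hl
  · rintro ⟨S, hS, e, he⟩
    exact GAX_forth hl hS e he

end VSG
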