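import Pool.Agent.VSG.St

/-!
# Transfer of countability from the graphs to the layered structures
-/

set_option autoImplicit false

namespace VSG

open FirstOrder Set Pool.Agent.Helper5.DU Pool.Agent.Helper6.Str Pool.Agent.Helper79.VC

/-- every layered structure on `ℕ` has a graph on `ℕ` -/
private theorem GC_ex (ℓ : ℕ → ℕ) (S : LN.Structure ℕ) : ∃ W : LG.Structure ℕ, Iso (grS ℓ S) W := by
  have : Countable (IV ℓ S) := inferInstanceAs
    (Countable {q : (ℕ × ℕ) × (ℕ × ℕ) // Bn S q.1.1 q.2.1 q.2.2 ∧ q.1.2 < ℓ q.1.1})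
  obtain ⟨e⟩ : Nonempty (GV ℓ S ≃ ℕ) := nonempty_equiv_of_countable
  refine ⟨⟨fun f _ => (f : Empty).elim, fun {n} R v => (grS ℓ S).RelMap R (e.symm ∘ v)⟩, e, ?_⟩
  intro n R v
  change (grS ℓ S).RelMap R v ↔ (grS ℓ S).RelMap R (e.symm ∘ (e ∘ v))
  have h : e.symm ∘ (e ∘ v) = v := by
    funext k
    simp
  rw [h]

theorem thm_GC (hd : St_GD) : St_GC := by
  classical
  intro ℓ hℓ K hK
  obtain ⟨g, hg⟩ := hK
  let P : ℕ → LN.Structure ℕ → Prop := fun n S => Iso (grS ℓ S) (g n)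
  let S₀ : LN.Structure ℕ := mkN (fun _ _ => False) (fun _ _ _ => False)
  refine ⟨fun n => if h : ∃ S, P n S then h.choose else S₀, ?_⟩
  intro S hS
  obtain ⟨W, hW⟩ := GC_ex ℓ S
  obtain ⟨n, hn⟩ := hg W ⟨S, hS, hW⟩
  have hex : ∃ S, P n S := ⟨S, hW.trans hn⟩
  refine ⟨n, ?_⟩
  simp only
  rw [dif_pos hex]
  exact hd ℓ hℓ ℕ ℕ S _ ((hW.trans hn).trans (Iso.symm hex.choose_spec))

end VSG
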