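import Pool.Agent.VSG.St

/-!
# Vaught's conjecture and sparse graphs: decoding the graph of a layered structure
-/

set_option autoImplicit false

namespace VSG

open FirstOrder Set Pool.Agent.Helper5.DU Pool.Agent.Helper6.Str Pool.Agent.Helper79.VC

/-- `x` and `y` are joined by a path with `l` inner vertices of the colours `2 (i, k) + 2` -/
def GD_path {M : Type} (W : LG.Structure M) (i l : ℕ) (x y : M) : Prop :=
  ∃ w : ℕ → M, (∀ k < l, Co W (2 * Nat.pair i k + 2) (w k)) ∧ Ad W x (w 0) ∧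
    (∀ k, k + 1 < l → Ad W (w k) (w (k + 1))) ∧ Ad W (w (l - 1)) y

theorem GD_co {ℓ : ℕ → ℕ} {V : Type} {S : LN.Structure V} (c : ℕ) (v : GV ℓ S) :
    Co (grS ℓ S) c v ↔ GC c v := Iff.rfl

theorem GD_ad {ℓ : ℕ → ℕ} {V : Type} {S : LN.Structure V} (u v : GV ℓ S) :
    Ad (grS ℓ S) u v ↔ GA u v := Iff.rfl

theorem GD_co_zero {ℓ : ℕ → ℕ} {V : Type} {S : LN.Structure V} (v : GV ℓ S) :
    Co (grS ℓ S) 0 v ↔ ∃ x, v = Sum.inl x := by
  rw [GD_co]
  rcases v with x | q
  · exact ⟨fun _ => ⟨x, rfl⟩, fun _ => Or.inl rfl⟩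
  · constructor
    · intro h
      exact absurd (show 0 = 2 * Nat.pair q.1.1.1 q.1.1.2 + 2 from h) (by omega)
    · rintro ⟨x, hx⟩
      exact absurd hx (by simp)

theorem GD_co_inner {ℓ : ℕ → ℕ} {V : Type} {S : LN.Structure V} (i k : ℕ) (v : GV ℓ S) :
    Co (grS ℓ S) (2 * Nat.pair i k + 2) v ↔ ∃ q : IV ℓ S, v = Sum.inr q ∧ q.1.1 = (i, k) := by
  rw [GD_co]
  rcases v with x | q
  · constructor
    · intro h
      rcases (show 2 * Nat.pair i k + 2 = 0 ∨ ∃ j, 2 * Nat.pair i k + 2 = 2 * j + 1 ∧ Un S j x from h)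
        with h | ⟨j, h, -⟩ <;> omega
    · rintro ⟨q, hq, -⟩
      exact absurd hq (by simp)
  · constructor
    · intro h
      have h1 : 2 * Nat.pair i k + 2 = 2 * Nat.pair q.1.1.1 q.1.1.2 + 2 := h
      have h2 : Nat.pair i k = Nat.pair q.1.1.1 q.1.1.2 := by omega
      obtain ⟨h3, h4⟩ := Nat.pair_eq_pair.1 h2
      exact ⟨q, rfl, Prod.ext h3.symm h4.symm⟩
    · rintro ⟨q', hq, h⟩
      obtain rfl : q = q' := Sum.inr.inj hq
      show 2 * Nat.pair i k + 2 = 2 * Nat.pair q.1.1.1 q.1.1.2 + 2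
      rw [h]

theorem GD_co_point {ℓ : ℕ → ℕ} {V : Type} {S : LN.Structure V} (j : ℕ) (x : V) :
    Co (grS ℓ S) (2 * j + 1) (Sum.inl x : GV ℓ S) ↔ Un S j x := by
  rw [GD_co]
  constructor
  · intro h
    rcases (show 2 * j + 1 = 0 ∨ ∃ j', 2 * j + 1 = 2 * j' + 1 ∧ Un S j' x from h) with h | ⟨j', h, h'⟩
    · omega
    · obtain rfl : j = j' := by omega
      exact h'
  · intro h
    exact Or.inr ⟨j, rfl, h⟩

theorem GD_bn {ℓ : ℕ → ℕ} {V : Type} {S : LN.Structure V} {i : ℕ} (hi : 2 ≤ ℓ i) (x y : V) :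
    GD_path (grS ℓ S) i (ℓ i) (Sum.inl x : GV ℓ S) (Sum.inl y) ↔ Bn S i x y := by
  constructor
  · rintro ⟨w, h1, h2, h3, h4⟩
    have key : ∀ k, k < ℓ i → ∃ q : IV ℓ S, w k = Sum.inr q ∧ q.1.1 = (i, k) ∧ q.1.2.1 = x ∧
        ∀ q0 : IV ℓ S, w 0 = Sum.inr q0 → q.1.2 = q0.1.2 := by
      intro k
      induction k with
      | zero =>
        intro hk
        obtain ⟨q, hq, hq'⟩ := (GD_co_inner i 0 (w 0)).1 (h1 0 hk)
        refine ⟨q, hq, hq', ?_, fun q0 h0 => ?_⟩
        · rw [hq] at h2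
          have h5 : PA x q := h2
          rcases h5 with h5 | h5
          · exact h5.2.symm
          · have h6 := h5.1
            rw [hq'] at h6
            simp only at h6
            omega
        · rw [hq] at h0
          rw [Sum.inr.inj h0]
      | succ k ih =>
        intro hk
        obtain ⟨q, hq, hq', hx, hz⟩ := ih (by omega)
        obtain ⟨p, hp, hp'⟩ := (GD_co_inner i (k + 1) (w (k + 1))).1 (h1 (k + 1) hk)
        have h5 := h3 k hk
        rw [hq, hp] at h5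
        have h6 : q.1.2 = p.1.2 := h5.2.1
        refine ⟨p, hp, hp', ?_, fun q0 h0 => ?_⟩
        · rw [← h6]
          exact hx
        · rw [← h6]
          exact hz q0 h0
    obtain ⟨q, hq, hq', hx, -⟩ := key (ℓ i - 1) (by omega)
    rw [hq] at h4
    have h5 : PA y q := h4
    rcases h5 with h5 | h5
    · have h6 := h5.1
      rw [hq'] at h6
      simp only at h6
      omega
    · have h6 := q.2.1
      rw [hx, ← h5.2, hq'] at h6
      exact h6
  · intro h
    let w : ℕ → GV ℓ S := fun k => if hk : k < ℓ i then Sum.inr ⟨((i, k), (x, y)), h, hk⟩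
      else Sum.inl x
    have hwk : ∀ k (hk : k < ℓ i), w k = Sum.inr ⟨((i, k), (x, y)), h, hk⟩ :=
      fun k hk => dif_pos hk
    refine ⟨w, fun k hk => ?_, ?_, fun k hk => ?_, ?_⟩
    · rw [GD_co_inner]
      exact ⟨_, hwk k hk, rfl⟩
    · rw [GD_ad, hwk 0 (by omega)]
      exact Or.inl ⟨rfl, rfl⟩
    · rw [GD_ad, hwk k (by omega), hwk (k + 1) hk]
      exact ⟨rfl, rfl, Or.inl rfl⟩
    · rw [GD_ad, hwk (ℓ i - 1) (by omega)]
      refine Or.inr ⟨?_, rfl⟩
      show ℓ i - 1 + 1 = ℓ i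
      omega

theorem GD_iso_co {M N : Type} {W : LG.Structure M} {W' : LG.Structure N} {e : M ≃ N}
    (h : RelIso W W' e) (c : ℕ) (v : M) : Co W c v ↔ Co W' c (e v) := by
  have h1 := h 1 (RG.col c) ![v]
  have h2 : e ∘ ![v] = ![e v] := by
    funext k
    fin_cases k
    rfl
  rw [h2] at h1
  exact h1

theorem GD_iso_ad {M N : Type} {W : LG.Structure M} {W' : LG.Structure N} {e : M ≃ N}
    (h : RelIso W W' e) (u v : M) : Ad W u v ↔ Ad W' (e u) (e v) := by
  have h1 := h 2 RG.adj ![u, v]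
  have h2 : e ∘ ![u, v] = ![e u, e v] := by
    funext k
    fin_cases k <;> rfl
  rw [h2] at h1
  exact h1

theorem GD_iso_path {M N : Type} {W : LG.Structure M} {W' : LG.Structure N} {e : M ≃ N}
    (h : RelIso W W' e) (i l : ℕ) (x y : M) :
    GD_path W i l x y ↔ GD_path W' i l (e x) (e y) := by
  constructor
  · rintro ⟨w, h1, h2, h3, h4⟩
    refine ⟨fun k => e (w k), fun k hk => (GD_iso_co h _ _).1 (h1 k hk), (GD_iso_ad h _ _).1 h2,
      fun k hk => (GD_iso_ad h _ _).1 (h3 k hk), (GD_iso_ad h _ _).1 h4⟩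
  · rintro ⟨w, h1, h2, h3, h4⟩
    have hw : ∀ k, e (e.symm (w k)) = w k := fun k => e.apply_symm_apply _
    refine ⟨fun k => e.symm (w k), fun k hk => (GD_iso_co h _ _).2 ?_, (GD_iso_ad h _ _).2 ?_,
      fun k hk => (GD_iso_ad h _ _).2 ?_, (GD_iso_ad h _ _).2 ?_⟩
    · rw [hw]
      exact h1 k hk
    · rw [hw]
      exact h2
    · rw [hw, hw]
      exact h3 k hk
    · rw [hw]
      exact h4

/-- an isomorphism of layered structures from the unary and binary relations -/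
theorem GD_iso_of {M N : Type} {S : LN.Structure M} {S' : LN.Structure N} (e : M ≃ N)
    (h1 : ∀ i x, Un S i x ↔ Un S' i (e x)) (h2 : ∀ i x y, Bn S i x y ↔ Bn S' i (e x) (e y)) :
    RelIso S S' e := by
  intro n R v
  rcases R with i | i
  · have h3 : v = ![v 0] := by
      funext k
      fin_cases k
      rfl
    have h4 : e ∘ v = ![e (v 0)] := by
      funext k
      fin_cases k
      rfl
    rw [h4]
    rw [h3]
    exact h1 i (v 0)
  · have h3 : v = ![v 0, v 1] := by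
      funext k
      fin_cases k <;> rfl
    have h4 : e ∘ v = ![e (v 0), e (v 1)] := by
      funext k
      fin_cases k <;> rfl
    rw [h4]
    rw [h3]
    exact h2 i (v 0) (v 1)

theorem thm_GD : St_GD := by
  intro ℓ hℓ V V' S S' ⟨e, he⟩
  have hp : ∀ x : V, ∃ y : V', e (Sum.inl x) = Sum.inl y := fun x =>
    (GD_co_zero _).1 ((GD_iso_co he 0 _).1 ((GD_co_zero _).2 ⟨x, rfl⟩))
  have hp' : ∀ y : V', ∃ x : V, e.symm (Sum.inl y) = Sum.inl x := fun y =>
    (GD_co_zero _).1 ((GD_iso_co he.symm 0 _).1 ((GD_co_zero _).2 ⟨y, rfl⟩))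
  choose σ hσ using hp
  choose τ hτ using hp'
  have h1 : ∀ x, τ (σ x) = x := fun x => by
    have h2 := hτ (σ x)
    rw [← hσ x, e.symm_apply_apply] at h2
    exact (Sum.inl.inj h2).symm
  have h2 : ∀ y, σ (τ y) = y := fun y => by
    have h3 := hσ (τ y)
    rw [← hτ y, e.apply_symm_apply] at h3
    exact (Sum.inl.inj h3).symm
  refine ⟨⟨σ, τ, h1, h2⟩, GD_iso_of _ (fun j x => ?_) fun i x y => ?_⟩
  · show Un S j x ↔ Un S' j (σ x)
    rw [← GD_co_point (ℓ := ℓ) j x, ← GD_co_point (ℓ := ℓ) j (σ x), ← hσ]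
    exact GD_iso_co he _ _
  · show Bn S i x y ↔ Bn S' i (σ x) (σ y)
    rw [← GD_bn (hℓ i) x y, ← GD_bn (hℓ i) (σ x) (σ y), ← hσ, ← hσ]
    exact GD_iso_path he _ _ _ _

end VSG
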