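import Pool.Agent.VSG.St
import Pool.Agent.VSG.Alg

/-!
# Vaught's conjecture and sparse graphs: genericity is definable
-/

set_option autoImplicit false

namespace VSG

open FirstOrder

/-- the set of the members of a tuple -/
private noncomputable def GDF_img {V : Type} {k : ℕ} (v : Fin k → V) : Finset V :=
  (Set.finite_range v).toFinset

private theorem GDF_mem {V : Type} {k : ℕ} (v : Fin k → V) (x : V) :
    x ∈ GDF_img v ↔ ∃ i, v i = x := by
  simp [GDF_img]

private theorem GDF_map {V V' : Type} {ρ : V → V → ℕ} {ρ' : V' → V' → ℕ} {F X : Finset V}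
    (F' X' : Finset V') (g : V → V') (h : Strg ρ F X) :
    Set.InjOn g (X : Set V) → (∀ x ∈ X, ∀ y ∈ X, ρ' (g x) (g y) = ρ x y) →
    (∀ y, y ∈ F' ↔ ∃ x ∈ F, g x = y) → (∀ y, y ∈ X' ↔ ∃ x ∈ X, g x = y) → Strg ρ' F' X' := by
  classical
  induction h generalizing X' with
  | refl =>
    intro _ _ h1 h2
    have h3 : F' = X' := by
      ext y
      rw [h1, h2]
    rw [h3]
    exact Strg.refl
  | step X x h hx ha ih =>
    intro hi hr h1 h2
    have hsub : ∀ y ∈ X, y ∈ insert x X := fun y hy => Finset.mem_insert_of_mem hy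
    have hxx : x ∈ insert x X := Finset.mem_insert_self _ _
    have ih' := ih (X.image g)
      (fun a ha b hb hab => hi (by simpa using Or.inr ha) (by simpa using Or.inr hb) hab)
      (fun a ha b hb => hr a (hsub a ha) b (hsub b hb)) h1
      (fun y => by simp [Finset.mem_image])
    have h3 : g x ∉ X.image g := by
      intro h4
      obtain ⟨y, hy, hyx⟩ := Finset.mem_image.1 h4
      have h5 : y = x := hi (by simpa using Or.inr hy) (by simp) hyx
      exact hx (h5 ▸ hy)
    have h4 : Adm ρ' (X.image g) (g x) := by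
      refine ⟨fun y hy z hz hyz => ?_, fun m => ?_⟩
      · obtain ⟨a, ha1, rfl⟩ := Finset.mem_image.1 hy
        obtain ⟨b, hb1, rfl⟩ := Finset.mem_image.1 hz
        rw [hr a (hsub a ha1) b (hsub b hb1), hr x hxx a (hsub a ha1), hr x hxx b (hsub b hb1)]
        exact ha.1 a ha1 b hb1 fun h5 => hyz (by rw [h5])
      · refine le_trans ?_ (ha.2 m)
        have h5 : ((X.image g).filter fun y => ρ' (g x) y ≤ m) ⊆
            (X.filter fun y => ρ x y ≤ m).image g := by
          intro y hy
          obtain ⟨hy1, hy2⟩ := Finset.mem_filter.1 hy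
          obtain ⟨a, ha1, rfl⟩ := Finset.mem_image.1 hy1
          refine Finset.mem_image.2 ⟨a, Finset.mem_filter.2 ⟨ha1, ?_⟩, rfl⟩
          rw [hr x hxx a (hsub a ha1)] at hy2
          exact hy2
        exact (Finset.card_le_card h5).trans Finset.card_image_le
    have h5 := ih'.step _ _ h3 h4
    have h6 : X' = insert (g x) (X.image g) := by
      ext y
      rw [h2]
      simp only [Finset.mem_insert, Finset.mem_image]
      constructor
      · rintro ⟨a, ha1 | ha1, rfl⟩
        · exact Or.inl (by rw [ha1])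
        · exact Or.inr ⟨a, ha1, rfl⟩
      · rintro (h7 | ⟨a, ha1, rfl⟩)
        · exact ⟨x, Or.inl rfl, h7.symm⟩
        · exact ⟨a, Or.inr ha1, rfl⟩
    rw [h6]
    exact h5

private theorem GDF_strg {V V' : Type} [Nonempty V'] {ρ : V → V → ℕ} {ρ' : V' → V' → ℕ} {k m : ℕ}
    (u : Fin m → V) (u' : Fin m → V') (s : Fin k → Fin m) (he : ∀ i j, u i = u j ↔ u' i = u' j)
    (hr : ∀ i j, ρ (u i) (u j) = ρ' (u' i) (u' j)) (h : Strg ρ (GDF_img (u ∘ s)) (GDF_img u)) :
    Strg ρ' (GDF_img (u' ∘ s)) (GDF_img u') := by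
  classical
  obtain ⟨g, hg⟩ : ∃ g : V → V', ∀ i, g (u i) = u' i :=
    ⟨Function.extend u u' fun _ => Classical.arbitrary V', fun i =>
      Function.FactorsThrough.extend_apply (fun a b hab => (he a b).1 hab) _ i⟩
  refine GDF_map _ _ g h ?_ ?_ ?_ ?_
  · intro a ha b hb hab
    obtain ⟨i, rfl⟩ := (GDF_mem u a).1 ha
    obtain ⟨j, rfl⟩ := (GDF_mem u b).1 hb
    rw [hg, hg] at hab
    exact (he i j).2 hab
  · intro a ha b hb
    obtain ⟨i, rfl⟩ := (GDF_mem u a).1 ha
    obtain ⟨j, rfl⟩ := (GDF_mem u b).1 hb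
    rw [hg, hg, hr]
  · intro y
    rw [GDF_mem]
    constructor
    · rintro ⟨i, rfl⟩
      exact ⟨u (s i), (GDF_mem _ _).2 ⟨i, rfl⟩, hg _⟩
    · rintro ⟨x, hx, rfl⟩
      obtain ⟨i, rfl⟩ := (GDF_mem _ _).1 hx
      exact ⟨i, (hg _).symm⟩
  · intro y
    rw [GDF_mem]
    constructor
    · rintro ⟨i, rfl⟩
      exact ⟨u i, (GDF_mem _ _).2 ⟨i, rfl⟩, hg _⟩
    · rintro ⟨x, hx, rfl⟩
      obtain ⟨i, rfl⟩ := (GDF_mem _ _).1 hx
      exact ⟨i, (hg _).symm⟩

private theorem GDF_append {V : Type} {k l : ℕ} (v : Fin k → V) (w : Fin l → V) (x : V) :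
    x ∈ GDF_img (Fin.append v w) ↔ x ∈ GDF_img v ∨ x ∈ GDF_img w := by
  rw [GDF_mem, GDF_mem, GDF_mem]
  constructor
  · rintro ⟨i, rfl⟩
    induction i using Fin.addCases with
    | left i => exact Or.inl ⟨i, (Fin.append_left v w i).symm⟩
    | right i => exact Or.inr ⟨i, (Fin.append_right v w i).symm⟩
  · rintro (⟨i, rfl⟩ | ⟨i, rfl⟩)
    · exact ⟨Fin.castAdd l i, Fin.append_left v w i⟩
    · exact ⟨Fin.natAdd k i, Fin.append_right v w i⟩

private theorem GDF_enum {V : Type} (X : Finset V) :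
    ∃ w : Fin X.card → V, Function.Injective w ∧ GDF_img w = X := by
  refine ⟨fun i => (X.equivFin.symm i).1,
    fun i j hij => X.equivFin.symm.injective (Subtype.ext hij), ?_⟩
  ext x
  rw [GDF_mem]
  constructor
  · rintro ⟨i, rfl⟩
    exact (X.equivFin.symm i).2
  · intro hx
    exact ⟨X.equivFin ⟨x, hx⟩, by simp⟩

private theorem GDF_SM {V : Type} (ρ : V → V → ℕ) {k : ℕ} (v : Fin k → V) :
    SM ρ (GDF_img v) ↔ ∀ (l : ℕ) (w : Fin l → V),
      Strg ρ (GDF_img (Fin.append v w ∘ Fin.castAdd l)) (GDF_img (Fin.append v w)) := by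
  have h0 : ∀ (l : ℕ) (w : Fin l → V), Fin.append v w ∘ Fin.castAdd l = v := by
    intro l w
    funext i
    exact Fin.append_left v w i
  constructor
  · intro h l w
    rw [h0]
    exact h _ fun x hx => (GDF_append v w x).2 (Or.inl hx)
  · intro h X hX
    obtain ⟨w, -, hw⟩ := GDF_enum X
    have h1 := h _ w
    rw [h0] at h1
    have h2 : GDF_img (Fin.append v w) = X := by
      ext x
      rw [GDF_append, hw]
      exact ⟨fun h3 => h3.elim (fun h4 => hX h4) id, Or.inr⟩
    rwa [h2] at h1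

private theorem GDF_lab (S : LN.Structure ℕ) (x y a : ℕ) :
    lab S x y = a ↔ (Bn S (Nat.pair a 0) x y ∧ ∀ b : Fin a, ¬ Bn S (Nat.pair b 0) x y) ∨
      ((∀ b, ¬ Bn S (Nat.pair b 0) x y) ∧ a = 0) := by
  classical
  unfold lab
  split_ifs with h
  · rw [Nat.find_eq_iff]
    constructor
    · rintro ⟨h1, h2⟩
      exact Or.inl ⟨h1, fun b => h2 b b.2⟩
    · rintro (⟨h1, h2⟩ | ⟨h1, -⟩)
      · exact ⟨h1, fun b hb => h2 ⟨b, hb⟩⟩
      · exact absurd h (by push Not; exact h1)
  · push Not at h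
    constructor
    · intro h1
      exact Or.inr ⟨h, h1.symm⟩
    · rintro (⟨h1, -⟩ | ⟨-, h1⟩)
      · exact absurd h1 (h _)
      · exact h1.symm

private def GDF_R (n : ℕ) (r : Fin n → ℕ) (S : LN.Structure ℕ) (t : Fin (n + 1 + 1) → ℕ) : Prop :=
  (∀ i : Fin n, ¬ t (Fin.natAdd (n + 1) 0) = t (Fin.castAdd 1 (Fin.castAdd 1 i))) ∧
  (∀ i : Fin n, lab S (t (Fin.natAdd (n + 1) 0)) (t (Fin.castAdd 1 (Fin.castAdd 1 i))) = r i) ∧
  eqv S (t (Fin.natAdd (n + 1) 0)) (t (Fin.castAdd 1 (Fin.natAdd n 0))) ∧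
  SM (lab S) (GDF_img (t ∘ Fin.append (fun i => Fin.castAdd 1 (Fin.castAdd 1 i))
    (fun _ : Fin 1 => Fin.natAdd (n + 1) 0)))

private def GDF_Q3 (n : ℕ) (S : LN.Structure ℕ) (u : Fin n → ℕ) : Prop :=
  ∀ r : Fin n → ℕ, (∀ i j : Fin n, i ≠ j → ¬ u i = u j) → SM (lab S) (GDF_img u) →
    (∀ i j : Fin n, i ≠ j → ∃ a : Fin (max (r i) (r j) + 1), lab S (u i) (u j) = a) →
    (∀ m : ℕ, (Finset.univ.filter fun i => r i ≤ m).card ≤ m) →
    ∀ h : Fin 1 → ℕ, ∃ x : Fin 1 → ℕ, GDF_R n r S (Fin.append (Fin.append u h) x)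

private def GDF_Q1 (S : LN.Structure ℕ) (t : Fin (0 + 2) → ℕ) : Prop :=
  ∀ a : ℕ, lab S (t (Fin.natAdd 0 0)) (t (Fin.natAdd 0 1)) = a ↔
    lab S (t (Fin.natAdd 0 1)) (t (Fin.natAdd 0 0)) = a

private def GDF_Q2 (k : ℕ) (S : LN.Structure ℕ) (t : Fin (0 + k) → ℕ) : Prop :=
  ∃ (l : ℕ), ∃ (w' : Fin l → ℕ), SM (lab S) (GDF_img (Fin.append t w'))

section
variable (hd : St_DFN)
include hd

private theorem GDF_not {L : FirstOrder.Language.{0, 0}} {n : ℕ}
    {P : L.Structure ℕ → (Fin n → ℕ) → Prop} (h : Dfn P) : Dfn fun S v => ¬ P S v :=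
  (hd L).1 n P h

private theorem GDF_all {L : FirstOrder.Language.{0, 0}} {n : ℕ} {ι : Type} [Countable ι]
    {P : ι → L.Structure ℕ → (Fin n → ℕ) → Prop} (h : ∀ i, Dfn (P i)) :
    Dfn fun S v => ∀ i, P i S v := (hd L).2.1 n ι P h

private theorem GDF_ex {L : FirstOrder.Language.{0, 0}} {n : ℕ} {ι : Type} [Countable ι]
    {P : ι → L.Structure ℕ → (Fin n → ℕ) → Prop} (h : ∀ i, Dfn (P i)) :
    Dfn fun S v => ∃ i, P i S v := (hd L).2.2.1 n ι P h

private theorem GDF_and {L : FirstOrder.Language.{0, 0}} {n : ℕ}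
    {P Q : L.Structure ℕ → (Fin n → ℕ) → Prop} (h : Dfn P) (h' : Dfn Q) :
    Dfn fun S v => P S v ∧ Q S v := ((hd L).2.2.2.1 n P Q h h').1

private theorem GDF_or {L : FirstOrder.Language.{0, 0}} {n : ℕ}
    {P Q : L.Structure ℕ → (Fin n → ℕ) → Prop} (h : Dfn P) (h' : Dfn Q) :
    Dfn fun S v => P S v ∨ Q S v := ((hd L).2.2.2.1 n P Q h h').2.1

private theorem GDF_imp {L : FirstOrder.Language.{0, 0}} {n : ℕ}
    {P Q : L.Structure ℕ → (Fin n → ℕ) → Prop} (h : Dfn P) (h' : Dfn Q) :
    Dfn fun S v => P S v → Q S v := ((hd L).2.2.2.1 n P Q h h').2.2.1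

private theorem GDF_iff {L : FirstOrder.Language.{0, 0}} {n : ℕ}
    {P Q : L.Structure ℕ → (Fin n → ℕ) → Prop} (h : Dfn P) (h' : Dfn Q) :
    Dfn fun S v => (P S v ↔ Q S v) := ((hd L).2.2.2.1 n P Q h h').2.2.2

private theorem GDF_const {L : FirstOrder.Language.{0, 0}} {n : ℕ} (p : Prop) :
    Dfn (L := L) (n := n) fun _ _ => p := (hd L).2.2.2.2.1 n p

private theorem GDF_eq {L : FirstOrder.Language.{0, 0}} {n : ℕ} (i j : Fin n) :
    Dfn (L := L) fun _ v => v i = v j := (hd L).2.2.2.2.2.1 n i j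

private theorem GDF_Bn {n : ℕ} (b : ℕ) (i j : Fin n) :
    Dfn (L := LN) fun S v => Bn S b (v i) (v j) := by
  have h := (hd LN).2.2.2.2.2.2.1 n 2 (RN.bin b : LN.Relations 2) ![i, j]
  obtain ⟨φ, hφ⟩ := h
  refine ⟨φ, fun S v => (hφ S v).trans ?_⟩
  have h1 : (fun k => v (![i, j] k)) = ![v i, v j] := by
    funext k
    fin_cases k <;> rfl
  exact iff_of_eq (congrArg (fun w => S.RelMap (RN.bin b : LN.Relations 2) w) h1)

private theorem GDF_sub {L : FirstOrder.Language.{0, 0}} {n m : ℕ} (s : Fin n → Fin m)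
    {P : L.Structure ℕ → (Fin n → ℕ) → Prop} (h : Dfn P) :
    Dfn fun S (v : Fin m → ℕ) => P S (v ∘ s) := (hd L).2.2.2.2.2.2.2.1 n m s P h

private theorem GDF_exq {L : FirstOrder.Language.{0, 0}} {n k : ℕ}
    {P : L.Structure ℕ → (Fin (n + k) → ℕ) → Prop} (h : Dfn P) :
    Dfn (fun S (v : Fin n → ℕ) => ∃ w : Fin k → ℕ, P S (Fin.append v w)) :=
  ((hd L).2.2.2.2.2.2.2.2 n k P h).1

private theorem GDF_allq {L : FirstOrder.Language.{0, 0}} {n k : ℕ}
    {P : L.Structure ℕ → (Fin (n + k) → ℕ) → Prop} (h : Dfn P) :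
    Dfn (fun S (v : Fin n → ℕ) => ∀ w : Fin k → ℕ, P S (Fin.append v w)) :=
  ((hd L).2.2.2.2.2.2.2.2 n k P h).2

omit hd in
private theorem GDF_congr {L : FirstOrder.Language.{0, 0}} {n : ℕ}
    {P Q : L.Structure ℕ → (Fin n → ℕ) → Prop} (h : Dfn P) (hPQ : ∀ S v, P S v ↔ Q S v) :
    Dfn Q := by
  obtain ⟨φ, hφ⟩ := h
  exact ⟨φ, fun S v => (hφ S v).trans (hPQ S v)⟩

private theorem GDF_labd {n : ℕ} (i j : Fin n) (a : ℕ) :
    Dfn (L := LN) fun S v => lab S (v i) (v j) = a := by
  refine GDF_congr (P := fun S v => (Bn S (Nat.pair a 0) (v i) (v j) ∧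
      ∀ b : Fin a, ¬ Bn S (Nat.pair b 0) (v i) (v j)) ∨
      ((∀ b : ℕ, ¬ Bn S (Nat.pair b 0) (v i) (v j)) ∧ a = 0)) ?_ fun S v => (GDF_lab S _ _ a).symm
  refine GDF_or hd (GDF_and hd (GDF_Bn hd _ _ _) (GDF_all hd fun b => GDF_not hd (GDF_Bn hd _ _ _)))
    (GDF_and hd (GDF_all hd fun b => GDF_not hd (GDF_Bn hd _ _ _)) (GDF_const hd _))

private theorem GDF_eqvd {n : ℕ} (i j : Fin n) :
    Dfn (L := LN) fun S v => eqv S (v i) (v j) := by
  unfold eqv
  exact GDF_or hd (GDF_eq hd i j) (GDF_ex hd fun a => GDF_Bn hd _ _ _)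

/-- a property which depends only on the equalities and labels of the members of the tuple is
definable -/
private theorem GDF_inv {n : ℕ} (P : LN.Structure ℕ → (Fin n → ℕ) → Prop)
    (h : ∀ S v S' v', (∀ i j, v i = v j ↔ v' i = v' j) →
      (∀ i j, lab S (v i) (v j) = lab S' (v' i) (v' j)) → P S v → P S' v') : Dfn P := by
  refine GDF_congr (P := fun S v => ∃ μ : {μ : Fin n → Fin n → Prop × ℕ //
      ∃ S v, (∀ i j, (v i = v j) = (μ i j).1 ∧ lab S (v i) (v j) = (μ i j).2) ∧ P S v},
      ∀ i j : Fin n, (v i = v j ↔ (μ.1 i j).1) ∧ lab S (v i) (v j) = (μ.1 i j).2) ?_ ?_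
  · exact GDF_ex hd fun μ => GDF_all hd fun i => GDF_all hd fun j =>
      GDF_and hd (GDF_iff hd (GDF_eq hd i j) (GDF_const hd _)) (GDF_labd hd i j _)
  · intro S v
    constructor
    · rintro ⟨⟨μ, S', v', h1, h2⟩, h3⟩
      refine h S' v' S v (fun i j => ?_) (fun i j => ?_) h2
      · rw [(h3 i j).1, (h1 i j).1]
      · rw [(h3 i j).2, (h1 i j).2]
    · intro h1
      exact ⟨⟨fun i j => (v i = v j, lab S (v i) (v j)), S, v, fun i j => ⟨rfl, rfl⟩, h1⟩,
        fun i j => ⟨Iff.rfl, rfl⟩⟩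

private theorem GDF_SMd (k : ℕ) : Dfn (L := LN) (n := k) fun S v => SM (lab S) (GDF_img v) := by
  refine GDF_congr (P := fun S v => ∀ (l : ℕ) (w : Fin l → ℕ),
      Strg (lab S) (GDF_img (Fin.append v w ∘ Fin.castAdd l)) (GDF_img (Fin.append v w))) ?_
      fun S v => (GDF_SM _ v).symm
  refine GDF_all hd fun l => GDF_allq hd (n := k) (k := l)
    (P := fun S u => Strg (lab S) (GDF_img (u ∘ Fin.castAdd l)) (GDF_img u)) ?_
  exact GDF_inv hd _ fun S v S' v' h1 h2 h3 => GDF_strg v v' _ h1 h2 h3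

/-- the condition for the extension of a tuple of different points -/
private theorem GDF_extd (n : ℕ) : Dfn (L := LN) (n := n) (GDF_Q3 n) := by
  unfold GDF_Q3
  refine GDF_all hd fun r => ?_
  refine GDF_imp hd ?_ (GDF_imp hd (GDF_SMd hd n) (GDF_imp hd ?_ (GDF_imp hd (GDF_const hd _) ?_)))
  · exact GDF_all hd fun i => GDF_all hd fun j => GDF_imp hd (GDF_const hd _)
      (GDF_not hd (GDF_eq hd i j))
  · exact GDF_all hd fun i => GDF_all hd fun j => GDF_imp hd (GDF_const hd _)
      (GDF_ex hd fun a => GDF_labd hd i j _)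
  · refine GDF_allq hd (n := n) (k := 1) (P := fun S u2 => ∃ x : Fin 1 → ℕ,
        GDF_R n r S (Fin.append u2 x)) ?_
    refine GDF_exq hd (n := n + 1) (k := 1) (P := GDF_R n r) ?_
    unfold GDF_R
    refine GDF_and hd (GDF_all hd fun i => GDF_not hd (GDF_eq hd _ _))
      (GDF_and hd (GDF_all hd fun i => GDF_labd hd _ _ _) (GDF_and hd (GDF_eqvd hd _ _) ?_))
    exact GDF_sub hd _ (GDF_SMd hd (n + 1))

end

private theorem GDF_card {V : Type} {n : ℕ} {ρ : V → V → ℕ} (u : Fin n → V)
    (hu : Function.Injective u) (r : V → ℕ) :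
    AdR ρ (GDF_img u) r ↔ (∀ i j : Fin n, i ≠ j → ρ (u i) (u j) ≤ max (r (u i)) (r (u j))) ∧
      ∀ m : ℕ, (Finset.univ.filter fun i => r (u i) ≤ m).card ≤ m := by
  classical
  have h0 : ∀ m : ℕ, ((GDF_img u).filter fun y => r y ≤ m).card =
      (Finset.univ.filter fun i => r (u i) ≤ m).card := by
    intro m
    rw [← Finset.card_image_of_injective _ hu]
    congr 1
    ext y
    simp only [Finset.mem_filter, Finset.mem_image, Finset.mem_univ, true_and, GDF_mem]
    constructor
    · rintro ⟨⟨i, rfl⟩, h1⟩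
      exact ⟨i, h1, rfl⟩
    · rintro ⟨i, h1, rfl⟩
      exact ⟨⟨i, rfl⟩, h1⟩
  unfold AdR
  refine and_congr ?_ (forall_congr' fun m => ?_)
  · constructor
    · intro h i j hij
      exact h _ ((GDF_mem _ _).2 ⟨i, rfl⟩) _ ((GDF_mem _ _).2 ⟨j, rfl⟩) (hu.ne hij)
    · intro h y hy z hz hyz
      obtain ⟨i, rfl⟩ := (GDF_mem _ _).1 hy
      obtain ⟨j, rfl⟩ := (GDF_mem _ _).1 hz
      exact h i j fun h1 => hyz (by rw [h1])
  · rw [← h0 m]

theorem thm_GDF (hd : St_DFN) : St_GDF := by
  unfold St_GDF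
  refine GDF_congr (P := fun S v =>
    (∀ w : Fin 2 → ℕ, GDF_Q1 S (Fin.append v w)) ∧ SM (lab S) (GDF_img v) ∧
    (∀ (k : ℕ) (w : Fin k → ℕ), GDF_Q2 k S (Fin.append v w)) ∧
    (∀ (k : ℕ) (w : Fin k → ℕ), GDF_Q3 (0 + k) S (Fin.append v w))) ?_ ?_
  · refine GDF_and hd ?_ (GDF_and hd (GDF_SMd hd 0) (GDF_and hd ?_ ?_))
    · refine GDF_allq hd (n := 0) (k := 2) (P := GDF_Q1) ?_
      unfold GDF_Q1
      exact GDF_all hd fun a => GDF_iff hd (GDF_labd hd _ _ _) (GDF_labd hd _ _ _)
    · refine GDF_all hd fun k => GDF_allq hd (n := 0) (k := k) (P := GDF_Q2 k) ?_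
      unfold GDF_Q2
      exact GDF_ex hd fun l => GDF_exq hd (n := 0 + k) (k := l) (P := fun S t =>
        SM (lab S) (GDF_img t)) (GDF_SMd hd _)
    · exact GDF_all hd fun k => GDF_allq hd (n := 0) (k := k) (P := GDF_Q3 (0 + k))
        (GDF_extd hd (0 + k))
  · intro S v
    have hv : GDF_img v = ∅ := by
      ext x
      rw [GDF_mem]
      simp
    have hvw : ∀ {k : ℕ} (w : Fin k → ℕ), GDF_img (Fin.append v w) = GDF_img w := by
      intro k w
      ext x
      rw [GDF_append, hv]
      simp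
    constructor
    · rintro ⟨h1, h2, h3, h4⟩
      refine ⟨fun x y => ?_, ?_, fun X => ?_, fun F hF r hr h => ?_⟩
      · have h5 := (h1 ![x, y] (lab S x y)).1 ?_
        · rw [Fin.append_right, Fin.append_right] at h5
          exact h5.symm
        · rw [Fin.append_right, Fin.append_right]
          rfl
      · rwa [hv] at h2
      · obtain ⟨w, -, hw⟩ := GDF_enum X
        obtain ⟨l, w', h5⟩ := h3 _ w
        refine ⟨_, fun x hx => ?_, h5⟩
        rw [GDF_append, hvw, hw]
        exact Or.inl hx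
      · obtain ⟨w, hw1, hw⟩ := GDF_enum F
        have hu : Function.Injective (Fin.append v w) := by
          intro i j hij
          induction i using Fin.addCases with
          | left i => exact i.elim0
          | right i =>
            induction j using Fin.addCases with
            | left j => exact j.elim0
            | right j =>
              rw [Fin.append_right, Fin.append_right] at hij
              rw [hw1 hij]
        have hF' : GDF_img (Fin.append v w) = F := by rw [hvw, hw]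
        rw [← hF'] at hr
        obtain ⟨h5, h6⟩ := (GDF_card _ hu r).1 hr
        obtain ⟨x, hx1, hx2, hx3, hx4⟩ := h4 _ w (fun i => r (Fin.append v w i))
          (fun i j hij => hu.ne hij) (by rw [hF']; exact hF)
          (fun i j hij => ⟨⟨_, Nat.lt_succ_of_le (h5 i j hij)⟩, rfl⟩) h6 (fun _ => h)
        simp only [Fin.append_left, Fin.append_right] at hx1 hx2 hx3
        refine ⟨x 0, ?_, ?_, hx3, ?_⟩
        · intro h7
          rw [← hF', GDF_mem] at h7
          obtain ⟨i, hi⟩ := h7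
          exact hx1 i hi.symm
        · intro y hy
          rw [← hF', GDF_mem] at hy
          obtain ⟨i, rfl⟩ := hy
          exact hx2 i
        · have h7 : ∀ X : Finset ℕ, (∀ y, y ∈ X ↔ y = x 0 ∨ y ∈ F) → X =
              GDF_img (Fin.append (Fin.append (Fin.append v w)
              (fun _ : Fin 1 => h)) x ∘ Fin.append (fun i => Fin.castAdd 1 (Fin.castAdd 1 i))
              (fun _ : Fin 1 => Fin.natAdd (0 + F.card + 1) 0)) := by
            intro X hX
            ext y
            have h8 : y ∈ F ↔ ∃ i, Fin.append v w i = y := by rw [← GDF_mem, hF']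
            rw [hX, h8, GDF_mem]
            constructor
            · rintro (rfl | ⟨i, rfl⟩)
              · refine ⟨Fin.natAdd _ 0, ?_⟩
                simp only [Function.comp, Fin.append_right]
              · refine ⟨Fin.castAdd 1 i, ?_⟩
                simp only [Function.comp, Fin.append_left]
            · rintro ⟨i, rfl⟩
              induction i using Fin.addCases with
              | left i =>
                right
                refine ⟨i, ?_⟩
                simp only [Function.comp, Fin.append_left]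
              | right i =>
                left
                simp only [Function.comp, Fin.append_right]
          refine Eq.mpr (congrArg (SM (lab S)) (h7 _ ?_)) hx4
          intro y
          exact @Finset.mem_insert ℕ (fun a b => Classical.propDecidable (a = b)) _ _ _
    · rintro ⟨g1, g2, g3, g4⟩
      refine ⟨fun w a => by rw [g1], by rw [hv]; exact g2, fun k w => ?_, fun k w => ?_⟩
      · obtain ⟨F, hF1, hF2⟩ := g3 (GDF_img (Fin.append v w))
        obtain ⟨w', -, hw'⟩ := GDF_enum F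
        refine ⟨_, w', ?_⟩
        have h5 : GDF_img (Fin.append (Fin.append v w) w') = F := by
          ext x
          rw [GDF_append, hw']
          exact ⟨fun h6 => h6.elim (fun h7 => hF1 h7) id, Or.inr⟩
        rw [h5]
        exact hF2
      · intro r hi hs hl hc h
        have hu : Function.Injective (Fin.append v w) := fun i j hij => by
          by_contra hne
          exact hi i j hne hij
        have hr0 : ∀ i, Function.extend (Fin.append v w) r (fun _ => 0) (Fin.append v w i) = r i :=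
          fun i => hu.extend_apply _ _ i
        have hA : AdR (lab S) (GDF_img (Fin.append v w))
            (Function.extend (Fin.append v w) r fun _ => 0) := by
          rw [GDF_card _ hu]
          simp only [hr0]
          refine ⟨fun i j hij => ?_, hc⟩
          obtain ⟨a, ha⟩ := hl i j hij
          rw [ha]
          exact Nat.lt_succ_iff.1 a.2
        obtain ⟨x, hx1, hx2, hx3, hx4⟩ := g4 _ hs _ hA (h 0)
        refine ⟨fun _ => x, ?_, ?_, ?_, ?_⟩
        · intro i
          simp only [Fin.append_left, Fin.append_right]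
          intro h5
          exact hx1 ((GDF_mem _ _).2 ⟨i, h5.symm⟩)
        · intro i
          simp only [Fin.append_left, Fin.append_right]
          rw [hx2 _ ((GDF_mem _ _).2 ⟨i, rfl⟩), hr0]
        · simp only [Fin.append_left, Fin.append_right]
          exact hx3
        · have h7 : ∀ X : Finset ℕ, (∀ y, y ∈ X ↔ y = x ∨ y ∈ GDF_img (Fin.append v w)) → X =
              GDF_img (Fin.append (Fin.append
              (Fin.append v w) h) (fun _ : Fin 1 => x) ∘
              Fin.append (fun i => Fin.castAdd 1 (Fin.castAdd 1 i))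
              (fun _ : Fin 1 => Fin.natAdd (0 + k + 1) 0)) := by
            intro X hX
            ext y
            rw [hX, GDF_mem, GDF_mem]
            constructor
            · rintro (rfl | ⟨i, rfl⟩)
              · refine ⟨Fin.natAdd _ 0, ?_⟩
                simp only [Function.comp, Fin.append_right]
              · refine ⟨Fin.castAdd 1 i, ?_⟩
                simp only [Function.comp, Fin.append_left]
            · rintro ⟨i, rfl⟩
              induction i using Fin.addCases with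
              | left i =>
                right
                refine ⟨i, ?_⟩
                simp only [Function.comp, Fin.append_left]
              | right i =>
                left
                simp only [Function.comp, Fin.append_right]
          refine Eq.mp (congrArg (SM (lab S)) (h7 _ ?_)) hx4
          intro y
          exact @Finset.mem_insert ℕ (fun a b => Classical.propDecidable (a = b)) _ _ _

end VSG
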