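import Pool.Agent.VSG.St

/-!
# The class of the graphs of the models of a sentence is definable
-/

set_option autoImplicit false

namespace VSG

open FirstOrder Set Pool.Agent.Helper5.DU Pool.Agent.Helper6.Str Pool.Agent.Helper79.VC

theorem thm_GF (hd : St_DFN) (ht : St_TRF) (ha : St_GAX) : St_GF := by
  intro ℓ hℓ ψ hψ
  obtain ⟨χ, hχ⟩ := ht ℓ hℓ 0 ψ
  obtain ⟨χ₀, hχ₀⟩ := ha ℓ hℓ
  obtain ⟨-, -, -, h4, -⟩ := hd LG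
  obtain ⟨⟨χ₁, hχ₁⟩, -⟩ := h4 0 (fun W v => Sat W χ v) (fun W v => Sat W χ₀ v)
    ⟨χ, fun _ _ => Iff.rfl⟩ ⟨χ₀, fun _ _ => Iff.rfl⟩
  have key : ∀ (S : LN.Structure ℕ) (W : LG.Structure ℕ), Iso (grS ℓ S) W →
      (Sat W χ Fin.elim0 ↔ Sat S ψ Fin.elim0) := by
    rintro S W ⟨e, he⟩
    have h := hχ S W e he Fin.elim0
    have h' : (fun i : Fin 0 => e (Sum.inl ((Fin.elim0 : Fin 0 → ℕ) i))) = Fin.elim0 := by
      funext i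
      exact i.elim0
    rw [h'] at h
    exact h
  refine ⟨χ₁, ?_⟩
  ext W
  constructor
  · intro hW
    obtain ⟨h1, h2⟩ := (hχ₁ W Fin.elim0).1 hW
    obtain ⟨S, -, hS⟩ := (hχ₀ W).1 h2
    exact ⟨S, (key S W hS).1 h1, hS⟩
  · rintro ⟨S, hS, hW⟩
    exact (hχ₁ W Fin.elim0).2 ⟨(key S W hW).2 hS, (hχ₀ W).2 ⟨S, hψ S hS, hW⟩⟩

end VSG
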