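import Pool.Agent.VSG.St

/-!
# The graph of a layered structure is a graph; subdivisions are invariant under isomorphism
-/

set_option autoImplicit false

namespace VSG

open FirstOrder Set Pool.Agent.Helper5.DU Pool.Agent.Helper6.Str Pool.Agent.Helper79.VC

private theorem GG_ad {V V' : Type} {W : LG.Structure V} {W' : LG.Structure V'} {e : V ≃ V'}
    (h : RelIso W W' e) (x y : V) : Ad W x y ↔ Ad W' (e x) (e y) := by
  unfold Ad
  have h1 := h 2 (RG.adj : LG.Relations 2) ![x, y]
  rw [h1]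
  have : e ∘ ![x, y] = ![e x, e y] := by
    funext k
    fin_cases k <;> rfl
  rw [this]

private theorem GG_irr {V : Type} {ℓ : ℕ → ℕ} {S : LN.Structure V} (u : GV ℓ S) : ¬ GA u u := by
  rcases u with x | q
  · exact fun h => h
  · rintro ⟨-, -, h | h⟩ <;> omega

private theorem GG_sym {V : Type} {ℓ : ℕ → ℕ} {S : LN.Structure V} (u w : GV ℓ S) (h : GA u w) :
    GA w u := by
  rcases u with x | q <;> rcases w with y | q'
  · exact h
  · exact h
  · exact h
  · exact ⟨h.1.symm, h.2.1.symm, h.2.2.symm⟩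

/-- the graph of a layered structure is a graph -/
theorem thm_GG : St_GG := by
  rintro ℓ V S W ⟨e, h⟩
  have key : ∀ u w : GV ℓ S, Ad W (e u) (e w) ↔ GA u w := fun u w => (GG_ad h u w).symm
  refine ⟨fun x hx => ?_, fun x y hxy => ?_⟩
  · obtain ⟨u, rfl⟩ := e.surjective x
    exact GG_irr u ((key u u).1 hx)
  · obtain ⟨u, rfl⟩ := e.surjective x
    obtain ⟨w, rfl⟩ := e.surjective y
    exact (key w u).2 (GG_sym u w ((key u w).1 hxy))

private theorem GG_gaif {V V' : Type} {W : LG.Structure V} {W' : LG.Structure V'} {e : V ≃ V'}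
    (h : RelIso W W' e) (x y : V') (hxy : (gaif W').Adj x y) :
    (gaif W).Adj (e.symm x) (e.symm y) := by
  obtain ⟨hne, n, R, v, h1, ⟨i, hi⟩, ⟨j, hj⟩⟩ := hxy
  refine ⟨fun hh => hne (e.symm.injective hh), n, R, e.symm ∘ v, ?_, ⟨i, ?_⟩, ⟨j, ?_⟩⟩
  · rw [h n R (e.symm ∘ v)]
    have : e ∘ (e.symm ∘ v) = v := by
      funext k
      simp
    rw [this]
    exact h1
  · simp [hi]
  · simp [hj]

/-- subdivisions of complete graphs are invariant under isomorphism -/
theorem thm_GSI : St_GSI := by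
  rintro V V' W W' ⟨e, h⟩ r n ⟨b, P, hb, h1, h2, h3⟩
  refine ⟨fun i => e.symm (b i), fun i j => (P i j).map e.symm, ?_, ?_, ?_, ?_⟩
  · exact fun i j hij => hb (e.symm.injective hij)
  · intro i j hij
    obtain ⟨a1, a2, a3⟩ := h1 i j hij
    have hm : (e.symm (b i) :: ((P i j).map e.symm ++ [e.symm (b j)])) =
        (b i :: (P i j ++ [b j])).map e.symm := by simp
    refine ⟨by simpa using a1, ?_, ?_⟩
    · rw [hm]
      exact a2.map e.symm.injective
    · rw [hm, List.isChain_map]
      exact a3.imp fun x y hxy => GG_gaif h x y hxy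
  · intro i j k hij hk
    rw [List.mem_map] at hk
    obtain ⟨a, ha, hak⟩ := hk
    exact h2 i j k hij (e.symm.injective hak ▸ ha)
  · intro i j i' j' hij hij' hne
    have := h3 i j i' j' hij hij' hne
    intro a ha ha'
    rw [List.mem_map] at ha ha'
    obtain ⟨c, hc, rfl⟩ := ha
    obtain ⟨c', hc', hcc⟩ := ha'
    exact this hc (e.symm.injective hcc ▸ hc')

end VSG
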