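import Pool.Agent.VSG.St
import Pool.Agent.VSG.GD

/-!
# Transfer of perfect sets from the graphs of layered structures to the layered structures
-/

set_option autoImplicit false

namespace VSG

open FirstOrder Set Pool.Agent.Helper5.DU Pool.Agent.Helper6.Str Pool.Agent.Helper79.VC

/-! ### Clopen enumerations -/

section
variable {X : Type} [TopologicalSpace X]

open Classical in
private theorem GP_count {P : X → ℕ → Prop} (hP : ∀ u, IsClopen {x | P x u}) (c : ℕ) :
    ∀ b : ℕ, IsClopen {x | Nat.count (P x) c = b} := by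
  induction c with
  | zero =>
    intro b
    by_cases hb : 0 = b
    · have h1 : {x | Nat.count (P x) 0 = b} = univ := by
        subst hb
        ext x
        simp
      rw [h1]
      exact isClopen_univ
    · have h1 : {x | Nat.count (P x) 0 = b} = ∅ := by
        ext x
        simp [hb]
      rw [h1]
      exact isClopen_empty
  | succ c ih =>
    intro b
    have h1 : {x | Nat.count (P x) (c + 1) = b} =
        ({x | P x c} ∩ ⋃ b' : {b' : Fin (b + 1) // b'.1 + 1 = b},
          {x | Nat.count (P x) c = b'.1.1}) ∪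
        ({x | P x c}ᶜ ∩ {x | Nat.count (P x) c = b}) := by
      ext x
      simp only [mem_ofPred_eq, mem_union, mem_inter_iff, mem_compl_iff, mem_iUnion]
      rw [Nat.count_succ]
      by_cases hx : P x c
      · simp only [hx, if_true, true_and, not_true_eq_false, false_and, or_false]
        constructor
        · intro h
          exact ⟨⟨⟨Nat.count (P x) c, by omega⟩, h⟩, rfl⟩
        · rintro ⟨⟨b', hb'⟩, h⟩
          rw [h]
          exact hb'
      · simp [hx]
    rw [h1]
    exact ((hP c).inter (isClopen_iUnion_of_finite fun b' => ih _)).union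
      ((hP c).compl.inter (ih b))

private theorem GP_nth {P : X → ℕ → Prop} (hP : ∀ u, IsClopen {x | P x u})
    (hinf : ∀ x, ({a | P x a} : Set ℕ).Infinite) (a u : ℕ) :
    IsOpen {x | Nat.nth (P x) a = u} := by
  classical
  have h1 : {x | Nat.nth (P x) a = u} = {x | P x u} ∩ {x | Nat.count (P x) u = a} := by
    ext x
    simp only [mem_ofPred_eq, mem_inter_iff]
    constructor
    · intro h1
      have h2 : P x u := by
        rw [← h1]
        exact Nat.nth_mem_of_infinite (hinf x) a
      refine ⟨h2, ?_⟩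
      rw [← h1]
      exact Nat.count_nth_of_infinite (hinf x) a
    · rintro ⟨h1, h2⟩
      rw [← h2]
      exact Nat.nth_count h1
  rw [h1]
  exact ((hP u).inter (GP_count hP u a)).isOpen

private theorem GP_open {N : X → ℕ} (hN : ∀ u, IsOpen {x | N x = u}) {F : X → ℕ → Prop}
    (hF : ∀ u, IsOpen {x | F x u}) : IsOpen {x | F x (N x)} := by
  have h1 : {x | F x (N x)} = ⋃ u : ℕ, {x | N x = u} ∩ {x | F x u} := by
    ext x
    simp only [mem_ofPred_eq, mem_iUnion, mem_inter_iff]
    constructor
    · exact fun h => ⟨_, rfl, h⟩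
    · rintro ⟨u, h1, h2⟩
      rw [h1]
      exact h2
  rw [h1]
  exact isOpen_iUnion fun u => (hN u).inter (hF u)

private theorem GP_path {f : X → LG.Structure ℕ}
    (hc : ∀ c u, IsClopen {x | Co (f x) c u}) (ha : ∀ u v, IsClopen {x | Ad (f x) u v})
    (i l u v : ℕ) : IsOpen {x | GD_path (f x) i l u v} := by
  have h1 : {x | GD_path (f x) i l u v} = ⋃ w : ℕ → ℕ,
      ((⋂ k : Fin l, {x | Co (f x) (2 * Nat.pair i k + 2) (w k)}) ∩ {x | Ad (f x) u (w 0)}) ∩
      ((⋂ k : {k : Fin l // (k : ℕ) + 1 < l}, {x | Ad (f x) (w k.1) (w (k.1 + 1))}) ∩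
        {x | Ad (f x) (w (l - 1)) v}) := by
    ext x
    simp only [mem_ofPred_eq, mem_iUnion, mem_inter_iff, mem_iInter, GD_path]
    constructor
    · rintro ⟨w, h1, h2, h3, h4⟩
      exact ⟨w, ⟨fun k => h1 k k.2, h2⟩, fun k => h3 k.1 k.2, h4⟩
    · rintro ⟨w, ⟨h1, h2⟩, h3, h4⟩
      exact ⟨w, fun k hk => h1 ⟨k, hk⟩, h2, fun k hk => h3 ⟨⟨k, by omega⟩, hk⟩, h4⟩
  rw [h1]
  refine isOpen_iUnion fun w => ?_
  refine IsOpen.inter (IsOpen.inter ?_ (ha _ _).isOpen) (IsOpen.inter ?_ (ha _ _).isOpen)
  · exact isOpen_iInter_of_finite fun k => (hc _ _).isOpen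
  · exact isOpen_iInter_of_finite fun k => (ha _ _).isOpen

end

theorem thm_GP (hu : St_GU) (_hd : St_GD) : St_GP := by
  classical
  intro ℓ hℓ K hirr hwit hKiso hK
  obtain ⟨f, hf, hinj, hcl⟩ := hK
  choose S hSK hS using hf
  choose e he using hS
  have hCo : ∀ c u, IsClopen {x | Co (f x) c u} := fun c u => hcl 1 _ _
  have hAd : ∀ u v, IsClopen {x | Ad (f x) u v} := fun u v => hcl 2 _ _
  let P : (ℕ → Bool) → ℕ → Prop := fun x u => Co (f x) 0 u
  have hP : ∀ u, IsClopen {x | P x u} := fun u => hCo 0 u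
  have hPe : ∀ x u, P x u ↔ ∃ a, e x (Sum.inl a) = u := by
    intro x u
    have h1 := (GD_iso_co (he x) 0 ((e x).symm u))
    rw [(e x).apply_symm_apply, GD_co_zero] at h1
    show Co (f x) 0 u ↔ _
    rw [← h1]
    constructor
    · rintro ⟨a, ha⟩
      exact ⟨a, by rw [← ha, (e x).apply_symm_apply]⟩
    · rintro ⟨a, ha⟩
      exact ⟨a, by rw [← ha, (e x).symm_apply_apply]⟩
  have hinf : ∀ x, ({a | P x a} : Set ℕ).Infinite := by
    intro x
    have h1 : {a | P x a} = Set.range fun a : ℕ => e x (Sum.inl a) := by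
      ext u
      exact hPe x u
    rw [h1]
    exact Set.infinite_range_of_injective fun a b hab => Sum.inl.inj ((e x).injective hab)
  let p : (ℕ → Bool) → ℕ → ℕ := fun x => Nat.nth (P x)
  have hp : ∀ x a, ∃ b, e x (Sum.inl b) = p x a := fun x a =>
    (hPe x _).1 (Nat.nth_mem_of_infinite (hinf x) a)
  choose σ hσ using hp
  have hbij : ∀ x, Function.Bijective (σ x) := by
    intro x
    constructor
    · intro a b hab
      have h1 : p x a = p x b := by rw [← hσ, ← hσ, hab]
      exact Nat.nth_injective (hinf x) h1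
    · intro b
      refine ⟨Nat.count (P x) (e x (Sum.inl b)), ?_⟩
      have h1 : p x (Nat.count (P x) (e x (Sum.inl b))) = e x (Sum.inl b) :=
        Nat.nth_count ((hPe x _).2 ⟨b, rfl⟩)
      have h2 := hσ x (Nat.count (P x) (e x (Sum.inl b)))
      rw [h1] at h2
      exact Sum.inl.inj ((e x).injective h2)
  let h : (ℕ → Bool) → LN.Structure ℕ := fun x =>
    mkN (fun j a => Co (f x) (2 * j + 1) (p x a))
      (fun i a b => a ≠ b ∧ GD_path (f x) i (ℓ i) (p x a) (p x b))
  have hpath : ∀ x i a b, GD_path (f x) i (ℓ i) (p x a) (p x b) ↔ Bn (S x) i (σ x a) (σ x b) := by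
    intro x i a b
    rw [← hσ, ← hσ, ← GD_iso_path (he x), GD_bn (hℓ i)]
  have hiso : ∀ x, Iso (h x) (S x) := by
    intro x
    refine ⟨Equiv.ofBijective (σ x) (hbij x), GD_iso_of _ (fun j a => ?_) (fun i a b => ?_)⟩
    · show Co (f x) (2 * j + 1) (p x a) ↔ Un (S x) j (σ x a)
      rw [← hσ, ← GD_iso_co (he x), GD_co_point]
    · show (a ≠ b ∧ GD_path (f x) i (ℓ i) (p x a) (p x b)) ↔ Bn (S x) i (σ x a) (σ x b)
      rw [hpath]
      constructor
      · exact fun h => h.2
      · intro h
        refine ⟨?_, h⟩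
        rintro rfl
        exact hirr (S x) (hSK x) _ _ h
  have hN : ∀ a u, IsOpen {x | p x a = u} := fun a u => GP_nth hP hinf a u
  refine ⟨h, fun x => hKiso (S x) (h x) (hiso x).symm (hSK x), fun x y hxy => ?_, fun n R a => ?_⟩
  · refine hinj x y ?_
    have h1 : Iso (S x) (S y) := ((hiso x).symm.trans hxy).trans (hiso y)
    have h2 := hu ℓ ℕ ℕ (S x) (S y) h1
    have h3 : Iso (grS ℓ (S x)) (f x) := ⟨e x, he x⟩
    have h4 : Iso (grS ℓ (S y)) (f y) := ⟨e y, he y⟩
    exact (h3.symm.trans h2).trans h4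
  · rcases R with j | i
    · show IsClopen {x | Co (f x) (2 * j + 1) (p x (a 0))}
      constructor
      · rw [← isOpen_compl_iff]
        exact GP_open (F := fun x u => ¬ Co (f x) (2 * j + 1) u) (hN (a 0))
          fun u => (hCo _ u).compl.isOpen
      · exact GP_open (hN (a 0)) fun u => (hCo _ u).isOpen
    · show IsClopen {x | a 0 ≠ a 1 ∧ GD_path (f x) i (ℓ i) (p x (a 0)) (p x (a 1))}
      by_cases hab : a 0 = a 1
      · have h1 : {x | a 0 ≠ a 1 ∧ GD_path (f x) i (ℓ i) (p x (a 0)) (p x (a 1))} = ∅ := by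
          ext x
          simp [hab]
        rw [h1]
        exact isClopen_empty
      · have hop : ∀ j, IsOpen {x | GD_path (f x) j (ℓ j) (p x (a 0)) (p x (a 1))} := by
          intro j
          exact GP_open (F := fun x u => GD_path (f x) j (ℓ j) u (p x (a 1))) (hN (a 0)) fun u =>
            GP_open (F := fun x v => GD_path (f x) j (ℓ j) u v) (hN (a 1)) fun v =>
              GP_path hCo hAd j (ℓ j) u v
        have h1 : {x | a 0 ≠ a 1 ∧ GD_path (f x) i (ℓ i) (p x (a 0)) (p x (a 1))} =
            {x | GD_path (f x) i (ℓ i) (p x (a 0)) (p x (a 1))} := by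
          ext x
          simp [hab]
        rw [h1]
        constructor
        · obtain ⟨C, hC⟩ := hwit i
          have h2 : {x | GD_path (f x) i (ℓ i) (p x (a 0)) (p x (a 1))}ᶜ =
              ⋃ j : C, {x | GD_path (f x) j (ℓ j) (p x (a 0)) (p x (a 1))} := by
            ext x
            simp only [mem_compl_iff, mem_ofPred_eq, mem_iUnion]
            rw [hpath, hC (S x) (hSK x) _ _ fun h => hab ((hbij x).1 h)]
            constructor
            · rintro ⟨j, hj, hj'⟩
              exact ⟨⟨j, hj⟩, (hpath x j _ _).2 hj'⟩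
            · rintro ⟨j, hj⟩
              exact ⟨j, j.2, (hpath x j _ _).1 hj⟩
          rw [← isOpen_compl_iff, h2]
          exact isOpen_iUnion fun j => hop j
        · exact hop i

end VSG
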