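import Pool.Agent.VSG.St

/-!
# Vaught's conjecture and sparse graphs: the graphs `grS ℓ S` contain no `≤ r`-subdivision of the
complete graph on `t r` vertices (assembly)
-/

set_option autoImplicit false

namespace VSG

open FirstOrder Set Pool.Agent.Helper5.DU Pool.Agent.Helper6.Str Pool.Agent.Helper79.VC

section
variable {V : Type} {S : LN.Structure V} {ℓ : ℕ → ℕ}

private theorem GS_symm {u v : GV ℓ S} (h : GA u v) : GA v u := by
  rcases u with x | q <;> rcases v with y | q'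
  · exact h
  · exact h
  · exact h
  · exact ⟨h.1.symm, h.2.1.symm, h.2.2.symm⟩

private theorem GS_adj {u v : GV ℓ S} (h : (gaif (grS ℓ S)).Adj u v) : GA u v := by
  obtain ⟨hne, n, R, w, hR, ⟨a, ha⟩, ⟨c, hc⟩⟩ := h
  rcases R with i | _
  · exact absurd (by rw [← ha, ← hc, Subsingleton.elim a c]) hne
  · have h1 : GA (w 0) (w 1) := hR
    fin_cases a <;> fin_cases c
    · exact absurd (ha.symm.trans hc) hne
    · rw [← ha, ← hc]
      exact h1
    · rw [← ha, ← hc]
      exact GS_symm h1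
    · exact absurd (ha.symm.trans hc) hne

/-- the two sides of an inner vertex -/
private theorem GS_side (q : IV ℓ S) : ∃ s : GV ℓ S → Bool, ∀ u v : GV ℓ S, GA (Sum.inr q) u →
    GA (Sum.inr q) v → s u = s v → u = v := by
  classical
  let A : GV ℓ S → Prop := fun u => match u with
    | .inl x => q.1.1.2 = 0 ∧ x = q.1.2.1
    | .inr q' => q.1.1.1 = q'.1.1.1 ∧ q.1.2 = q'.1.2 ∧ q'.1.1.2 + 1 = q.1.1.2
  let B : GV ℓ S → Prop := fun u => match u with
    | .inl x => q.1.1.2 + 1 = ℓ q.1.1.1 ∧ x = q.1.2.2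
    | .inr q' => q.1.1.1 = q'.1.1.1 ∧ q.1.2 = q'.1.2 ∧ q.1.1.2 + 1 = q'.1.1.2
  have hAB : ∀ u, GA (Sum.inr q) u → A u ∨ B u := by
    intro u hu
    rcases u with x | q'
    · exact hu
    · obtain ⟨h1, h2, h3⟩ := hu
      rcases h3 with h3 | h3
      · exact Or.inr ⟨h1, h2, h3⟩
      · exact Or.inl ⟨h1, h2, h3⟩
  have hext : ∀ q' q'' : IV ℓ S, q'.1.1.1 = q''.1.1.1 → q'.1.2 = q''.1.2 →
      q'.1.1.2 = q''.1.1.2 → q' = q'' := by
    intro q' q'' h1 h2 h3
    exact Subtype.ext (Prod.ext (Prod.ext h1 h3) h2)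
  have hA : ∀ u v, A u → A v → u = v := by
    intro u v hu hv
    rcases u with x | q1 <;> rcases v with y | q2
    · exact congrArg _ (hu.2.trans hv.2.symm)
    · have h1 := hu.1
      have h2 := hv.2.2
      omega
    · have h1 := hv.1
      have h2 := hu.2.2
      omega
    · have h1 := hv.2.2
      have h2 := hu.2.2
      exact congrArg _ (hext _ _ (hu.1.symm.trans hv.1) (hu.2.1.symm.trans hv.2.1) (by omega))
  have hB : ∀ u v, B u → B v → u = v := by
    intro u v hu hv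
    rcases u with x | q1 <;> rcases v with y | q2
    · exact congrArg _ (hu.2.trans hv.2.symm)
    · have h1 := hu.1
      have h2 := hv.2.2
      have h3 := q2.2.2
      rw [← hv.1] at h3
      omega
    · have h1 := hv.1
      have h2 := hu.2.2
      have h3 := q1.2.2
      rw [← hu.1] at h3
      omega
    · have h1 := hv.2.2
      have h2 := hu.2.2
      exact congrArg _ (hext _ _ (hu.1.symm.trans hv.1) (hu.2.1.symm.trans hv.2.1) (by omega))
  refine ⟨fun u => decide (A u), fun u v hu hv huv => ?_⟩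
  by_cases h : A u
  · have h2 : A v := by
      have := huv
      simp only [h, decide_true] at this
      exact of_decide_eq_true this.symm
    exact hA u v h h2
  · have h2 : ¬ A v := by
      intro h3
      simp only [h, h3, decide_true, decide_false] at huv
      exact absurd huv (by simp)
    exact hB u v ((hAB u hu).resolve_left h) ((hAB v hv).resolve_left h2)

/-- (PC) -/
def GS_PC : Prop :=
  ∀ {V : Type} {S : LN.Structure V} {ℓ : ℕ → ℕ} (r N : ℕ) (_ : ∀ i, ℓ i ≤ r → i < N + 1)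
    (_ : ∀ i, 2 ≤ ℓ i) (x y : V) (P : List (GV ℓ S)) (_ : P.length ≤ r)
    (_ : (Sum.inl x :: (P ++ [Sum.inl y])).Nodup)
    (_ : List.IsChain (gaif (grS ℓ S)).Adj (Sum.inl x :: (P ++ [Sum.inl y]))),
    ∃ Q : List V, (Q.map Sum.inl).Sublist P ∧ (x :: (Q ++ [y])).IsChain (LAdj S (N + 1))

/-- (FI) -/
def GS_FI : Prop :=
  ∀ {V : Type} (S : LN.Structure V) (X : Finset V) (f : V → ℕ) (_ : Set.InjOn f X) (M : ℕ)
    (_ : ∀ x ∈ X, ∀ y ∈ X, ∀ z ∈ X, f y < f x → f z < f x → y ≠ z → LAdj S M x y →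
      LAdj S M x z → LAdj S M y z) (x y : V) (Q : List V) (_ : ∀ z ∈ x :: (Q ++ [y]), z ∈ X)
    (_ : (x :: (Q ++ [y])).Nodup) (_ : (x :: (Q ++ [y])).IsChain (LAdj S M)) (_ : f y < f x),
    ∃ z ∈ Q ++ [y], f z < f x ∧ LAdj S M x z

private theorem GS_four (hPC : GS_PC) (hFI : GS_FI) (hl : ∀ i, 2 ≤ ℓ i) (hE : Elim S) (r n : ℕ)
    (hn : 4 ≤ n) (hN : ∀ i, ℓ i ≤ r → i + 4 ≤ n) : ¬ HasSub (gaif (grS ℓ S)) r n := by
  classical
  rintro ⟨b, P, hb, hP, hbP, hdis⟩
  set G := gaif (grS ℓ S) with hG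
  -- the paths in both directions
  let R : Fin n → Fin n → List (GV ℓ S) := fun i j => if i < j then P i j else (P j i).reverse
  have hR : ∀ i j, i ≠ j → (R i j).length ≤ r ∧ (b i :: (R i j ++ [b j])).Nodup ∧
      List.IsChain G.Adj (b i :: (R i j ++ [b j])) ∧ (∀ k, b k ∉ R i j) := by
    intro i j hij
    by_cases h : i < j
    · simp only [R, if_pos h]
      exact ⟨(hP i j h).1, (hP i j h).2.1, (hP i j h).2.2, fun k => hbP i j k h⟩
    · have h' : j < i := lt_of_le_of_ne (not_lt.1 h) hij.symm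
      simp only [R, if_neg h]
      have h1 : (b i :: ((P j i).reverse ++ [b j])) = (b j :: (P j i ++ [b i])).reverse := by
        simp
      refine ⟨by rw [List.length_reverse]; exact (hP j i h').1, ?_, ?_, fun k => ?_⟩
      · rw [h1, List.nodup_reverse]
        exact (hP j i h').2.1
      · rw [h1, List.isChain_reverse]
        refine (hP j i h').2.2.imp fun a c hac => hac.symm
      · rw [List.mem_reverse]
        exact hbP j i k h'
  have hRd : ∀ i j j', i ≠ j → i ≠ j' → j ≠ j' → ∀ z, z ∈ R i j → z ∈ R i j' → False := by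
    intro i j j' hij hij' hjj' z hz hz'
    have key : ∀ k, i ≠ k → ∀ z, z ∈ R i k → ∃ a c, a < c ∧ z ∈ P a c ∧
        ((a = i ∧ c = k) ∨ (a = k ∧ c = i)) := by
      intro k hk z hz
      by_cases h : i < k
      · simp only [R, if_pos h] at hz
        exact ⟨i, k, h, hz, Or.inl ⟨rfl, rfl⟩⟩
      · simp only [R, if_neg h, List.mem_reverse] at hz
        exact ⟨k, i, lt_of_le_of_ne (not_lt.1 h) hk.symm, hz, Or.inr ⟨rfl, rfl⟩⟩
    obtain ⟨a, c, hac, h1, h2⟩ := key j hij z hz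
    obtain ⟨a', c', hac', h1', h2'⟩ := key j' hij' z hz'
    refine hdis a c a' c' hac hac' ?_ h1 h1'
    intro h3
    obtain ⟨h4, h5⟩ := Prod.mk.inj h3
    rcases h2 with ⟨h6, h7⟩ | ⟨h6, h7⟩ <;> rcases h2' with ⟨h8, h9⟩ | ⟨h8, h9⟩
    · exact hjj' (by rw [← h7, ← h9, h5])
    · exact hij' (by rw [← h6, ← h8, h4])
    · exact hij (by rw [← h6, ← h8, h4])
    · exact hjj' (by rw [← h6, ← h8, h4])
  have hdd : ∀ i j j', i ≠ j → i ≠ j' → j ≠ j' → ∀ z, z ∈ R i j ++ [b j] →
      z ∈ R i j' ++ [b j'] → False := by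
    intro i j j' hij hij' hjj' z hz hz'
    rw [List.mem_append, List.mem_singleton] at hz hz'
    rcases hz with hz | hz <;> rcases hz' with hz' | hz'
    · exact hRd i j j' hij hij' hjj' z hz hz'
    · exact (hR i j hij).2.2.2 j' (hz' ▸ hz)
    · exact (hR i j' hij').2.2.2 j (hz ▸ hz')
    · exact hjj' (hb (hz.symm.trans hz'))
  -- branch vertices are points
  have hpt : ∀ i, ∃ x, b i = Sum.inl x := by
    intro i
    rcases hbi : b i with x | q
    · exact ⟨x, rfl⟩
    · exfalso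
      have hh : ∀ j, i ≠ j → ∃ h, G.Adj (b i) h ∧ h ∈ R i j ++ [b j] := by
        intro j hij
        have h1 := (hR i j hij).2.2.1
        rcases h2 : R i j ++ [b j] with _ | ⟨h, t⟩
        · simp at h2
        · rw [h2, List.isChain_cons_cons] at h1
          exact ⟨h, h1.1, List.mem_cons_self⟩
      have : Nonempty (GV ℓ S) := ⟨b i⟩
      choose! h hh1 hh2 using hh
      obtain ⟨s, hs⟩ := GS_side q
      obtain ⟨j, hj, j', hj', hjj', hsj⟩ := Finset.exists_ne_map_eq_of_card_lt_of_maps_to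
        (s := Finset.univ.erase i) (t := (Finset.univ : Finset Bool)) (f := fun j => s (h j))
        (by
          rw [Finset.card_erase_of_mem (Finset.mem_univ i), Finset.card_univ, Finset.card_univ,
            Fintype.card_fin, Fintype.card_bool]
          omega)
        (fun j _ => Finset.mem_univ _)
      have hj1 : i ≠ j := (Finset.ne_of_mem_erase hj).symm
      have hj2 : i ≠ j' := (Finset.ne_of_mem_erase hj').symm
      have h3 : GA (Sum.inr q) (h j) := by
        have := GS_adj (hh1 j hj1)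
        rwa [hbi] at this
      have h4 : GA (Sum.inr q) (h j') := by
        have := GS_adj (hh1 j' hj2)
        rwa [hbi] at this
      have h5 := hs _ _ h3 h4 hsj
      exact hdd i j j' hj1 hj2 hjj' (h j) (hh2 j hj1) (h5 ▸ hh2 j' hj2)
  choose p hp using hpt
  -- the finite set of points
  have hfin : (Set.range b ∪ ⋃ i, ⋃ j, {z | z ∈ R i j}).Finite := by
    refine (Set.finite_range b).union (Set.finite_iUnion fun i => Set.finite_iUnion fun j => ?_)
    exact List.finite_toSet _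
  set X : Finset V := (hfin.preimage (Sum.inl_injective.injOn (s := _))).toFinset with hX
  have hmX : ∀ v, v ∈ X ↔ Sum.inl v ∈ (Set.range b ∪ ⋃ i, ⋃ j, {z | z ∈ R i j}) := by
    intro v
    rw [hX, Set.Finite.mem_toFinset]
    rfl
  have hpX : ∀ i, p i ∈ X := fun i => (hmX _).2 (Or.inl ⟨i, hp i⟩)
  have hRX : ∀ i j v, Sum.inl v ∈ R i j → v ∈ X := fun i j v h =>
    (hmX _).2 (Or.inr (Set.mem_iUnion.2 ⟨i, Set.mem_iUnion.2 ⟨j, h⟩⟩))
  obtain ⟨f, hf, hE1⟩ := hE X
  have : Nonempty (Fin n) := ⟨⟨0, by omega⟩⟩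
  obtain ⟨i₀, hi₀⟩ := Finite.exists_max (fun i => f (p i))
  have hlt : ∀ j, i₀ ≠ j → f (p j) < f (p i₀) := by
    intro j hj
    refine lt_of_le_of_ne (hi₀ j) fun h => hj ?_
    have h1 := hf (hpX j) (hpX i₀) h
    exact hb (by rw [hp, hp, h1])
  have hz : ∀ j, i₀ ≠ j → ∃ z, Sum.inl z ∈ R i₀ j ++ [b j] ∧ z ∈ X ∧ f z < f (p i₀) ∧
      LAdj S (n - 4 + 1) (p i₀) z := by
    intro j hj
    obtain ⟨h1, h2, h3, h4⟩ := hR i₀ j hj
    rw [hp i₀, hp j] at h2 h3
    obtain ⟨Q, hQ1, hQ2⟩ := hPC r (n - 4) (fun i hi => by have := hN i hi; omega) hl (p i₀) (p j)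
      (R i₀ j) h1 h2 h3
    have h5 : ((p i₀ :: (Q ++ [p j])).map (Sum.inl : V → GV ℓ S)).Sublist
        (Sum.inl (p i₀) :: (R i₀ j ++ [Sum.inl (p j)])) := by
      rw [List.map_cons, List.map_append]
      exact List.Sublist.cons_cons _ (List.Sublist.append hQ1 (List.Sublist.refl _))
    have h6 : (p i₀ :: (Q ++ [p j])).Nodup := (h5.nodup h2).of_map _
    have h7 : ∀ z ∈ Q, (Sum.inl z : GV ℓ S) ∈ R i₀ j := fun z hz =>
      hQ1.subset (List.mem_map_of_mem hz)
    have h8 : ∀ z ∈ p i₀ :: (Q ++ [p j]), z ∈ X := by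
      intro z hz
      rw [List.mem_cons, List.mem_append, List.mem_singleton] at hz
      rcases hz with hz | hz | hz
      · exact hz ▸ hpX i₀
      · exact hRX _ _ _ (h7 z hz)
      · exact hz ▸ hpX j
    obtain ⟨z, hz1, hz2, hz3⟩ := hFI S X f hf (n - 4 + 1) (fun x hx => (hE1 (n - 4 + 1) x hx).1)
      (p i₀) (p j) Q h8 h6 hQ2 (hlt j hj)
    refine ⟨z, ?_, h8 z (List.mem_cons_of_mem _ hz1), hz2, hz3⟩
    rw [List.mem_append, List.mem_singleton] at hz1 ⊢
    rcases hz1 with hz1 | hz1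
    · exact Or.inl (h7 z hz1)
    · exact Or.inr (by rw [hz1, hp j])
  have : Nonempty V := ⟨p i₀⟩
  choose! z hz1 hz2 hz3 hz4 using hz
  have hcard := (hE1 (n - 4 + 1) (p i₀) (hpX i₀)).2
  have hle := (Finset.card_le_card_of_injOn (s := Finset.univ.erase i₀) z (fun j hj => by
      have hj' : i₀ ≠ j := (Finset.ne_of_mem_erase hj).symm
      exact Finset.mem_filter.2 ⟨hz2 j hj', hz3 j hj', hz4 j hj'⟩)
    (fun j hj j' hj' h => by
      by_contra hjj'
      have h1 : i₀ ≠ j := (Finset.ne_of_mem_erase hj).symm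
      have h2 : i₀ ≠ j' := (Finset.ne_of_mem_erase hj').symm
      exact hdd i₀ j j' h1 h2 hjj' _ (hz1 j h1) (h ▸ hz1 j' h2))).trans hcard
  rw [Finset.card_erase_of_mem (Finset.mem_univ i₀), Finset.card_univ, Fintype.card_fin] at hle
  omega

/-- case `n = 3` -/
def GS_T3 : Prop :=
  ∀ (t ℓ : ℕ → ℕ), Monotone t → 3 ≤ t 0 → (∀ i, 2 ≤ ℓ i) → Suit t ℓ → ∀ (V : Type)
    (S : LN.Structure V), Irr S → Elim S → ∀ r, t r = 3 → ¬ HasSub (gaif (grS ℓ S)) r 3

theorem GS_main (h3 : GS_T3) (hPC : GS_PC) (hFI : GS_FI) : St_GS := by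
  intro t ℓ hmono ht0 hl hs V S hI hE r
  have htr : 3 ≤ t r := ht0.trans (hmono (Nat.zero_le r))
  rcases Nat.lt_or_ge 3 (t r) with h | h
  · exact GS_four hPC hFI hl hE r (t r) h fun i hi => hs i r (by omega)
  · have h4 : t r = 3 := le_antisymm h htr
    rw [h4]
    exact h3 t ℓ hmono ht0 hl hs V S hI hE r h4

end

end VSG
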