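import Pool.Agent.VSG.GSQ
import Pool.Agent.VSG.GSF

/-!
# Vaught's conjecture and sparse graphs: `St_GS`
-/

set_option autoImplicit false

namespace VSG

theorem thm_GS : St_GS :=
  GS_main GS_three GSQ_pc
    fun S X f hf M hc x y Q hX nd ch h => GSF_pre S X f hf M hc x y Q hX nd ch h

end VSG
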