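import Pool.Agent.VSG.St

/-!
# Isomorphic layered structures have isomorphic graphs
-/

set_option autoImplicit false

namespace VSG

open FirstOrder Set Pool.Agent.Helper5.DU Pool.Agent.Helper6.Str Pool.Agent.Helper79.VC

section
variable {V V' : Type} {S : LN.Structure V} {S' : LN.Structure V'} {e : V ≃ V'}

private theorem GU_un (h : RelIso S S' e) (i : ℕ) (x : V) : Un S i x ↔ Un S' i (e x) := by
  unfold Un
  have h1 := h 1 (RN.col i : LN.Relations 1) ![x]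
  rw [h1]
  have : e ∘ ![x] = ![e x] := by
    funext k
    fin_cases k
    rfl
  rw [this]

private theorem GU_bn (h : RelIso S S' e) (i : ℕ) (x y : V) : Bn S i x y ↔ Bn S' i (e x) (e y) := by
  unfold Bn
  have h1 := h 2 (RN.bin i : LN.Relations 2) ![x, y]
  rw [h1]
  have : e ∘ ![x, y] = ![e x, e y] := by
    funext k
    fin_cases k <;> rfl
  rw [this]

/-- the bijection of the inner vertices -/
private def GU_iv (ℓ : ℕ → ℕ) (h : RelIso S S' e) : IV ℓ S ≃ IV ℓ S' :=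
  Equiv.subtypeEquiv ((Equiv.refl (ℕ × ℕ)).prodCongr (e.prodCongr e)) fun q => by
    rw [GU_bn h]
    rfl

/-- the bijection of the vertices -/
private def GU_gv (ℓ : ℕ → ℕ) (h : RelIso S S' e) : GV ℓ S ≃ GV ℓ S' :=
  e.sumCongr (GU_iv ℓ h)

private theorem GU_gc (ℓ : ℕ → ℕ) (h : RelIso S S' e) (c : ℕ) (u : GV ℓ S) :
    GC c u ↔ GC c (GU_gv ℓ h u) := by
  rcases u with x | q
  · change (c = 0 ∨ ∃ j, c = 2 * j + 1 ∧ Un S j x) ↔ (c = 0 ∨ ∃ j, c = 2 * j + 1 ∧ Un S' j (e x))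
    simp only [GU_un h]
  · exact Iff.rfl

private theorem GU_pa (ℓ : ℕ → ℕ) (h : RelIso S S' e) (x : V) (q : IV ℓ S) :
    PA x q ↔ PA (e x) (GU_iv ℓ h q) := by
  change ((q.1.1.2 = 0 ∧ x = q.1.2.1) ∨ (q.1.1.2 + 1 = ℓ q.1.1.1 ∧ x = q.1.2.2)) ↔
    ((q.1.1.2 = 0 ∧ e x = e q.1.2.1) ∨ (q.1.1.2 + 1 = ℓ q.1.1.1 ∧ e x = e q.1.2.2))
  simp only [e.apply_eq_iff_eq]

private theorem GU_ga (ℓ : ℕ → ℕ) (h : RelIso S S' e) (u w : GV ℓ S) :
    GA u w ↔ GA (GU_gv ℓ h u) (GU_gv ℓ h w) := by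
  rcases u with x | q <;> rcases w with y | q'
  · exact Iff.rfl
  · exact GU_pa ℓ h x q'
  · exact GU_pa ℓ h y q
  · change (q.1.1.1 = q'.1.1.1 ∧ q.1.2 = q'.1.2 ∧
      (q.1.1.2 + 1 = q'.1.1.2 ∨ q'.1.1.2 + 1 = q.1.1.2)) ↔
      (q.1.1.1 = q'.1.1.1 ∧ (e.prodCongr e) q.1.2 = (e.prodCongr e) q'.1.2 ∧
      (q.1.1.2 + 1 = q'.1.1.2 ∨ q'.1.1.2 + 1 = q.1.1.2))
    simp only [(e.prodCongr e).apply_eq_iff_eq]

end

/-- isomorphic layered structures have isomorphic graphs -/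
theorem thm_GU : St_GU := by
  rintro ℓ V V' S S' ⟨e, h⟩
  refine ⟨GU_gv ℓ h, ?_⟩
  intro n R v
  cases R with
  | col i => exact GU_gc ℓ h i (v 0)
  | adj => exact GU_ga ℓ h (v 0) (v 1)

end VSG
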