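import Pool.Agent.VSG.CPG
import Pool.Agent.VSG.CF
import Pool.Agent.VSG.Fin
import Pool.Agent.VPF.CodI

/-!
# Vaught's conjecture and sparse graphs: the infinitary form

From the dichotomy for layered structures (`VCL`) the dichotomy for all sentences of `L_{ω₁,ω}` in all
countable relational languages.
-/

set_option autoImplicit false

namespace VSG

open FirstOrder Set Pool.Agent.Helper5.DU Pool.Agent.Helper6.Str Pool.Agent.Helper79.VC

/-! ### Codings of the structures of a class -/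

/-- transfer of countability -/
theorem thm_CCg (he : St_CE) (hd : St_CD) (L : FirstOrder.Language.{0, 0})
    (e1 : L.Relations 1 → ℕ) (e2 : L.Relations 2 → ℕ) (hB : Base L e1 e2)
    (K : Set (L.Structure ℕ)) (hK : CtblK (CodG e1 e2 K)) : CtblK K := by
  classical
  obtain ⟨g, hg⟩ := hK
  let P : ℕ → L.Structure ℕ → Prop := fun n A => A ∈ K ∧
    ∃ (S : LN.Structure ℕ) (ρ : ℕ → ℕ → ℕ) (π : ℕ → ℕ), IsCod e1 e2 A S ρ π ∧ Iso S (g n)
  let A₀ : L.Structure ℕ := ⟨fun _ _ => 0, fun _ _ => False⟩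
  refine ⟨fun n => if h : ∃ A, P n A then h.choose else A₀, ?_⟩
  intro A hA
  obtain ⟨S, ρ, π, hS⟩ := he L e1 e2 A
  obtain ⟨n, hn⟩ := hg S ⟨A, hA, ρ, π, hS⟩
  have hex : ∃ A, P n A := ⟨A, hA, S, ρ, π, hS, hn⟩
  refine ⟨n, ?_⟩
  simp only
  rw [dif_pos hex]
  obtain ⟨-, S', ρ', π', hS', hn'⟩ := hex.choose_spec
  exact hd L e1 e2 hB A _ S S' ρ ρ' π π' hS hS' (hn.trans hn'.symm)

/-- the negations of the binary relations -/
theorem thm_CWg (hw : St_CW) (L : FirstOrder.Language.{0, 0}) (e1 : L.Relations 1 → ℕ)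
    (e2 : L.Relations 2 → ℕ) (hB : Base L e1 e2) (K : Set (L.Structure ℕ)) :
    Wit (CodG e1 e2 K) := by
  intro i
  obtain ⟨C, hC⟩ := hw L e1 e2 hB ∅ i
  refine ⟨C, fun S hS x y hxy => hC S ?_ x y hxy⟩
  obtain ⟨A, _, ρ, π, h⟩ := hS
  refine ⟨A, ?_, ρ, π, h⟩
  show @FirstOrder.Language.Theory.Model L ℕ A ∅
  exact ⟨fun φ hφ => absurd hφ (Set.notMem_empty φ)⟩

private theorem QFI_main (hd : St_DFN) {L : FirstOrder.Language.{0, 0}} {e1 : L.Relations 1 → ℕ}
    {e2 : L.Relations 2 → ℕ} (hb : Base L e1 e2) : ∀ {n : ℕ} (φ : FmI L n),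
    ∃ P : LN.Structure ℕ → (Fin n → ℕ) → Prop, Dfn P ∧
      ∀ (A : L.Structure ℕ) (S : LN.Structure ℕ) (π : ℕ → ℕ), Quo e1 e2 A S π →
      ∀ v : Fin n → ℕ, P S v ↔ Sat A φ (π ∘ v) := by
  obtain ⟨hneg, hall, hex, hbool, hconst, heq, hrel, _, happ⟩ := hd LN
  intro n φ
  induction φ with
  | @eq n i j =>
    refine ⟨fun S v => eqv S (v i) (v j), ?_, fun A S π hq v => ?_⟩
    · unfold eqv
      refine (hbool n _ _ (heq n i j) (hex n ℕ _ fun a => ?_)).2.1
      have h := hrel n 2 (RN.bin (Nat.pair a 1)) ![i, j]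
      refine cast ?_ h
      congr 1
      funext S v
      unfold Bn
      congr 1
      funext k
      fin_cases k <;> rfl
    · exact (hq.eqv _ _).trans Iff.rfl
  | @rel n l R w =>
    by_cases h1 : l = 1
    · subst h1
      refine ⟨fun S v => Un S (2 * e1 R) (v (w 0)), ?_, fun A S π hq v => ?_⟩
      · have h := hrel n 1 (RN.col (2 * e1 R)) ![w 0]
        refine cast ?_ h
        congr 1
        funext S v
        unfold Un
        congr 1
        funext k
        fin_cases k <;> rfl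
      · refine (hq.col R _).trans ?_
        have h3 : (fun i => (π ∘ v) (w i)) = ![π (v (w 0))] := by
          funext k
          fin_cases k
          rfl
        show _ ↔ A.RelMap R (fun i => (π ∘ v) (w i))
        rw [h3]
    · by_cases h2 : l = 2
      · subst h2
        refine ⟨fun S v => (v (w 0) = v (w 1) ∧ Un S (2 * e2 R + 1) (v (w 0))) ∨
          (¬ v (w 0) = v (w 1) ∧ ∃ a, Bn S (Nat.pair a (2 * e2 R + 3)) (v (w 0)) (v (w 1))), ?_,
          fun A S π hq v => ?_⟩
        · have hU : Dfn (fun (S : LN.Structure ℕ) (v : Fin n → ℕ) =>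
              Un S (2 * e2 R + 1) (v (w 0))) := by
            have h := hrel n 1 (RN.col (2 * e2 R + 1)) ![w 0]
            refine cast ?_ h
            congr 1
            funext S v
            unfold Un
            congr 1
            funext k
            fin_cases k <;> rfl
          have hB : ∀ a : ℕ, Dfn (fun (S : LN.Structure ℕ) (v : Fin n → ℕ) =>
              Bn S (Nat.pair a (2 * e2 R + 3)) (v (w 0)) (v (w 1))) := by
            intro a
            have h := hrel n 2 (RN.bin (Nat.pair a (2 * e2 R + 3))) ![w 0, w 1]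
            refine cast ?_ h
            congr 1
            funext S v
            unfold Bn
            congr 1
            funext k
            fin_cases k <;> rfl
          have hE := heq n (w 0) (w 1)
          exact (hbool n _ _ (hbool n _ _ hE hU).1
            (hbool n _ _ (hneg n _ hE) (hex n ℕ _ hB)).1).2.1
        · have h3 : (fun i => (π ∘ v) (w i)) = ![π (v (w 0)), π (v (w 1))] := by
            funext k
            fin_cases k <;> rfl
          show _ ↔ A.RelMap R (fun i => (π ∘ v) (w i))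
          rw [h3]
          by_cases h4 : v (w 0) = v (w 1)
          · constructor
            · rintro (⟨_, h5⟩ | ⟨h5, _⟩)
              · rw [← h4]
                exact (hq.dia R _).1 h5
              · exact absurd h4 h5
            · intro h5
              rw [← h4] at h5
              exact Or.inl ⟨h4, (hq.dia R _).2 h5⟩
          · constructor
            · rintro (⟨h5, _⟩ | ⟨_, h5⟩)
              · exact absurd h5 h4
              · exact (hq.bin R _ _ h4).1 h5
            · intro h5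
              exact Or.inr ⟨h4, (hq.bin R _ _ h4).2 h5⟩
      · exact ((hb.ar l h1 h2).false R).elim
  | @neg n φ ih =>
    obtain ⟨P, hP, hP'⟩ := ih
    exact ⟨fun S v => ¬ P S v, hneg n P hP, fun A S π hq v => not_congr (hP' A S π hq v)⟩
  | @conj n φ ih =>
    choose P hP hP' using ih
    exact ⟨fun S v => ∀ k, P k S v, hall n ℕ P hP,
      fun A S π hq v => forall_congr' fun k => hP' k A S π hq v⟩
  | @ex n φ ih =>
    obtain ⟨P, hP, hP'⟩ := ih
    refine ⟨fun S v => ∃ w : Fin 1 → ℕ, P S (Fin.append v w), (happ n 1 P hP).1,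
      fun A S π hq v => ?_⟩
    change _ ↔ ∃ x : ℕ, Sat A φ (Fin.snoc (π ∘ v) x)
    constructor
    · rintro ⟨w, h⟩
      have h1 := (hP' A S π hq _).1 h
      rw [Fin.append_right_eq_snoc, Fin.comp_snoc] at h1
      exact ⟨_, h1⟩
    · rintro ⟨x, h⟩
      obtain ⟨y, rfl⟩ := hq.sur x
      refine ⟨fun _ => y, ?_⟩
      rw [hP' A S π hq, Fin.append_right_eq_snoc, Fin.comp_snoc]
      exact h

/-- the class of codings of the models of a sentence of `L_{ω₁,ω}` is the class of models of a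
sentence of `L_{ω₁,ω}` -/
theorem thm_CFg (hd : St_DFN) (hg : St_GDF) (L : FirstOrder.Language.{0, 0})
    (e1 : L.Relations 1 → ℕ) (e2 : L.Relations 2 → ℕ) (hb : Base L e1 e2) (φ : FmI L 0) :
    ∃ ψ : FmI LN 0, ModI ψ = CodG e1 e2 (ModI φ) := by
  have hc1 : Countable (L.Relations 1) := hb.i1.countable
  have hc2 : Countable (L.Relations 2) := hb.i2.countable
  obtain ⟨P, hP, hP'⟩ := QFI_main hd hb φ
  obtain ⟨ψ, hψ⟩ := CF_and hd (CF_dax (e1 := e1) (e2 := e2) hd hg) hP
  refine ⟨ψ, ?_⟩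
  have hT : ∀ (A : L.Structure ℕ) (S : LN.Structure ℕ) (π : ℕ → ℕ), Quo e1 e2 A S π →
      (P S Fin.elim0 ↔ A ∈ ModI φ) := by
    intro A S π hQ
    rw [hP' A S π hQ Fin.elim0]
    have h2 : (π ∘ (Fin.elim0 : Fin 0 → ℕ)) = Fin.elim0 := by
      funext i
      exact i.elim0
    rw [h2]
    exact Iff.rfl
  ext S
  show Sat S ψ Fin.elim0 ↔ _
  rw [hψ]
  constructor
  · rintro ⟨h3, h4⟩
    obtain ⟨A, ρ, π, hcod⟩ := CF_rev hb h3
    exact ⟨A, (hT A S π (CF_quo hb.i1 hb.i2 hcod)).1 h4, ρ, π, hcod⟩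
  · rintro ⟨A, hA, ρ, π, hcod⟩
    exact ⟨CF_axs hb.i1 hb.i2 hcod, (hT A S π (CF_quo hb.i1 hb.i2 hcod)).2 hA⟩

/-- the dichotomy for layered structures implies the dichotomy for sentences of `L_{ω₁,ω}` in
languages with unary and binary relation symbols -/
theorem part1g (hDFN : St_DFN) (hGDF : St_GDF) (hCE : St_CE) (hCD : St_CD) (hCU : St_CU)
    (hCS : St_CS) (hCW : St_CW) (hV : VCL)
    (L : FirstOrder.Language.{0, 0}) (hR : ∀ n, Countable (L.Relations n))
    (hF : ∀ n, IsEmpty (L.Functions n)) (h12 : ∀ n, n ≠ 1 → n ≠ 2 → IsEmpty (L.Relations n))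
    (φ : FmI L 0) : CtblK (ModI φ) ∨ PerfK (ModI φ) := by
  obtain ⟨e1, he1⟩ := exists_injective_nat (L.Relations 1)
  obtain ⟨e2, he2⟩ := exists_injective_nat (L.Relations 2)
  have hb : Base L e1 e2 := ⟨hF, h12, he1, he2⟩
  obtain ⟨ψ, hψ⟩ := thm_CFg hDFN hGDF L e1 e2 hb φ
  have h1 := hV ψ (fun S hS => by
    rw [hψ] at hS
    obtain ⟨A, _, ρ, π, h⟩ := hS
    exact hCS L e1 e2 A S ρ π h) (by
    rw [hψ]
    exact thm_CWg hCW L e1 e2 hb _)
  rw [hψ] at h1
  exact h1.imp (thm_CCg hCE hCD L e1 e2 hb _)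
    (thm_CPg hCU L e1 e2 hb _ fun A A' => modI_iso φ A A')

/-! ### Formulas with finitely many variables -/

/-- formulas with finitely many variables are formulas -/
theorem dfn_of_FV (hd : St_DFN) {L : FirstOrder.Language.{0, 0}} {k : ℕ} (φ : VPF.FV L k) :
    Dfn fun (S : L.Structure ℕ) (v : Fin k → ℕ) => VPF.FV.Sat S φ v := by
  obtain ⟨hneg, hall, hex, hbool, hconst, heq, hrel, hre, happ⟩ := hd L
  induction φ with
  | eq i j => exact heq k i j
  | rel R w => exact hrel k _ R w
  | neg φ ih => exact hneg k _ ih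
  | conj φ ih => exact hall k ℕ _ ih
  | ex i φ ih =>
    classical
    have h1 := hre k (k + 1) (fun j => if j = i then Fin.last k else Fin.castSucc j) _ ih
    have h2 := (happ k 1 _ h1).1
    obtain ⟨ψ, hψ⟩ := h2
    refine ⟨ψ, fun S v => (hψ S v).trans ?_⟩
    show _ ↔ ∃ a : ℕ, VPF.FV.Sat S φ (Function.update v i a)
    have h3 : ∀ w : Fin 1 → ℕ, (fun j => (Fin.append v w : Fin (k + 1) → ℕ)
        (if j = i then Fin.last k else Fin.castSucc j)) = Function.update v i (w 0) := by
      intro w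
      funext j
      rw [Fin.append_right_eq_snoc]
      by_cases hj : j = i
      · rw [if_pos hj, hj, Function.update_self]
        exact Fin.snoc_last _ _
      · rw [if_neg hj, Function.update_of_ne hj]
        exact Fin.snoc_castSucc _ _ _
    constructor
    · rintro ⟨w, hw⟩
      rw [h3] at hw
      exact ⟨_, hw⟩
    · rintro ⟨a, ha⟩
      refine ⟨fun _ => a, ?_⟩
      rw [h3]
      exact ha

/-- the models of a formula with finitely many variables are those of a sentence -/
theorem modV_eq (hd : St_DFN) {L : FirstOrder.Language.{0, 0}} {k : ℕ} (φ : VPF.FV L k) :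
    ∃ ψ : FmI L 0, ModI ψ = VPF.ModV φ := by
  have h := hd L
  have h1 := h.2.2.2.2.2.2.2.1 k (0 + k) (Fin.natAdd 0) _ (dfn_of_FV hd φ)
  have h2 := (h.2.2.2.2.2.2.2.2 0 k _ h1).2
  obtain ⟨ψ, hψ⟩ := h2
  refine ⟨ψ, ?_⟩
  ext S
  show Sat S ψ Fin.elim0 ↔ ∀ v : Fin k → ℕ, VPF.FV.Sat S φ v
  rw [hψ]
  refine forall_congr' fun w => ?_
  have h3 : (fun i => Fin.append (Fin.elim0 : Fin 0 → ℕ) w (Fin.natAdd 0 i)) = w := by
    funext i
    exact Fin.append_right _ w i
  rw [h3]

/-- the dichotomy for layered structures implies the dichotomy for all countable relational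
languages, first-order theories and sentences of `L_{ω₁,ω}` -/
theorem all_of_VCL (hDFN : St_DFN) (hGDF : St_GDF) (hCE : St_CE) (hCD : St_CD) (hCU : St_CU)
    (hCS : St_CS) (hCW : St_CW) (hV : VCL) :
    ∀ (L : FirstOrder.Language.{0, 0}) [∀ n, IsEmpty (L.Functions n)]
      [∀ n, Countable (L.Relations n)] (T : L.Theory) (φ : FmI L 0),
      CtblK {S : L.Structure ℕ | Pool.Agent.Helper6.VC.IsMod T φ S} ∨
        PerfK {S : L.Structure ℕ | Pool.Agent.Helper6.VC.IsMod T φ S} :=
  VPF.thm_CI fun L' hR hF h12 φ => by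
    obtain ⟨ψ, hψ⟩ := modV_eq hDFN φ
    rw [← hψ]
    exact part1g hDFN hGDF hCE hCD hCU hCS hCW hV L' hR hF h12 ψ

end VSG
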