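import Pool.Agent.VSG.Defs
import Pool.Agent.VPF.ClsPad
import Pool.Agent.VB.Defs
import Pool.Agent.Helper6.VC.Final2

/-!
# Vaught's conjecture and sparse graphs: languages, codings, graphs

* `LN`: the language with unary symbols `col i` and binary symbols `bin i`; `Un`, `Bn` their truth.
* `LG`: the language of coloured graphs: unary symbols `col i`, one binary symbol `adj`; `Co`, `Ad`.
* `IsCod H S ρ π`: the `LN`-structure `S` is the generic coding of the structure `H` (in a language
  with unary and binary symbols) with the labelling `ρ` and the map `π` onto `H`.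
* `grS ℓ S`: the coloured graph of the `LN`-structure `S`: every pair `(x, y)` with `Bn S i x y` is
  joined by a path with `ℓ i` inner vertices.
-/

set_option autoImplicit false

namespace VSG

open FirstOrder Set Pool.Agent.Helper5.DU Pool.Agent.Helper6.Str Pool.Agent.Helper79.VC

/-! ### Languages -/

/-- unary symbols `col i` and binary symbols `bin i` -/
inductive RN : ℕ → Type
  | col (i : ℕ) : RN 1
  | bin (i : ℕ) : RN 2

/-- the language with countably many unary and countably many binary relation symbols -/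
def LN : FirstOrder.Language.{0, 0} := ⟨fun _ => Empty, RN⟩

/-- unary symbols `col i` and the binary symbol `adj` -/
inductive RG : ℕ → Type
  | col (i : ℕ) : RG 1
  | adj : RG 2

/-- the language of coloured graphs -/
def LG : FirstOrder.Language.{0, 0} := ⟨fun _ => Empty, RG⟩

instance (n : ℕ) : IsEmpty (LN.Functions n) := inferInstanceAs (IsEmpty Empty)
instance (n : ℕ) : IsEmpty (LG.Functions n) := inferInstanceAs (IsEmpty Empty)

/-- `x` has the colour `i` -/
def Un {V : Type} (S : LN.Structure V) (i : ℕ) (x : V) : Prop :=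
  S.RelMap (RN.col i : LN.Relations 1) ![x]

/-- `(x, y)` is in the relation `i` -/
def Bn {V : Type} (S : LN.Structure V) (i : ℕ) (x y : V) : Prop :=
  S.RelMap (RN.bin i : LN.Relations 2) ![x, y]

/-- `x` has the colour `i` -/
def Co {V : Type} (W : LG.Structure V) (i : ℕ) (x : V) : Prop :=
  W.RelMap (RG.col i : LG.Relations 1) ![x]

/-- `x` and `y` are adjacent -/
def Ad {V : Type} (W : LG.Structure V) (x y : V) : Prop :=
  W.RelMap (RG.adj : LG.Relations 2) ![x, y]

/-- the `LN`-structure with given relations -/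
@[instance_reducible]
def mkN {V : Type} (c : ℕ → V → Prop) (b : ℕ → V → V → Prop) : LN.Structure V where
  funMap := fun f _ => (f : Empty).elim
  RelMap := fun {_} R => match R with
    | RN.col i => fun v => c i (v 0)
    | RN.bin i => fun v => b i (v 0) (v 1)

/-- the `LG`-structure with given relations -/
@[instance_reducible]
def mkG {V : Type} (c : ℕ → V → Prop) (a : V → V → Prop) : LG.Structure V where
  funMap := fun f _ => (f : Empty).elim
  RelMap := fun {_} R => match R with
    | RG.col i => fun v => c i (v 0)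
    | RG.adj => fun v => a (v 0) (v 1)

/-! ### Definable properties -/

/-- the property `P` of structures on `ℕ` with `n` parameters is defined by a formula of
`L_{ω₁,ω}` -/
def Dfn {L : FirstOrder.Language.{0, 0}} {n : ℕ} (P : L.Structure ℕ → (Fin n → ℕ) → Prop) : Prop :=
  ∃ φ : FmI L n, ∀ (S : L.Structure ℕ) (v : Fin n → ℕ), Sat S φ v ↔ P S v

/-- the models on `ℕ` of a sentence of `L_{ω₁,ω}` -/
def ModI {L : FirstOrder.Language.{0, 0}} (φ : FmI L 0) : Set (L.Structure ℕ) :=
  {S | Sat S φ Fin.elim0}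

/-! ### The generic coding -/

section
variable {L : FirstOrder.Language.{0, 0}} {V H : Type}

/-- the data coded on the pair `(x, y)` -/
def Dat (e2 : L.Relations 2 → ℕ) (A : L.Structure H) (π : V → H) (b : ℕ) (x y : V) : Prop :=
  b = 0 ∨ (b = 1 ∧ π x = π y) ∨ (b = 2 ∧ π x ≠ π y) ∨
    (∃ Q : L.Relations 2, b = 2 * e2 Q + 3 ∧ A.RelMap Q ![π x, π y]) ∨
    (∃ Q : L.Relations 2, b = 2 * e2 Q + 4 ∧ ¬ A.RelMap Q ![π x, π y])

/-- `S` is the generic coding of `A` given by the generic labelling `ρ` and colouring `π` -/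
structure IsCod (e1 : L.Relations 1 → ℕ) (e2 : L.Relations 2 → ℕ) (A : L.Structure H)
    (S : LN.Structure V) (ρ : V → V → ℕ) (π : V → H) : Prop where
  gen : Gen ρ π
  col : ∀ i x, Un S i x ↔ (∃ R : L.Relations 1, i = 2 * e1 R ∧ A.RelMap R ![π x]) ∨
    ∃ Q : L.Relations 2, i = 2 * e2 Q + 1 ∧ A.RelMap Q ![π x, π x]
  bin : ∀ i x y, Bn S i x y ↔ x ≠ y ∧ ρ x y = i.unpair.1 ∧ Dat e2 A π i.unpair.2 x y

/-- the class of the codings of the models of `T` -/
def CodK (e1 : L.Relations 1 → ℕ) (e2 : L.Relations 2 → ℕ) (T : L.Theory) :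
    Set (LN.Structure ℕ) :=
  {S | ∃ A : L.Structure ℕ, A ∈ VPF.ModF T ∧ ∃ ρ π, IsCod e1 e2 A S ρ π}

end

/-! ### Layers -/

/-- `x` and `y` are related by one of the first `n` binary symbols -/
def LAdj {V : Type} (S : LN.Structure V) (n : ℕ) (x y : V) : Prop :=
  x ≠ y ∧ ∃ i < n, Bn S i x y ∨ Bn S i y x

open Classical in
/-- every finite set has an ordering such that for each `n` the earlier neighbours of a point (for
the first `n` symbols) are pairwise adjacent, and they are at most `n` -/
def Elim {V : Type} (S : LN.Structure V) : Prop :=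
  ∀ X : Finset V, ∃ f : V → ℕ, Set.InjOn f X ∧ ∀ n : ℕ, ∀ x ∈ X,
    (∀ y ∈ X, ∀ z ∈ X, f y < f x → f z < f x → y ≠ z → LAdj S n x y → LAdj S n x z →
      LAdj S n y z) ∧
    (X.filter fun y => f y < f x ∧ LAdj S n x y).card ≤ n

/-- no element is in relation to itself -/
def Irr {V : Type} (S : LN.Structure V) : Prop := ∀ i x, ¬ Bn S i x x

/-- in the structures of `K` the negation of each binary relation is on pairs of distinct points a
union of binary relations -/
def Wit (K : Set (LN.Structure ℕ)) : Prop :=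
  ∀ i, ∃ C : Set ℕ, ∀ S ∈ K, ∀ x y : ℕ, x ≠ y → (¬ Bn S i x y ↔ ∃ j ∈ C, Bn S j x y)

/-- the dichotomy for sentences of `L_{ω₁,ω}` about layered structures -/
def VCL : Prop :=
  ∀ ψ : FmI LN 0, (∀ S ∈ ModI ψ, Irr S ∧ Elim S) → Wit (ModI ψ) →
    CtblK (ModI ψ) ∨ PerfK (ModI ψ)

/-! ### The graph of a layered structure -/

section
variable {V : Type}

/-- the inner vertex number `k` of the path for `Bn S i x y`, written `((i, k), (x, y))` -/
def IV (ℓ : ℕ → ℕ) (S : LN.Structure V) : Type :=
  {q : (ℕ × ℕ) × (V × V) // Bn S q.1.1 q.2.1 q.2.2 ∧ q.1.2 < ℓ q.1.1}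

/-- the vertices: the points and the inner vertices of the paths -/
abbrev GV (ℓ : ℕ → ℕ) (S : LN.Structure V) : Type := V ⊕ IV ℓ S

/-- adjacency of a point and an inner vertex -/
def PA {ℓ : ℕ → ℕ} {S : LN.Structure V} (x : V) (q : IV ℓ S) : Prop :=
  (q.1.1.2 = 0 ∧ x = q.1.2.1) ∨ (q.1.1.2 + 1 = ℓ q.1.1.1 ∧ x = q.1.2.2)

/-- adjacency -/
def GA {ℓ : ℕ → ℕ} {S : LN.Structure V} : GV ℓ S → GV ℓ S → Prop
  | .inl _, .inl _ => False
  | .inl x, .inr q => PA x q
  | .inr q, .inl x => PA x q
  | .inr q, .inr q' => q.1.1.1 = q'.1.1.1 ∧ q.1.2 = q'.1.2 ∧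
      (q.1.1.2 + 1 = q'.1.1.2 ∨ q'.1.1.2 + 1 = q.1.1.2)

/-- colours: `0` for the points, `2 j + 1` for the points of colour `j`, `2 (i, k) + 2` for the
inner vertices number `k` of the paths of the symbol `i` -/
def GC {ℓ : ℕ → ℕ} {S : LN.Structure V} (c : ℕ) : GV ℓ S → Prop
  | .inl x => c = 0 ∨ ∃ j, c = 2 * j + 1 ∧ Un S j x
  | .inr q => c = 2 * Nat.pair q.1.1.1 q.1.1.2 + 2

/-- the coloured graph of a layered structure -/
@[instance_reducible]
def grS (ℓ : ℕ → ℕ) (S : LN.Structure V) : LG.Structure (GV ℓ S) :=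
  mkG (fun c v => GC c v) (fun u v => GA u v)

/-- the coloured graphs on `ℕ` of the structures in `K` -/
def GrK (ℓ : ℕ → ℕ) (K : Set (LN.Structure ℕ)) : Set (LG.Structure ℕ) :=
  {W | ∃ S ∈ K, Iso (grS ℓ S) W}

end

/-! ### Sparse graphs -/

/-- `G` contains a `≤ r`-subdivision of the complete graph with `n` vertices: branch vertices `b i`,
and for `i < j` a path from `b i` to `b j` with at most `r` inner vertices `P i j`, where no inner
vertex is a branch vertex and different paths have no inner vertex in common -/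
def HasSub {V : Type} (G : SimpleGraph V) (r n : ℕ) : Prop :=
  ∃ (b : Fin n → V) (P : Fin n → Fin n → List V), Function.Injective b ∧
    (∀ i j, i < j → (P i j).length ≤ r ∧ (b i :: (P i j ++ [b j])).Nodup ∧
      List.IsChain G.Adj (b i :: (P i j ++ [b j]))) ∧
    (∀ i j k, i < j → b k ∉ P i j) ∧
    (∀ i j i' j', i < j → i' < j' → (i, j) ≠ (i', j') → List.Disjoint (P i j) (P i' j'))

/-- `S` is a coloured graph -/
def IsGraph {V : Type} (W : LG.Structure V) : Prop :=
  (∀ x, ¬ Ad W x x) ∧ ∀ x y, Ad W x y → Ad W y x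

/-- the dichotomy for sentences of `L_{ω₁,ω}` about coloured graphs without `≤ r`-subdivisions of the
complete graph on `t r` vertices -/
def VCGraph (t : ℕ → ℕ) : Prop :=
  ∀ χ : FmI LG 0, (∀ W ∈ ModI χ, IsGraph W ∧ ∀ r, ¬ HasSub (gaif W) r (t r)) →
    CtblK (ModI χ) ∨ PerfK (ModI χ)

/-- the lengths of the paths are suitable for `t` -/
def Suit (t ℓ : ℕ → ℕ) : Prop := ∀ i r, ℓ i ≤ 3 * r + 3 → i + 4 ≤ t r

end VSG
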