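import Pool.Agent.VSG.St

/-!
# The positive half: bounded `t`
-/

set_option autoImplicit false

namespace VSG

open FirstOrder Set Pool.Agent.Helper5.DU Pool.Agent.Helper6.Str Pool.Agent.Helper79.VC

theorem POS_sub {V : Type} {G : SimpleGraph V} (h : HasTK G) (c : ℕ) :
    ∃ r, ∀ n ≤ c, HasSub G r n := by
  obtain ⟨b, P, hb, h1, h2, h3⟩ := h
  refine ⟨(Finset.range c ×ˢ Finset.range c).sup fun p => (P p.1 p.2).length, fun n hn =>
    ⟨fun i => b i, fun i j => P i j, fun i j hij => Fin.ext (hb hij), fun i j hij => ?_,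
      fun i j k hij => h2 i j k hij, fun i j i' j' hij hij' hne => ?_⟩⟩
  · refine ⟨?_, h1 i j hij⟩
    have hm : ((i : ℕ), (j : ℕ)) ∈ Finset.range c ×ˢ Finset.range c := by
      rw [Finset.mem_product, Finset.mem_range, Finset.mem_range]
      exact ⟨i.2.trans_le hn, j.2.trans_le hn⟩
    exact Finset.le_sup (f := fun p : ℕ × ℕ => (P p.1 p.2).length) hm
  · refine h3 i j i' j' hij hij' fun he => hne ?_
    have e1 : (i : ℕ) = i' := congrArg Prod.fst he
    have e2 : (j : ℕ) = j' := congrArg Prod.snd he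
    exact Prod.ext (Fin.ext e1) (Fin.ext e2)

theorem thm_POS : St_POS := by
  rintro t ⟨c, hc⟩ L hL hrel T φ hT
  refine Pool.Agent.Helper6.VC.dichotomy_of_finBdry hL T φ
    (Pool.Agent.Helper6.VC.finBdry_of_cases hL T φ (Or.inr (Or.inr fun S hS hTK => ?_)))
  obtain ⟨r, hr⟩ := POS_sub hTK c
  exact hT S hS r (hr (t r) (hc r))

end VSG
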