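import Pool.Agent.VSG.St

/-!
# VSG, QF: first-order formulas of the quotient are definable
-/

set_option autoImplicit false

namespace VSG

open FirstOrder Set Pool.Agent.Helper5.DU Pool.Agent.Helper6.Str Pool.Agent.Helper79.VC

/-- terms are variables -/
private theorem QF_term {L : FirstOrder.Language.{0, 0}} (hf : ∀ n, IsEmpty (L.Functions n)) {n : ℕ}
    (t : L.Term (Empty ⊕ Fin n)) : ∃ i : Fin n, t = Language.Term.var (Sum.inr i) := by
  cases t with
  | var x =>
    rcases x with x | i
    · exact x.elim
    · exact ⟨i, rfl⟩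
  | func f ts => exact ((hf _).false f).elim

private theorem QF_main (hd : St_DFN) {L : FirstOrder.Language.{0, 0}} {e1 : L.Relations 1 → ℕ}
    {e2 : L.Relations 2 → ℕ} (hb : Base L e1 e2) : ∀ {n : ℕ} (φ : L.BoundedFormula Empty n),
    ∃ P : LN.Structure ℕ → (Fin n → ℕ) → Prop, Dfn P ∧
      ∀ (A : L.Structure ℕ) (S : LN.Structure ℕ) (π : ℕ → ℕ), Quo e1 e2 A S π →
      ∀ v : Fin n → ℕ, P S v ↔
        @FirstOrder.Language.BoundedFormula.Realize L ℕ A Empty n φ Empty.elim (π ∘ v) := by
  obtain ⟨hneg, _, hex, hbool, hconst, heq, hrel, _, happ⟩ := hd LN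
  intro n φ
  induction φ with
  | falsum =>
    exact ⟨fun _ _ => False, hconst _ _, fun A S π hq v => Iff.rfl⟩
  | @equal n t₁ t₂ =>
    obtain ⟨i, rfl⟩ := QF_term hb.fn t₁
    obtain ⟨j, rfl⟩ := QF_term hb.fn t₂
    refine ⟨fun S v => eqv S (v i) (v j), ?_, fun A S π hq v => ?_⟩
    · unfold eqv
      refine (hbool n _ _ (heq n i j) (hex n ℕ _ fun a => ?_)).2.1
      have h := hrel n 2 (RN.bin (Nat.pair a 1)) ![i, j]
      refine cast ?_ h
      congr 1
      funext S v
      unfold Bn
      congr 1
      funext k
      fin_cases k <;> rfl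
    · exact (hq.eqv _ _).trans Iff.rfl
  | @rel n l R ts =>
    choose w hw using fun i => QF_term hb.fn (ts i)
    by_cases h1 : l = 1
    · subst h1
      refine ⟨fun S v => Un S (2 * e1 R) (v (w 0)), ?_, fun A S π hq v => ?_⟩
      · have h := hrel n 1 (RN.col (2 * e1 R)) ![w 0]
        refine cast ?_ h
        congr 1
        funext S v
        unfold Un
        congr 1
        funext k
        fin_cases k <;> rfl
      · refine (hq.col R _).trans ?_
        have h3 : (fun i => @Language.Term.realize L ℕ A _ (Sum.elim Empty.elim (π ∘ v)) (ts i)) =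
            ![π (v (w 0))] := by
          funext k
          fin_cases k
          rw [hw]
          rfl
        change _ ↔ A.RelMap R
          (fun i => @Language.Term.realize L ℕ A _ (Sum.elim Empty.elim (π ∘ v)) (ts i))
        rw [h3]
    · by_cases h2 : l = 2
      · subst h2
        refine ⟨fun S v => (v (w 0) = v (w 1) ∧ Un S (2 * e2 R + 1) (v (w 0))) ∨
          (¬ v (w 0) = v (w 1) ∧ ∃ a, Bn S (Nat.pair a (2 * e2 R + 3)) (v (w 0)) (v (w 1))), ?_,
          fun A S π hq v => ?_⟩
        · have hU : Dfn (fun (S : LN.Structure ℕ) (v : Fin n → ℕ) =>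
              Un S (2 * e2 R + 1) (v (w 0))) := by
            have h := hrel n 1 (RN.col (2 * e2 R + 1)) ![w 0]
            refine cast ?_ h
            congr 1
            funext S v
            unfold Un
            congr 1
            funext k
            fin_cases k <;> rfl
          have hB : ∀ a : ℕ, Dfn (fun (S : LN.Structure ℕ) (v : Fin n → ℕ) =>
              Bn S (Nat.pair a (2 * e2 R + 3)) (v (w 0)) (v (w 1))) := by
            intro a
            have h := hrel n 2 (RN.bin (Nat.pair a (2 * e2 R + 3))) ![w 0, w 1]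
            refine cast ?_ h
            congr 1
            funext S v
            unfold Bn
            congr 1
            funext k
            fin_cases k <;> rfl
          have hE := heq n (w 0) (w 1)
          exact (hbool n _ _ (hbool n _ _ hE hU).1
            (hbool n _ _ (hneg n _ hE) (hex n ℕ _ hB)).1).2.1
        · have h3 : (fun i => @Language.Term.realize L ℕ A _ (Sum.elim Empty.elim (π ∘ v)) (ts i)) =
              ![π (v (w 0)), π (v (w 1))] := by
            funext k
            fin_cases k
            · change @Language.Term.realize L ℕ A _ (Sum.elim Empty.elim (π ∘ v)) (ts 0) = _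
              rw [hw]
              rfl
            · change @Language.Term.realize L ℕ A _ (Sum.elim Empty.elim (π ∘ v)) (ts 1) = _
              rw [hw]
              rfl
          change _ ↔ A.RelMap R
            (fun i => @Language.Term.realize L ℕ A _ (Sum.elim Empty.elim (π ∘ v)) (ts i))
          rw [h3]
          by_cases h4 : v (w 0) = v (w 1)
          · constructor
            · rintro (⟨_, h5⟩ | ⟨h5, _⟩)
              · rw [← h4]
                exact (hq.dia R _).1 h5
              · exact absurd h4 h5
            · intro h5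
              rw [← h4] at h5
              exact Or.inl ⟨h4, (hq.dia R _).2 h5⟩
          · constructor
            · rintro (⟨h5, _⟩ | ⟨_, h5⟩)
              · exact absurd h5 h4
              · exact (hq.bin R _ _ h4).1 h5
            · intro h5
              exact Or.inr ⟨h4, (hq.bin R _ _ h4).2 h5⟩
      · exact ((hb.ar l h1 h2).false R).elim
  | @imp n φ₁ φ₂ ih₁ ih₂ =>
    obtain ⟨P, hP, hP'⟩ := ih₁
    obtain ⟨Q, hQ, hQ'⟩ := ih₂
    refine ⟨fun S v => P S v → Q S v, (hbool n P Q hP hQ).2.2.1, fun A S π hq v => ?_⟩
    exact imp_congr (hP' A S π hq v) (hQ' A S π hq v)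
  | @all n φ ih =>
    obtain ⟨P, hP, hP'⟩ := ih
    refine ⟨fun S v => ∀ w : Fin 1 → ℕ, P S (Fin.append v w), (happ n 1 P hP).2,
      fun A S π hq v => ?_⟩
    change _ ↔ ∀ x : ℕ, @Language.BoundedFormula.Realize L ℕ A Empty (n + 1) φ Empty.elim
      (Fin.snoc (π ∘ v) x)
    constructor
    · intro h x
      obtain ⟨y, rfl⟩ := hq.sur x
      have h1 := (hP' A S π hq _).1 (h fun _ => y)
      rw [Fin.append_right_eq_snoc, Fin.comp_snoc] at h1
      exact h1
    · intro h w
      rw [hP' A S π hq, Fin.append_right_eq_snoc, Fin.comp_snoc]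
      exact h _

/-- QF -/
theorem thm_QF (hd : St_DFN) : St_QF := by
  intro L e1 e2 hb n φ
  obtain ⟨P, ⟨χ, hχ⟩, hP⟩ := QF_main hd hb φ
  exact ⟨χ, fun A S π hq v => (hχ S v).trans (hP A S π hq v)⟩

end VSG
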