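import Pool.Agent.VSG.St2

/-!
# RA: the graphs `pur W` are axiomatised by a sentence
-/

set_option autoImplicit false
set_option linter.unusedVariables false

namespace VSG

open FirstOrder Set Pool.Agent.Helper5.DU Pool.Agent.Helper6.Str Pool.Agent.Helper79.VC

/-! ### Tails in an abstract graph -/

section abs
variable {T : Type}

/-- three different neighbours -/
def RA_Or (a : T → T → Prop) (u : T) : Prop :=
  ∃ z : Fin 3 → T, (∀ i j, z i = z j → i = j) ∧ ∀ i, a u (z i)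

/-- `w` is a tail of `x` -/
structure RA_Tail (a : T → T → Prop) (m : ℕ) (x : T) (w : Fin m → T) : Prop where
  pos : 1 ≤ m
  hx : RA_Or a x
  inj : ∀ k l, w k = w l → k = l
  nor : ∀ k, ¬ RA_Or a (w k)
  st : ∀ k : Fin m, k.1 = 0 → a x (w k)
  nx : ∀ k l : Fin m, k.1 + 1 = l.1 → a (w k) (w l)
  en : ∀ k : Fin m, k.1 + 1 = m → ∀ y, a (w k) y → ∃ l, y = w l

/-- the axioms -/
structure RA_Ax (a : T → T → Prop) : Prop where
  irr : ∀ x, ¬ a x x
  sym : ∀ x y, a x y → a y x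
  inf : ∀ k : ℕ, ∃ v : Fin k → T, (∀ i j, v i = v j → i = j) ∧ ∀ i, RA_Or a (v i)
  cov : ∀ x, RA_Or a x ∨ ∃ (m : ℕ) (v : T) (w : Fin m → T), RA_Tail a m v w ∧ ∃ k, w k = x
  xor : ∀ v, RA_Or a v → ∀ c : ℕ, (∃ w : Fin (2 * c + 3) → T, RA_Tail a (2 * c + 3) v w) ↔
    ¬ ∃ w : Fin (2 * c + 4) → T, RA_Tail a (2 * c + 4) v w
  uni : ∀ (m : ℕ) (v : T) (w w' : Fin m → T), RA_Tail a m v w → RA_Tail a m v w' → w = w'
  len : ∀ (m : ℕ) (v : T) (w : Fin m → T), RA_Tail a m v w → 3 ≤ m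

theorem RA_or3 {a : T → T → Prop} {u x y z : T} (h1 : x ≠ y) (h2 : x ≠ z) (h3 : y ≠ z)
    (hx : a u x) (hy : a u y) (hz : a u z) : RA_Or a u := by
  refine ⟨![x, y, z], ?_, ?_⟩
  · intro i j
    fin_cases i <;> fin_cases j <;> simp [h1, h2, h3, h1.symm, h2.symm, h3.symm]
  · intro i
    fin_cases i
    · exact hx
    · exact hy
    · exact hz

theorem RA_prev {a : T → T → Prop} (sym : ∀ x y, a x y → a y x) {m : ℕ} {x : T} {w : Fin m → T}
    (ht : RA_Tail a m x w) (l : Fin m) : ∃ p, a (w l) p ∧ (∀ j : Fin m, l.1 ≤ j.1 → p ≠ w j) ∧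
      ((l.1 = 0 ∧ p = x) ∨ ∃ j : Fin m, p = w j ∧ j.1 + 1 = l.1) := by
  by_cases h0 : l.1 = 0
  · refine ⟨x, sym _ _ (ht.st l h0), ?_, Or.inl ⟨h0, rfl⟩⟩
    rintro j - rfl
    exact ht.nor j ht.hx
  · have hl := l.2
    let j : Fin m := ⟨l.1 - 1, by omega⟩
    have hj : j.1 + 1 = l.1 := by show l.1 - 1 + 1 = l.1; omega
    refine ⟨w j, sym _ _ (ht.nx j l hj), ?_, Or.inr ⟨j, rfl, hj⟩⟩
    intro i hi h
    have := ht.inj _ _ h
    rw [← this] at hi
    omega

theorem RA_nbr {a : T → T → Prop} (irr : ∀ x, ¬ a x x) (sym : ∀ x y, a x y → a y x) {m : ℕ}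
    {x : T} {w : Fin m → T} (ht : RA_Tail a m x w) {k : Fin m} {y : T} (h : a (w k) y) :
    (k.1 = 0 ∧ y = x ∧ k.1 + 1 < m) ∨ ∃ l : Fin m, y = w l ∧ (l.1 + 1 = k.1 ∨ k.1 + 1 = l.1) := by
  have hk := k.2
  by_cases hlast : k.1 + 1 = m
  · obtain ⟨l, rfl⟩ := ht.en k hlast y h
    right
    refine ⟨l, rfl, Or.inl ?_⟩
    have hl := l.2
    by_contra hne
    have hlk : l.1 ≠ k.1 := by
      intro h1
      have : l = k := Fin.ext h1
      rw [this] at h
      exact irr _ h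
    have hlt : l.1 + 1 < k.1 := by omega
    let l' : Fin m := ⟨l.1 + 1, by omega⟩
    obtain ⟨p, hp1, hp2, -⟩ := RA_prev sym ht l
    refine ht.nor l (RA_or3 (x := p) (y := w l') (z := w k) ?_ ?_ ?_ hp1 (ht.nx l l' rfl)
      (sym _ _ h))
    · exact hp2 l' (Nat.le_succ _)
    · exact hp2 k (by omega)
    · intro h1
      have h2 := congrArg Fin.val (ht.inj _ _ h1)
      change l.1 + 1 = k.1 at h2
      omega
  · have hlt : k.1 + 1 < m := by omega
    let k' : Fin m := ⟨k.1 + 1, hlt⟩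
    obtain ⟨p, hp1, hp2, hp3⟩ := RA_prev sym ht k
    by_cases h1 : y = w k'
    · exact Or.inr ⟨k', h1, Or.inr rfl⟩
    · by_cases h2 : y = p
      · rcases hp3 with ⟨h3, h4⟩ | ⟨j, h3, h4⟩
        · exact Or.inl ⟨h3, h2.trans h4, hlt⟩
        · exact Or.inr ⟨j, h2.trans h3, Or.inl h4⟩
      · exfalso
        exact ht.nor k (RA_or3 (x := p) (y := w k') (z := y) (hp2 k' (Nat.le_succ _)) (Ne.symm h2)
          (Ne.symm h1) hp1 (ht.nx k k' rfl) h)

/-- one tail lies inside the other -/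
theorem RA_sub {a : T → T → Prop} (irr : ∀ x, ¬ a x x) (sym : ∀ x y, a x y → a y x) {m m' : ℕ}
    {x x' : T} {w : Fin m → T} {w' : Fin m' → T} (ht : RA_Tail a m x w) (ht' : RA_Tail a m' x' w')
    {k : Fin m} {l : Fin m'} (h : w k = w' l) : ∀ i : Fin m, ∃ j : Fin m', w i = w' j := by
  have step : ∀ i i' : Fin m, a (w i) (w i') → (∃ j, w i = w' j) → ∃ j, w i' = w' j := by
    rintro i i' hii ⟨j, hj⟩
    rw [hj] at hii
    rcases RA_nbr irr sym ht' hii with ⟨-, h1, -⟩ | ⟨l', h1, -⟩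
    · exact absurd (h1 ▸ ht'.hx) (ht.nor i')
    · exact ⟨l', h1⟩
  have up : ∀ d : ℕ, ∀ i : Fin m, i.1 = k.1 + d → ∃ j, w i = w' j := by
    intro d
    induction d with
    | zero =>
      intro i hi
      have : i = k := Fin.ext hi
      exact ⟨l, by rw [this, h]⟩
    | succ d ih =>
      intro i hi
      have hi2 := i.2
      let i' : Fin m := ⟨k.1 + d, by omega⟩
      exact step i' i (ht.nx i' i (by rw [hi]; rfl)) (ih i' rfl)
  have dn : ∀ d : ℕ, ∀ i : Fin m, i.1 + d = k.1 → ∃ j, w i = w' j := by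
    intro d
    induction d with
    | zero =>
      intro i hi
      have : i = k := Fin.ext hi
      exact ⟨l, by rw [this, h]⟩
    | succ d ih =>
      intro i hi
      have hk := k.2
      let i' : Fin m := ⟨i.1 + 1, by omega⟩
      exact step i' i (sym _ _ (ht.nx i i' rfl)) (ih i' (by show i.1 + 1 + d = k.1; omega))
  intro i
  rcases le_total k.1 i.1 with h1 | h1
  · exact up (i.1 - k.1) i (by omega)
  · exact dn (k.1 - i.1) i (by omega)

theorem RA_len_le {m m' : ℕ} {w : Fin m → T} {w' : Fin m' → T} (hi : ∀ k l, w k = w l → k = l)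
    (h : ∀ i : Fin m, ∃ j : Fin m', w i = w' j) : m ≤ m' := by
  choose f hf using h
  have : Function.Injective f := by
    intro i j hij
    exact hi _ _ ((hf i).trans (hij ▸ (hf j).symm))
  simpa using Fintype.card_le_of_injective f this

/-- two tails with a common vertex are equal -/
theorem RA_same {a : T → T → Prop} (irr : ∀ x, ¬ a x x) (sym : ∀ x y, a x y → a y x) {m m' : ℕ}
    {x x' : T} {w : Fin m → T} {w' : Fin m' → T} (ht : RA_Tail a m x w) (ht' : RA_Tail a m' x' w')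
    {k : Fin m} {l : Fin m'} (h : w k = w' l) : m = m' ∧ x = x' ∧
      ∀ (i : Fin m) (j : Fin m'), i.1 = j.1 → w i = w' j := by
  have h1 := RA_sub irr sym ht ht' h
  have h2 := RA_sub irr sym ht' ht h.symm
  have hm : m = m' := le_antisymm (RA_len_le ht.inj h1) (RA_len_le ht'.inj h2)
  subst hm
  have hpos := ht.pos
  -- the last vertices agree
  have key : ∀ d : ℕ, ∀ i : Fin m, i.1 + d + 1 = m → w i = w' i := by
    intro d
    induction d using Nat.strong_induction_on with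
    | _ d ih =>
      intro i hi
      rcases Nat.eq_zero_or_pos d with rfl | hd
      · -- dead end
        obtain ⟨j, hj⟩ := h1 i
        have hjm := j.2
        by_cases hji : j = i
        · rw [hj, hji]
        · exfalso
          have hne : j.1 ≠ i.1 := fun h3 => hji (Fin.ext h3)
          have hlt : j.1 + 1 < m := by omega
          let j' : Fin m := ⟨j.1 + 1, hlt⟩
          obtain ⟨p, hp1, hp2, -⟩ := RA_prev sym ht' j
          have e1 : a (w i) p := by rw [hj]; exact hp1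
          have e2' : a (w i) (w' j') := by rw [hj]; exact ht'.nx j j' rfl
          have e3 : ∀ y, a (w i) y → ∃ l : Fin m, y = w l ∧ l.1 + 1 = i.1 := by
            intro y hy
            rcases RA_nbr irr sym ht hy with ⟨h4, h5, h6⟩ | ⟨l, h5, h6⟩
            · omega
            · refine ⟨l, h5, ?_⟩
              have := l.2
              omega
          obtain ⟨l1, h5, h6⟩ := e3 _ e1
          obtain ⟨l2, h7, h8⟩ := e3 _ e2'
          have : l1 = l2 := Fin.ext (by omega)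
          exact hp2 j' (Nat.le_succ _) (h5.trans (this ▸ h7.symm))
      · have hi2 := i.2
        let i' : Fin m := ⟨i.1 + 1, by omega⟩
        have e1 : w i' = w' i' := ih (d - 1) (by omega) i' (by show i.1 + 1 + (d - 1) + 1 = m; omega)
        have e2' : a (w' i') (w i) := by rw [← e1]; exact sym _ _ (ht.nx i i' rfl)
        rcases RA_nbr irr sym ht' e2' with ⟨h4, -, -⟩ | ⟨l, h5, h6⟩
        · exact absurd h4 (Nat.succ_ne_zero _)
        · change l.1 + 1 = i.1 + 1 ∨ i.1 + 1 + 1 = l.1 at h6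
          rcases h6 with h6 | h6
          · have : l = i := Fin.ext (by omega)
            rw [h5, this]
          · exfalso
            have hl := l.2
            have e3 : w l = w' l := ih (d - 2) (by omega) l (by omega)
            have e4 : w i = w l := h5.trans e3.symm
            have := congrArg Fin.val (ht.inj _ _ e4)
            omega
  have hall : ∀ i : Fin m, w i = w' i := by
    intro i
    have hi := i.2
    exact key (m - 1 - i.1) i (by omega)
  refine ⟨rfl, ?_, ?_⟩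
  · let z : Fin m := ⟨0, hpos⟩
    have e1 : a (w' z) x := by rw [← hall z]; exact sym _ _ (ht.st z rfl)
    rcases RA_nbr irr sym ht' e1 with ⟨-, h4, -⟩ | ⟨l, h5, -⟩
    · exact h4
    · exact absurd (h5 ▸ ht.hx) (ht'.nor l)
  · intro i j hij
    have : i = j := Fin.ext hij
    rw [this]
    exact hall j

theorem RA_or_iff {T' : Type} (e : T ≃ T') {a : T → T → Prop} {b : T' → T' → Prop}
    (h : ∀ x y, a x y ↔ b (e x) (e y)) (x : T) : RA_Or b (e x) ↔ RA_Or a x := by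
  constructor
  · rintro ⟨z, h1, h2⟩
    refine ⟨fun i => e.symm (z i), fun i j hij => h1 i j (e.symm.injective hij), fun i => ?_⟩
    rw [h, e.apply_symm_apply]
    exact h2 i
  · rintro ⟨z, h1, h2⟩
    exact ⟨fun i => e (z i), fun i j hij => h1 i j (e.injective hij), fun i => (h _ _).1 (h2 i)⟩

theorem RA_tail_iff {T' : Type} (e : T ≃ T') {a : T → T → Prop} {b : T' → T' → Prop}
    (h : ∀ x y, a x y ↔ b (e x) (e y)) (m : ℕ) (x : T) (w : Fin m → T) :
    RA_Tail b m (e x) (fun k => e (w k)) ↔ RA_Tail a m x w := by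
  constructor
  · rintro ⟨h1, h2, h3, h4, h5, h6, h7⟩
    refine ⟨h1, (RA_or_iff e h x).1 h2, fun k l hkl => h3 k l (congrArg e hkl),
      fun k hk => h4 k ((RA_or_iff e h _).2 hk), fun k hk => (h _ _).2 (h5 k hk),
      fun k l hkl => (h _ _).2 (h6 k l hkl), fun k hk y hy => ?_⟩
    obtain ⟨l, hl⟩ := h7 k hk (e y) ((h _ _).1 hy)
    exact ⟨l, e.injective hl⟩
  · rintro ⟨h1, h2, h3, h4, h5, h6, h7⟩
    refine ⟨h1, (RA_or_iff e h x).2 h2, fun k l hkl => h3 k l (e.injective hkl),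
      fun k hk => h4 k ((RA_or_iff e h _).1 hk), fun k hk => (h _ _).1 (h5 k hk),
      fun k l hkl => (h _ _).1 (h6 k l hkl), fun k hk y hy => ?_⟩
    obtain ⟨l, hl⟩ := h7 k hk (e.symm y) (by rw [h, e.apply_symm_apply]; exact hy)
    exact ⟨l, by rw [← hl, e.apply_symm_apply]⟩

theorem RA_tail_iff' {T' : Type} (e : T ≃ T') {a : T → T → Prop} {b : T' → T' → Prop}
    (h : ∀ x y, a x y ↔ b (e x) (e y)) (m : ℕ) (x : T') (w : Fin m → T') :
    RA_Tail b m x w ↔ RA_Tail a m (e.symm x) (fun k => e.symm (w k)) := by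
  rw [← RA_tail_iff e h]
  simp only [e.apply_symm_apply]

theorem RA_transport {T' : Type} (e : T ≃ T') {a : T → T → Prop} {b : T' → T' → Prop}
    (h : ∀ x y, a x y ↔ b (e x) (e y)) (ha : RA_Ax a) : RA_Ax b := by
  have hor : ∀ x : T', RA_Or b x ↔ RA_Or a (e.symm x) := by
    intro x
    rw [← RA_or_iff e h, e.apply_symm_apply]
  have hb : ∀ x y : T', b x y ↔ a (e.symm x) (e.symm y) := by
    intro x y
    rw [h, e.apply_symm_apply, e.apply_symm_apply]
  have hex : ∀ (m : ℕ) (v : T'), (∃ w : Fin m → T', RA_Tail b m v w) ↔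
      ∃ w : Fin m → T, RA_Tail a m (e.symm v) w := by
    intro m v
    constructor
    · rintro ⟨w, hw⟩
      exact ⟨_, (RA_tail_iff' e h m v w).1 hw⟩
    · rintro ⟨w, hw⟩
      refine ⟨fun k => e (w k), (RA_tail_iff' e h m v _).2 ?_⟩
      simp only [e.symm_apply_apply]
      exact hw
  refine ⟨fun x hx => ha.irr _ ((hb x x).1 hx), fun x y hxy => (hb _ _).2 (ha.sym _ _ ((hb _ _).1 hxy)),
    ?_, ?_, ?_, ?_, ?_⟩
  · intro k
    obtain ⟨v, h1, h2⟩ := ha.inf k
    exact ⟨fun i => e (v i), fun i j hij => h1 i j (e.injective hij),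
      fun i => (RA_or_iff e h _).2 (h2 i)⟩
  · intro x
    rcases ha.cov (e.symm x) with h1 | ⟨m, v, w, h1, k, h2⟩
    · exact Or.inl ((hor x).2 h1)
    · refine Or.inr ⟨m, e v, fun k => e (w k), (RA_tail_iff e h m v w).2 h1, k, ?_⟩
      show e (w k) = x
      rw [h2, e.apply_symm_apply]
  · intro v hv c
    rw [hex, hex]
    exact ha.xor _ ((hor v).1 hv) c
  · intro m v w w' hw hw'
    have := ha.uni m _ _ _ ((RA_tail_iff' e h m v w).1 hw) ((RA_tail_iff' e h m v w').1 hw')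
    funext k
    exact e.symm.injective (congrFun this k)
  · intro m v w hw
    exact ha.len m _ _ ((RA_tail_iff' e h m v w).1 hw)

end abs

/-! ### The graphs `pur W` -/

section pur
variable {V : Type} {W : LG.Structure V}

theorem RA_plen3 (W : LG.Structure V) (v : V) (c : ℕ) : 3 ≤ plen W v c := by
  unfold plen
  split_ifs <;> omega

theorem RA_plen_eq1 (W : LG.Structure V) (v : V) (c c' : ℕ) :
    2 * c + 3 = plen W v c' ↔ c' = c ∧ Co W c v := by
  unfold plen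
  constructor
  · intro h
    split_ifs at h with h1
    · have : c' = c := by omega
      exact ⟨this, this ▸ h1⟩
    · omega
  · rintro ⟨rfl, h⟩
    rw [if_pos h]

theorem RA_plen_eq2 (W : LG.Structure V) (v : V) (c c' : ℕ) :
    2 * c + 4 = plen W v c' ↔ c' = c ∧ ¬ Co W c v := by
  unfold plen
  constructor
  · intro h
    split_ifs at h with h1
    · omega
    · have : c' = c := by omega
      exact ⟨this, this ▸ h1⟩
  · rintro ⟨rfl, h⟩
    rw [if_neg h]

theorem RA_plen_inj (W : LG.Structure V) (v : V) {c c' : ℕ} (h : plen W v c = plen W v c') :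
    c = c' := by
  unfold plen at h
  split_ifs at h <;> omega

theorem RA_orl (v : V) : RA_Or (PG (W := W)) (Sum.inl v) := by
  refine ⟨fun i => Sum.inr ⟨((v, i.1), 0), lt_of_lt_of_le (by norm_num) (RA_plen3 W v i.1)⟩, ?_, ?_⟩
  · intro i j hij
    have h1 := congrArg (fun q : PV W => q.1.1.2) (Sum.inr_injective hij)
    exact Fin.ext h1
  · intro i
    exact ⟨rfl, rfl⟩

/-- the neighbour with larger number -/
def RA_up (q : PV W) (y : V ⊕ PV W) : Prop := ∃ q' : PV W, y = Sum.inr q' ∧ q'.1 = (q.1.1, q.1.2 + 1)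

theorem RA_two {q : PV W} {y y' : V ⊕ PV W} (h : PG (Sum.inr q) y) (h' : PG (Sum.inr q) y')
    (hu : RA_up q y ↔ RA_up q y') : y = y' := by
  have key : ∀ y : V ⊕ PV W, PG (Sum.inr q) y → RA_up q y ∨ (q.1.2 = 0 ∧ y = Sum.inl q.1.1.1) ∨
      ∃ q' : PV W, y = Sum.inr q' ∧ q'.1.1 = q.1.1 ∧ q'.1.2 + 1 = q.1.2 := by
    rintro (v | q') hy
    · exact Or.inr (Or.inl ⟨hy.1, by rw [hy.2]⟩)
    · obtain ⟨h1, h2 | h2⟩ := hy
      · exact Or.inl ⟨q', rfl, Prod.ext h1.symm h2.symm⟩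
      · exact Or.inr (Or.inr ⟨q', rfl, h1.symm, h2⟩)
  by_cases h1 : RA_up q y
  · obtain ⟨q1, e1, e2'⟩ := h1
    obtain ⟨q2, e3, e4⟩ := hu.1 ⟨q1, e1, e2'⟩
    rw [e1, e3]
    exact congrArg Sum.inr (Subtype.ext (e2'.trans e4.symm))
  · have h2 : ¬ RA_up q y' := fun h => h1 (hu.2 h)
    rcases key y h with h3 | ⟨h3, h4⟩ | ⟨q1, h3, h4, h5⟩
    · exact absurd h3 h1
    · rcases key y' h' with h6 | ⟨h6, h7⟩ | ⟨q2, h6, h7, h8⟩
      · exact absurd h6 h2
      · rw [h4, h7]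
      · omega
    · rcases key y' h' with h6 | ⟨h6, h7⟩ | ⟨q2, h6, h7, h8⟩
      · exact absurd h6 h2
      · omega
      · rw [h3, h6]
        refine congrArg Sum.inr (Subtype.ext (Prod.ext (h4.trans h7.symm) ?_))
        omega

theorem RA_norr (q : PV W) : ¬ RA_Or (PG (W := W)) (Sum.inr q) := by
  rintro ⟨z, hi, hz⟩
  have hne : ∀ i j : Fin 3, i ≠ j → ¬ (RA_up q (z i) ↔ RA_up q (z j)) :=
    fun i j hij h => hij (hi i j (RA_two (hz i) (hz j) h))
  have h01 := hne 0 1 (by decide)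
  have h02 := hne 0 2 (by decide)
  have h12 := hne 1 2 (by decide)
  tauto

theorem RA_std (v : V) (c : ℕ) : RA_Tail (PG (W := W)) (plen W v c) (Sum.inl v)
    (fun k => Sum.inr ⟨((v, c), k.1), k.2⟩) := by
  refine ⟨le_trans (by norm_num) (RA_plen3 W v c), RA_orl v, ?_, fun k => RA_norr _, ?_, ?_, ?_⟩
  · intro k l h
    have h1 := congrArg (fun q : PV W => q.1.2) (Sum.inr_injective h)
    exact Fin.ext h1
  · intro k hk
    exact ⟨hk, rfl⟩
  · intro k l hkl
    exact ⟨rfl, Or.inl hkl⟩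
  · rintro k hk (y | q) hy
    · have h3 := RA_plen3 W v c
      have h4 : k.1 = 0 := hy.1
      omega
    · obtain ⟨h1, h2⟩ := hy
      change (v, c) = q.1.1 at h1
      change k.1 + 1 = q.1.2 ∨ q.1.2 + 1 = k.1 at h2
      have hq := q.2
      have hq' : q.1.2 < plen W v c := by
        have e1 : v = q.1.1.1 := congrArg Prod.fst h1
        have e2' : c = q.1.1.2 := congrArg Prod.snd h1
        rw [e1, e2']
        exact hq
      refine ⟨⟨q.1.2, hq'⟩, congrArg Sum.inr (Subtype.ext (Prod.ext h1.symm rfl))⟩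

theorem RA_tailPG {m : ℕ} {x : V ⊕ PV W} {w : Fin m → V ⊕ PV W} (ht : RA_Tail PG m x w) :
    ∃ (v : V) (c : ℕ), x = Sum.inl v ∧ m = plen W v c ∧
      ∀ (k : Fin m) (hk : k.1 < plen W v c), w k = Sum.inr ⟨((v, c), k.1), hk⟩ := by
  obtain ⟨v, rfl⟩ : ∃ v, x = Sum.inl v := by
    rcases x with v | q
    · exact ⟨v, rfl⟩
    · exact absurd ht.hx (RA_norr q)
  have hq : ∀ k, ∃ q : PV W, w k = Sum.inr q := by
    intro k
    rcases hwk : w k with u | q
    · exact absurd (hwk ▸ RA_orl u) (ht.nor k)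
    · exact ⟨q, rfl⟩
  choose q hq using hq
  have hpos := ht.pos
  let z : Fin m := ⟨0, hpos⟩
  have hz := ht.st z rfl
  rw [hq z] at hz
  have hz1 : (q z).1.2 = 0 := hz.1
  have hz2 : (q z).1.1.1 = v := hz.2
  have key : ∀ n : ℕ, ∀ (hn : n < m), (q ⟨n, hn⟩).1 = ((v, (q z).1.1.2), n) := by
    intro n
    induction n using Nat.strong_induction_on with
    | _ n ih =>
      intro hn
      rcases Nat.eq_zero_or_pos n with rfl | hpos'
      · exact Prod.ext (Prod.ext hz2 rfl) hz1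
      · obtain ⟨p, rfl⟩ : ∃ p, n = p + 1 := ⟨n - 1, by omega⟩
        have e1 := ih p (by omega) (by omega)
        have e2' := ht.nx ⟨p, by omega⟩ ⟨p + 1, hn⟩ rfl
        rw [hq, hq] at e2'
        obtain ⟨h1, h2⟩ := e2'
        rw [e1] at h1 h2
        rcases h2 with h2 | h2
        · exact Prod.ext h1.symm h2.symm
        · exfalso
          change (q ⟨p + 1, hn⟩).1.2 + 1 = p at h2
          have e3 := ih (p - 1) (by omega) (by omega)
          have e4 : (q ⟨p + 1, hn⟩) = q ⟨p - 1, by omega⟩ := by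
            refine Subtype.ext ?_
            rw [e3]
            refine Prod.ext h1.symm ?_
            show (q ⟨p + 1, hn⟩).1.2 = p - 1
            omega
          have e5 : w ⟨p + 1, hn⟩ = w ⟨p - 1, by omega⟩ := by rw [hq, hq, e4]
          have := congrArg Fin.val (ht.inj _ _ e5)
          change p + 1 = p - 1 at this
          omega
  set c := (q z).1.1.2 with hc
  have hlt : ∀ n, n < m → n < plen W v c := by
    intro n hn
    have h1 := (q ⟨n, hn⟩).2
    rw [key n hn] at h1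
    exact h1
  refine ⟨v, c, rfl, ?_, ?_⟩
  · apply le_antisymm
    · have := hlt (m - 1) (by omega)
      omega
    · by_contra hcon
      push Not at hcon
      have e1 := ht.en ⟨m - 1, by omega⟩ (by show m - 1 + 1 = m; omega)
        (Sum.inr ⟨((v, c), m), hcon⟩) (by
          rw [hq]
          refine ⟨?_, Or.inl ?_⟩
          · rw [key]
          · rw [key]
            show m - 1 + 1 = m
            omega)
      obtain ⟨l, hl⟩ := e1
      rw [hq] at hl
      have h1 := congrArg (fun q : PV W => q.1.2) (Sum.inr_injective hl)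
      have h2 := key l.1 l.2
      change m = (q l).1.2 at h1
      rw [h2] at h1
      exact absurd h1 (ne_of_gt l.2)
  · intro k hk
    rw [hq]
    exact congrArg Sum.inr (Subtype.ext (key k.1 k.2))

theorem RA_axPG {W : LG.Structure ℕ} (hW : IsGraph W) : RA_Ax (PG (W := W)) := by
  have hex1 : ∀ (v c : ℕ), (∃ w : Fin (2 * c + 3) → ℕ ⊕ PV W,
      RA_Tail PG (2 * c + 3) (Sum.inl v) w) ↔ Co W c v := by
    intro v c
    constructor
    · rintro ⟨w, hw⟩
      obtain ⟨v', c', h1, h2, -⟩ := RA_tailPG hw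
      have : v = v' := Sum.inl_injective h1
      subst this
      exact ((RA_plen_eq1 W v c c').1 h2).2
    · intro h
      have h1 := (RA_plen_eq1 W v c c).2 ⟨rfl, h⟩
      rw [h1]
      exact ⟨_, RA_std v c⟩
  have hex2 : ∀ (v c : ℕ), (∃ w : Fin (2 * c + 4) → ℕ ⊕ PV W,
      RA_Tail PG (2 * c + 4) (Sum.inl v) w) ↔ ¬ Co W c v := by
    intro v c
    constructor
    · rintro ⟨w, hw⟩
      obtain ⟨v', c', h1, h2, -⟩ := RA_tailPG hw
      have : v = v' := Sum.inl_injective h1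
      subst this
      exact ((RA_plen_eq2 W v c c').1 h2).2
    · intro h
      have h1 := (RA_plen_eq2 W v c c).2 ⟨rfl, h⟩
      rw [h1]
      exact ⟨_, RA_std v c⟩
  refine ⟨?_, ?_, ?_, ?_, ?_, ?_, ?_⟩
  · rintro (v | q) h
    · exact hW.1 v h
    · obtain ⟨-, h | h⟩ := h <;> omega
  · rintro (v | q) (v' | q') h
    · exact hW.2 _ _ h
    · exact h
    · exact h
    · exact ⟨h.1.symm, h.2.symm⟩
  · intro k
    exact ⟨fun i => Sum.inl i.1, fun i j hij => Fin.ext (Sum.inl_injective hij), fun i => RA_orl _⟩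
  · rintro (v | q)
    · exact Or.inl (RA_orl v)
    · right
      obtain ⟨⟨⟨v, c⟩, k⟩, hk⟩ := q
      exact ⟨_, _, _, RA_std v c, ⟨k, hk⟩, rfl⟩
  · rintro (v | q) hv c
    · rw [hex1, hex2, not_not]
    · exact absurd hv (RA_norr q)
  · intro m v w w' hw hw'
    obtain ⟨u, c, h1, h2, h3⟩ := RA_tailPG hw
    obtain ⟨u', c', h1', h2', h3'⟩ := RA_tailPG hw'
    have hu : u = u' := Sum.inl_injective (h1.symm.trans h1')
    subst hu
    have hc : c = c' := RA_plen_inj W u (h2.symm.trans h2')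
    subst hc
    funext k
    have hk : k.1 < plen W u c := by rw [← h2]; exact k.2
    rw [h3 k hk, h3' k hk]
  · intro m v w hw
    obtain ⟨u, c, h1, h2, h3⟩ := RA_tailPG hw
    rw [h2]
    exact RA_plen3 W u c

end pur

/-! ### From the axioms to a coloured graph -/

theorem RA_back {a : ℕ → ℕ → Prop} (h : RA_Ax a) : ∃ W : LG.Structure ℕ, IsGraph W ∧
    ∃ e : (ℕ ⊕ PV W) ≃ ℕ, ∀ x y, PG x y ↔ a (e x) (e y) := by
  classical
  have hinf : Infinite {u // RA_Or a u} := by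
    by_contra hcon
    rw [not_infinite_iff_finite] at hcon
    obtain ⟨v, h1, h2⟩ := h.inf (Nat.card {u // RA_Or a u} + 1)
    have hi : Function.Injective (fun i => (⟨v i, h2 i⟩ : {u // RA_Or a u})) := by
      intro i j hij
      exact h1 i j (congrArg Subtype.val hij)
    have := Nat.card_le_card_of_injective _ hi
    rw [Nat.card_fin] at this
    omega
  obtain ⟨π⟩ : Nonempty (ℕ ≃ {u // RA_Or a u}) := nonempty_equiv_of_countable
  let p : ℕ → ℕ := fun i => (π i).1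
  have hp : ∀ i, RA_Or a (p i) := fun i => (π i).2
  have hpi : ∀ i j, p i = p j → i = j := fun i j hij => π.injective (Subtype.ext hij)
  have hps : ∀ v, RA_Or a v → ∃ i, p i = v := fun v hv =>
    ⟨π.symm ⟨v, hv⟩, by simp [p]⟩
  let W : LG.Structure ℕ := mkG (fun c i => ∃ w : Fin (2 * c + 3) → ℕ, RA_Tail a (2 * c + 3) (p i) w)
    (fun i j => a (p i) (p j))
  have hCo : ∀ c i, Co W c i ↔ ∃ w : Fin (2 * c + 3) → ℕ, RA_Tail a (2 * c + 3) (p i) w :=
    fun c i => Iff.rfl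
  have hAd : ∀ i j, Ad W i j ↔ a (p i) (p j) := fun i j => Iff.rfl
  have hT : ∀ i c, ∃ w : Fin (plen W i c) → ℕ, RA_Tail a (plen W i c) (p i) w := by
    intro i c
    by_cases hC : Co W c i
    · have : plen W i c = 2 * c + 3 := if_pos hC
      rw [this]
      exact (hCo c i).1 hC
    · have : plen W i c = 2 * c + 4 := if_neg hC
      rw [this]
      by_contra hcon
      exact hC ((hCo c i).2 ((h.xor _ (hp i) c).2 hcon))
  choose w hw using hT
  let F : ℕ ⊕ PV W → ℕ := Sum.elim p (fun q => w q.1.1.1 q.1.1.2 ⟨q.1.2, q.2⟩)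
  have hFr : ∀ (i c k : ℕ) (hk : k < plen W i c), F (Sum.inr ⟨((i, c), k), hk⟩) = w i c ⟨k, hk⟩ :=
    fun _ _ _ _ => rfl
  have hFl : ∀ i, F (Sum.inl i) = p i := fun _ => rfl
  have hsame : ∀ (i c k i' c' k' : ℕ) (hk : k < plen W i c) (hk' : k' < plen W i' c'),
      w i c ⟨k, hk⟩ = w i' c' ⟨k', hk'⟩ → i = i' ∧ c = c' ∧ k = k' := by
    intro i c k i' c' k' hk hk' he
    obtain ⟨h1, h2, -⟩ := RA_same h.irr h.sym (hw i c) (hw i' c') he
    have hi : i = i' := hpi _ _ h2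
    subst hi
    have hc : c = c' := RA_plen_inj W i h1
    subst hc
    exact ⟨rfl, rfl, congrArg Fin.val ((hw i c).inj _ _ he)⟩
  have hinj : Function.Injective F := by
    rintro (i | ⟨⟨⟨i, c⟩, k⟩, hk⟩) (i' | ⟨⟨⟨i', c'⟩, k'⟩, hk'⟩) he
    · exact congrArg Sum.inl (hpi _ _ he)
    · have he' : p i = w i' c' ⟨k', hk'⟩ := he
      exact absurd (he' ▸ hp i) ((hw i' c').nor _)
    · have he' : w i c ⟨k, hk⟩ = p i' := he
      exact absurd (he'.symm ▸ hp i') ((hw i c).nor _)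
    · obtain ⟨rfl, rfl, rfl⟩ := hsame _ _ _ _ _ _ _ _ he
      rfl
  have hsurj : Function.Surjective F := by
    intro x
    rcases h.cov x with hx | ⟨m, v, w0, ht, k, hk⟩
    · obtain ⟨i, hi⟩ := hps x hx
      exact ⟨Sum.inl i, hi⟩
    · obtain ⟨i, rfl⟩ := hps v ht.hx
      have h3 := h.len _ _ _ ht
      have hm : ∃ c, m = plen W i c := by
        rcases Nat.even_or_odd' m with ⟨c, hc | hc⟩
        · obtain ⟨c', rfl⟩ : ∃ c', c = c' + 2 := ⟨c - 2, by omega⟩
          have hm : m = 2 * c' + 4 := by omega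
          subst hm
          refine ⟨c', (if_neg ?_).symm⟩
          intro hC
          exact (h.xor _ (hp i) c').1 ((hCo c' i).1 hC) ⟨w0, ht⟩
        · obtain ⟨c', rfl⟩ : ∃ c', c = c' + 1 := ⟨c - 1, by omega⟩
          have hm : m = 2 * c' + 3 := by omega
          subst hm
          refine ⟨c', (if_pos ?_).symm⟩
          exact (hCo c' i).2 ⟨w0, ht⟩
      obtain ⟨c, rfl⟩ := hm
      have he := h.uni _ _ _ _ ht (hw i c)
      refine ⟨Sum.inr ⟨((i, c), k.1), k.2⟩, ?_⟩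
      rw [hFr, ← hk, he]
  refine ⟨W, ⟨fun x => h.irr _, fun x y => h.sym _ _⟩, Equiv.ofBijective F ⟨hinj, hsurj⟩, ?_⟩
  intro x y
  show PG x y ↔ a (F x) (F y)
  rcases x with i | ⟨⟨⟨i, c⟩, k⟩, hk⟩ <;> rcases y with i' | ⟨⟨⟨i', c'⟩, k'⟩, hk'⟩
  · exact hAd i i'
  · rw [hFl, hFr]
    show (k' = 0 ∧ i' = i) ↔ _
    constructor
    · rintro ⟨h1, rfl⟩
      exact (hw i' c').st ⟨k', hk'⟩ h1
    · intro h1
      rcases RA_nbr h.irr h.sym (hw i' c') (h.sym _ _ h1) with ⟨h2, h3, -⟩ | ⟨l, h2, -⟩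
      · exact ⟨h2, (hpi _ _ h3).symm⟩
      · exact absurd (h2 ▸ hp i) ((hw i' c').nor l)
  · rw [hFl, hFr]
    show (k = 0 ∧ i = i') ↔ _
    constructor
    · rintro ⟨h1, rfl⟩
      exact h.sym _ _ ((hw i c).st ⟨k, hk⟩ h1)
    · intro h1
      rcases RA_nbr h.irr h.sym (hw i c) h1 with ⟨h2, h3, -⟩ | ⟨l, h2, -⟩
      · exact ⟨h2, (hpi _ _ h3).symm⟩
      · exact absurd (h2 ▸ hp i') ((hw i c).nor l)
  · rw [hFr, hFr]
    show ((i, c) = (i', c') ∧ (k + 1 = k' ∨ k' + 1 = k)) ↔ _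
    constructor
    · rintro ⟨h1, h2⟩
      obtain ⟨rfl, rfl⟩ := Prod.mk.inj h1
      rcases h2 with h2 | h2
      · exact (hw i c).nx _ _ h2
      · exact h.sym _ _ ((hw i c).nx _ _ h2)
    · intro h1
      rcases RA_nbr h.irr h.sym (hw i c) h1 with ⟨-, h3, -⟩ | ⟨⟨l, hl⟩, h2, h3⟩
      · exact absurd (h3 ▸ hp i) ((hw i' c').nor _)
      · obtain ⟨rfl, rfl, rfl⟩ := hsame _ _ _ _ _ _ _ _ h2
        refine ⟨rfl, ?_⟩
        rcases h3 with h3 | h3
        · exact Or.inr h3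
        · exact Or.inl h3

/-! ### Definability -/

section dfn

theorem RA_congr {n : ℕ} {P Q : LP.Structure ℕ → (Fin n → ℕ) → Prop} (h : Dfn P)
    (hPQ : ∀ S v, P S v ↔ Q S v) : Dfn Q := by
  obtain ⟨φ, hφ⟩ := h
  exact ⟨φ, fun S v => (hφ S v).trans (hPQ S v)⟩

variable (hd : St_DFN)

include hd

theorem RA_not {n : ℕ} {P : LP.Structure ℕ → (Fin n → ℕ) → Prop} (h : Dfn P) :
    Dfn fun S v => ¬ P S v := (hd LP).1 n P h

theorem RA_alli {n : ℕ} {ι : Type} [Countable ι] {P : ι → LP.Structure ℕ → (Fin n → ℕ) → Prop}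
    (h : ∀ i, Dfn (P i)) : Dfn fun S v => ∀ i, P i S v := (hd LP).2.1 n ι P h

theorem RA_exi {n : ℕ} {ι : Type} [Countable ι] {P : ι → LP.Structure ℕ → (Fin n → ℕ) → Prop}
    (h : ∀ i, Dfn (P i)) : Dfn fun S v => ∃ i, P i S v := (hd LP).2.2.1 n ι P h

theorem RA_and {n : ℕ} {P Q : LP.Structure ℕ → (Fin n → ℕ) → Prop} (h : Dfn P) (h' : Dfn Q) :
    Dfn fun S v => P S v ∧ Q S v := ((hd LP).2.2.2.1 n P Q h h').1

theorem RA_dor {n : ℕ} {P Q : LP.Structure ℕ → (Fin n → ℕ) → Prop} (h : Dfn P) (h' : Dfn Q) :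
    Dfn fun S v => P S v ∨ Q S v := ((hd LP).2.2.2.1 n P Q h h').2.1

theorem RA_imp {n : ℕ} {P Q : LP.Structure ℕ → (Fin n → ℕ) → Prop} (h : Dfn P) (h' : Dfn Q) :
    Dfn fun S v => P S v → Q S v := ((hd LP).2.2.2.1 n P Q h h').2.2.1

theorem RA_iff {n : ℕ} {P Q : LP.Structure ℕ → (Fin n → ℕ) → Prop} (h : Dfn P) (h' : Dfn Q) :
    Dfn fun S v => P S v ↔ Q S v := ((hd LP).2.2.2.1 n P Q h h').2.2.2

theorem RA_const {n : ℕ} (p : Prop) : Dfn (L := LP) (n := n) fun _ _ => p := (hd LP).2.2.2.2.1 n p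

theorem RA_eq {n : ℕ} (i j : Fin n) : Dfn (L := LP) fun _ v => v i = v j :=
  (hd LP).2.2.2.2.2.1 n i j

theorem RA_dAp {n : ℕ} (a b : Fin n) : Dfn fun (S : LP.Structure ℕ) v => Ap S (v a) (v b) := by
  refine RA_congr ((hd LP).2.2.2.2.2.2.1 n 2 (FirstOrder.Language.adj : LP.Relations 2) ![a, b])
    fun S v => ?_
  have h : (fun j => v (![a, b] j)) = ![v a, v b] := by
    funext j
    fin_cases j <;> rfl
  rw [h]
  rfl

theorem RA_exk {n k : ℕ} {P : LP.Structure ℕ → (Fin n → ℕ) → (Fin k → ℕ) → Prop}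
    (h : Dfn (n := n + k) fun S v => P S (fun i => v (Fin.castAdd k i)) (fun j => v (Fin.natAdd n j))) :
    Dfn (n := n) fun S v => ∃ w : Fin k → ℕ, P S v w := by
  have h2 := ((hd LP).2.2.2.2.2.2.2.2 n k _ h).1
  refine RA_congr h2 fun S v => exists_congr fun w => ?_
  have h3 : (fun i => Fin.append v w (Fin.castAdd k i)) = v := by
    funext i
    exact Fin.append_left v w i
  have h4 : (fun i => Fin.append v w (Fin.natAdd n i)) = w := by
    funext i
    exact Fin.append_right v w i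
  rw [h3, h4]

theorem RA_allk {n k : ℕ} {P : LP.Structure ℕ → (Fin n → ℕ) → (Fin k → ℕ) → Prop}
    (h : Dfn (n := n + k) fun S v => P S (fun i => v (Fin.castAdd k i)) (fun j => v (Fin.natAdd n j))) :
    Dfn (n := n) fun S v => ∀ w : Fin k → ℕ, P S v w := by
  have h2 := ((hd LP).2.2.2.2.2.2.2.2 n k _ h).2
  refine RA_congr h2 fun S v => forall_congr' fun w => ?_
  have h3 : (fun i => Fin.append v w (Fin.castAdd k i)) = v := by
    funext i
    exact Fin.append_left v w i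
  have h4 : (fun i => Fin.append v w (Fin.natAdd n i)) = w := by
    funext i
    exact Fin.append_right v w i
  rw [h3, h4]

theorem RA_all1 {n : ℕ} {P : LP.Structure ℕ → (Fin n → ℕ) → ℕ → Prop}
    (h : Dfn (n := n + 1) fun S v => P S (fun i => v (Fin.castAdd 1 i)) (v (Fin.natAdd n 0))) :
    Dfn (n := n) fun S v => ∀ x : ℕ, P S v x :=
  RA_congr (RA_allk hd (k := 1) (P := fun S v w => P S v (w 0)) h)
    fun S v => ⟨fun h x => h ![x], fun h w => h (w 0)⟩

theorem RA_ex1 {n : ℕ} {P : LP.Structure ℕ → (Fin n → ℕ) → ℕ → Prop}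
    (h : Dfn (n := n + 1) fun S v => P S (fun i => v (Fin.castAdd 1 i)) (v (Fin.natAdd n 0))) :
    Dfn (n := n) fun S v => ∃ x : ℕ, P S v x :=
  RA_congr (RA_exk hd (k := 1) (P := fun S v w => P S v (w 0)) h)
    fun S v => ⟨fun ⟨w, h⟩ => ⟨w 0, h⟩, fun ⟨x, h⟩ => ⟨![x], h⟩⟩

theorem RA_dOr {n : ℕ} (a : Fin n) : Dfn fun (S : LP.Structure ℕ) v => RA_Or (Ap S) (v a) :=
  RA_exk hd (P := fun S v z => (∀ i j, z i = z j → i = j) ∧ ∀ i, Ap S (v a) (z i))
    (RA_and hd (RA_alli hd fun i => RA_alli hd fun j => RA_imp hd (RA_eq hd _ _)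
      (RA_const hd (i = j))) (RA_alli hd fun i => RA_dAp hd _ _))

theorem RA_dTail {n m : ℕ} (b : Fin n) (s : Fin m → Fin n) :
    Dfn fun (S : LP.Structure ℕ) v => RA_Tail (Ap S) m (v b) (fun k => v (s k)) := by
  have h := RA_and hd (RA_const hd (1 ≤ m)) (RA_and hd (RA_dOr hd b) (RA_and hd
    (RA_alli hd fun k : Fin m => RA_alli hd fun l : Fin m => RA_imp hd (RA_eq hd (s k) (s l))
      (RA_const hd (k = l)))
    (RA_and hd (RA_alli hd fun k : Fin m => RA_not hd (RA_dOr hd (s k)))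
    (RA_and hd (RA_alli hd fun k : Fin m => RA_imp hd (RA_const hd (k.1 = 0)) (RA_dAp hd b (s k)))
    (RA_and hd (RA_alli hd fun k : Fin m => RA_alli hd fun l : Fin m =>
      RA_imp hd (RA_const hd (k.1 + 1 = l.1)) (RA_dAp hd (s k) (s l)))
    (RA_alli hd fun k : Fin m => RA_imp hd (RA_const hd (k.1 + 1 = m))
      (RA_all1 hd (P := fun S v y => Ap S (v (s k)) y → ∃ l, y = v (s l))
        (RA_imp hd (RA_dAp hd _ _) (RA_exi hd fun l => RA_eq hd _ _)))))))))
  refine RA_congr h fun S v => ?_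
  constructor
  · rintro ⟨h1, h2, h3, h4, h5, h6, h7⟩
    exact ⟨h1, h2, h3, h4, h5, h6, h7⟩
  · rintro ⟨h1, h2, h3, h4, h5, h6, h7⟩
    exact ⟨h1, h2, h3, h4, h5, h6, h7⟩

theorem RA_dAx : Dfn (n := 0) fun (S : LP.Structure ℕ) _ => RA_Ax (Ap S) := by
  have irr : Dfn (n := 0) fun (S : LP.Structure ℕ) _ => ∀ x, ¬ Ap S x x :=
    RA_all1 hd (P := fun S _ x => ¬ Ap S x x) (RA_not hd (RA_dAp hd _ _))
  have sym : Dfn (n := 0) fun (S : LP.Structure ℕ) _ => ∀ x y, Ap S x y → Ap S y x :=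
    RA_all1 hd (P := fun S _ x => ∀ y, Ap S x y → Ap S y x)
      (RA_all1 hd (P := fun S v y => Ap S (v (Fin.natAdd 0 0)) y → Ap S y (v (Fin.natAdd 0 0)))
        (RA_imp hd (RA_dAp hd _ _) (RA_dAp hd _ _)))
  have inf : Dfn (n := 0) fun (S : LP.Structure ℕ) _ =>
      ∀ k : ℕ, ∃ v : Fin k → ℕ, (∀ i j, v i = v j → i = j) ∧ ∀ i, RA_Or (Ap S) (v i) :=
    RA_alli hd fun k => RA_exk hd
      (P := fun S _ v => (∀ i j, v i = v j → i = j) ∧ ∀ i, RA_Or (Ap S) (v i))
      (RA_and hd (RA_alli hd fun i => RA_alli hd fun j => RA_imp hd (RA_eq hd _ _)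
        (RA_const hd (i = j))) (RA_alli hd fun i => RA_dOr hd _))
  have cov : Dfn (n := 0) fun (S : LP.Structure ℕ) _ => ∀ x, RA_Or (Ap S) x ∨
      ∃ (m : ℕ) (v : ℕ) (w : Fin m → ℕ), RA_Tail (Ap S) m v w ∧ ∃ k, w k = x :=
    RA_all1 hd (P := fun S _ x => RA_Or (Ap S) x ∨
      ∃ (m : ℕ) (v : ℕ) (w : Fin m → ℕ), RA_Tail (Ap S) m v w ∧ ∃ k, w k = x)
      (RA_dor hd (RA_dOr hd _) (RA_exi hd fun m =>
        RA_ex1 hd (P := fun S u v => ∃ (w : Fin m → ℕ), RA_Tail (Ap S) m v w ∧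
          ∃ k, w k = u (Fin.natAdd 0 0))
        (RA_exk hd (P := fun S u w => RA_Tail (Ap S) m (u (Fin.natAdd (0 + 1) 0)) w ∧
          ∃ k, w k = u (Fin.castAdd 1 (Fin.natAdd 0 0)))
        (RA_and hd (RA_dTail hd _ _) (RA_exi hd fun k => RA_eq hd _ _)))))
  have xor : Dfn (n := 0) fun (S : LP.Structure ℕ) _ => ∀ v, RA_Or (Ap S) v → ∀ c : ℕ,
      (∃ w : Fin (2 * c + 3) → ℕ, RA_Tail (Ap S) (2 * c + 3) v w) ↔
        ¬ ∃ w : Fin (2 * c + 4) → ℕ, RA_Tail (Ap S) (2 * c + 4) v w :=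
    RA_all1 hd (P := fun S _ v => RA_Or (Ap S) v → ∀ c : ℕ,
      (∃ w : Fin (2 * c + 3) → ℕ, RA_Tail (Ap S) (2 * c + 3) v w) ↔
        ¬ ∃ w : Fin (2 * c + 4) → ℕ, RA_Tail (Ap S) (2 * c + 4) v w)
      (RA_imp hd (RA_dOr hd _) (RA_alli hd fun c => RA_iff hd
        (RA_exk hd (P := fun S u w => RA_Tail (Ap S) (2 * c + 3) (u (Fin.natAdd 0 0)) w)
          (RA_dTail hd _ _))
        (RA_not hd (RA_exk hd (P := fun S u w => RA_Tail (Ap S) (2 * c + 4) (u (Fin.natAdd 0 0)) w)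
          (RA_dTail hd _ _)))))
  have uni : Dfn (n := 0) fun (S : LP.Structure ℕ) _ => ∀ (m : ℕ) (v : ℕ) (w w' : Fin m → ℕ),
      RA_Tail (Ap S) m v w → RA_Tail (Ap S) m v w' → ∀ k, w k = w' k :=
    RA_alli hd fun m => RA_all1 hd (P := fun S _ v => ∀ (w w' : Fin m → ℕ),
      RA_Tail (Ap S) m v w → RA_Tail (Ap S) m v w' → ∀ k, w k = w' k)
      (RA_allk hd (P := fun S u w => ∀ w' : Fin m → ℕ, RA_Tail (Ap S) m (u (Fin.natAdd 0 0)) w →
        RA_Tail (Ap S) m (u (Fin.natAdd 0 0)) w' → ∀ k, w k = w' k)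
      (RA_allk hd (P := fun S u w' => RA_Tail (Ap S) m (u (Fin.castAdd m (Fin.natAdd 0 0)))
        (fun j => u (Fin.natAdd (0 + 1) j)) →
        RA_Tail (Ap S) m (u (Fin.castAdd m (Fin.natAdd 0 0))) w' →
        ∀ k, u (Fin.natAdd (0 + 1) k) = w' k)
      (RA_imp hd (RA_dTail hd _ _) (RA_imp hd (RA_dTail hd _ _)
        (RA_alli hd fun k => RA_eq hd _ _)))))
  have len : Dfn (n := 0) fun (S : LP.Structure ℕ) _ => ∀ (m : ℕ) (v : ℕ) (w : Fin m → ℕ),
      RA_Tail (Ap S) m v w → 3 ≤ m :=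
    RA_alli hd fun m => RA_all1 hd (P := fun S _ v => ∀ (w : Fin m → ℕ),
      RA_Tail (Ap S) m v w → 3 ≤ m)
      (RA_allk hd (P := fun S u w => RA_Tail (Ap S) m (u (Fin.natAdd 0 0)) w → 3 ≤ m)
      (RA_imp hd (RA_dTail hd _ _) (RA_const hd (3 ≤ m))))
  refine RA_congr (RA_and hd irr (RA_and hd sym (RA_and hd inf (RA_and hd cov
    (RA_and hd xor (RA_and hd uni len)))))) fun S _ => ?_
  constructor
  · rintro ⟨h1, h2, h3, h4, h5, h6, h7⟩
    exact ⟨h1, h2, h3, h4, h5, fun m v w w' hw hw' => funext (h6 m v w w' hw hw'), h7⟩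
  · rintro ⟨h1, h2, h3, h4, h5, h6, h7⟩
    exact ⟨h1, h2, h3, h4, h5, fun m v w w' hw hw' k => congrFun (h6 m v w w' hw hw') k, h7⟩

end dfn

/-- RA -/
theorem thm_RA (hd : St_DFN) : St_RA := by
  obtain ⟨χ, hχ⟩ := RA_dAx hd
  refine ⟨χ, fun G => ?_⟩
  have h1 : G ∈ ModI χ ↔ RA_Ax (Ap G) := hχ G Fin.elim0
  rw [h1]
  constructor
  · intro h
    obtain ⟨W, hW, e, he⟩ := RA_back h
    refine ⟨W, hW, e, ?_⟩
    intro n R v
    cases R with
    | adj =>
      have h2 : G.RelMap FirstOrder.Language.graphRel.adj (e ∘ v) ↔ Ap G (e (v 0)) (e (v 1)) := by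
        unfold Ap
        have : e ∘ v = ![e (v 0), e (v 1)] := by
          funext k
          fin_cases k <;> rfl
        rw [this]
      rw [h2]
      exact he (v 0) (v 1)
  · rintro ⟨W, hW, e, he⟩
    refine RA_transport e (a := PG) (b := Ap G) ?_ (RA_axPG hW)
    intro x y
    have h2 := he 2 (FirstOrder.Language.adj : LP.Relations 2) ![x, y]
    have h3 : e ∘ ![x, y] = ![e x, e y] := by
      funext k
      fin_cases k <;> rfl
    rw [h3] at h2
    exact h2

end VSG
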