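import Pool.Agent.VSG.St2

/-!
# Vaught's conjecture and sparse graphs: transfer of countability
-/

set_option autoImplicit false

namespace VSG

open FirstOrder Set Pool.Agent.Helper5.DU Pool.Agent.Helper6.Str Pool.Agent.Helper79.VC

/-- the structure `pur W` transported along a bijection -/
private lemma RC_iso {V V' : Type} (a : V → V → Prop) (e : V ≃ V') :
    Iso (mkP a) (mkP fun x y => a (e.symm x) (e.symm y)) := by
  refine ⟨e, fun n R v => ?_⟩
  cases R with
  | adj =>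
    change a (v 0) (v 1) ↔ a (e.symm (e (v 0))) (e.symm (e (v 1)))
    rw [Equiv.symm_apply_apply, Equiv.symm_apply_apply]

theorem RC_exists (W : LG.Structure ℕ) : ∃ G : LP.Structure ℕ, Iso (pur W) G := by
  have h1 : Countable (PV W) := Subtype.countable
  obtain ⟨e⟩ : Nonempty (ℕ ⊕ PV W ≃ ℕ) := nonempty_equiv_of_countable
  exact ⟨_, RC_iso _ e⟩

theorem thm_RC (hd : St_RD) : St_RC := by
  intro K ⟨g, hg⟩
  have h1 : ∀ n, ∃ W : LG.Structure ℕ, (∃ S ∈ K, Iso (pur S) (g n)) → Iso (pur W) (g n) := by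
    intro n
    by_cases h : ∃ S ∈ K, Iso (pur S) (g n)
    · obtain ⟨S, -, hS⟩ := h
      exact ⟨S, fun _ => hS⟩
    · exact ⟨mkG (fun _ _ => False) (fun _ _ => False), fun h' => absurd h' h⟩
  choose W hW using h1
  refine ⟨W, fun S hS => ?_⟩
  obtain ⟨G, hG⟩ := RC_exists S
  obtain ⟨n, hn⟩ := hg G ⟨S, hS, hG⟩
  have h2 : Iso (pur S) (g n) := hG.trans hn
  exact ⟨n, hd _ _ _ _ (h2.trans (hW n ⟨S, hS, h2⟩).symm)⟩

end VSG
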