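import Pool.Agent.VSG.St2

/-!
# Vaught's conjecture and sparse graphs: RF

The class of the graphs without colours of the models of a sentence about coloured graphs is defined
by a sentence.
-/

set_option autoImplicit false

namespace VSG

open FirstOrder Set Pool.Agent.Helper5.DU Pool.Agent.Helper6.Str Pool.Agent.Helper79.VC

/-- RF. -/
theorem thm_RF (hd : St_DFN) (ht : St_RT) (ha : St_RA) : St_RF := by
  intro χ hχ
  obtain ⟨κ1, h1⟩ := ht 0 χ
  obtain ⟨κ2, h2⟩ := ha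
  have hand := ((hd LP).2.2.2.1 0 (fun S v => Sat S κ1 v) (fun S v => Sat S κ2 v)
    ⟨κ1, fun _ _ => Iff.rfl⟩ ⟨κ2, fun _ _ => Iff.rfl⟩).1
  obtain ⟨κ, hκ⟩ := hand
  refine ⟨κ, ?_⟩
  have key : ∀ (W : LG.Structure ℕ) (G : LP.Structure ℕ), Iso (pur W) G →
      (Sat G κ1 Fin.elim0 ↔ Sat W χ Fin.elim0) := by
    rintro W G ⟨e, he⟩
    have h3 := h1 W G e he Fin.elim0
    have h4 : (fun i : Fin 0 => e (Sum.inl ((Fin.elim0 : Fin 0 → ℕ) i))) = Fin.elim0 :=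
      funext fun i => i.elim0
    rw [h4] at h3
    exact h3
  ext G
  constructor
  · intro hG
    have h3 : Sat G κ1 Fin.elim0 ∧ Sat G κ2 Fin.elim0 := (hκ G Fin.elim0).1 hG
    obtain ⟨W, -, hI⟩ := (h2 G).1 h3.2
    exact ⟨W, (key W G hI).1 h3.1, hI⟩
  · rintro ⟨W, hW, hI⟩
    exact (hκ G Fin.elim0).2 ⟨(key W G hI).2 hW, (h2 G).2 ⟨W, hχ W hW, hI⟩⟩

end VSG
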