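import Pool.Agent.VSG.St2

/-!
# Vaught's conjecture and sparse graphs: invariance of `IsGr` and `HasSub` under isomorphism
-/

set_option autoImplicit false

namespace VSG

open FirstOrder Set Pool.Agent.Helper5.DU Pool.Agent.Helper6.Str Pool.Agent.Helper79.VC

/-- an injective homomorphism of graphs takes subdivisions to subdivisions -/
theorem RI_sub {V V' : Type} {G : SimpleGraph V} {G' : SimpleGraph V'} {f : V → V'}
    (hf : Function.Injective f) (h : ∀ x y, G.Adj x y → G'.Adj (f x) (f y)) {r n : ℕ}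
    (hs : HasSub G r n) : HasSub G' r n := by
  obtain ⟨b, P, hb, h1, h2, h3⟩ := hs
  refine ⟨fun i => f (b i), fun i j => (P i j).map f, hf.comp hb, fun i j hij => ?_,
    fun i j k hij hk => ?_, fun i j i' j' hij hij' hne => ?_⟩
  · have h4 : f (b i) :: ((P i j).map f ++ [f (b j)]) = (b i :: (P i j ++ [b j])).map f := by
      simp
    refine ⟨?_, ?_, ?_⟩
    · rw [List.length_map]
      exact (h1 i j hij).1
    · rw [h4]
      exact (h1 i j hij).2.1.map hf
    · rw [h4, List.isChain_map]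
      exact (h1 i j hij).2.2.imp fun x y hxy => h x y hxy
  · obtain ⟨x, hx, hx'⟩ := List.mem_map.1 hk
    exact h2 i j k hij (hf hx' ▸ hx)
  · intro x hx hx'
    obtain ⟨y, hy, rfl⟩ := List.mem_map.1 hx
    obtain ⟨z, hz, hz'⟩ := List.mem_map.1 hx'
    exact h3 i j i' j' hij hij' hne hy (hf hz' ▸ hz)

theorem RI_gaif {L : FirstOrder.Language.{0, 0}} {V V' : Type} {G : L.Structure V}
    {G' : L.Structure V'} {e : V ≃ V'} (he : RelIso G G' e) (x y : V)
    (h : (gaif G).Adj x y) : (gaif G').Adj (e x) (e y) := by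
  obtain ⟨hxy, n, R, v, h1, ⟨i, hi⟩, ⟨j, hj⟩⟩ := h
  exact ⟨fun h => hxy (e.injective h), n, R, e ∘ v, (he n R v).1 h1, ⟨i, by simp [hi]⟩,
    ⟨j, by simp [hj]⟩⟩

theorem RI_ap {V V' : Type} {G : LP.Structure V} {G' : LP.Structure V'} {e : V ≃ V'}
    (he : RelIso G G' e) (x y : V) : Ap G x y ↔ Ap G' (e x) (e y) := by
  have h1 := he 2 FirstOrder.Language.adj ![x, y]
  have h2 : e ∘ ![x, y] = ![e x, e y] := by
    funext k
    fin_cases k <;> rfl
  rw [h2] at h1
  exact h1

theorem thm_RI : St_RI := by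
  intro V V' G G' ⟨e, he⟩
  refine ⟨fun h => ⟨fun x hx => ?_, fun x y hxy => ?_⟩, fun r n hs => ?_⟩
  · have h1 := (RI_ap he.symm x x).1 hx
    exact h.1 _ h1
  · have h1 := (RI_ap he.symm x y).1 hxy
    exact (RI_ap he.symm y x).2 (h.2 _ _ h1)
  · exact RI_sub e.symm.injective (fun x y => RI_gaif he.symm x y) hs

end VSG
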