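import Pool.Agent.VSG.St2

/-!
# Vaught's conjecture and sparse graphs: removing the colours, transfer of perfect sets
-/

set_option autoImplicit false

namespace VSG

open FirstOrder Set Pool.Agent.Helper5.DU Pool.Agent.Helper6.Str Pool.Agent.Helper79.VC

section abstract

variable {V V' : Type}

/-- `u` has three different neighbours -/
def RP_Or (G : LP.Structure V) (u : V) : Prop :=
  ∃ a b c, a ≠ b ∧ a ≠ c ∧ b ≠ c ∧ Ap G u a ∧ Ap G u b ∧ Ap G u c

/-- `v` has the colour `c` -/
def RP_Col (G : LP.Structure V) (c : ℕ) (v : V) : Prop :=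
  ∃ w : ℕ → V, (∀ i j, i < 2 * c + 3 → j < 2 * c + 3 → w i = w j → i = j) ∧
    (∀ i, i < 2 * c + 3 → ¬ RP_Or G (w i)) ∧ Ap G v (w 0) ∧
    (∀ i, i + 1 < 2 * c + 3 → Ap G (w i) (w (i + 1))) ∧
    ∀ z, Ap G (w (2 * c + 2)) z → z = w (2 * c + 1)

theorem RP_ap {G : LP.Structure V} {G' : LP.Structure V'} {e : V ≃ V'} (h : RelIso G G' e)
    (x y : V) : Ap G x y ↔ Ap G' (e x) (e y) := by
  have h1 := h 2 FirstOrder.Language.adj ![x, y]
  have h2 : (e ∘ ![x, y]) = ![e x, e y] := by
    funext i
    match i with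
    | 0 => rfl
    | 1 => rfl
  rw [h2] at h1
  exact h1

theorem RP_or_iso {G : LP.Structure V} {G' : LP.Structure V'} {e : V ≃ V'} (h : RelIso G G' e)
    (x : V) : RP_Or G x ↔ RP_Or G' (e x) := by
  constructor
  · rintro ⟨a, b, c, h1, h2, h3, h4, h5, h6⟩
    exact ⟨e a, e b, e c, fun h' => h1 (e.injective h'), fun h' => h2 (e.injective h'),
      fun h' => h3 (e.injective h'), (RP_ap h _ _).1 h4, (RP_ap h _ _).1 h5, (RP_ap h _ _).1 h6⟩
  · rintro ⟨a, b, c, h1, h2, h3, h4, h5, h6⟩
    refine ⟨e.symm a, e.symm b, e.symm c, fun h' => h1 (e.symm.injective h'),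
      fun h' => h2 (e.symm.injective h'), fun h' => h3 (e.symm.injective h'), ?_, ?_, ?_⟩
    · rw [RP_ap h, e.apply_symm_apply]
      exact h4
    · rw [RP_ap h, e.apply_symm_apply]
      exact h5
    · rw [RP_ap h, e.apply_symm_apply]
      exact h6

theorem RP_col_iso {G : LP.Structure V} {G' : LP.Structure V'} {e : V ≃ V'} (h : RelIso G G' e)
    (c : ℕ) (x : V) : RP_Col G c x → RP_Col G' c (e x) := by
  rintro ⟨w, h1, h2, h3, h4, h5⟩
  refine ⟨fun i => e (w i), fun i j hi hj hij => h1 i j hi hj (e.injective hij), ?_, ?_, ?_, ?_⟩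
  · intro i hi hor
    exact h2 i hi ((RP_or_iso h _).2 hor)
  · exact (RP_ap h _ _).1 h3
  · intro i hi
    exact (RP_ap h _ _).1 (h4 i hi)
  · intro z hz
    have h6 : Ap G (w (2 * c + 2)) (e.symm z) := by
      rw [RP_ap h, e.apply_symm_apply]
      exact hz
    show z = e (w (2 * c + 1))
    rw [← h5 _ h6, e.apply_symm_apply]

end abstract

section pur

variable {V : Type} {W : LG.Structure V}

theorem RP_plen (v : V) (c : ℕ) : 2 * c + 3 ≤ plen W v c := by
  unfold plen
  split_ifs <;> omega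

theorem RP_or_inl (v : V) : RP_Or (pur W) (Sum.inl v) := by
  have h : ∀ c, 0 < plen W v c := fun c => by
    have := RP_plen (W := W) v c
    omega
  refine ⟨Sum.inr ⟨((v, 0), 0), h 0⟩, Sum.inr ⟨((v, 1), 0), h 1⟩, Sum.inr ⟨((v, 2), 0), h 2⟩,
    ?_, ?_, ?_, ⟨rfl, rfl⟩, ⟨rfl, rfl⟩, ⟨rfl, rfl⟩⟩
  · intro h'
    have h1 := congrArg (fun q : PV W => q.1.1.2) (Sum.inr.inj h')
    simp at h1
  · intro h'
    have h1 := congrArg (fun q : PV W => q.1.1.2) (Sum.inr.inj h')
    simp at h1
  · intro h'
    have h1 := congrArg (fun q : PV W => q.1.1.2) (Sum.inr.inj h')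
    simp at h1

/-- the height of a vertex -/
def RP_ht : V ⊕ PV W → ℕ
  | .inl _ => 0
  | .inr q => q.1.2 + 1

theorem RP_nb {q : PV W} {z : V ⊕ PV W} (h : PG (Sum.inr q) z) :
    RP_ht z = q.1.2 ∨ RP_ht z = q.1.2 + 2 := by
  match z, h with
  | .inl u, h => exact Or.inl h.1.symm
  | .inr q', h =>
    rcases h.2 with h | h
    · right
      show q'.1.2 + 1 = _
      omega
    · left
      show q'.1.2 + 1 = _
      omega

theorem RP_nb_inj {q : PV W} {z z' : V ⊕ PV W} (h : PG (Sum.inr q) z) (h' : PG (Sum.inr q) z')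
    (hz : RP_ht z = RP_ht z') : z = z' := by
  match z, z', h, h' with
  | .inl u, .inl u', h, h' => rw [← h.2, ← h'.2]
  | .inl u, .inr q', h, h' =>
    have : 0 = q'.1.2 + 1 := hz
    omega
  | .inr q', .inl u, h, h' =>
    have : q'.1.2 + 1 = 0 := hz
    omega
  | .inr q₁, .inr q₂, h, h' =>
    have h1 : q₁.1.2 + 1 = q₂.1.2 + 1 := hz
    congr 1
    apply Subtype.ext
    apply Prod.ext
    · rw [← h.1, ← h'.1]
    · omega

theorem RP_or_inr (q : PV W) : ¬ RP_Or (pur W) (Sum.inr q) := by
  rintro ⟨a, b, c, h1, h2, h3, h4, h5, h6⟩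
  have k4 : PG (Sum.inr q) a := h4
  have k5 : PG (Sum.inr q) b := h5
  have k6 : PG (Sum.inr q) c := h6
  rcases RP_nb k4 with e1 | e1 <;> rcases RP_nb k5 with e2 | e2 <;> rcases RP_nb k6 with e3 | e3
  · exact h1 (RP_nb_inj k4 k5 (e1.trans e2.symm))
  · exact h1 (RP_nb_inj k4 k5 (e1.trans e2.symm))
  · exact h2 (RP_nb_inj k4 k6 (e1.trans e3.symm))
  · exact h3 (RP_nb_inj k5 k6 (e2.trans e3.symm))
  · exact h3 (RP_nb_inj k5 k6 (e2.trans e3.symm))
  · exact h2 (RP_nb_inj k4 k6 (e1.trans e3.symm))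
  · exact h1 (RP_nb_inj k4 k5 (e1.trans e2.symm))
  · exact h1 (RP_nb_inj k4 k5 (e1.trans e2.symm))

theorem RP_or_iff (z : V ⊕ PV W) : RP_Or (pur W) z ↔ ∃ v, z = Sum.inl v := by
  match z with
  | .inl v => exact ⟨fun _ => ⟨v, rfl⟩, fun _ => RP_or_inl v⟩
  | .inr q =>
    constructor
    · intro h
      exact absurd h (RP_or_inr q)
    · rintro ⟨v, hv⟩
      cases hv

theorem RP_col_iff (c : ℕ) (v : V) : RP_Col (pur W) c (Sum.inl v) ↔ Co W c v := by
  classical
  constructor
  · rintro ⟨w, h1, h2, h3, h4, h5⟩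
    have hr : ∀ i, i < 2 * c + 3 → ∃ q : PV W, w i = Sum.inr q := by
      intro i hi
      have := h2 i hi
      match hw : w i with
      | .inl u =>
        rw [hw] at this
        exact absurd (RP_or_inl u) this
      | .inr q => exact ⟨q, rfl⟩
    obtain ⟨q₀, hq₀⟩ := hr 0 (by omega)
    rw [hq₀] at h3
    have h3' : q₀.1.2 = 0 ∧ q₀.1.1.1 = v := h3
    have key : ∀ i, i < 2 * c + 3 → ∃ q : PV W, w i = Sum.inr q ∧ q.1.1 = q₀.1.1 ∧ q.1.2 = i := by
      intro i
      induction i using Nat.strong_induction_on with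
      | _ i ih =>
        intro hi
        match i, ih, hi with
        | 0, _, _ => exact ⟨q₀, hq₀, rfl, h3'.1⟩
        | i + 1, ih, hi =>
          obtain ⟨q, hq1, hq2, hq3⟩ := ih i (by omega) (by omega)
          obtain ⟨q', hq'⟩ := hr (i + 1) hi
          have h6 := h4 i hi
          rw [hq1, hq'] at h6
          have h7 : q.1.1 = q'.1.1 ∧ (q.1.2 + 1 = q'.1.2 ∨ q'.1.2 + 1 = q.1.2) := h6
          refine ⟨q', hq', by rw [← h7.1, hq2], ?_⟩
          rcases h7.2 with h8 | h8
          · omega
          · obtain ⟨q'', hq1'', hq2'', hq3''⟩ := ih (i - 1) (by omega) (by omega)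
            have h9 : q'' = q' := by
              apply Subtype.ext
              apply Prod.ext
              · rw [hq2'', ← h7.1, hq2]
              · omega
            have h10 : w (i - 1) = w (i + 1) := by rw [hq1'', hq', h9]
            have := h1 _ _ (by omega) hi h10
            omega
    obtain ⟨q, hq1, hq2, hq3⟩ := key (2 * c + 2) (by omega)
    obtain ⟨q', hq1', hq2', hq3'⟩ := key (2 * c + 1) (by omega)
    have hlt := q.2
    have hle : plen W q.1.1.1 q.1.1.2 ≤ 2 * c + 3 := by
      by_contra hcon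
      push Not at hcon
      have h6 := h5 (Sum.inr ⟨(q.1.1, 2 * c + 3), hcon⟩) (by
        rw [hq1]
        refine ⟨rfl, Or.inl ?_⟩
        rw [hq3])
      rw [hq1'] at h6
      have h7 := congrArg (fun q : PV W => q.1.2) (Sum.inr.inj h6)
      simp only [hq3'] at h7
      omega
    rw [hq3] at hlt
    have hv : q.1.1.1 = v := by rw [hq2, h3'.2]
    rw [hv] at hlt hle
    unfold plen at hlt hle
    split_ifs at hlt hle with hco
    · have : q.1.1.2 = c := by omega
      rwa [this] at hco
    · omega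
  · intro hco
    have hp : plen W v c = 2 * c + 3 := if_pos hco
    let w : ℕ → V ⊕ PV W := fun i => if h : i < 2 * c + 3 then Sum.inr ⟨((v, c), i), by rwa [hp]⟩
      else Sum.inl v
    have hw : ∀ i (h : i < 2 * c + 3), w i = Sum.inr ⟨((v, c), i), by rwa [hp]⟩ := fun i h =>
      dif_pos h
    refine ⟨w, ?_, ?_, ?_, ?_, ?_⟩
    · intro i j hi hj hij
      rw [hw i hi, hw j hj] at hij
      exact congrArg (fun q : PV W => q.1.2) (Sum.inr.inj hij)
    · intro i hi
      rw [hw i hi]
      exact RP_or_inr _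
    · rw [hw 0 (by omega)]
      exact ⟨rfl, rfl⟩
    · intro i hi
      rw [hw i (by omega), hw (i + 1) hi]
      exact ⟨rfl, Or.inl rfl⟩
    · intro z hz
      rw [hw _ (by omega)] at hz
      have hz' : PG (Sum.inr (⟨((v, c), 2 * c + 2), by rw [hp]; omega⟩ : PV W)) z := hz
      have h1 : PG (Sum.inr (⟨((v, c), 2 * c + 2), by rw [hp]; omega⟩ : PV W))
          (w (2 * c + 1)) := by
        rw [hw _ (by omega)]
        exact ⟨rfl, Or.inr rfl⟩
      refine RP_nb_inj hz' h1 ?_
      rcases RP_nb hz' with h2 | h2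
      · rw [h2, hw _ (by omega)]
        rfl
      · exfalso
        match z, hz', h2 with
        | .inl u, _, h2 =>
          have : (0 : ℕ) = 2 * c + 2 + 2 := h2
          omega
        | .inr q, hz', h2 =>
          have h3 : q.1.2 + 1 = 2 * c + 2 + 2 := h2
          have h4 := q.2
          have h5 : ((v, c) : V × ℕ) = q.1.1 := hz'.1
          rw [← h5, hp] at h4
          omega

end pur

section main

variable {f : (ℕ → Bool) → LP.Structure ℕ}

/-- the coloured graph of a graph -/
@[instance_reducible]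
noncomputable def RP_dec (G : LP.Structure ℕ) : LG.Structure ℕ :=
  mkG (fun c a => RP_Col G c (Nat.nth (RP_Or G) a))
    (fun a b => Ap G (Nat.nth (RP_Or G) a) (Nat.nth (RP_Or G) b))

theorem RP_inf {W : LG.Structure ℕ} {G : LP.Structure ℕ} (h : Iso (pur W) G) :
    {u | RP_Or G u}.Infinite ∧ Iso (RP_dec G) W := by
  obtain ⟨e, he⟩ := h
  have hor : ∀ u, RP_Or G u ↔ ∃ v, e (Sum.inl v) = u := by
    intro u
    obtain ⟨z, rfl⟩ := e.surjective u
    rw [← RP_or_iso he, RP_or_iff]
    constructor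
    · rintro ⟨v, rfl⟩
      exact ⟨v, rfl⟩
    · rintro ⟨v, hv⟩
      exact ⟨v, (e.injective hv).symm⟩
  have hinf : {u | RP_Or G u}.Infinite := by
    have h1 : (Set.range fun v : ℕ => e (Sum.inl v)).Infinite :=
      Set.infinite_range_of_injective fun v v' h => Sum.inl_injective (e.injective h)
    refine h1.mono ?_
    rintro _ ⟨v, rfl⟩
    exact (hor _).2 ⟨v, rfl⟩
  refine ⟨hinf, ?_⟩
  have h1 : ∀ a, ∃ v, e (Sum.inl v) = Nat.nth (RP_Or G) a := fun a =>
    (hor _).1 (Nat.nth_mem_of_infinite hinf a)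
  choose t ht using h1
  have hbij : Function.Bijective t := by
    constructor
    · intro a b hab
      have h2 := ht a
      rw [hab, ht b] at h2
      exact (Nat.nth_injective hinf h2).symm
    · intro v
      classical
      refine ⟨Nat.count (RP_Or G) (e (Sum.inl v)), ?_⟩
      have h2 := ht (Nat.count (RP_Or G) (e (Sum.inl v)))
      rw [Nat.nth_count ((hor _).2 ⟨v, rfl⟩)] at h2
      exact Sum.inl_injective (e.injective h2)
  refine ⟨Equiv.ofBijective t hbij, ?_⟩
  intro n R v
  cases R with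
  | col c =>
    have h2 : (Equiv.ofBijective t hbij) ∘ v = ![t (v 0)] := by
      funext i
      match i with
      | 0 => rfl
    rw [h2]
    show RP_Col G c (Nat.nth (RP_Or G) (v 0)) ↔ Co W c (t (v 0))
    rw [← RP_col_iff, ← ht]
    constructor
    · intro h3
      have h4 := RP_col_iso he.symm c _ h3
      rwa [e.symm_apply_apply] at h4
    · exact RP_col_iso he c _
  | adj =>
    have h2 : (Equiv.ofBijective t hbij) ∘ v = ![t (v 0), t (v 1)] := by
      funext i
      match i with
      | 0 => rfl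
      | 1 => rfl
    rw [h2]
    show Ap G (Nat.nth (RP_Or G) (v 0)) (Nat.nth (RP_Or G) (v 1)) ↔ Ad W (t (v 0)) (t (v 1))
    rw [← ht, ← ht, ← RP_ap he]
    exact Iff.rfl

theorem RP_meas_ap (hcl : ∀ (n : ℕ) (R : LP.Relations n) (a : Fin n → ℕ),
    IsClopen {x | (f x).RelMap R a}) (u v : ℕ) : MeasurableSet {x | Ap (f x) u v} :=
  (hcl 2 FirstOrder.Language.adj ![u, v]).isOpen.measurableSet

theorem RP_meas_or (hcl : ∀ (n : ℕ) (R : LP.Relations n) (a : Fin n → ℕ),
    IsClopen {x | (f x).RelMap R a}) (u : ℕ) : MeasurableSet {x | RP_Or (f x) u} := by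
  have h := RP_meas_ap hcl
  unfold RP_Or
  simp only [ofPred_exists, ofPred_and]
  refine MeasurableSet.iUnion fun a => MeasurableSet.iUnion fun b => MeasurableSet.iUnion fun c =>
    (MeasurableSet.const _).inter ((MeasurableSet.const _).inter ((MeasurableSet.const _).inter
      ((h _ _).inter ((h _ _).inter (h _ _)))))

theorem RP_meas_col (hcl : ∀ (n : ℕ) (R : LP.Relations n) (a : Fin n → ℕ),
    IsClopen {x | (f x).RelMap R a}) (c u : ℕ) : MeasurableSet {x | RP_Col (f x) c u} := by
  have h := RP_meas_ap hcl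
  have h' := RP_meas_or hcl
  have h1 : {x | RP_Col (f x) c u} = ⋃ w : Fin (2 * c + 3) → ℕ, {x |
      (∀ i j : Fin (2 * c + 3), w i = w j → i = j) ∧ (∀ i, ¬ RP_Or (f x) (w i)) ∧
      Ap (f x) u (w 0) ∧ (∀ i j : Fin (2 * c + 3), i.1 + 1 = j.1 → Ap (f x) (w i) (w j)) ∧
      ∀ z, Ap (f x) (w ⟨2 * c + 2, by omega⟩) z → z = w ⟨2 * c + 1, by omega⟩} := by
    ext x
    simp only [mem_iUnion, mem_ofPred_eq]
    constructor
    · rintro ⟨w, h1, h2, h3, h4, h5⟩
      refine ⟨fun i => w i, ?_, fun i => h2 i i.2, h3, ?_, h5⟩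
      · intro i j hij
        exact Fin.ext (h1 i j i.2 j.2 hij)
      · intro i j hij
        simp only
        rw [← hij]
        exact h4 i (by rw [hij]; exact j.2)
    · rintro ⟨w, h1, h2, h3, h4, h5⟩
      let w' : ℕ → ℕ := fun i => if h : i < 2 * c + 3 then w ⟨i, h⟩ else 0
      have hw' : ∀ i (h : i < 2 * c + 3), w' i = w ⟨i, h⟩ := fun i h => dif_pos h
      refine ⟨w', ?_, ?_, ?_, ?_, ?_⟩
      · intro i j hi hj hij
        rw [hw' i hi, hw' j hj] at hij
        exact congrArg Fin.val (h1 _ _ hij)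
      · intro i hi
        rw [hw' i hi]
        exact h2 _
      · rw [hw' 0 (by omega)]
        exact h3
      · intro i hi
        rw [hw' i (by omega), hw' (i + 1) hi]
        exact h4 _ _ rfl
      · intro z hz
        rw [hw' _ (by omega)] at hz ⊢
        exact h5 z hz
  rw [h1]
  refine MeasurableSet.iUnion fun w => ?_
  simp only [ofPred_and, ofPred_forall]
  refine (MeasurableSet.iInter fun i => MeasurableSet.iInter fun j => MeasurableSet.iInter fun _ =>
    MeasurableSet.const _).inter ((MeasurableSet.iInter fun i => (h' _).compl).inter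
    ((h _ _).inter ((MeasurableSet.iInter fun i => MeasurableSet.iInter fun j =>
      MeasurableSet.iInter fun _ => h _ _).inter (MeasurableSet.iInter fun z => ?_))))
  by_cases hz : z = w ⟨2 * c + 1, by omega⟩
  · simp only [hz, implies_true]
    exact MeasurableSet.univ
  · simp only [hz, imp_false]
    exact (h _ _).compl

open Classical in
theorem RP_meas_count (hcl : ∀ (n : ℕ) (R : LP.Relations n) (a : Fin n → ℕ),
    IsClopen {x | (f x).RelMap R a}) (u : ℕ) :
    ∀ a : ℕ, MeasurableSet {x | Nat.count (RP_Or (f x)) u = a} := by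
  induction u with
  | zero =>
    intro a
    simp only [Nat.count_zero]
    exact MeasurableSet.const _
  | succ u ih =>
    intro a
    have h0 := RP_meas_or hcl u
    have h1 : {x | Nat.count (RP_Or (f x)) (u + 1) = a} =
        ({x | RP_Or (f x) u} ∩ ⋃ b : ℕ, {x | Nat.count (RP_Or (f x)) u = b} ∩
          {_x : ℕ → Bool | b + 1 = a}) ∪
        ({x | RP_Or (f x) u}ᶜ ∩ {x | Nat.count (RP_Or (f x)) u = a}) := by
      ext x
      simp only [mem_ofPred_eq, mem_union, mem_inter_iff, mem_compl_iff, mem_iUnion]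
      rw [Nat.count_succ]
      by_cases hx : RP_Or (f x) u
      · simp only [hx, if_true, true_and, not_true_eq_false, false_and, or_false]
        constructor
        · intro h
          exact ⟨_, rfl, h⟩
        · rintro ⟨b, hb, hb'⟩
          rw [hb]
          exact hb'
      · simp only [hx, if_false, false_and, not_false_eq_true, true_and, false_or, add_zero]
    rw [h1]
    exact (h0.inter (MeasurableSet.iUnion fun b => (ih b).inter (MeasurableSet.const _))).union
      (h0.compl.inter (ih a))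

theorem RP_meas_nth (hcl : ∀ (n : ℕ) (R : LP.Relations n) (a : Fin n → ℕ),
    IsClopen {x | (f x).RelMap R a}) (hinf : ∀ x, {u | RP_Or (f x) u}.Infinite) (a u : ℕ) :
    MeasurableSet {x | Nat.nth (RP_Or (f x)) a = u} := by
  classical
  have h1 : {x | Nat.nth (RP_Or (f x)) a = u} =
      {x | RP_Or (f x) u} ∩ {x | Nat.count (RP_Or (f x)) u = a} := by
    ext x
    simp only [mem_ofPred_eq, mem_inter_iff]
    constructor
    · rintro rfl
      exact ⟨Nat.nth_mem_of_infinite (hinf x) a, Nat.count_nth_of_infinite (hinf x) a⟩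
    · rintro ⟨h1, h2⟩
      rw [← h2]
      exact Nat.nth_count h1
  rw [h1]
  exact (RP_meas_or hcl u).inter (RP_meas_count hcl u a)

instance RP_ctbl (n : ℕ) : Countable (LG.Relations n) := by
  let g : RG n → ℕ := fun R => match R with
    | RG.col i => i + 1
    | RG.adj => 0
  have hg : Function.Injective g := by
    intro R R' h
    cases R with
    | col i =>
      cases R' with
      | col j =>
        have : i + 1 = j + 1 := h
        have : i = j := by omega
        rw [this]
    | adj =>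
      cases R' with
      | adj => rfl
  exact hg.countable

theorem thm_RP (hb : St_BC) (hu : St_RU) (_hd : St_RD) : St_RP := by
  classical
  rintro K hK ⟨f, hfK, hfI, hcl⟩
  choose W hWK hWI using hfK
  have hdec := fun x => RP_inf (hWI x)
  refine hb LG inferInstance inferInstance K (fun x => RP_dec (f x)) ?_ ?_ ?_
  · intro x
    exact hK _ _ (hdec x).2.symm (hWK x)
  · intro x y hxy
    apply hfI
    have h1 : Iso (W x) (W y) := ((hdec x).2.symm.trans hxy).trans (hdec y).2
    exact ((hWI x).symm.trans (hu _ _ _ _ h1)).trans (hWI y)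
  · intro n R a
    have hn := RP_meas_nth hcl (fun x => (hdec x).1)
    cases R with
    | col c =>
      have h1 : {x | (RP_dec (f x)).RelMap (RG.col c : LG.Relations 1) a} =
          ⋃ u : ℕ, {x | Nat.nth (RP_Or (f x)) (a 0) = u} ∩ {x | RP_Col (f x) c u} := by
        ext x
        simp only [mem_iUnion, mem_inter_iff, mem_ofPred_eq]
        constructor
        · intro h
          exact ⟨_, rfl, h⟩
        · rintro ⟨u, rfl, h⟩
          exact h
      rw [h1]
      exact MeasurableSet.iUnion fun u => (hn _ _).inter (RP_meas_col hcl c u)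
    | adj =>
      have h1 : {x | (RP_dec (f x)).RelMap (RG.adj : LG.Relations 2) a} =
          ⋃ u : ℕ, ⋃ v : ℕ, {x | Nat.nth (RP_Or (f x)) (a 0) = u} ∩
            ({x | Nat.nth (RP_Or (f x)) (a 1) = v} ∩ {x | Ap (f x) u v}) := by
        ext x
        simp only [mem_iUnion, mem_inter_iff, mem_ofPred_eq]
        constructor
        · intro h
          exact ⟨_, _, rfl, rfl, h⟩
        · rintro ⟨u, v, rfl, rfl, h⟩
          exact h
      rw [h1]
      exact MeasurableSet.iUnion fun u => MeasurableSet.iUnion fun v =>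
        (hn _ _).inter ((hn _ _).inter (RP_meas_ap hcl u v))

end main

end VSG
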