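import Pool.Agent.VSG.RD

/-!
# Vaught's conjecture and sparse graphs: pendant paths are in no subdivision of a complete graph
-/

set_option autoImplicit false

namespace VSG

open FirstOrder Set Pool.Agent.Helper5.DU Pool.Agent.Helper6.Str Pool.Agent.Helper79.VC

section
variable {V : Type} {W : LG.Structure V}

private theorem RS_symm (hW : IsGraph W) {x y : V ⊕ PV W} (h : PG x y) : PG y x := by
  rcases x with u | q <;> rcases y with v | q'
  · exact hW.2 u v h
  · exact h
  · exact h
  · exact ⟨h.1.symm, h.2.symm⟩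

private theorem RS_irr (hW : IsGraph W) (x : V ⊕ PV W) : ¬ PG x x := by
  rcases x with u | q
  · exact hW.1 u
  · intro h
    have := h.2
    omega

private theorem RS_adj (hW : IsGraph W) (x y : V ⊕ PV W) :
    (gaif (pur W)).Adj x y → PG x y := by
  rintro ⟨hne, n, R, w, hR, ⟨i, hi⟩, ⟨j, hj⟩⟩
  cases R with
  | adj =>
    have hR' : PG (w 0) (w 1) := hR
    have hij : i ≠ j := by
      rintro rfl
      exact hne (hi.symm.trans hj)
    rw [← hi, ← hj]
    fin_cases i <;> fin_cases j
    · exact absurd rfl hij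
    · exact hR'
    · exact RS_symm hW hR'
    · exact absurd rfl hij

end

section
variable {W : Type} {G : SimpleGraph W}

private theorem RS_head {a c : W} {P : List W} (h : List.IsChain G.Adj (a :: (P ++ [c]))) :
    ∃ u, (u ∈ P ∨ u = c) ∧ G.Adj a u := by
  cases P with
  | nil =>
    refine ⟨c, Or.inr rfl, ?_⟩
    simpa using h
  | cons p P =>
    refine ⟨p, Or.inl (List.mem_cons_self), ?_⟩
    rw [List.cons_append, List.isChain_cons_cons] at h
    exact h.1

private theorem RS_last {a c : W} {P : List W} (h : List.IsChain G.Adj (a :: (P ++ [c]))) :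
    ∃ u, (u ∈ P ∨ u = a) ∧ G.Adj c u := by
  induction P generalizing a with
  | nil =>
    refine ⟨a, Or.inr rfl, ?_⟩
    have : G.Adj a c := by simpa using h
    exact this.symm
  | cons p P ih =>
    rw [List.cons_append, List.isChain_cons_cons] at h
    obtain ⟨u, hu, hu'⟩ := ih h.2
    refine ⟨u, ?_, hu'⟩
    rcases hu with hu | rfl
    · exact Or.inl (List.mem_cons_of_mem _ hu)
    · exact Or.inl (List.mem_cons_self)

private theorem RS_mid {a c : W} {P : List W} (h : List.IsChain G.Adj (a :: (P ++ [c])))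
    (hn : (a :: (P ++ [c])).Nodup) {z : W} (hz : z ∈ P) :
    ∃ u v, (u ∈ a :: (P ++ [c])) ∧ (v ∈ a :: (P ++ [c])) ∧ u ≠ v ∧ G.Adj z u ∧ G.Adj z v := by
  induction P generalizing a with
  | nil => simp at hz
  | cons p P ih =>
    rw [List.cons_append] at h hn
    have h' := h
    rw [List.isChain_cons_cons] at h'
    rcases List.mem_cons.1 hz with rfl | hz
    · obtain ⟨v, hv, hv'⟩ := RS_head h'.2
      refine ⟨a, v, List.mem_cons_self, ?_, ?_, h'.1.symm, hv'⟩
      · rw [List.cons_append]
        refine List.mem_cons_of_mem _ (List.mem_cons_of_mem _ ?_)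
        rw [List.mem_append, List.mem_singleton]
        exact hv
      · rintro rfl
        have h3 := (List.nodup_cons.1 hn).1
        apply h3
        refine List.mem_cons_of_mem _ ?_
        rw [List.mem_append, List.mem_singleton]
        exact hv
    · obtain ⟨u, v, hu, hv, h3⟩ := ih h'.2 (List.nodup_cons.1 hn).2 hz
      exact ⟨u, v, List.mem_cons_of_mem _ (by rwa [List.cons_append]),
        List.mem_cons_of_mem _ (by rwa [List.cons_append]), h3⟩

/-- every vertex of a subdivision of `K_n`, `3 ≤ n`, has two different neighbours in it -/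
private theorem RS_two {n : ℕ} (hn : 3 ≤ n) (b : Fin n → W) (P : Fin n → Fin n → List W)
    (hb : Function.Injective b)
    (h1 : ∀ i j, i < j → (b i :: (P i j ++ [b j])).Nodup ∧
      List.IsChain G.Adj (b i :: (P i j ++ [b j])))
    (h2 : ∀ i j k, i < j → b k ∉ P i j)
    (h3 : ∀ i j i' j', i < j → i' < j' → (i, j) ≠ (i', j') → List.Disjoint (P i j) (P i' j'))
    (z : W) (hz : (∃ k, z = b k) ∨ ∃ i j, i < j ∧ z ∈ P i j) :
    ∃ u v, ((∃ k, u = b k) ∨ ∃ i j, i < j ∧ u ∈ P i j) ∧
      ((∃ k, v = b k) ∨ ∃ i j, i < j ∧ v ∈ P i j) ∧ u ≠ v ∧ G.Adj z u ∧ G.Adj z v := by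
  rcases hz with ⟨k, rfl⟩ | ⟨i, j, hij, hz⟩
  · -- a neighbour of `b k` on the way to `b l`
    have key : ∀ l : Fin n, l ≠ k → ∃ u, (u ∈ P (min k l) (max k l) ∨ u = b l) ∧ G.Adj (b k) u := by
      intro l hl
      rcases lt_or_gt_of_ne hl with hlt | hlt
      · rw [min_eq_right hlt.le, max_eq_left hlt.le]
        exact RS_last (h1 l k hlt).2
      · rw [min_eq_left (le_of_lt hlt), max_eq_right (le_of_lt hlt)]
        exact RS_head (h1 k l hlt).2
    have hlt : ∀ l : Fin n, l ≠ k → min k l < max k l := fun l hl => min_lt_max.2 (Ne.symm hl)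
    -- two other indices
    obtain ⟨l, m, hl, hm, hlm⟩ : ∃ l m : Fin n, l ≠ k ∧ m ≠ k ∧ l ≠ m := by
      rcases Nat.lt_or_ge k.1 1 with hk | hk
      · exact ⟨⟨1, by omega⟩, ⟨2, by omega⟩, fun h => by have := congrArg Fin.val h; simp at this; omega,
          fun h => by have := congrArg Fin.val h; simp at this; omega,
          fun h => by have := congrArg Fin.val h; simp at this⟩
      · rcases Nat.lt_or_ge k.1 2 with hk2 | hk2
        · exact ⟨⟨0, by omega⟩, ⟨2, by omega⟩,
            fun h => by have := congrArg Fin.val h; simp at this; omega,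
            fun h => by have := congrArg Fin.val h; simp at this; omega,
            fun h => by have := congrArg Fin.val h; simp at this⟩
        · exact ⟨⟨0, by omega⟩, ⟨1, by omega⟩,
            fun h => by have := congrArg Fin.val h; simp at this; omega,
            fun h => by have := congrArg Fin.val h; simp at this; omega,
            fun h => by have := congrArg Fin.val h; simp at this⟩
    obtain ⟨u, hu, hu'⟩ := key l hl
    obtain ⟨v, hv, hv'⟩ := key m hm
    have hne : (min k l, max k l) ≠ (min k m, max k m) := by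
      intro h
      obtain ⟨h4, h5⟩ := Prod.mk.inj h
      rcases le_total k l with h6 | h6 <;> rcases le_total k m with h7 | h7
      · rw [max_eq_right h6, max_eq_right h7] at h5
        exact hlm h5
      · rw [min_eq_left h6, min_eq_right h7] at h4
        exact hm h4.symm
      · rw [min_eq_right h6, min_eq_left h7] at h4
        exact hl h4
      · rw [min_eq_right h6, min_eq_right h7] at h4
        exact hlm h4
    refine ⟨u, v, ?_, ?_, ?_, hu', hv'⟩
    · rcases hu with hu | hu
      · exact Or.inr ⟨_, _, hlt l hl, hu⟩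
      · exact Or.inl ⟨_, hu⟩
    · rcases hv with hv | hv
      · exact Or.inr ⟨_, _, hlt m hm, hv⟩
      · exact Or.inl ⟨_, hv⟩
    · rintro rfl
      rcases hu with hu | hu
      · rcases hv with hv | hv
        · exact h3 _ _ _ _ (hlt l hl) (hlt m hm) hne hu hv
        · rw [hv] at hu
          exact h2 _ _ _ (hlt l hl) hu
      · rcases hv with hv | hv
        · rw [hu] at hv
          exact h2 _ _ _ (hlt m hm) hv
        · exact hlm (hb (hu.symm.trans hv))
  · obtain ⟨u, v, hu, hv, h4⟩ := RS_mid (h1 i j hij).2 (h1 i j hij).1 hz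
    have mem : ∀ w ∈ b i :: (P i j ++ [b j]),
        (∃ k, w = b k) ∨ ∃ i j, i < j ∧ w ∈ P i j := by
      intro w hw
      rw [List.mem_cons, List.mem_append, List.mem_singleton] at hw
      rcases hw with hw | hw | hw
      · exact Or.inl ⟨_, hw⟩
      · exact Or.inr ⟨i, j, hij, hw⟩
      · exact Or.inl ⟨_, hw⟩
    exact ⟨u, v, mem u hu, mem v hv, h4⟩

end

private theorem RS_lift {V X : Type} (l : List (V ⊕ X)) (h : ∀ z ∈ l, ∃ v : V, z = Sum.inl v) :
    (l.filterMap Sum.getLeft?).map Sum.inl = l := by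
  induction l with
  | nil => rfl
  | cons a l ih =>
    obtain ⟨v, rfl⟩ := h a (List.mem_cons_self)
    have h1 : List.filterMap Sum.getLeft? ((Sum.inl v : V ⊕ X) :: l) =
        v :: List.filterMap Sum.getLeft? l := rfl
    rw [h1, List.map_cons, ih fun z hz => h z (List.mem_cons_of_mem _ hz)]

theorem thm_RS : St_RS := by
  intro V W hW
  refine ⟨⟨fun x h => RS_irr hW x h, fun x y h => RS_symm hW h⟩, ?_⟩
  rintro r n hn ⟨b, P, hb, h1, h2, h3⟩
  have two := RS_two (G := gaif (pur W)) hn b P hb (fun i j hij => (h1 i j hij).2) h2 h3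
  -- no vertex of a pendant path
  have key : ∀ (m : ℕ) (q : PV W),
      ((∃ k, (Sum.inr q : V ⊕ PV W) = b k) ∨ ∃ i j, i < j ∧ (Sum.inr q : V ⊕ PV W) ∈ P i j) →
      ∃ q' : PV W, q'.1.1 = q.1.1 ∧ q'.1.2 = q.1.2 + m ∧
      ((∃ k, (Sum.inr q' : V ⊕ PV W) = b k) ∨ ∃ i j, i < j ∧ (Sum.inr q' : V ⊕ PV W) ∈ P i j) := by
    intro m q hq
    induction m with
    | zero => exact ⟨q, rfl, rfl, hq⟩
    | succ m ih =>
      obtain ⟨q', h4, h5, h6⟩ := ih
      obtain ⟨u, v, hu, hv, huv, hau, hav⟩ := two _ h6
      have pu := RS_adj hW _ _ hau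
      have pv := RS_adj hW _ _ hav
      have fin : ∀ y : V ⊕ PV W, PG (Sum.inr q') y → RD_key y = q'.1.2 + 2 →
          ((∃ k, y = b k) ∨ ∃ i j, i < j ∧ y ∈ P i j) →
          ∃ q'' : PV W, q''.1.1 = q.1.1 ∧ q''.1.2 = q.1.2 + (m + 1) ∧
          ((∃ k, (Sum.inr q'' : V ⊕ PV W) = b k) ∨
            ∃ i j, i < j ∧ (Sum.inr q'' : V ⊕ PV W) ∈ P i j) := by
        intro y hy hk hm
        cases y with
        | inl v =>
          have : (0 : ℕ) = q'.1.2 + 2 := hk
          omega
        | inr q'' =>
          have h7 : q''.1.2 + 1 = q'.1.2 + 2 := hk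
          exact ⟨q'', hy.1.symm.trans h4, by omega, hm⟩
      rcases RD_nb q' u pu with ku | ku
      · rcases RD_nb q' v pv with kv | kv
        · exact absurd (RD_inj q' u v pu pv (ku.trans kv.symm)) huv
        · exact fin v pv kv hv
      · exact fin u pu ku hu
  have inl : ∀ z : V ⊕ PV W, ((∃ k, z = b k) ∨ ∃ i j, i < j ∧ z ∈ P i j) →
      ∃ v : V, z = Sum.inl v := by
    intro z hz
    cases z with
    | inl v => exact ⟨v, rfl⟩
    | inr q =>
      obtain ⟨q', h4, h5, -⟩ := key (plen W q.1.1.1 q.1.1.2) q hz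
      have h6 := q'.2
      rw [h4, h5] at h6
      omega
  choose b' hb' using fun k => inl (b k) (Or.inl ⟨k, rfl⟩)
  have hP : ∀ i j, i < j → ((P i j).filterMap Sum.getLeft?).map Sum.inl = P i j :=
    fun i j hij => RS_lift _ fun z hz => inl z (Or.inr ⟨i, j, hij, hz⟩)
  have hcat : ∀ i j, i < j → (b' i :: ((P i j).filterMap Sum.getLeft? ++ [b' j])).map Sum.inl =
      b i :: (P i j ++ [b j]) := by
    intro i j hij
    rw [List.map_cons, List.map_append, hP i j hij, List.map_cons, List.map_nil, ← hb', ← hb']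
  refine ⟨b', fun i j => (P i j).filterMap Sum.getLeft?, ?_, ?_, ?_, ?_⟩
  · intro i j h
    apply hb
    rw [hb' i, hb' j, h]
  · intro i j hij
    obtain ⟨h4, h5, h6⟩ := h1 i j hij
    refine ⟨?_, ?_, ?_⟩
    · rw [← hP i j hij, List.length_map] at h4
      exact h4
    · rw [← hcat i j hij] at h5
      exact h5.of_map _
    · rw [← hcat i j hij, List.isChain_map] at h6
      refine h6.imp fun x y hxy => ?_
      have h7 : Ad W x y := RS_adj hW _ _ hxy
      have h8 : x ≠ y := by
        rintro rfl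
        exact hW.1 x h7
      exact ⟨h8, 2, RG.adj, ![x, y], h7, ⟨0, rfl⟩, ⟨1, rfl⟩⟩
  · intro i j k hij hk
    apply h2 i j k hij
    rw [← hP i j hij, hb' k]
    exact List.mem_map_of_mem hk
  · intro i j i' j' hij hij' hne z hz hz'
    refine h3 i j i' j' hij hij' hne (a := Sum.inl z) ?_ ?_
    · rw [← hP i j hij]
      exact List.mem_map_of_mem hz
    · rw [← hP i' j' hij']
      exact List.mem_map_of_mem hz'

end VSG
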