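import Pool.Agent.VSG.St2

/-!
# Translation of formulas of coloured graphs into formulas of their graphs without colours
-/

set_option autoImplicit false

namespace VSG

open FirstOrder Set Pool.Agent.Helper5.DU Pool.Agent.Helper6.Str Pool.Agent.Helper79.VC

private theorem RT_ap {V : Type} (G : LP.Structure V) (x y : V) (v : Fin 2 → V)
    (hx : v 0 = x) (hy : v 1 = y) :
    G.RelMap (FirstOrder.Language.adj : LP.Relations 2) v ↔ Ap G x y := by
  have : v = ![x, y] := by
    funext k
    fin_cases k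
    · exact hx
    · exact hy
  rw [this]
  rfl

private theorem RT_co {V : Type} (W : LG.Structure V) (c : ℕ) (v : Fin 1 → V) :
    W.RelMap (RG.col c : LG.Relations 1) v ↔ Co W c (v 0) := by
  have : v = ![v 0] := by
    funext k
    fin_cases k
    rfl
  rw [this]
  rfl

private theorem RT_ad {V : Type} (W : LG.Structure V) (v : Fin 2 → V) :
    W.RelMap (RG.adj : LG.Relations 2) v ↔ Ad W (v 0) (v 1) := by
  have : v = ![v 0, v 1] := by
    funext k
    fin_cases k <;> rfl
  rw [this]
  rfl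

/-- `x` has three different neighbours -/
private def RT_Or {V : Type} (G : LP.Structure V) (x : V) : Prop :=
  ∃ u : Fin 3 → V, (∀ i j : Fin 3, i ≠ j → u i ≠ u j) ∧ ∀ i : Fin 3, Ap G x (u i)

/-- there is a whole pendant path with `m` vertices at `x` -/
private def RT_T (m : ℕ) {V : Type} (G : LP.Structure V) (x : V) : Prop :=
  ∃ u : Fin m → V, (∀ k l : Fin m, k ≠ l → u k ≠ u l) ∧ (∀ k : Fin m, ¬ RT_Or G (u k)) ∧
    (∀ k : Fin m, k.val = 0 → Ap G x (u k)) ∧
    (∀ k l : Fin m, k.val + 1 = l.val → Ap G (u k) (u l)) ∧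
    ∀ k l : Fin m, k.val + 1 = l.val → l.val + 1 = m → ∀ y : Fin 1 → V, Ap G (u l) (y 0) → y 0 = u k

/-! ### The graph without colours -/

section
variable {V : Type} {W : LG.Structure V}

private theorem RT_plen (W : LG.Structure V) (v : V) (c : ℕ) : 3 ≤ plen W v c := by
  unfold plen
  split_ifs <;> omega

private theorem RT_pur (x y : V ⊕ PV W) : Ap (pur W) x y ↔ PG x y := Iff.rfl

private theorem RT_or_inl (v : V) : RT_Or (pur W) (Sum.inl v : V ⊕ PV W) := by
  refine ⟨fun i => Sum.inr ⟨((v, i.val), 0),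
    lt_of_lt_of_le (by norm_num) (RT_plen W v i.val)⟩, ?_, ?_⟩
  · intro i j hij h
    have h1 := Sum.inr.inj h
    have h2 := congrArg (fun q : PV W => q.1.1.2) h1
    exact hij (Fin.ext h2)
  · intro i
    rw [RT_pur]
    exact ⟨rfl, rfl⟩

/-- two neighbours of a vertex of a pendant path of the same kind are equal -/
private def RT_kind (q : PV W) (z : V ⊕ PV W) : Prop :=
  match z with
  | .inl _ => True
  | .inr q' => q'.1.2 + 1 = q.1.2

private theorem RT_same (q : PV W) (z z' : V ⊕ PV W) (h : PG (Sum.inr q) z)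
    (h' : PG (Sum.inr q) z') (hk : RT_kind q z ↔ RT_kind q z') : z = z' := by
  rcases z with x | p <;> rcases z' with x' | p'
  · rw [← h.2, ← h'.2]
  · exfalso
    have h1 : p'.1.2 + 1 = q.1.2 := hk.1 trivial
    have h2 : q.1.2 = 0 := h.1
    omega
  · exfalso
    have h1 : p.1.2 + 1 = q.1.2 := hk.2 trivial
    have h2 : q.1.2 = 0 := h'.1
    omega
  · congr 1
    apply Subtype.ext
    have h1 : q.1.1 = p.1.1 ∧ (q.1.2 + 1 = p.1.2 ∨ p.1.2 + 1 = q.1.2) := h
    have h2 : q.1.1 = p'.1.1 ∧ (q.1.2 + 1 = p'.1.2 ∨ p'.1.2 + 1 = q.1.2) := h'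
    have h3 : p.1.2 + 1 = q.1.2 ↔ p'.1.2 + 1 = q.1.2 := hk
    refine Prod.ext (h1.1.symm.trans h2.1) ?_
    omega

private theorem RT_or_inr (q : PV W) : ¬ RT_Or (pur W) (Sum.inr q : V ⊕ PV W) := by
  classical
  rintro ⟨u, h1, h2⟩
  have h3 : ∀ i, PG (Sum.inr q) (u i) := h2
  have key : ∀ i j : Fin 3, i ≠ j → ¬ (RT_kind q (u i) ↔ RT_kind q (u j)) := fun i j hij hk =>
    h1 i j hij (RT_same q _ _ (h3 i) (h3 j) hk)
  have a := key 0 1 (by decide)
  have b := key 1 2 (by decide)
  have c := key 0 2 (by decide)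
  by_cases p0 : RT_kind q (u 0) <;> by_cases p1 : RT_kind q (u 1) <;>
    by_cases p2 : RT_kind q (u 2) <;> simp only [p0, p1, p2] at a b c <;> simp at a b c

private theorem RT_or_iff (z : V ⊕ PV W) : RT_Or (pur W) z ↔ ∃ v, z = Sum.inl v := by
  rcases z with v | q
  · exact ⟨fun _ => ⟨v, rfl⟩, fun _ => RT_or_inl v⟩
  · constructor
    · intro h
      exact absurd h (RT_or_inr q)
    · rintro ⟨v, hv⟩
      cases hv

private theorem RT_tail (v : V) (c : ℕ) :
    RT_T (2 * c + 3) (pur W) (Sum.inl v : V ⊕ PV W) ↔ Co W c v := by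
  classical
  constructor
  · rintro ⟨u, h1, h2, h3, h4, h5⟩
    have hq : ∀ k, ∃ q : PV W, u k = Sum.inr q := by
      intro k
      rcases hz : u k with x | q
      · exfalso
        refine h2 k ?_
        rw [hz]
        exact RT_or_inl x
      · exact ⟨q, rfl⟩
    choose q hq using hq
    have h30 : PG (Sum.inl v : V ⊕ PV W) (Sum.inr (q ⟨0, by omega⟩)) := by
      rw [← hq]
      exact h3 _ rfl
    obtain ⟨h31, h32⟩ := h30
    set c' := (q ⟨0, by omega⟩).1.1.2 with hc'
    have hstep : ∀ k : ℕ, ∀ hk : k < 2 * c + 3, (q ⟨k, hk⟩).1 = ((v, c'), k) := by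
      intro k
      induction k using Nat.strong_induction_on with
      | _ k ih =>
        intro hk
        rcases Nat.eq_zero_or_pos k with rfl | hpos
        · exact Prod.ext (Prod.ext h32 rfl) h31
        · obtain ⟨k, rfl⟩ : ∃ l, k = l + 1 := ⟨k - 1, by omega⟩
          have h6 := h4 ⟨k, by omega⟩ ⟨k + 1, hk⟩ rfl
          rw [hq, hq, RT_pur] at h6
          obtain ⟨h7, h8⟩ := h6
          have h9 := ih k (by omega) (by omega)
          rw [h9] at h7 h8
          refine Prod.ext h7.symm ?_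
          rcases h8 with h8 | h8
          · exact h8.symm
          · exfalso
            rcases Nat.eq_zero_or_pos k with rfl | hpos'
            · change _ + 1 = 0 at h8
              omega
            · obtain ⟨k, rfl⟩ : ∃ l, k = l + 1 := ⟨k - 1, by omega⟩
              have h10 := ih k (by omega) (by omega)
              refine h1 ⟨k, by omega⟩ ⟨k + 1 + 1, hk⟩ (fun h => by
                have := congrArg Fin.val h
                change k = k + 1 + 1 at this
                omega) ?_
              rw [hq, hq]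
              congr 1
              apply Subtype.ext
              rw [h10]
              refine Prod.ext h7 ?_
              change _ + 1 = k + 1 at h8
              change k = _
              omega
    have hlast := hstep (2 * c + 2) (by omega)
    have hlt := (q ⟨2 * c + 2, by omega⟩).2
    rw [hlast] at hlt
    change 2 * c + 2 < plen W v c' at hlt
    have hle : plen W v c' ≤ 2 * c + 3 := by
      by_contra hcon
      push Not at hcon
      have h6 := h5 ⟨2 * c + 1, by omega⟩ ⟨2 * c + 2, by omega⟩ rfl rfl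
        (fun _ => Sum.inr ⟨((v, c'), 2 * c + 3), hcon⟩) (by
          rw [hq, RT_pur]
          refine ⟨?_, Or.inl ?_⟩
          · rw [hlast]
          · rw [hlast])
      beta_reduce at h6
      rw [hq] at h6
      have h7 := congrArg (fun z : PV W => z.1.2) (Sum.inr.inj h6)
      beta_reduce at h7
      rw [hstep (2 * c + 1) (by omega)] at h7
      change 2 * c + 3 = 2 * c + 1 at h7
      omega
    unfold plen at hlt hle
    split_ifs at hlt hle with hco
    · have : c' = c := by omega
      rw [← this]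
      exact hco
    · omega
  · intro hc
    have hp : plen W v c = 2 * c + 3 := by
      unfold plen
      rw [if_pos hc]
    refine ⟨fun k => Sum.inr ⟨((v, c), k.val), by rw [hp]; exact k.2⟩, ?_, ?_, ?_, ?_, ?_⟩
    · intro k l hkl h
      have h7 := congrArg (fun z : PV W => z.1.2) (Sum.inr.inj h)
      exact hkl (Fin.ext h7)
    · intro k
      exact RT_or_inr _
    · intro k hk
      rw [RT_pur]
      exact ⟨hk, rfl⟩
    · intro k l hkl
      rw [RT_pur]
      exact ⟨rfl, Or.inl hkl⟩
    · intro k l hkl hl y hy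
      rw [RT_pur] at hy
      rcases hz : y 0 with x | p
      · rw [hz] at hy
        obtain ⟨h7, -⟩ := hy
        change l.val = 0 at h7
        omega
      · rw [hz] at hy
        obtain ⟨h7, h8⟩ := hy
        congr 1
        apply Subtype.ext
        have h9 := p.2
        rw [← h7] at h9
        change p.1.2 < plen W v c at h9
        rw [hp] at h9
        change l.val + 1 = p.1.2 ∨ p.1.2 + 1 = l.val at h8
        refine Prod.ext h7.symm ?_
        change p.1.2 = k.val
        omega

end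

/-! ### Transport -/

section
variable {V V' : Type} {G : LP.Structure V} {G' : LP.Structure V'} {e : V ≃ V'}

private theorem RT_iso_ap (h : RelIso G G' e) (x y : V) : Ap G' (e x) (e y) ↔ Ap G x y := by
  have h1 := h 2 (FirstOrder.Language.adj : LP.Relations 2) ![x, y]
  rw [RT_ap G' (e x) (e y) (e ∘ ![x, y]) rfl rfl] at h1
  exact h1.symm

private theorem RT_iso_or_mp (h : RelIso G G' e) (x : V) (hx : RT_Or G x) : RT_Or G' (e x) := by
  obtain ⟨u, h1, h2⟩ := hx
  exact ⟨fun i => e (u i), fun i j hij he => h1 i j hij (e.injective he),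
    fun i => (RT_iso_ap h _ _).2 (h2 i)⟩

private theorem RT_iso_or (h : RelIso G G' e) (x : V) : RT_Or G' (e x) ↔ RT_Or G x := by
  refine ⟨fun h1 => ?_, RT_iso_or_mp h x⟩
  have h2 := RT_iso_or_mp h.symm (e x) h1
  rwa [e.symm_apply_apply] at h2

private theorem RT_iso_tail_mp (m : ℕ) (h : RelIso G G' e) (x : V) (hx : RT_T m G x) :
    RT_T m G' (e x) := by
  obtain ⟨u, h1, h2, h3, h4, h5⟩ := hx
  refine ⟨fun i => e (u i), fun i j hij he => h1 i j hij (e.injective he),
    fun k hk => h2 k ((RT_iso_or h _).1 hk), fun k hk => (RT_iso_ap h _ _).2 (h3 k hk),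
    fun k l hkl => (RT_iso_ap h _ _).2 (h4 k l hkl), fun k l hkl hl y hy => ?_⟩
  have h6 : Ap G (u l) (e.symm (y 0)) := by
    rw [← RT_iso_ap h, e.apply_symm_apply]
    exact hy
  have h7 := h5 k l hkl hl (fun _ => e.symm (y 0)) h6
  beta_reduce at h7 ⊢
  rw [← h7, e.apply_symm_apply]

private theorem RT_iso_tail (m : ℕ) (h : RelIso G G' e) (x : V) :
    RT_T m G' (e x) ↔ RT_T m G x := by
  refine ⟨fun h1 => ?_, RT_iso_tail_mp m h x⟩
  have h2 := RT_iso_tail_mp m h.symm (e x) h1
  rwa [e.symm_apply_apply] at h2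

end

/-! ### Definability -/

private theorem RT_congr {L : FirstOrder.Language.{0, 0}} {n : ℕ}
    {P Q : L.Structure ℕ → (Fin n → ℕ) → Prop} (hP : Dfn P) (h : ∀ S v, P S v ↔ Q S v) :
    Dfn Q := by
  obtain ⟨φ, hφ⟩ := hP
  exact ⟨φ, fun S v => (hφ S v).trans (h S v)⟩

private theorem RT_dap (hd : St_DFN) (n : ℕ) (a b : Fin n) :
    Dfn (L := LP) fun G v => Ap G (v a) (v b) := by
  obtain ⟨-, -, -, -, -, -, hrel, -, -⟩ := hd LP
  refine RT_congr (hrel n 2 (FirstOrder.Language.adj : LP.Relations 2) ![a, b]) ?_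
  intro W x
  exact RT_ap W (x a) (x b) _ rfl rfl

private theorem RT_dor (hd : St_DFN) (n : ℕ) (a : Fin n) :
    Dfn (L := LP) fun G v => RT_Or G (v a) := by
  obtain ⟨hneg, hall, -, hprop, hconst, heq, -, -, happ⟩ := hd LP
  have himp : ∀ (p : Prop) (P : LP.Structure ℕ → (Fin (n + 3) → ℕ) → Prop), Dfn P →
      Dfn fun W x => p → P W x := by
    intro p P hP
    exact (hprop (n + 3) (fun _ _ => p) P (hconst (n + 3) p) hP).2.2.1
  have h1 : Dfn (L := LP) fun W x => ∀ i j : Fin 3, i ≠ j →
      x (Fin.natAdd n i) ≠ x (Fin.natAdd n j) :=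
    hall (n + 3) (Fin 3) _ fun k => hall (n + 3) (Fin 3) _ fun k' => himp _ _
      (hneg _ _ (heq _ _ _))
  have h2 : Dfn (L := LP) fun W x => ∀ i : Fin 3,
      Ap W (x (Fin.castAdd 3 a)) (x (Fin.natAdd n i)) :=
    hall (n + 3) (Fin 3) _ fun k => RT_dap hd _ _ _
  refine RT_congr (happ n 3 _ (hprop (n + 3) _ _ h1 h2).1).1 ?_
  intro W v
  simp only [Fin.append_left, Fin.append_right]
  exact Iff.rfl

private theorem RT_dtail (hd : St_DFN) (m n : ℕ) (a : Fin n) :
    Dfn (L := LP) fun G v => RT_T m G (v a) := by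
  obtain ⟨hneg, hall, -, hprop, hconst, heq, -, -, happ⟩ := hd LP
  have himp : ∀ (p : Prop) (P : LP.Structure ℕ → (Fin (n + m) → ℕ) → Prop), Dfn P →
      Dfn fun W x => p → P W x := by
    intro p P hP
    exact (hprop (n + m) (fun _ _ => p) P (hconst (n + m) p) hP).2.2.1
  have h1 : Dfn (L := LP) fun W x => ∀ i j : Fin m, i ≠ j →
      x (Fin.natAdd n i) ≠ x (Fin.natAdd n j) :=
    hall (n + m) (Fin m) _ fun k => hall (n + m) (Fin m) _ fun k' => himp _ _
      (hneg _ _ (heq _ _ _))
  have h2 : Dfn (L := LP) fun W x => ∀ i : Fin m, ¬ RT_Or W (x (Fin.natAdd n i)) :=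
    hall (n + m) (Fin m) _ fun k => hneg _ _ (RT_dor hd _ _)
  have h3 : Dfn (L := LP) fun W x => ∀ k : Fin m, k.val = 0 →
      Ap W (x (Fin.castAdd m a)) (x (Fin.natAdd n k)) :=
    hall (n + m) (Fin m) _ fun k => himp _ _ (RT_dap hd _ _ _)
  have h4 : Dfn (L := LP) fun W x => ∀ k l : Fin m, k.val + 1 = l.val →
      Ap W (x (Fin.natAdd n k)) (x (Fin.natAdd n l)) :=
    hall (n + m) (Fin m) _ fun k => hall (n + m) (Fin m) _ fun k' => himp _ _ (RT_dap hd _ _ _)
  have h5' : ∀ k l : Fin m, Dfn (L := LP) fun W (x : Fin (n + m) → ℕ) => ∀ y : Fin 1 → ℕ,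
      Ap W (x (Fin.natAdd n l)) (y 0) → y 0 = x (Fin.natAdd n k) := by
    intro k l
    have h6 := (hprop (n + m + 1) _ _
      (RT_dap hd (n + m + 1) (Fin.castAdd 1 (Fin.natAdd n l)) (Fin.natAdd (n + m) 0))
      (heq (n + m + 1) (Fin.natAdd (n + m) 0) (Fin.castAdd 1 (Fin.natAdd n k)))).2.2.1
    refine RT_congr (happ (n + m) 1 _ h6).2 ?_
    intro W v
    simp only [Fin.append_left, Fin.append_right]
  have h5 : Dfn (L := LP) fun W x => ∀ k l : Fin m, k.val + 1 = l.val → l.val + 1 = m →
      ∀ y : Fin 1 → ℕ, Ap W (x (Fin.natAdd n l)) (y 0) → y 0 = x (Fin.natAdd n k) :=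
    hall (n + m) (Fin m) _ fun k => hall (n + m) (Fin m) _ fun l => himp _ _ (himp _ _ (h5' k l))
  have h45 := (hprop (n + m) _ _ h4 h5).1
  have h345 := (hprop (n + m) _ _ h3 h45).1
  have h2345 := (hprop (n + m) _ _ h2 h345).1
  have h12345 := (hprop (n + m) _ _ h1 h2345).1
  refine RT_congr (happ n m _ h12345).1 ?_
  intro W v
  simp only [Fin.append_left, Fin.append_right]
  exact Iff.rfl

/-- formulas about a coloured graph are equivalent to formulas about its graph without colours -/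
theorem thm_RT (hd : St_DFN) : St_RT := by
  intro n φ
  induction φ with
  | eq i j =>
    refine ⟨.eq i j, ?_⟩
    intro W G e _ v
    change e (Sum.inl (v i)) = e (Sum.inl (v j)) ↔ v i = v j
    rw [e.apply_eq_iff_eq, Sum.inl.injEq]
  | @rel n k R w =>
    cases R with
    | col c =>
      obtain ⟨χ, hχ⟩ := RT_dtail hd (2 * c + 3) n (w 0)
      refine ⟨χ, ?_⟩
      intro W G e h v
      refine (hχ G _).trans ((RT_iso_tail (2 * c + 3) h (Sum.inl (v (w 0)))).trans
        ((RT_tail (v (w 0)) c).trans ?_))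
      exact (RT_co W c fun i => v (w i)).symm
    | adj =>
      obtain ⟨χ, hχ⟩ := RT_dap hd n (w 0) (w 1)
      refine ⟨χ, ?_⟩
      intro W G e h v
      refine (hχ G _).trans ((RT_iso_ap h (Sum.inl (v (w 0))) (Sum.inl (v (w 1)))).trans ?_)
      exact (RT_ad W fun i => v (w i)).symm
  | neg φ ih =>
    obtain ⟨χ, hχ⟩ := ih
    refine ⟨.neg χ, ?_⟩
    intro W G e h v
    exact not_congr (hχ W G e h v)
  | conj φ ih =>
    choose χ hχ using ih
    refine ⟨.conj χ, ?_⟩
    intro W G e h v
    exact forall_congr' fun k => hχ k W G e h v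
  | @ex n φ ih =>
    obtain ⟨χ, hχ⟩ := ih
    obtain ⟨ω, hω⟩ := RT_dor hd (n + 1) (Fin.last n)
    refine ⟨.ex (.conj fun k => if k = 0 then ω else χ), ?_⟩
    intro W G e h v
    have hs : ∀ x : ℕ, (fun i => e (Sum.inl ((Fin.snoc v x : Fin (n + 1) → ℕ) i))) =
        (Fin.snoc (fun i => e (Sum.inl (v i))) (e (Sum.inl x)) : Fin (n + 1) → ℕ) := by
      intro x
      funext i
      refine Fin.lastCases ?_ (fun i => ?_) i
      · rw [Fin.snoc_last, Fin.snoc_last]
      · rw [Fin.snoc_castSucc, Fin.snoc_castSucc]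
    have hω' : ∀ a : ℕ, Sat G ω (Fin.snoc (fun i => e (Sum.inl (v i))) a) ↔ RT_Or G a := by
      intro a
      rw [hω]
      beta_reduce
      rw [Fin.snoc_last]
    change (∃ a : ℕ, ∀ k : ℕ, Sat G (if k = 0 then ω else χ)
      (Fin.snoc (fun i => e (Sum.inl (v i))) a)) ↔ ∃ x, Sat W φ (Fin.snoc v x)
    constructor
    · rintro ⟨a, ha⟩
      have h0 := ha 0
      have h1 := ha 1
      rw [if_pos rfl] at h0
      rw [if_neg one_ne_zero] at h1
      have h2 : RT_Or G a := (hω' a).1 h0
      rw [← e.apply_symm_apply a, RT_iso_or h, RT_or_iff] at h2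
      obtain ⟨x, hx⟩ := h2
      have ha' : a = e (Sum.inl x) := by rw [← hx, e.apply_symm_apply]
      refine ⟨x, ?_⟩
      rw [← hχ W G e h, hs, ← ha']
      exact h1
    · rintro ⟨x, hx⟩
      refine ⟨e (Sum.inl x), ?_⟩
      intro k
      by_cases hk : k = 0
      · rw [if_pos hk, hω', RT_iso_or h]
        exact RT_or_inl x
      · rw [if_neg hk, ← hs, hχ W G e h]
        exact hx

end VSG
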