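import Pool.Agent.VSG.St2

/-!
# Isomorphic coloured graphs have isomorphic graphs without colours
-/

set_option autoImplicit false

namespace VSG

open FirstOrder Set Pool.Agent.Helper5.DU Pool.Agent.Helper6.Str Pool.Agent.Helper79.VC

section
variable {V V' : Type} {W : LG.Structure V} {W' : LG.Structure V'} {e : V ≃ V'}

private theorem RU_co (h : RelIso W W' e) (i : ℕ) (x : V) : Co W i x ↔ Co W' i (e x) := by
  unfold Co
  have h1 := h 1 (RG.col i : LG.Relations 1) ![x]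
  rw [h1]
  have : e ∘ ![x] = ![e x] := by
    funext k
    fin_cases k
    rfl
  rw [this]

private theorem RU_ad (h : RelIso W W' e) (x y : V) : Ad W x y ↔ Ad W' (e x) (e y) := by
  unfold Ad
  have h1 := h 2 (RG.adj : LG.Relations 2) ![x, y]
  rw [h1]
  have : e ∘ ![x, y] = ![e x, e y] := by
    funext k
    fin_cases k <;> rfl
  rw [this]

private theorem RU_plen (h : RelIso W W' e) (v : V) (c : ℕ) : plen W v c = plen W' (e v) c := by
  unfold plen
  by_cases hc : Co W c v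
  · rw [if_pos hc, if_pos ((RU_co h c v).1 hc)]
  · rw [if_neg hc, if_neg fun h' => hc ((RU_co h c v).2 h')]

/-- the bijection of the pendant vertices -/
private def RU_pv (h : RelIso W W' e) : PV W ≃ PV W' :=
  Equiv.subtypeEquiv ((e.prodCongr (Equiv.refl ℕ)).prodCongr (Equiv.refl ℕ)) fun q => by
    rw [RU_plen h]
    rfl

/-- the bijection of the vertices -/
private def RU_gv (h : RelIso W W' e) : V ⊕ PV W ≃ V' ⊕ PV W' :=
  e.sumCongr (RU_pv h)

private theorem RU_pg (h : RelIso W W' e) (u w : V ⊕ PV W) :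
    PG u w ↔ PG (RU_gv h u) (RU_gv h w) := by
  rcases u with x | q <;> rcases w with y | q'
  · exact RU_ad h x y
  · change (q'.1.2 = 0 ∧ q'.1.1.1 = x) ↔ (q'.1.2 = 0 ∧ e q'.1.1.1 = e x)
    simp only [e.apply_eq_iff_eq]
  · change (q.1.2 = 0 ∧ q.1.1.1 = y) ↔ (q.1.2 = 0 ∧ e q.1.1.1 = e y)
    simp only [e.apply_eq_iff_eq]
  · change (q.1.1 = q'.1.1 ∧ (q.1.2 + 1 = q'.1.2 ∨ q'.1.2 + 1 = q.1.2)) ↔
      ((e.prodCongr (Equiv.refl ℕ)) q.1.1 = (e.prodCongr (Equiv.refl ℕ)) q'.1.1 ∧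
      (q.1.2 + 1 = q'.1.2 ∨ q'.1.2 + 1 = q.1.2))
    simp only [(e.prodCongr (Equiv.refl ℕ)).apply_eq_iff_eq]

end

/-- isomorphic coloured graphs have isomorphic graphs without colours -/
theorem thm_RU : St_RU := by
  rintro V V' W W' ⟨e, h⟩
  refine ⟨RU_gv h, ?_⟩
  intro n R v
  cases R with
  | adj => exact RU_pg h (v 0) (v 1)

end VSG
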