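import Pool.Agent.VSG.Asm

/-!
# Vaught's conjecture and sparse graphs: draft of the final statement
-/

set_option autoImplicit false

namespace VSG.Res

open FirstOrder Set Pool.Agent.Helper5.DU Pool.Agent.Helper6.Str Pool.Agent.Helper79.VC VSG

/-- The dichotomy for a class `K` of structures on `ℕ` in a relational language: countably many
isomorphism types, or a map from Cantor space to `K` with clopen atomic facts and pairwise
non-isomorphic values. -/
def Dich {L : FirstOrder.Language.{0, 0}} (K : Set (L.Structure ℕ)) : Prop :=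
  (∃ g : ℕ → L.Structure ℕ, ∀ S ∈ K,
      ∃ n : ℕ, Nonempty (@FirstOrder.Language.Equiv L ℕ ℕ S (g n))) ∨
  (∃ f : (ℕ → Bool) → L.Structure ℕ, (∀ x : ℕ → Bool, f x ∈ K) ∧
      (∀ x y : ℕ → Bool, Nonempty (@FirstOrder.Language.Equiv L ℕ ℕ (f x) (f y)) → x = y) ∧
      (∀ (n : ℕ) (R : L.Relations n) (a : Fin n → ℕ),
        IsClopen {x : ℕ → Bool | @FirstOrder.Language.Structure.RelMap L ℕ (f x) n R a}))

/-- The dichotomy for all theories `T` and `L_{ω₁,ω}`-sentences `φ` in countable relational languages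
all of whose models have Gaifman graphs without `≤ r`-subdivisions of the complete graph on `t r`
vertices. -/
def VCAll (t : ℕ → ℕ) : Prop :=
  ∀ L : FirstOrder.Language.{0, 0}, Countable L.Symbols → (∀ n, IsEmpty (L.Functions n)) →
    ∀ (T : L.Theory) (φ : FmI L 0),
      (∀ S : L.Structure ℕ, @FirstOrder.Language.Theory.Model L ℕ S T → Sat S φ Fin.elim0 →
        ∀ r, ¬ HasSub (gaif S) r (t r)) →
      Dich {S | @FirstOrder.Language.Theory.Model L ℕ S T ∧ Sat S φ Fin.elim0}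

/-- The same for sentences about coloured graphs only. -/
def VCCol (t : ℕ → ℕ) : Prop :=
  ∀ φ : FmI LG 0,
    (∀ S : LG.Structure ℕ, Sat S φ Fin.elim0 → IsGraph S ∧ ∀ r, ¬ HasSub (gaif S) r (t r)) →
      Dich {S : LG.Structure ℕ | Sat S φ Fin.elim0}

/-- Vaught's conjecture (the frozen statement `S14759`) -/
def FullVC : Prop :=
  ∀ (L : FirstOrder.Language.{0, 0}), Countable L.Symbols → ∀ (T : L.Theory),
      (∃ g : ℕ → L.Structure ℕ, ∀ S : L.Structure ℕ,
          @FirstOrder.Language.Theory.Model L ℕ S T →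
            ∃ n : ℕ, Nonempty (@FirstOrder.Language.Equiv L ℕ ℕ S (g n))) ∨
      (∃ f : (ℕ → Bool) → L.Structure ℕ,
          (∀ x : ℕ → Bool, @FirstOrder.Language.Theory.Model L ℕ (f x) T) ∧
          (∀ x y : ℕ → Bool,
              Nonempty (@FirstOrder.Language.Equiv L ℕ ℕ (f x) (f y)) → x = y) ∧
          (∀ (n : ℕ) (R : L.Relations n) (a : Fin n → ℕ),
              IsClopen {x : ℕ → Bool | @FirstOrder.Language.Structure.RelMap L ℕ (f x) n R a}) ∧
          (∀ (n : ℕ) (F : L.Functions n) (a : Fin n → ℕ) (b : ℕ),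
              IsOpen {x : ℕ → Bool | @FirstOrder.Language.Structure.funMap L ℕ (f x) n F a = b}))

theorem dich_iff {L : FirstOrder.Language.{0, 0}} (hrel : ∀ n, IsEmpty (L.Functions n))
    (K : Set (L.Structure ℕ)) : Dich K ↔ CtblK K ∨ PerfK K := by
  constructor
  · rintro (⟨g, hg⟩ | ⟨f, h1, h2, h3⟩)
    · exact Or.inl ⟨g, fun S hS => (hg S hS).imp fun n h => VPF.CC.iso_of_equiv h⟩
    · exact Or.inr ⟨f, h1, fun x y h => h2 x y (VPF.CC.equiv_of_iso h), h3⟩
  · rintro (⟨g, hg⟩ | ⟨f, h1, h2, h3⟩)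
    · exact Or.inl ⟨g, fun S hS => (hg S hS).imp fun n h => VPF.CC.equiv_of_iso h⟩
    · exact Or.inr ⟨f, h1, fun x y h => h2 x y (VPF.CC.iso_of_equiv h), h3⟩

theorem final (hCS : St_CS)
    (hCW : St_CW) (hCC : St_CC) (hCP : St_CP) (hCF : St_CF)
    (hGG : St_GG) (hGS : St_GS) (hGSI : St_GSI) (hGC : St_GC) (hGP : St_GP) (hGF : St_GF)
    (hPOS : St_POS) (t : ℕ → ℕ) (ht : Monotone t) (h3 : 3 ≤ t 0) :
    ((∃ c, ∀ r, t r ≤ c) ∧ VCAll t) ∨
    ((¬ ∃ c, ∀ r, t r ≤ c) ∧ (VCCol t → FullVC)) := by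
  by_cases hb : ∃ c, ∀ r, t r ≤ c
  · refine Or.inl ⟨hb, fun L hc hF T φ h => ?_⟩
    exact hPOS t hb L hc hF T φ fun S hS => h S hS.1 hS.2
  · refine Or.inr ⟨hb, fun hV => ?_⟩
    have hu : ∀ c, ∃ r, c < t r := by
      push Not at hb
      exact hb
    have hVG : VCGraph t := fun χ hχ =>
      (dich_iff inferInstance _).1 (hV χ fun S hS => hχ S hS)
    have hVL : VCL := part2 t ht h3 hu hGG hGS hGSI hGC hGP hGF hVG
    exact VPF.thm_C (fun _ => True) trivial (Or.inl trivial) fun L' hR hF h12 T' _ =>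
      part1 hCS hCW hCC hCP hCF hVL L' hR hF h12 T'

end VSG.Res
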