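import Pool.Agent.VSG.Fin

/-!
# Vaught's conjecture and sparse graphs: the final form (draft, with the modules as hypotheses)
-/

set_option autoImplicit false

namespace VSG.ResF

open Set FirstOrder Pool.Agent.Helper5.DU Pool.Agent.Helper79.VC

/-- `G` contains a `≤ r`-subdivision of the complete graph on `n` vertices: there are different branch
vertices `b 0, ..., b (n-1)`, and for `i < j` a path from `b i` to `b j` with at most `r` inner vertices
(the list `P i j`), where no inner vertex is a branch vertex and different paths have no inner vertex in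
common. -/
def HasSub {V : Type} (G : SimpleGraph V) (r n : ℕ) : Prop :=
  ∃ (b : Fin n → V) (P : Fin n → Fin n → List V), Function.Injective b ∧
    (∀ i j, i < j → (P i j).length ≤ r ∧ (b i :: (P i j ++ [b j])).Nodup ∧
      List.IsChain G.Adj (b i :: (P i j ++ [b j]))) ∧
    (∀ i j k, i < j → b k ∉ P i j) ∧
    (∀ i j i' j', i < j → i' < j' → (i, j) ≠ (i', j') → List.Disjoint (P i j) (P i' j'))

/-- `S` is in the class `G_t`: its Gaifman graph contains no `≤ r`-subdivision of the complete graph on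
`t r` vertices, for all `r`. -/
def InG (t : ℕ → ℕ) {L : FirstOrder.Language.{0, 0}} (S : L.Structure ℕ) : Prop :=
  ∀ r, ¬ HasSub (gaif S) r (t r)

/-- `S` is a graph (simple and undirected). -/
def IsGraph (S : FirstOrder.Language.graph.Structure ℕ) : Prop :=
  (∀ x, ¬ S.RelMap FirstOrder.Language.adj ![x, x]) ∧
    ∀ x y, S.RelMap FirstOrder.Language.adj ![x, y] → S.RelMap FirstOrder.Language.adj ![y, x]

/-- The dichotomy for a class `K` of structures on `ℕ` in a relational language: countably many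
isomorphism types, or a map from Cantor space to `K` with clopen atomic facts and pairwise
non-isomorphic values. -/
def Dich {L : FirstOrder.Language.{0, 0}} (K : Set (L.Structure ℕ)) : Prop :=
  (∃ g : ℕ → L.Structure ℕ, ∀ S ∈ K,
      ∃ n : ℕ, Nonempty (@FirstOrder.Language.Equiv L ℕ ℕ S (g n))) ∨
  (∃ f : (ℕ → Bool) → L.Structure ℕ, (∀ x : ℕ → Bool, f x ∈ K) ∧
      (∀ x y : ℕ → Bool, Nonempty (@FirstOrder.Language.Equiv L ℕ ℕ (f x) (f y)) → x = y) ∧
      (∀ (n : ℕ) (R : L.Relations n) (a : Fin n → ℕ),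
        IsClopen {x : ℕ → Bool | @FirstOrder.Language.Structure.RelMap L ℕ (f x) n R a}))

/-- Vaught's conjecture for the class `G_t`: the dichotomy for the models on `ℕ` of `T` and `φ`, in all
countable relational languages (symbols of all arities), for all first-order theories `T` and
sentences `φ` of `L_{ω₁,ω}` all of whose models on `ℕ` are in `G_t`. -/
def VC (t : ℕ → ℕ) : Prop :=
  ∀ L : FirstOrder.Language.{0, 0}, Countable L.Symbols → (∀ n, IsEmpty (L.Functions n)) →
    ∀ (T : L.Theory) (φ : FmI L 0),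
      (∀ S : L.Structure ℕ, @FirstOrder.Language.Theory.Model L ℕ S T → Sat S φ Fin.elim0 →
        InG t S) →
      Dich {S : L.Structure ℕ | @FirstOrder.Language.Theory.Model L ℕ S T ∧ Sat S φ Fin.elim0}

/-- Vaught's conjecture for the graphs in `G_t`: the dichotomy for the models on `ℕ` of `φ`, for all
sentences `φ` of `L_{ω₁,ω}` in the language of graphs all of whose models on `ℕ` are graphs in `G_t`. -/
def VCGraphs (t : ℕ → ℕ) : Prop :=
  ∀ φ : FmI FirstOrder.Language.graph 0,
    (∀ S : FirstOrder.Language.graph.Structure ℕ, Sat S φ Fin.elim0 → IsGraph S ∧ InG t S) →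
      Dich {S : FirstOrder.Language.graph.Structure ℕ | Sat S φ Fin.elim0}

/-- Vaught's conjecture (the frozen statement `S14759`) -/
def FullVC : Prop :=
  ∀ (L : FirstOrder.Language.{0, 0}), Countable L.Symbols → ∀ (T : L.Theory),
      (∃ g : ℕ → L.Structure ℕ, ∀ S : L.Structure ℕ,
          @FirstOrder.Language.Theory.Model L ℕ S T →
            ∃ n : ℕ, Nonempty (@FirstOrder.Language.Equiv L ℕ ℕ S (g n))) ∨
      (∃ f : (ℕ → Bool) → L.Structure ℕ,
          (∀ x : ℕ → Bool, @FirstOrder.Language.Theory.Model L ℕ (f x) T) ∧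
          (∀ x y : ℕ → Bool,
              Nonempty (@FirstOrder.Language.Equiv L ℕ ℕ (f x) (f y)) → x = y) ∧
          (∀ (n : ℕ) (R : L.Relations n) (a : Fin n → ℕ),
              IsClopen {x : ℕ → Bool | @FirstOrder.Language.Structure.RelMap L ℕ (f x) n R a}) ∧
          (∀ (n : ℕ) (F : L.Functions n) (a : Fin n → ℕ) (b : ℕ),
              IsOpen {x : ℕ → Bool | @FirstOrder.Language.Structure.funMap L ℕ (f x) n F a = b}))

/-! ## Proof -/

theorem dich_of {L : FirstOrder.Language.{0, 0}} (hrel : ∀ n, IsEmpty (L.Functions n))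
    (K : Set (L.Structure ℕ)) :
    Dich K ↔ Pool.Agent.Helper6.Str.CtblK K ∨ Pool.Agent.Helper6.Str.PerfK K := by
  constructor
  · rintro (⟨g, hg⟩ | ⟨f, h1, h2, h3⟩)
    · exact Or.inl ⟨g, fun S hS => (hg S hS).imp fun n h => VPF.CC.iso_of_equiv h⟩
    · exact Or.inr ⟨f, h1, fun x y h => h2 x y (VPF.CC.equiv_of_iso h), h3⟩
  · rintro (⟨g, hg⟩ | ⟨f, h1, h2, h3⟩)
    · exact Or.inl ⟨g, fun S hS => (hg S hS).imp fun n h => VPF.CC.equiv_of_iso h⟩
    · exact Or.inr ⟨f, h1, fun x y h => h2 x y (VPF.CC.iso_of_equiv h), h3⟩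

open VSG in
theorem final (hCS : St_CS) (hCW : St_CW) (hCC : St_CC) (hCP : St_CP) (hCF : St_CF)
    (hGG : St_GG) (hGS : St_GS) (hGSI : St_GSI) (hGC : St_GC) (hGP : St_GP) (hGF : St_GF)
    (hRS : St_RS) (hRI : St_RI) (hRF : St_RF) (hRC : St_RC) (hRP : St_RP) (hPOS : St_POS)
    (t : ℕ → ℕ) (ht : Monotone t) (h3 : 3 ≤ t 0) :
    ((∃ c, ∀ r, t r ≤ c) ∧ VC t) ∨ ((¬ ∃ c, ∀ r, t r ≤ c) ∧ (VCGraphs t → FullVC)) := by
  by_cases hb : ∃ c, ∀ r, t r ≤ c
  · refine Or.inl ⟨hb, fun L hc hF T φ h => ?_⟩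
    exact hPOS t hb L hc hF T φ fun S hS => h S hS.1 hS.2
  · refine Or.inr ⟨hb, fun hV => ?_⟩
    have hu : ∀ c, ∃ r, c < t r := by
      push Not at hb
      exact hb
    have hVP : VCPure t := fun κ hκ =>
      (dich_of inferInstance _).1 (hV κ fun S hS => hκ S hS)
    exact full_of_pure hCS hCW hCC hCP hCF hGG hGS hGSI hGC hGP hGF hRS hRI hRF hRC hRP t ht h3 hu
      hVP

end VSG.ResF
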