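import Mathlib

/-!
# Graphs with a simplicial elimination order of back-degree at most `k` contain no subdivision of
the complete graph with `k + 2` vertices
-/

set_option autoImplicit false

namespace VSG

open Classical

variable {V : Type}

/-- the finite set `X` is obtained from the empty set by adding points whose old neighbours form a
clique with at most `k` elements -/
inductive SimO (G : SimpleGraph V) (k : ℕ) : Finset V → Prop
  | nil : SimO G k ∅
  | cons (X : Finset V) (x : V) : SimO G k X → x ∉ X →
      (∀ y ∈ X, ∀ z ∈ X, y ≠ z → G.Adj x y → G.Adj x z → G.Adj y z) →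
      (X.filter fun y => G.Adj x y).card ≤ k → SimO G k (insert x X)

/-- a subdivision of the complete graph with `t` vertices in `G`, with all vertices in `X`; the
paths have at most `r` inner vertices -/
def SubIn (G : SimpleGraph V) (t r : ℕ) (X : Set V) : Prop :=
  ∃ (b : Fin t → V) (P : Fin t → Fin t → List V), Function.Injective b ∧ (∀ i, b i ∈ X) ∧
    (∀ i j, i < j → (P i j).length ≤ r ∧ (∀ v ∈ P i j, v ∈ X) ∧
      (b i :: (P i j ++ [b j])).Nodup ∧ List.IsChain G.Adj (b i :: (P i j ++ [b j]))) ∧
    (∀ i j k, i < j → b k ∉ P i j) ∧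
    (∀ i j i' j', i < j → i' < j' → (i, j) ≠ (i', j') → List.Disjoint (P i j) (P i' j'))

theorem SubIn.mono {G : SimpleGraph V} {t r : ℕ} {X Y : Set V} (h : SubIn G t r X)
    (hXY : X ⊆ Y) : SubIn G t r Y := by
  obtain ⟨b, P, h1, h2, h3, h4, h5⟩ := h
  exact ⟨b, P, h1, fun i => hXY (h2 i), fun i j hij => ⟨(h3 i j hij).1, fun v hv =>
    hXY ((h3 i j hij).2.1 v hv), (h3 i j hij).2.2⟩, h4, h5⟩

/-- a point is adjacent to the first point after it -/
theorem chain_head {G : SimpleGraph V} {a : V} {l : List V} (h : List.IsChain G.Adj (a :: l))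
    (hl : l ≠ []) : G.Adj a (l.head hl) := by
  cases l with
  | nil => exact absurd rfl hl
  | cons c l => exact (List.isChain_cons_cons.1 h).1

theorem chain_last {G : SimpleGraph V} {a : V} {l : List V} (h : List.IsChain G.Adj (l ++ [a]))
    (hl : l ≠ []) : G.Adj (l.getLast hl) a := by
  have h1 := List.isChain_append.1 h
  exact h1.2.2 _ (by rw [List.getLast?_eq_some_getLast hl]; rfl) _ rfl

theorem no_sub {G : SimpleGraph V} {k : ℕ} {X : Finset V} (h : SimO G k X) (r : ℕ) :
    ¬ SubIn G (k + 2) r (X : Set V) := by
  induction h with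
  | nil =>
    rintro ⟨b, P, -, h2, -⟩
    exact absurd (h2 0) (by simp)
  | cons X x _ hx hcl hc ih =>
    rintro ⟨b, P, h1, h2, h3, h4, h5⟩
    by_cases hb : ∃ i, b i = x
    · -- `x` is a branch vertex
      obtain ⟨i, hi⟩ := hb
      have hnb : ∀ j : Fin (k + 2), j ≠ i → ∃ y ∈ X, G.Adj x y ∧ (y = b j ∨
          (i < j ∧ y ∈ P i j) ∨ (j < i ∧ y ∈ P j i)) := by
        intro j hj
        rcases lt_or_gt_of_ne hj with hji | hij
        · obtain ⟨h6, h7, h8, h9⟩ := h3 j i hji
          have h9' : List.IsChain G.Adj ((b j :: P j i) ++ [b i]) := h9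
          have h10 := chain_last h9' (List.cons_ne_nil _ _)
          have hmem := List.getLast_mem (List.cons_ne_nil (b j) (P j i))
          rw [hi] at h10
          refine ⟨_, ?_, h10.symm, ?_⟩
          · rcases List.mem_cons.1 hmem with e | e
            · rw [e]
              rcases Finset.mem_insert.1 (Finset.mem_coe.1 (h2 j)) with e' | e'
              · exact absurd (h1 (e'.trans hi.symm)) hj
              · exact e'
            · rcases Finset.mem_insert.1 (Finset.mem_coe.1 (h7 _ e)) with e' | e'
              · exact absurd (e' ▸ e) (hi ▸ h4 j i i hji)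
              · exact e'
          · rcases List.mem_cons.1 hmem with e | e
            · exact Or.inl e
            · exact Or.inr (Or.inr ⟨hji, e⟩)
        · obtain ⟨h6, h7, h8, h9⟩ := h3 i j hij
          have hne : P i j ++ [b j] ≠ [] := List.append_ne_nil_of_right_ne_nil _
            (List.cons_ne_nil _ _)
          have h10 := chain_head h9 hne
          have hmem := List.head_mem hne
          rw [hi] at h10
          refine ⟨_, ?_, h10, ?_⟩
          · rcases List.mem_append.1 hmem with e | e
            · rcases Finset.mem_insert.1 (Finset.mem_coe.1 (h7 _ e)) with e' | e'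
              · exact absurd (e' ▸ e) (hi ▸ h4 i j i hij)
              · exact e'
            · rw [List.mem_singleton.1 e]
              rcases Finset.mem_insert.1 (Finset.mem_coe.1 (h2 j)) with e' | e'
              · exact absurd (h1 (e'.trans hi.symm)) hj
              · exact e'
          · rcases List.mem_append.1 hmem with e | e
            · exact Or.inr (Or.inl ⟨hij, e⟩)
            · exact Or.inl (List.mem_singleton.1 e)
      have hnb' : ∀ j : Fin (k + 2), ∃ y, j ≠ i → (y ∈ X ∧ G.Adj x y ∧ (y = b j ∨
          (i < j ∧ y ∈ P i j) ∨ (j < i ∧ y ∈ P j i))) := by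
        intro j
        by_cases hj : j = i
        · exact ⟨x, fun e => absurd hj e⟩
        · obtain ⟨y, hy⟩ := hnb j hj
          exact ⟨y, fun _ => hy⟩
      choose f hf using hnb'
      have hcard : ((Finset.univ.erase i : Finset (Fin (k + 2)))).card ≤
          (X.filter fun y => G.Adj x y).card := by
        refine Finset.card_le_card_of_injOn f ?_ ?_
        · intro j hj
          have hj' := Finset.ne_of_mem_erase (Finset.mem_coe.1 hj)
          exact Finset.mem_coe.2 (Finset.mem_filter.2 ⟨(hf j hj').1, (hf j hj').2.1⟩)
        · intro j hj j' hj' e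
          have hj1 := Finset.ne_of_mem_erase (Finset.mem_coe.1 hj)
          have hj2 := Finset.ne_of_mem_erase (Finset.mem_coe.1 hj')
          by_contra hne
          have g1 := (hf j hj1).2.2
          have g2 := (hf j' hj2).2.2
          rw [← e] at g2
          rcases g1 with g1 | ⟨ha, g1⟩ | ⟨ha, g1⟩
          · rcases g2 with g2 | ⟨ha', g2⟩ | ⟨ha', g2⟩
            · exact hne (h1 (g1.symm.trans g2))
            · exact h4 _ _ j ha' (g1 ▸ g2)
            · exact h4 _ _ j ha' (g1 ▸ g2)
          · rcases g2 with g2 | ⟨ha', g2⟩ | ⟨ha', g2⟩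
            · exact h4 _ _ j' ha (g2 ▸ g1)
            · exact h5 _ _ _ _ ha ha' (fun e => hne (Prod.ext_iff.1 e).2) g1 g2
            · exact h5 _ _ _ _ ha ha' (fun e => hj2 (Prod.ext_iff.1 e).1.symm) g1 g2
          · rcases g2 with g2 | ⟨ha', g2⟩ | ⟨ha', g2⟩
            · exact h4 _ _ j' ha (g2 ▸ g1)
            · exact h5 _ _ _ _ ha ha' (fun e => hj1 (Prod.ext_iff.1 e).1) g1 g2
            · exact h5 _ _ _ _ ha ha' (fun e => hne (Prod.ext_iff.1 e).1) g1 g2
      rw [Finset.card_erase_of_mem (Finset.mem_univ _), Finset.card_univ, Fintype.card_fin] at hcard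
      omega
    · push Not at hb
      have hbX : ∀ i, b i ∈ X := fun i => by
        rcases Finset.mem_insert.1 (Finset.mem_coe.1 (h2 i)) with e' | e'
        · exact absurd e' (hb i)
        · exact e'
      by_cases hp : ∃ i j, i < j ∧ x ∈ P i j
      · -- `x` is an inner vertex of a path
        obtain ⟨i, j, hij, hxP⟩ := hp
        obtain ⟨l1, l2, hl⟩ := List.append_of_mem hxP
        obtain ⟨h6, h7, h8, h9⟩ := h3 i j hij
        rw [hl] at h6 h7 h8 h9
        have e1 : b i :: ((l1 ++ x :: l2) ++ [b j]) = (b i :: l1) ++ x :: (l2 ++ [b j]) := by simp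
        have e2 : b i :: ((l1 ++ l2) ++ [b j]) = (b i :: l1) ++ (l2 ++ [b j]) := by simp
        rw [e1] at h8 h9
        have hne1 : b i :: l1 ≠ [] := List.cons_ne_nil _ _
        have hne2 : l2 ++ [b j] ≠ [] := List.append_ne_nil_of_right_ne_nil _
          (List.cons_ne_nil _ _)
        have h10 := List.isChain_append.1 h9
        have ha1 : G.Adj ((b i :: l1).getLast hne1) x :=
          h10.2.2 _ (by rw [List.getLast?_eq_some_getLast hne1]; rfl) _ rfl
        have ha2 : G.Adj x ((l2 ++ [b j]).head hne2) := chain_head h10.2.1 hne2
        have hn := List.nodup_append.1 h8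
        have hn2 := List.nodup_cons.1 hn.2.1
        have hm1 : (b i :: l1).getLast hne1 ∈ b i :: l1 := List.getLast_mem hne1
        have hm2 : (l2 ++ [b j]).head hne2 ∈ l2 ++ [b j] := List.head_mem hne2
        have hxl1 : x ∉ b i :: l1 := fun e => hn.2.2 x e x (List.mem_cons_self) rfl
        have hX1 : ∀ v ∈ b i :: l1, v ∈ X := by
          intro v hv
          rcases List.mem_cons.1 hv with e | e
          · exact e ▸ hbX i
          · rcases Finset.mem_insert.1 (Finset.mem_coe.1 (h7 v (List.mem_append_left _ e))) with
              e' | e'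
            · exact absurd (e' ▸ hv) hxl1
            · exact e'
        have hX2 : ∀ v ∈ l2 ++ [b j], v ∈ X := by
          intro v hv
          rcases List.mem_append.1 hv with e | e
          · rcases Finset.mem_insert.1 (Finset.mem_coe.1 (h7 v (List.mem_append_right _
              (List.mem_cons_of_mem _ e)))) with e' | e'
            · exact absurd (e' ▸ hv) hn2.1
            · exact e'
          · rw [List.mem_singleton.1 e]
            exact hbX j
        have hac : G.Adj ((b i :: l1).getLast hne1) ((l2 ++ [b j]).head hne2) :=
          hcl _ (hX1 _ hm1) _ (hX2 _ hm2)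
            (hn.2.2 _ hm1 _ (List.mem_cons_of_mem _ hm2)) ha1.symm ha2
        have hsub : ∀ i' j' v, v ∈ (fun i' j' => if i' = i ∧ j' = j then l1 ++ l2 else P i' j') i' j' →
            v ∈ P i' j' := by
          intro i' j' v hv
          by_cases he : i' = i ∧ j' = j
          · simp only [if_pos he] at hv
            rw [he.1, he.2, hl]
            rcases List.mem_append.1 hv with e | e
            · exact List.mem_append_left _ e
            · exact List.mem_append_right _ (List.mem_cons_of_mem _ e)
          · simpa only [if_neg he] using hv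
        refine ih ⟨b, fun i' j' => if i' = i ∧ j' = j then l1 ++ l2 else P i' j', h1,
          fun i => Finset.mem_coe.2 (hbX i), ?_, ?_, ?_⟩
        · intro i' j' hij'
          by_cases he : i' = i ∧ j' = j
          · obtain ⟨rfl, rfl⟩ := he
            simp only [and_self, if_true]
            refine ⟨?_, ?_, ?_, ?_⟩
            · simp only [List.length_append, List.length_cons] at h6 ⊢
              omega
            · intro v hv
              rcases List.mem_append.1 hv with e | e
              · exact Finset.mem_coe.2 (hX1 v (List.mem_cons_of_mem _ e))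
              · exact Finset.mem_coe.2 (hX2 v (List.mem_append_left _ e))
            · rw [e2]
              exact List.nodup_append.2 ⟨hn.1, hn2.2, fun a ha c hc =>
                hn.2.2 a ha c (List.mem_cons_of_mem _ hc)⟩
            · rw [e2]
              refine List.isChain_append.2 ⟨h10.1, (List.isChain_cons.1 h10.2.1).2, ?_⟩
              intro a ha c hc
              rw [List.getLast?_eq_some_getLast hne1] at ha
              rw [List.head?_eq_some_head hne2] at hc
              have ha' := Option.some.inj ha
              have hc' := Option.some.inj hc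
              rw [← ha', ← hc']
              exact hac
          · simp only [if_neg he]
            obtain ⟨g1, g2, g3, g4⟩ := h3 i' j' hij'
            refine ⟨g1, fun v hv => ?_, g3, g4⟩
            rcases Finset.mem_insert.1 (Finset.mem_coe.1 (g2 v hv)) with e' | e'
            · exact absurd hxP fun hxP' => h5 i' j' i j hij' hij
                (fun e => he ⟨(Prod.ext_iff.1 e).1, (Prod.ext_iff.1 e).2⟩) (e' ▸ hv) hxP'
            · exact Finset.mem_coe.2 e'
        · intro i' j' k' hij' hv
          exact h4 i' j' k' hij' (hsub i' j' _ hv)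
        · intro i1 j1 i2 j2 g1 g2 g3 v hv1 hv2
          exact h5 i1 j1 i2 j2 g1 g2 g3 (hsub i1 j1 v hv1) (hsub i2 j2 v hv2)
      · -- `x` does not occur
        push Not at hp
        refine ih ⟨b, P, h1, fun i => Finset.mem_coe.2 (hbX i), fun i j hij => ?_, h4, h5⟩
        obtain ⟨g1, g2, g3, g4⟩ := h3 i j hij
        refine ⟨g1, fun v hv => ?_, g3, g4⟩
        rcases Finset.mem_insert.1 (Finset.mem_coe.1 (g2 v hv)) with e' | e'
        · exact absurd (e' ▸ hv) (hp i j hij)
        · exact Finset.mem_coe.2 e'

end VSG
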