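import Pool.Agent.VSG.St

/-!
# Translation of formulas of layered structures into formulas of their graphs
-/

set_option autoImplicit false

namespace VSG

open FirstOrder Set Pool.Agent.Helper5.DU Pool.Agent.Helper6.Str Pool.Agent.Helper79.VC

private theorem TRF_co {V : Type} (W : LG.Structure V) (c : ℕ) (x : V) (v : Fin 1 → V)
    (hv : v 0 = x) : W.RelMap (RG.col c : LG.Relations 1) v ↔ Co W c x := by
  have : v = ![x] := by
    funext k
    fin_cases k
    exact hv
  rw [this]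
  rfl

private theorem TRF_ad {V : Type} (W : LG.Structure V) (x y : V) (v : Fin 2 → V)
    (hx : v 0 = x) (hy : v 1 = y) : W.RelMap (RG.adj : LG.Relations 2) v ↔ Ad W x y := by
  have : v = ![x, y] := by
    funext k
    fin_cases k
    · exact hx
    · exact hy
  rw [this]
  rfl

private theorem TRF_un {V : Type} (S : LN.Structure V) (c : ℕ) (v : Fin 1 → V) :
    S.RelMap (RN.col c : LN.Relations 1) v ↔ Un S c (v 0) := by
  have : v = ![v 0] := by
    funext k
    fin_cases k
    rfl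
  rw [this]
  rfl

private theorem TRF_bn {V : Type} (S : LN.Structure V) (c : ℕ) (v : Fin 2 → V) :
    S.RelMap (RN.bin c : LN.Relations 2) v ↔ Bn S c (v 0) (v 1) := by
  have : v = ![v 0, v 1] := by
    funext k
    fin_cases k <;> rfl
  rw [this]
  rfl

section
variable {ℓ : ℕ → ℕ} {S : LN.Structure ℕ} {W : LG.Structure ℕ} {e : GV ℓ S ≃ ℕ}

private theorem TRF_gc (h : RelIso (grS ℓ S) W e) (c : ℕ) (u : GV ℓ S) :
    Co W c (e u) ↔ GC c u := by
  have h1 := h 1 (RG.col c : LG.Relations 1) ![u]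
  rw [TRF_co W c (e u) (e ∘ ![u]) rfl] at h1
  rw [← h1]
  exact Iff.rfl

private theorem TRF_ga (h : RelIso (grS ℓ S) W e) (u w : GV ℓ S) :
    Ad W (e u) (e w) ↔ GA u w := by
  have h1 := h 2 (RG.adj : LG.Relations 2) ![u, w]
  rw [TRF_ad W (e u) (e w) (e ∘ ![u, w]) rfl rfl] at h1
  rw [← h1]
  exact Iff.rfl

end

/-- there is a path for the symbol `i` with `m` inner vertices from `a` to `b` -/
private def TRF_P (i m : ℕ) (W : LG.Structure ℕ) (a b : ℕ) : Prop :=
  ∃ u : Fin m → ℕ, (∀ k : Fin m, Co W (2 * Nat.pair i k.val + 2) (u k)) ∧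
    (∀ k : Fin m, k.val = 0 → Ad W a (u k)) ∧
    (∀ k k' : Fin m, k.val + 1 = k'.val → Ad W (u k) (u k')) ∧
    ∀ k : Fin m, k.val + 1 = m → Ad W (u k) b

private theorem TRF_inr {ℓ : ℕ → ℕ} {S : LN.Structure ℕ} (i k : ℕ) (z : GV ℓ S)
    (h : GC (2 * Nat.pair i k + 2) z) : ∃ q : IV ℓ S, z = .inr q ∧ q.1.1 = (i, k) := by
  rcases z with x | q
  · rcases h with h | ⟨j, h, -⟩
    · omega
    · omega
  · refine ⟨q, rfl, ?_⟩
    have h1 : 2 * Nat.pair i k + 2 = 2 * Nat.pair q.1.1.1 q.1.1.2 + 2 := h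
    have h2 : Nat.pair i k = Nat.pair q.1.1.1 q.1.1.2 := by omega
    have h3 := Nat.pair_eq_pair.1 h2
    exact Prod.ext h3.1.symm h3.2.symm

private theorem TRF_path {ℓ : ℕ → ℕ} (hℓ : ∀ i, 2 ≤ ℓ i) {S : LN.Structure ℕ}
    {W : LG.Structure ℕ} {e : GV ℓ S ≃ ℕ} (h : RelIso (grS ℓ S) W e) (i x y : ℕ) :
    TRF_P i (ℓ i) W (e (.inl x)) (e (.inl y)) ↔ Bn S i x y := by
  constructor
  · rintro ⟨u, h1, h2, h3, h4⟩
    have hq : ∀ k : Fin (ℓ i), ∃ q : IV ℓ S, u k = e (.inr q) ∧ q.1.1 = (i, k.val) := by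
      intro k
      have h5 := h1 k
      rw [← e.apply_symm_apply (u k), TRF_gc h] at h5
      obtain ⟨q, hq, hq'⟩ := TRF_inr i k.val _ h5
      exact ⟨q, by rw [← hq, e.apply_symm_apply], hq'⟩
    choose q hq hq' using hq
    have h2i := hℓ i
    have hpair : ∀ k : ℕ, ∀ hk : k < ℓ i, (q ⟨k, hk⟩).1.2 = (q ⟨0, by omega⟩).1.2 := by
      intro k
      induction k with
      | zero => intro _; rfl
      | succ k ih =>
        intro hk
        have h5 := h3 ⟨k, by omega⟩ ⟨k + 1, hk⟩ rfl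
        rw [hq, hq, TRF_ga h] at h5
        rw [← ih (by omega)]
        exact h5.2.1.symm
    have h5 := h2 ⟨0, by omega⟩ rfl
    rw [hq, TRF_ga h] at h5
    have h6 := h4 ⟨ℓ i - 1, by omega⟩ (by change ℓ i - 1 + 1 = ℓ i; omega)
    rw [hq, TRF_ga h] at h6
    have hx : x = (q ⟨0, by omega⟩).1.2.1 := by
      rcases h5 with ⟨-, h5⟩ | ⟨h5, -⟩
      · exact h5
      · exfalso
        rw [hq'] at h5
        change 0 + 1 = ℓ i at h5
        omega
    have hy : y = (q ⟨0, by omega⟩).1.2.2 := by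
      rcases h6 with ⟨h6, -⟩ | ⟨-, h6⟩
      · exfalso
        rw [hq'] at h6
        change ℓ i - 1 = 0 at h6
        omega
      · rw [h6, hpair]
    have h7 := (q ⟨0, by omega⟩).2.1
    rw [hq'] at h7
    rw [hx, hy]
    exact h7
  · intro hb
    refine ⟨fun k => e (.inr ⟨((i, k.val), (x, y)), hb, k.2⟩), ?_, ?_, ?_, ?_⟩
    · intro k
      rw [TRF_gc h]
      exact rfl
    · intro k hk
      rw [TRF_ga h]
      exact Or.inl ⟨hk, rfl⟩
    · intro k k' hk
      rw [TRF_ga h]
      exact ⟨rfl, rfl, Or.inl hk⟩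
    · intro k hk
      rw [TRF_ga h]
      exact Or.inr ⟨hk, rfl⟩

private theorem TRF_congr {L : FirstOrder.Language.{0, 0}} {n : ℕ}
    {P Q : L.Structure ℕ → (Fin n → ℕ) → Prop} (hP : Dfn P) (h : ∀ S v, P S v ↔ Q S v) :
    Dfn Q := by
  obtain ⟨φ, hφ⟩ := hP
  exact ⟨φ, fun S v => (hφ S v).trans (h S v)⟩

private theorem TRF_dfn (hd : St_DFN) (i m n : ℕ) (a b : Fin n) :
    Dfn (L := LG) fun W v => TRF_P i m W (v a) (v b) := by
  obtain ⟨-, hall, -, hprop, hconst, -, hrel, -, happ⟩ := hd LG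
  have hco : ∀ (c : ℕ) (j : Fin (n + m)), Dfn (L := LG) fun W x => Co W c (x j) := by
    intro c j
    refine TRF_congr (hrel (n + m) 1 (RG.col c : LG.Relations 1) fun _ => j) ?_
    intro W x
    exact TRF_co W c (x j) _ rfl
  have had : ∀ j j' : Fin (n + m), Dfn (L := LG) fun W x => Ad W (x j) (x j') := by
    intro j j'
    refine TRF_congr (hrel (n + m) 2 (RG.adj : LG.Relations 2) ![j, j']) ?_
    intro W x
    exact TRF_ad W (x j) (x j') _ rfl rfl
  have himp : ∀ (p : Prop) (P : LG.Structure ℕ → (Fin (n + m) → ℕ) → Prop), Dfn P →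
      Dfn fun W x => p → P W x := by
    intro p P hP
    exact (hprop (n + m) (fun _ _ => p) P (hconst (n + m) p) hP).2.2.1
  have h1 : Dfn (L := LG) fun W x => ∀ k : Fin m,
      Co W (2 * Nat.pair i k.val + 2) (x (Fin.natAdd n k)) :=
    hall (n + m) (Fin m) _ fun k => hco _ _
  have h2 : Dfn (L := LG) fun W x => ∀ k : Fin m, k.val = 0 →
      Ad W (x (Fin.castAdd m a)) (x (Fin.natAdd n k)) :=
    hall (n + m) (Fin m) _ fun k => himp _ _ (had _ _)
  have h3 : Dfn (L := LG) fun W x => ∀ k k' : Fin m, k.val + 1 = k'.val →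
      Ad W (x (Fin.natAdd n k)) (x (Fin.natAdd n k')) :=
    hall (n + m) (Fin m) _ fun k => hall (n + m) (Fin m) _ fun k' => himp _ _ (had _ _)
  have h4 : Dfn (L := LG) fun W x => ∀ k : Fin m, k.val + 1 = m →
      Ad W (x (Fin.natAdd n k)) (x (Fin.castAdd m b)) :=
    hall (n + m) (Fin m) _ fun k => himp _ _ (had _ _)
  have h34 := (hprop (n + m) _ _ h3 h4).1
  have h234 := (hprop (n + m) _ _ h2 h34).1
  have h1234 := (hprop (n + m) _ _ h1 h234).1
  refine TRF_congr (happ n m _ h1234).1 ?_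
  intro W v
  simp only [Fin.append_left, Fin.append_right]
  exact Iff.rfl

/-- formulas about a layered structure are equivalent to formulas about its graph -/
theorem thm_TRF (hd : St_DFN) : St_TRF := by
  intro ℓ hℓ n φ
  induction φ with
  | eq i j =>
    refine ⟨.eq i j, ?_⟩
    intro S W e _ v
    change e (Sum.inl (v i)) = e (Sum.inl (v j)) ↔ v i = v j
    rw [e.apply_eq_iff_eq, Sum.inl.injEq]
  | @rel n k R w =>
    cases R with
    | col j =>
      refine ⟨.rel (RG.col (2 * j + 1) : LG.Relations 1) w, ?_⟩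
      intro S W e h v
      change W.RelMap (RG.col (2 * j + 1) : LG.Relations 1) (fun i => e (Sum.inl (v (w i)))) ↔
        S.RelMap (RN.col j : LN.Relations 1) (fun i => v (w i))
      rw [TRF_co W (2 * j + 1) (e (Sum.inl (v (w 0)))) _ rfl, TRF_gc h, TRF_un]
      constructor
      · rintro (h1 | ⟨j', h1, h2⟩)
        · omega
        · have : j = j' := by omega
          rw [this]
          exact h2
      · intro h1
        exact Or.inr ⟨j, rfl, h1⟩
    | bin i =>
      obtain ⟨χ, hχ⟩ := TRF_dfn hd i (ℓ i) n (w 0) (w 1)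
      refine ⟨χ, ?_⟩
      intro S W e h v
      refine (hχ W _).trans ((TRF_path hℓ h i (v (w 0)) (v (w 1))).trans ?_)
      exact (TRF_bn S i fun i => v (w i)).symm
  | neg φ ih =>
    obtain ⟨χ, hχ⟩ := ih
    refine ⟨.neg χ, ?_⟩
    intro S W e h v
    exact not_congr (hχ S W e h v)
  | conj φ ih =>
    choose χ hχ using ih
    refine ⟨.conj χ, ?_⟩
    intro S W e h v
    exact forall_congr' fun k => hχ k S W e h v
  | @ex n φ ih =>
    obtain ⟨χ, hχ⟩ := ih
    refine ⟨.ex (.conj fun k => if k = 0 then .rel (RG.col 0 : LG.Relations 1) fun _ => Fin.last n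
      else χ), ?_⟩
    intro S W e h v
    have hs : ∀ x : ℕ, (fun i => e (Sum.inl ((Fin.snoc v x : Fin (n + 1) → ℕ) i))) =
        (Fin.snoc (fun i => e (Sum.inl (v i))) (e (Sum.inl x)) : Fin (n + 1) → ℕ) := by
      intro x
      funext i
      refine Fin.lastCases ?_ (fun i => ?_) i
      · rw [Fin.snoc_last, Fin.snoc_last]
      · rw [Fin.snoc_castSucc, Fin.snoc_castSucc]
    change (∃ a : ℕ, ∀ k : ℕ, Sat W (if k = 0 then FmI.rel (RG.col 0 : LG.Relations 1)
      (fun _ => Fin.last n) else χ) (Fin.snoc (fun i => e (Sum.inl (v i))) a)) ↔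
      ∃ x, Sat S φ (Fin.snoc v x)
    constructor
    · rintro ⟨a, ha⟩
      have h0 := ha 0
      have h1 := ha 1
      rw [if_pos rfl] at h0
      rw [if_neg one_ne_zero] at h1
      have h2 : Co W 0 a := by
        refine (TRF_co W 0 a _ ?_).1 h0
        change (Fin.snoc (fun i => e (Sum.inl (v i))) a : Fin (n + 1) → ℕ) (Fin.last n) = a
        rw [Fin.snoc_last]
      rw [← e.apply_symm_apply a, TRF_gc h] at h2
      obtain ⟨x, hx⟩ : ∃ x, e.symm a = Sum.inl x := by
        rcases hz : e.symm a with x | q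
        · exact ⟨x, rfl⟩
        · rw [hz] at h2
          have h3 : 0 = 2 * Nat.pair q.1.1.1 q.1.1.2 + 2 := h2
          omega
      have ha' : a = e (Sum.inl x) := by rw [← hx, e.apply_symm_apply]
      refine ⟨x, ?_⟩
      rw [← hχ S W e h, hs, ← ha']
      exact h1
    · rintro ⟨x, hx⟩
      refine ⟨e (Sum.inl x), ?_⟩
      intro k
      by_cases hk : k = 0
      · rw [if_pos hk]
        refine (TRF_co W 0 (e (Sum.inl x)) _ ?_).2 ?_
        · change (Fin.snoc (fun i => e (Sum.inl (v i))) (e (Sum.inl x)) : Fin (n + 1) → ℕ)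
            (Fin.last n) = _
          rw [Fin.snoc_last]
        · rw [TRF_gc h]
          exact Or.inl rfl
      · rw [if_neg hk, ← hs, hχ S W e h]
        exact hx

end VSG
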