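import Pool.Agent.VSG.St

/-!
# Uniqueness of the generic labelled set over a set of colours
-/

set_option autoImplicit false

namespace VSG

open Classical

variable {V V' H : Type}

/-- finite isomorphisms between strong finite sets -/
structure PIso (ρ : V → V → ℕ) (π : V → H) (ρ' : V' → V' → ℕ) (π' : V' → H)
    (p : Finset (V × V')) : Prop where
  inj : ∀ a ∈ p, ∀ b ∈ p, (a.1 = b.1 ↔ a.2 = b.2)
  lab : ∀ a ∈ p, ∀ b ∈ p, a.1 ≠ b.1 → ρ' a.2 b.2 = ρ a.1 b.1
  col : ∀ a ∈ p, π' a.2 = π a.1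

variable {ρ : V → V → ℕ} {π : V → H} {ρ' : V' → V' → ℕ} {π' : V' → H}

theorem PIso.swap {p : Finset (V × V')} (h : PIso ρ π ρ' π' p) :
    PIso ρ' π' ρ π (p.image Prod.swap) := by
  refine ⟨?_, ?_, ?_⟩
  · intro a ha b hb
    obtain ⟨a, ha', rfl⟩ := Finset.mem_image.1 ha
    obtain ⟨b, hb', rfl⟩ := Finset.mem_image.1 hb
    exact (h.inj a ha' b hb').symm
  · intro a ha b hb hn
    obtain ⟨a, ha', rfl⟩ := Finset.mem_image.1 ha
    obtain ⟨b, hb', rfl⟩ := Finset.mem_image.1 hb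
    exact (h.lab a ha' b hb' fun e => hn ((h.inj a ha' b hb').1 e)).symm
  · intro a ha
    obtain ⟨a, ha', rfl⟩ := Finset.mem_image.1 ha
    exact (h.col a ha').symm

theorem uni_chain (g : Gen ρ π) (g' : Gen ρ' π') {p : Finset (V × V')}
    (h : PIso ρ π ρ' π' p) (h2 : SM ρ' (p.image Prod.snd)) {X : Finset V}
    (hX : Strg ρ (p.image Prod.fst) X) :
    ∃ q : Finset (V × V'), p ⊆ q ∧ PIso ρ π ρ' π' q ∧ SM ρ' (q.image Prod.snd) ∧
      q.image Prod.fst = X := by
  induction hX with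
  | refl => exact ⟨p, Finset.Subset.refl _, h, h2, rfl⟩
  | step X x _ hx hok ih =>
    obtain ⟨q, hpq, hq, hs, hqX⟩ := ih
    have hg : ∀ y' : V', ∃ y : V, y' ∈ q.image Prod.snd → (y, y') ∈ q := by
      intro y'
      by_cases h3 : y' ∈ q.image Prod.snd
      · obtain ⟨a, ha, rfl⟩ := Finset.mem_image.1 h3
        exact ⟨a.1, fun _ => ha⟩
      · exact ⟨x, fun h4 => absurd h4 h3⟩
    choose f hf using hg
    have hfX : ∀ y' ∈ q.image Prod.snd, f y' ∈ X := fun y' hy' =>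
      hqX ▸ Finset.mem_image_of_mem Prod.fst (hf y' hy')
    have hok' : AdR ρ' (q.image Prod.snd) fun y' => ρ x (f y') := by
      refine ⟨fun y hy z hz hn => ?_, fun m => ?_⟩
      · have h3 := hf y hy
        have h4 := hf z hz
        have h5 : f y ≠ f z := fun e => hn ((hq.inj _ h3 _ h4).1 e)
        rw [hq.lab _ h3 _ h4 h5]
        exact hok.1 _ (hfX y hy) _ (hfX z hz) h5
      · have h3 : ((q.image Prod.snd).filter fun y => ρ x (f y) ≤ m).card ≤
            (X.filter fun y => ρ x y ≤ m).card := by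
          refine Finset.card_le_card_of_injOn f ?_ ?_
          · intro y hy
            have hy' := Finset.mem_filter.1 (Finset.mem_coe.1 hy)
            exact Finset.mem_coe.2 (Finset.mem_filter.2 ⟨hfX y hy'.1, hy'.2⟩)
          · intro y hy z hz e
            have hy' := (Finset.mem_filter.1 (Finset.mem_coe.1 hy)).1
            have hz' := (Finset.mem_filter.1 (Finset.mem_coe.1 hz)).1
            exact (hq.inj _ (hf y hy') _ (hf z hz')).1 e
        exact h3.trans (hok.2 m)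
    obtain ⟨x', hx', hr, hc, hs'⟩ := g'.ext _ hs _ hok' (π x)
    have hmem : ∀ a ∈ q, a.1 ∈ X := fun a ha => hqX ▸ Finset.mem_image_of_mem Prod.fst ha
    have hmem' : ∀ a ∈ q, a.2 ∈ q.image Prod.snd := fun a ha =>
      Finset.mem_image_of_mem Prod.snd ha
    have hfa : ∀ a ∈ q, f a.2 = a.1 := fun a ha =>
      (hq.inj _ (hf a.2 (hmem' a ha)) _ ha).2 rfl
    refine ⟨insert (x, x') q, hpq.trans (Finset.subset_insert _ _), ⟨?_, ?_, ?_⟩, ?_, ?_⟩
    · intro a ha b hb
      rcases Finset.mem_insert.1 ha with rfl | ha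
      · rcases Finset.mem_insert.1 hb with rfl | hb
        · exact ⟨fun _ => rfl, fun _ => rfl⟩
        · exact ⟨fun e => absurd (hmem b hb) (by rw [← show x = b.1 from e]; exact hx),
            fun e => absurd (hmem' b hb) (by rw [← show x' = b.2 from e]; exact hx')⟩
      · rcases Finset.mem_insert.1 hb with rfl | hb
        · exact ⟨fun e => absurd (hmem a ha) (by rw [show a.1 = x from e]; exact hx),
            fun e => absurd (hmem' a ha) (by rw [show a.2 = x' from e]; exact hx')⟩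
        · exact hq.inj a ha b hb
    · intro a ha b hb hn
      rcases Finset.mem_insert.1 ha with rfl | ha
      · rcases Finset.mem_insert.1 hb with rfl | hb
        · exact absurd rfl hn
        · change ρ' x' b.2 = ρ x b.1
          rw [hr _ (hmem' b hb), hfa b hb]
      · rcases Finset.mem_insert.1 hb with rfl | hb
        · change ρ' a.2 x' = ρ a.1 x
          rw [g'.symm, g.symm, hr _ (hmem' a ha), hfa a ha]
        · exact hq.lab a ha b hb hn
    · intro a ha
      rcases Finset.mem_insert.1 ha with rfl | ha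
      · exact hc
      · exact hq.col a ha
    · rw [Finset.image_insert]
      exact hs'
    · rw [Finset.image_insert, hqX]

/-- the forth step -/
theorem uni_forth (g : Gen ρ π) (g' : Gen ρ' π') {p : Finset (V × V')}
    (h : PIso ρ π ρ' π' p) (h1 : SM ρ (p.image Prod.fst)) (h2 : SM ρ' (p.image Prod.snd)) (x : V) :
    ∃ q : Finset (V × V'), p ⊆ q ∧ PIso ρ π ρ' π' q ∧ SM ρ (q.image Prod.fst) ∧
      SM ρ' (q.image Prod.snd) ∧ ∃ y, (x, y) ∈ q := by
  obtain ⟨F, hF, hs⟩ := g.fin (insert x (p.image Prod.fst))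
  obtain ⟨q, h3, h4, h5, h6⟩ := uni_chain g g' h h2 (h1 F ((Finset.subset_insert _ _).trans hF))
  refine ⟨q, h3, h4, h6 ▸ hs, h5, ?_⟩
  have hx : x ∈ q.image Prod.fst := h6 ▸ hF (Finset.mem_insert_self _ _)
  obtain ⟨a, ha, he⟩ := Finset.mem_image.1 hx
  exact ⟨a.2, by rw [← he]; exact ha⟩

/-- the back step -/
theorem uni_back (g : Gen ρ π) (g' : Gen ρ' π') {p : Finset (V × V')}
    (h : PIso ρ π ρ' π' p) (h1 : SM ρ (p.image Prod.fst)) (h2 : SM ρ' (p.image Prod.snd))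
    (y : V') :
    ∃ q : Finset (V × V'), p ⊆ q ∧ PIso ρ π ρ' π' q ∧ SM ρ (q.image Prod.fst) ∧
      SM ρ' (q.image Prod.snd) ∧ ∃ x, (x, y) ∈ q := by
  have e1 : (p.image Prod.swap).image Prod.fst = p.image Prod.snd := by
    rw [Finset.image_image]
    rfl
  have e2 : (p.image Prod.swap).image Prod.snd = p.image Prod.fst := by
    rw [Finset.image_image]
    rfl
  obtain ⟨q, h3, h4, h5, h6, x, hx⟩ := uni_forth g' g h.swap (e1 ▸ h2) (e2 ▸ h1) y
  have e3 : (q.image Prod.swap).image Prod.fst = q.image Prod.snd := by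
    rw [Finset.image_image]
    rfl
  have e4 : (q.image Prod.swap).image Prod.snd = q.image Prod.fst := by
    rw [Finset.image_image]
    rfl
  refine ⟨q.image Prod.swap, fun a ha => ?_, h4.swap, e3 ▸ h6, e4 ▸ h5, x,
    Finset.mem_image.2 ⟨(y, x), hx, rfl⟩⟩
  exact Finset.mem_image.2 ⟨a.swap, h3 (Finset.mem_image_of_mem _ ha), Prod.swap_swap a⟩

/-- **Uniqueness.** Two generic labelled sets over the same set of colours are isomorphic over the
colours. -/
theorem uni [Countable V] [Countable V'] (g : Gen ρ π) (g' : Gen ρ' π') :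
    ∃ e : V ≃ V', (∀ x y, x ≠ y → ρ' (e x) (e y) = ρ x y) ∧ ∀ x, π' (e x) = π x := by
  cases nonempty_encodable V
  cases nonempty_encodable V'
  let PI : Type := {p : Finset (V × V') // PIso ρ π ρ' π' p ∧ SM ρ (p.image Prod.fst) ∧
    SM ρ' (p.image Prod.snd)}
  let L : V → Order.Cofinal PI := fun x =>
    { carrier := {p | ∃ y, (x, y) ∈ p.1}
      isCofinal := fun p => by
        obtain ⟨q, h1, h2, h3, h4, h5⟩ := uni_forth g g' p.2.1 p.2.2.1 p.2.2.2 x
        exact ⟨⟨q, h2, h3, h4⟩, h5, h1⟩ }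
  let R : V' → Order.Cofinal PI := fun y =>
    { carrier := {p | ∃ x, (x, y) ∈ p.1}
      isCofinal := fun p => by
        obtain ⟨q, h1, h2, h3, h4, h5⟩ := uni_back g g' p.2.1 p.2.2.1 p.2.2.2 y
        exact ⟨⟨q, h2, h3, h4⟩, h5, h1⟩ }
  let cof : V ⊕ V' → Order.Cofinal PI := fun p => Sum.recOn p L R
  let p0 : PI := ⟨∅, ⟨fun a ha => absurd ha (Finset.notMem_empty _),
    fun a ha => absurd ha (Finset.notMem_empty _), fun a ha => absurd ha (Finset.notMem_empty _)⟩,
    by rw [Finset.image_empty]; exact g.emp, by rw [Finset.image_empty]; exact g'.emp⟩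
  let I : Order.Ideal PI := Order.idealOfCofinals p0 cof
  have hF : ∀ a : V, ∃ b : V', ∃ f ∈ I, (a, b) ∈ f.1 := by
    intro a
    obtain ⟨f, ⟨b, hb⟩, hf⟩ := Order.cofinal_meets_idealOfCofinals p0 cof (Sum.inl a)
    exact ⟨b, f, hf, hb⟩
  have hG : ∀ b : V', ∃ a : V, ∃ f ∈ I, (a, b) ∈ f.1 := by
    intro b
    obtain ⟨f, ⟨a, ha⟩, hf⟩ := Order.cofinal_meets_idealOfCofinals p0 cof (Sum.inr b)
    exact ⟨a, f, hf, ha⟩
  choose F hF2 using hF
  choose G hG2 using hG
  have key : ∀ a a' b b', (∃ f ∈ I, (a, b) ∈ f.1) → (∃ f ∈ I, (a', b') ∈ f.1) →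
      ∃ m : PI, (a, b) ∈ m.1 ∧ (a', b') ∈ m.1 := by
    rintro a a' b b' ⟨f, hf, h1⟩ ⟨f', hf', h2⟩
    rcases I.directed _ hf _ hf' with ⟨m, _, h3, h4⟩
    exact ⟨m, h3 h1, h4 h2⟩
  refine ⟨⟨F, G, fun a => ?_, fun b => ?_⟩, fun x y hn => ?_, fun x => ?_⟩
  · obtain ⟨m, h1, h2⟩ := key _ _ _ _ (hG2 (F a)) (hF2 a)
    exact (m.2.1.inj _ h1 _ h2).2 rfl
  · obtain ⟨m, h1, h2⟩ := key _ _ _ _ (hG2 b) (hF2 (G b))
    exact ((m.2.1.inj _ h1 _ h2).1 rfl).symm
  · obtain ⟨m, h1, h2⟩ := key _ _ _ _ (hF2 x) (hF2 y)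
    exact m.2.1.lab _ h1 _ h2 hn
  · obtain ⟨m, h1, _⟩ := key _ _ _ _ (hF2 x) (hF2 x)
    exact m.2.1.col _ h1

theorem thm_UNI : St_UNI := by
  intro V V' H _ _ ρ ρ' π π' g g'
  exact uni g g'

end VSG
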