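import Pool.Agent.VSG.St3
import Pool.Agent.VSG.Inf
import Pool.Agent.VSG.EX
import Pool.Agent.VSG.UNI
import Pool.Agent.VSG.CE
import Pool.Agent.VSG.CU
import Pool.Agent.VSG.CD
import Pool.Agent.VSG.CS
import Pool.Agent.VSG.CW
import Pool.Agent.VSG.DFN
import Pool.Agent.VSG.GDF
import Pool.Agent.VSG.GU
import Pool.Agent.VSG.GD
import Pool.Agent.VSG.GG
import Pool.Agent.VSG.GC
import Pool.Agent.VSG.GP
import Pool.Agent.VSG.TRF
import Pool.Agent.VSG.GAX
import Pool.Agent.VSG.GF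
import Pool.Agent.VSG.POS
import Pool.Agent.VSG.BC
import Pool.Agent.VSG.RU
import Pool.Agent.VSG.RD
import Pool.Agent.VSG.RI
import Pool.Agent.VSG.RT
import Pool.Agent.VSG.RA
import Pool.Agent.VSG.RF
import Pool.Agent.VSG.RC
import Pool.Agent.VSG.RP

/-!
# Vaught's conjecture and sparse graphs: three scales of sparsity (assembly)
-/

set_option autoImplicit false

namespace VSG

open FirstOrder Set Pool.Agent.Helper5.DU Pool.Agent.Helper6.Str Pool.Agent.Helper79.VC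

/-! ### Invariance under isomorphism -/

theorem gaif_iso {L : FirstOrder.Language.{0, 0}} {V V' : Type} {S : L.Structure V}
    {S' : L.Structure V'} (h : Iso S S') : Nonempty (gaif S ≃g gaif S') := by
  obtain ⟨e, he⟩ := h
  refine ⟨⟨e, fun {x y} => ⟨fun h1 => ?_, fun h1 => RI_gaif he x y h1⟩⟩⟩
  have h2 := RI_gaif he.symm (e x) (e y) h1
  simpa using h2

open Classical in
theorem Elm.map {V V' : Type} {H : SimpleGraph V} {H' : SimpleGraph V'} {k : ℕ} {X : Finset V}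
    (h : Elm H k X) (e : V ≃ V') (hadj : ∀ x y, H'.Adj (e x) (e y) ↔ H.Adj x y) :
    Elm H' k (X.image e) := by
  induction h with
  | emp => exact Elm.emp
  | add X x _ hx hc hk ih =>
    rw [Finset.image_insert]
    refine ih.add _ _ ?_ ?_ ?_
    · intro h1
      obtain ⟨y, hy, hy'⟩ := Finset.mem_image.1 h1
      exact hx (e.injective hy' ▸ hy)
    · intro y' hy' z' hz' hne h1 h2
      obtain ⟨y, hy, rfl⟩ := Finset.mem_image.1 hy'
      obtain ⟨z, hz, rfl⟩ := Finset.mem_image.1 hz'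
      rw [hadj] at h1 h2 ⊢
      exact hc y hy z hz (fun h3 => hne (h3 ▸ rfl)) h1 h2
    · refine le_trans ?_ hk
      rw [← Finset.card_image_of_injective (X.filter fun y => H.Adj x y) e.injective]
      refine Finset.card_le_card fun y' hy' => ?_
      obtain ⟨h1, h2⟩ := Finset.mem_filter.1 hy'
      obtain ⟨y, hy, rfl⟩ := Finset.mem_image.1 h1
      rw [hadj] at h2
      exact Finset.mem_image_of_mem _ (Finset.mem_filter.2 ⟨hy, h2⟩)

theorem Tw.map {V V' : Type} {G : SimpleGraph V} {G' : SimpleGraph V'} (e : G ≃g G')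
    {X : Finset V'} {k : ℕ} (h : Tw G (X.map e.symm.toEquiv.toEmbedding) k) : Tw G' X k := by
  classical
  obtain ⟨H, h1, h2⟩ := h
  have hadj : ∀ x y, (H.map e).Adj (e.toEquiv x) (e.toEquiv y) ↔ H.Adj x y := fun x y =>
    SimpleGraph.map_adj_apply (f := e.toEquiv.toEmbedding)
  refine ⟨H.map e, fun x hx y hy hxy => ?_, ?_⟩
  · have h3 : H.Adj (e.symm x) (e.symm y) := by
      refine h1 _ (Finset.mem_map.2 ⟨x, hx, rfl⟩) _ (Finset.mem_map.2 ⟨y, hy, rfl⟩) ?_
      exact e.symm.map_adj_iff.2 hxy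
    have h4 : (H.map e).Adj (e (e.symm x)) (e (e.symm y)) := (hadj _ _).2 h3
    rwa [RelIso.apply_symm_apply, RelIso.apply_symm_apply] at h4
  · have h3 := h2.map e.toEquiv hadj
    have h4 : ((X.map e.symm.toEquiv.toEmbedding).image e.toEquiv) = X := by
      ext x
      simp only [Finset.mem_image, Finset.mem_map]
      constructor
      · rintro ⟨a, ⟨y, hy, rfl⟩, rfl⟩
        have h5 : e.toEquiv (e.symm.toEquiv.toEmbedding y) = y := e.apply_symm_apply y
        rwa [h5]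
      · intro hx
        exact ⟨_, ⟨x, hx, rfl⟩, e.apply_symm_apply x⟩
    rwa [h4] at h3

theorem LT.iso {V V' : Type} {G : SimpleGraph V} {G' : SimpleGraph V'} (e : G ≃g G')
    {s : ℕ → ℕ} (h : LT s G) : LT s G' := by
  intro r v X hX
  refine Tw.map e (h r (e.symm v) _ fun u hu => ?_)
  obtain ⟨w, hw, rfl⟩ := Finset.mem_map.1 hu
  obtain ⟨p, hp⟩ := hX w hw
  refine ⟨p.map e.symm.toHom, ?_⟩
  rw [SimpleGraph.Walk.length_map]
  exact hp

theorem SubF.map {V V' : Type} {G : SimpleGraph V} {G' : SimpleGraph V'} {f : V → V'}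
    (hf : Function.Injective f) (h : ∀ x y, G.Adj x y → G'.Adj (f x) (f y)) {r n : ℕ}
    {F : SimpleGraph (Fin n)} (hs : SubF G r n F) : SubF G' r n F := by
  obtain ⟨b, P, hb, h1, h2, h3⟩ := hs
  refine ⟨fun i => f (b i), fun i j => (P i j).map f, hf.comp hb, fun i j hij hF => ?_,
    fun i j k hij hF hk => ?_, fun i j i' j' hij hF hij' hF' hne => ?_⟩
  · have h4 : f (b i) :: ((P i j).map f ++ [f (b j)]) = (b i :: (P i j ++ [b j])).map f := by
      simp
    refine ⟨?_, ?_, ?_⟩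
    · rw [List.length_map]
      exact (h1 i j hij hF).1
    · rw [h4]
      exact (h1 i j hij hF).2.1.map hf
    · rw [h4, List.isChain_map]
      exact (h1 i j hij hF).2.2.imp fun x y hxy => h x y hxy
  · obtain ⟨x, hx, hx'⟩ := List.mem_map.1 hk
    exact h2 i j k hij hF (hf hx' ▸ hx)
  · intro x hx hx'
    obtain ⟨y, hy, rfl⟩ := List.mem_map.1 hx
    obtain ⟨z, hz, hz'⟩ := List.mem_map.1 hx'
    exact h3 i j i' j' hij hF hij' hF' hne hy (hf hz' ▸ hz)

theorem BE.iso {V V' : Type} {G : SimpleGraph V} {G' : SimpleGraph V'} (e : G ≃g G')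
    {s : ℕ → ℕ} (h : BE s G) : BE s G' := fun r n F hs =>
  h r n F (hs.map e.symm.injective fun _ _ hxy => e.symm.map_adj_iff.2 hxy)

/-! ### Bounded functions -/

theorem hasSub_of_top {V : Type} {G : SimpleGraph V} {r n : ℕ} : SubF G r n ⊤ ↔ HasSub G r n := by
  constructor
  · rintro ⟨b, P, hb, h1, h2, h3⟩
    exact ⟨b, P, hb, fun i j hij => h1 i j hij hij.ne, fun i j k hij => h2 i j k hij hij.ne,
      fun i j i' j' hij hij' => h3 i j i' j' hij hij.ne hij' hij'.ne⟩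
  · rintro ⟨b, P, hb, h1, h2, h3⟩
    exact ⟨b, P, hb, fun i j hij _ => h1 i j hij, fun i j k hij _ => h2 i j k hij,
      fun i j i' j' hij _ hij' _ => h3 i j i' j' hij hij'⟩

theorem BE.nosub {V : Type} {G : SimpleGraph V} {s : ℕ → ℕ} (h : BE s G) {r c : ℕ}
    (hc : s r ≤ c) : ¬ HasSub G r (2 * c + 2) := by
  classical
  intro hs
  have h1 := h r (2 * c + 2) ⊤ (hasSub_of_top.2 hs)
  have h2 : (⊤ : SimpleGraph (Fin (2 * c + 2))).edgeSet.ncard = (2 * c + 2).choose 2 := by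
    rw [← SimpleGraph.coe_edgeFinset, Set.ncard_coe_finset,
      SimpleGraph.card_edgeFinset_top_eq_card_choose_two, Fintype.card_fin]
  rw [h2, Nat.choose_two_right] at h1
  have h3 : (2 * c + 2) * (2 * c + 2 - 1) / 2 = (c + 1) * (2 * c + 1) := by
    have h4 : (2 * c + 2) * (2 * c + 2 - 1) = 2 * ((c + 1) * (2 * c + 1)) := by
      have h5 : 2 * c + 2 - 1 = 2 * c + 1 := by omega
      rw [h5]
      ring
    rw [h4, Nat.mul_div_cancel_left _ (by norm_num)]
  rw [h3] at h1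
  have h4 : s r * (2 * c + 2) ≤ c * (2 * c + 2) := Nat.mul_le_mul_right _ hc
  nlinarith

/-! ### Unbounded functions -/

/-- the dichotomy for sentences of `L_{ω₁,ω}` about graphs in the class `C` -/
def VCG (C : (V : Type) → SimpleGraph V → Prop) : Prop :=
  ∀ κ : FmI LP 0, (∀ G ∈ ModI κ, IsGr G ∧ C ℕ (gaif G)) → CtblK (ModI κ) ∨ PerfK (ModI κ)

theorem isGr_pur {V : Type} {W : LG.Structure V} (h : IsGraph W) : IsGr (pur W) := by
  refine ⟨fun u hu => ?_, fun u w huw => ?_⟩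
  · have h1 : PG u u := hu
    rcases u with x | q
    · exact h.1 x h1
    · obtain ⟨-, h2⟩ := h1
      omega
  · have h1 : PG u w := huw
    show PG w u
    rcases u with x | q <;> rcases w with y | q'
    · exact h.2 x y h1
    · exact h1
    · exact h1
    · exact ⟨h1.1.symm, h1.2.symm⟩

theorem isGraph_grS (ℓ : ℕ → ℕ) {V : Type} (S : LN.Structure V) : IsGraph (grS ℓ S) := by
  refine ⟨fun u hu => ?_, fun u w huw => ?_⟩
  · have h1 : GA u u := hu
    rcases u with x | q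
    · exact h1
    · obtain ⟨-, -, h2⟩ := h1
      omega
  · have h1 : GA u w := huw
    show GA w u
    rcases u with x | q <;> rcases w with y | q'
    · exact h1
    · exact h1
    · exact h1
    · exact ⟨h1.1.symm, h1.2.1.symm, h1.2.2.symm⟩

theorem hard (C : (V : Type) → SimpleGraph V → Prop)
    (hC : ∀ (V V' : Type) (G : SimpleGraph V) (G' : SimpleGraph V'), Nonempty (G ≃g G') →
      C V G → C V' G')
    (ℓ : ℕ → ℕ) (hℓ : ∀ i, 2 ≤ ℓ i)
    (h1 : ∀ (V : Type) (S : LN.Structure V), Irr S → Elim S → C _ (gaif (pur (grS ℓ S))))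
    (hV : VCG C) : VCL := by
  intro ψ hψ hW
  have hGU : St_GU := thm_GU
  have hGD : St_GD := thm_GD
  have hRD : St_RD := thm_RD
  obtain ⟨χ, hχ⟩ := thm_GF thm_DFN (thm_TRF thm_DFN) (thm_GAX thm_DFN) ℓ hℓ ψ
    fun S hS => (hψ S hS).1
  have hgr : ∀ W ∈ ModI χ, IsGraph W := by
    intro W hW
    rw [hχ] at hW
    obtain ⟨S, _, hI⟩ := hW
    exact thm_GG ℓ ℕ S W hI
  obtain ⟨κ, hκ⟩ := thm_RF thm_DFN (thm_RT thm_DFN) (thm_RA thm_DFN) χ hgr
  have h2 := hV κ fun G hG => by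
    rw [hκ] at hG
    obtain ⟨W, hW, hI⟩ := hG
    refine ⟨(thm_RI _ _ _ _ hI).1 (isGr_pur (hgr W hW)), ?_⟩
    rw [hχ] at hW
    obtain ⟨S, hS, hJ⟩ := hW
    have h3 : Iso (pur (grS ℓ S)) G := (thm_RU _ _ _ _ hJ).trans hI
    exact hC _ _ _ _ (gaif_iso h3) (h1 ℕ S (hψ S hS).1 (hψ S hS).2)
  rw [hκ] at h2
  have h3 : CtblK (ModI χ) ∨ PerfK (ModI χ) := h2.imp (thm_RC hRD _)
    (thm_RP thm_BC thm_RU hRD _ fun W W' => modI_iso χ W W')
  rw [hχ] at h3
  exact h3.imp (thm_GC hGD ℓ hℓ _) (thm_GP hGU hGD ℓ hℓ _ (fun S hS => (hψ S hS).1) hW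
    fun S S' hI hS => modI_iso ψ S S' hI hS)

theorem hard_LT (hLTG : St_LTG) (hLTP : St_LTP) (s : ℕ → ℕ) (hm : Monotone s) (h1 : 1 ≤ s 0)
    (hu : ∀ c, ∃ r, c < s r) (hV : VCG fun _ G => LT s G) : VCL := by
  obtain ⟨ℓ, hℓ, hs⟩ := exists_suit s hm hu
  have h2 : ∀ r, 1 ≤ s r := fun r => h1.trans (hm (Nat.zero_le r))
  refine hard _ (fun V V' G G' ⟨e⟩ h => LT.iso e h) ℓ hℓ (fun V S hI hE => ?_) hV
  refine hLTP _ _ (isGraph_grS ℓ S) s h2 (hLTG ℓ s h2 hℓ (fun i r h => ?_) V S hI hE)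
  have h3 := hs i r (by omega)
  omega

theorem hard_BE (hBEG : St_BEG) (s : ℕ → ℕ) (hm : Monotone s) (h2 : 2 ≤ s 0)
    (hu : ∀ c, ∃ r, c < s r) (hV : VCG fun _ G => BE s G) : VCL := by
  obtain ⟨ℓ, hℓ, hs⟩ := exists_suit s hm hu
  refine hard _ (fun V V' G G' ⟨e⟩ h => BE.iso e h) ℓ hℓ (fun V S hI hE => ?_) hV
  refine hBEG ℓ s (fun r => h2.trans (hm (Nat.zero_le r))) hℓ (fun i r h => ?_) V S hI hE
  have h3 := hs i r (by omega)
  omega

theorem hard_ND (hLTB : St_LTB) (hLTG : St_LTG) (hLTP : St_LTP) (t : ℕ → ℕ) (hm : Monotone t)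
    (h3 : 3 ≤ t 0) (hu : ∀ c, ∃ r, c < t r) (hV : VCG fun _ G => ND t G) : VCL := by
  have h4 : ∀ r, 3 ≤ t r := fun r => h3.trans (hm (Nat.zero_le r))
  let s : ℕ → ℕ := fun j => t ((j - 1) / 2) - 2
  have hs : ∀ r, s (2 * r + 1) + 2 = t r := by
    intro r
    have h5 : (2 * r + 1 - 1) / 2 = r := by omega
    show t ((2 * r + 1 - 1) / 2) - 2 + 2 = t r
    rw [h5]
    have := h4 r
    omega
  refine hard_LT hLTG hLTP s (fun i j hij => ?_) ?_ (fun c => ?_) fun κ hκ => ?_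
  · exact Nat.sub_le_sub_right (hm (Nat.div_le_div_right (Nat.sub_le_sub_right hij 1))) 2
  · show 1 ≤ t ((0 - 1) / 2) - 2
    have := h4 ((0 - 1) / 2)
    omega
  · obtain ⟨r, hr⟩ := hu (c + 2)
    refine ⟨2 * r + 1, ?_⟩
    have := hs r
    omega
  · refine hV κ fun G hG => ⟨(hκ G hG).1, fun r => ?_⟩
    have h5 := hLTB ℕ (gaif G) s (hκ G hG).2 r
    rwa [hs r] at h5

theorem LT.mono {V : Type} {G : SimpleGraph V} {s s' : ℕ → ℕ} (hs : ∀ r, s r ≤ s' r)
    (h : LT s G) : LT s' G := by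
  intro r v X hX
  obtain ⟨H, h1, h2⟩ := h r v X hX
  refine ⟨H, h1, ?_⟩
  clear hX h1
  induction h2 with
  | emp => exact Elm.emp
  | add X x _ hx hc hk ih => exact ih.add _ _ hx hc (hk.trans (hs r))

/-- all three scales at once -/
theorem hard_ALL (hLTB : St_LTB) (hLTG : St_LTG) (hLTP : St_LTP) (hBEG : St_BEG) (t : ℕ → ℕ)
    (hm : Monotone t) (h3 : 3 ≤ t 0) (hu : ∀ c, ∃ r, c < t r)
    (hV : VCG fun _ G => ND t G ∧ BE t G ∧ LT t G) : VCL := by
  have h4 : ∀ r, 3 ≤ t r := fun r => h3.trans (hm (Nat.zero_le r))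
  let s : ℕ → ℕ := fun j => t ((j - 1) / 2) - 2
  have hs : ∀ r, s (2 * r + 1) + 2 = t r := by
    intro r
    have h5 : (2 * r + 1 - 1) / 2 = r := by omega
    show t ((2 * r + 1 - 1) / 2) - 2 + 2 = t r
    rw [h5]
    have := h4 r
    omega
  have hle : ∀ r, s r ≤ t r := by
    intro r
    have h5 : t ((r - 1) / 2) ≤ t r := hm (by omega)
    show t ((r - 1) / 2) - 2 ≤ t r
    omega
  have hsm : Monotone s := fun i j hij =>
    Nat.sub_le_sub_right (hm (Nat.div_le_div_right (Nat.sub_le_sub_right hij 1))) 2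
  have hs1 : ∀ r, 1 ≤ s r := by
    intro r
    show 1 ≤ t ((r - 1) / 2) - 2
    have := h4 ((r - 1) / 2)
    omega
  have hsu : ∀ c, ∃ r, c < s r := by
    intro c
    obtain ⟨r, hr⟩ := hu (c + 2)
    refine ⟨2 * r + 1, ?_⟩
    have := hs r
    omega
  obtain ⟨ℓ, hℓ, hsl⟩ := exists_suit s hsm hsu
  refine hard (fun _ G => LT s G ∧ BE t G)
    (fun V V' G G' ⟨e⟩ h => ⟨LT.iso e h.1, BE.iso e h.2⟩) ℓ hℓ (fun V S hI hE => ⟨?_, ?_⟩)
    fun κ hκ => hV κ fun G hG => ⟨(hκ G hG).1, fun r => ?_, (hκ G hG).2.2,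
      LT.mono hle (hκ G hG).2.1⟩
  · refine hLTP _ _ (isGraph_grS ℓ S) s hs1 (hLTG ℓ s hs1 hℓ (fun i r h => ?_) V S hI hE)
    have h3 := hsl i r (by omega)
    omega
  · refine hBEG ℓ t (fun r => (by omega : 2 ≤ 3).trans (h4 r)) hℓ (fun i r h => ?_) V S hI hE
    have h5 := hsl i r (by omega)
    have h6 := hle r
    omega
  · have h5 := hLTB ℕ (gaif G) s (hκ G hG).2.1 r
    rwa [hs r] at h5

/-! ### The infinitary conjecture and the first-order conjecture -/

/-- the dichotomy for all countable relational languages, theories and sentences -/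
theorem all_of_layered (hV : VCL) :
    ∀ (L : FirstOrder.Language.{0, 0}) [∀ n, IsEmpty (L.Functions n)]
      [∀ n, Countable (L.Relations n)] (T : L.Theory) (φ : FmI L 0),
      CtblK {S : L.Structure ℕ | Pool.Agent.Helper6.VC.IsMod T φ S} ∨
        PerfK {S : L.Structure ℕ | Pool.Agent.Helper6.VC.IsMod T φ S} :=
  all_of_VCL thm_DFN (thm_GDF thm_DFN) thm_CE thm_CD (thm_CU thm_UNI) thm_CS thm_CW hV

/-- a valid sentence -/
def topS (L : FirstOrder.Language.{0, 0}) : FmI L 0 := .ex (.eq 0 0)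

theorem sat_topS {L : FirstOrder.Language.{0, 0}} (S : L.Structure ℕ) (v : Fin 0 → ℕ) :
    Sat S (topS L) v := ⟨0, rfl⟩

theorem full_of_all
    (hV : ∀ (L : FirstOrder.Language.{0, 0}) [∀ n, IsEmpty (L.Functions n)]
      [∀ n, Countable (L.Relations n)] (T : L.Theory) (φ : FmI L 0),
      CtblK {S : L.Structure ℕ | Pool.Agent.Helper6.VC.IsMod T φ S} ∨
        PerfK {S : L.Structure ℕ | Pool.Agent.Helper6.VC.IsMod T φ S}) :
    ∀ (L : FirstOrder.Language.{0, 0}), Countable L.Symbols → ∀ (T : L.Theory),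
      (∃ g : ℕ → L.Structure ℕ, ∀ S : L.Structure ℕ,
          @FirstOrder.Language.Theory.Model L ℕ S T →
            ∃ n : ℕ, Nonempty (@FirstOrder.Language.Equiv L ℕ ℕ S (g n))) ∨
      (∃ f : (ℕ → Bool) → L.Structure ℕ,
          (∀ x : ℕ → Bool, @FirstOrder.Language.Theory.Model L ℕ (f x) T) ∧
          (∀ x y : ℕ → Bool,
              Nonempty (@FirstOrder.Language.Equiv L ℕ ℕ (f x) (f y)) → x = y) ∧
          (∀ (n : ℕ) (R : L.Relations n) (a : Fin n → ℕ),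
              IsClopen {x : ℕ → Bool | @FirstOrder.Language.Structure.RelMap L ℕ (f x) n R a}) ∧
          (∀ (n : ℕ) (F : L.Functions n) (a : Fin n → ℕ) (b : ℕ),
              IsOpen {x : ℕ → Bool | @FirstOrder.Language.Structure.funMap L ℕ (f x) n F a = b})) := by
  refine VPF.thm_C (fun _ => True) trivial (Or.inl trivial) fun L' hR hF h12 T' _ => ?_
  have h1 := hV L' T' (topS L')
  have h2 : {S : L'.Structure ℕ | Pool.Agent.Helper6.VC.IsMod T' (topS L') S} = VPF.ModF T' := by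
    ext S
    exact ⟨fun h => h.1, fun h => ⟨h, sat_topS S _⟩⟩
  rwa [h2] at h1

end VSG
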