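import Pool.Agent.VSG.Lang

/-!
# Vaught's conjecture and sparse graphs: statements of the modules

Part 0 (generic labellings): `St_EX`, `St_UNI`. Part 1 (coding of a theory `T` in layered structures):
`St_CE`, `St_CU`, `St_CD`, `St_CS`, `St_CW`, `St_CC`, `St_CP`, `St_DFN`, `St_GDF`, `St_QF`, `St_CF`.
Part 2 (graphs of layered structures): `St_GU`, `St_GD`, `St_GG`, `St_GS`, `St_GC`, `St_GP`, `St_TRF`,
`St_GAX`, `St_GF`. Part 3: `St_POS`.
-/

set_option autoImplicit false

namespace VSG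

open FirstOrder Set Pool.Agent.Helper5.DU Pool.Agent.Helper6.Str Pool.Agent.Helper79.VC

/-! ### Part 0 -/

/-- EX. Proof. Points are `0, 1, 2, ..`; `F_n = {0..n-1}`. Enumerate all tasks `(F, r, h)` (`F : Finset ℕ`,
`r` a function on `F`, `h : ℕ`), each infinitely often. Step `n`: if the `n`-th task has `F ⊆ F_n`,
`Strg ρ F F_n`, `AdR ρ F r`, put `ρ n y = r y` for `y ∈ F`, `ρ n y = M` for `y ∈ F_n ∖ F` with `M ≥ n`,
`M ≥` all labels so far and all `r y`, and `π n = h`; otherwise the task is replaced by `F = ∅, h = 0`. Then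
`Adm ρ F_n n`, so `Strg ρ F_n F_{n+1}`, and `Strg ρ (insert n F) F_{n+1}` by `Strg.amalgam`. So every
`F_n` is strong in `ℕ`, and `SM ρ F ↔ ∃ n, F ⊆ F_n ∧ Strg ρ F F_n` (`SM.of_strg`). -/
def St_EX : Prop := ∃ (ρ : ℕ → ℕ → ℕ) (π : ℕ → ℕ), Gen ρ π

/-- UNI. Proof. Back and forth with finite partial bijections `g : F → F'` between strong sets which
preserve the labels of distinct points and `π`. Given `x ∉ F` choose a finite strong `F₁ ∋ x`, `F ⊆ F₁`
(`Gen.fin`); `Strg ρ F F₁`; add the points of `F₁ ∖ F` one at a time: `Strg ρ F X`, `Adm ρ X z`; `X` and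
`insert z X` are strong (`SM.of_strg`), and `Gen.ext` for the image of `X` gives the image of `z`. -/
def St_UNI : Prop :=
  ∀ (V V' H : Type) [Countable V] [Countable V'] (ρ : V → V → ℕ) (ρ' : V' → V' → ℕ) (π : V → H)
    (π' : V' → H), Gen ρ π → Gen ρ' π' →
    ∃ e : V ≃ V', (∀ x y, x ≠ y → ρ' (e x) (e y) = ρ x y) ∧ ∀ x, π' (e x) = π x

/-! ### Part 1 -/

/-- the setting: a language with unary and binary relation symbols, numbered by `e1`, `e2` -/
structure Base (L : FirstOrder.Language.{0, 0}) (e1 : L.Relations 1 → ℕ)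
    (e2 : L.Relations 2 → ℕ) : Prop where
  fn : ∀ n, IsEmpty (L.Functions n)
  ar : ∀ n, n ≠ 1 → n ≠ 2 → IsEmpty (L.Relations n)
  i1 : Function.Injective e1
  i2 : Function.Injective e2

/-- CE. From `St_EX`: take `mkN` of the right-hand sides in `IsCod`. -/
def St_CE : Prop :=
  ∀ (L : FirstOrder.Language.{0, 0}) (e1 : L.Relations 1 → ℕ) (e2 : L.Relations 2 → ℕ)
    (A : L.Structure ℕ), ∃ (S : LN.Structure ℕ) (ρ : ℕ → ℕ → ℕ) (π : ℕ → ℕ), IsCod e1 e2 A S ρ π

/-- CU. From `St_UNI`, applied to `h ∘ π` and `π'`, where `h : A ≃ A'`. -/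
def St_CU : Prop :=
  ∀ (L : FirstOrder.Language.{0, 0}) (e1 : L.Relations 1 → ℕ) (e2 : L.Relations 2 → ℕ),
    Base L e1 e2 → ∀ (A A' : L.Structure ℕ) (S S' : LN.Structure ℕ) (ρ ρ' : ℕ → ℕ → ℕ)
    (π π' : ℕ → ℕ), IsCod e1 e2 A S ρ π → IsCod e1 e2 A' S' ρ' π' → Iso A A' → Iso S S'

/-- CD. `π` is surjective (`Gen.ext` for `F = ∅`). `π x = π y ↔ x = y ∨ ∃ i, i.unpair.2 = 1 ∧ Bn S i x y`, so
an isomorphism `S ≃ S'` induces a bijection `A ≃ A'`; it preserves the unary relations and the diagonals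
of the binary relations (colours) and the binary relations (data `2 * e2 Q + 3`; choose distinct
representatives `x ≠ y` of the classes, when the two classes are equal use the colour `2 * e2 Q + 1`). -/
def St_CD : Prop :=
  ∀ (L : FirstOrder.Language.{0, 0}) (e1 : L.Relations 1 → ℕ) (e2 : L.Relations 2 → ℕ),
    Base L e1 e2 → ∀ (A A' : L.Structure ℕ) (S S' : LN.Structure ℕ) (ρ ρ' : ℕ → ℕ → ℕ)
    (π π' : ℕ → ℕ), IsCod e1 e2 A S ρ π → IsCod e1 e2 A' S' ρ' π' → Iso S S' → Iso A A'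

/-- CS. Since `Dat .. 0` is always true and `Nat.pair a 0 ≤ Nat.pair a b`: for `x ≠ y`,
`LAdj S n x y ↔ Nat.pair (ρ x y) 0 < n`, and `Nat.pair a 0 = a * a + a` is increasing in `a`, `≥ a`. For a finite
`X`: `Strg ρ ∅ X` (`Gen.emp`); `f` = the position in the enumeration of `X` (induction on `Strg`: new point gets a
larger value). The clique condition is the first half of `Adm`, the bound: `LAdj S n x y → ρ x y ≤ n`
(even `< n`), and at most `n` earlier points have `ρ x y ≤ n`. -/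
def St_CS : Prop :=
  ∀ (L : FirstOrder.Language.{0, 0}) (e1 : L.Relations 1 → ℕ) (e2 : L.Relations 2 → ℕ)
    (A : L.Structure ℕ) (S : LN.Structure ℕ) (ρ : ℕ → ℕ → ℕ) (π : ℕ → ℕ),
    IsCod e1 e2 A S ρ π → Irr S ∧ Elim S

/-- CW. `i = Nat.pair a b`. For `x ≠ y`: `¬ Bn S i x y` iff `ρ x y ≠ a` or (`ρ x y = a` and the datum `b` fails).
`ρ x y ≠ a ↔ ∃ a' ≠ a, Bn S (pair a' 0) x y`. The datum `b` fails: never for `b = 0`; `b = 1`: datum 2; `b = 2`: datum 1;
`b = 2 * e2 Q + 3`: datum `2 * e2 Q + 4`, and conversely; other `b`: always (datum 0). -/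
def St_CW : Prop :=
  ∀ (L : FirstOrder.Language.{0, 0}) (e1 : L.Relations 1 → ℕ) (e2 : L.Relations 2 → ℕ),
    Base L e1 e2 → ∀ T : L.Theory, Wit (CodK e1 e2 T)

/-- CC. From `CE`, `CD`: choose for each `n` (if possible) a model `A_n` of `T` with a coding isomorphic to
`g n`. -/
def St_CC : Prop :=
  ∀ (L : FirstOrder.Language.{0, 0}) (e1 : L.Relations 1 → ℕ) (e2 : L.Relations 2 → ℕ),
    Base L e1 e2 → ∀ T : L.Theory, CtblK (CodK e1 e2 T) → CtblK (VPF.ModF T)

/-- CP. `f` into `CodK` with clopen facts. `E_x(u,v) := u = v ∨ ∃ i, i.unpair.2 = 1 ∧ Bn (f x) i u v` is clopen in `x` (its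
negation for `u ≠ v` is `∃ i, i.unpair.2 = 2 ∧ Bn ..`: both are open; openness of unions, complement). `P_x(u)`: `u` is the least
element of its `E_x`-class: clopen (finitely many conditions). `Nat.nth (P_x)` enumerates the classes (infinitely
many since `π` is onto `ℕ`): `{x | nth P_x a = u}` is clopen (`Nat.count`, as `clopen_count` in `VPF/CodC6`, which can be
copied). `h x` = the `L`-structure on `ℕ` with `R(a) ↔ Un (f x) (2 * e1 R) (nth P_x a)` and `Q(a,b) ↔` (`a = b`: colour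
`2 * e2 Q + 1` of `nth P_x a`; `a ≠ b`: `∃ i, i.unpair.2 = 2 * e2 Q + 3 ∧ Bn (f x) i (nth P_x a) (nth P_x b)`, the negation is
the same with `2 * e2 Q + 4`): clopen. `h x` is isomorphic to the coded `A` (bijection `a ↦ π (nth P_x a)`), so it is in
`ModF T` and `h x ≅ h y` gives `f x ≅ f y` by CU, `x = y`. -/
def St_CP : Prop :=
  ∀ (L : FirstOrder.Language.{0, 0}) (e1 : L.Relations 1 → ℕ) (e2 : L.Relations 2 → ℕ),
    Base L e1 e2 → ∀ T : L.Theory, PerfK (CodK e1 e2 T) → PerfK (VPF.ModF T)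

/-- DFN. Closure properties of definability in `L_{ω₁,ω}`. (Renaming of variables in `FmI`: recursion;
`ex` uses `Fin.snoc`.) -/
def St_DFN : Prop :=
  ∀ (L : FirstOrder.Language.{0, 0}),
    (∀ (n : ℕ) (P : L.Structure ℕ → (Fin n → ℕ) → Prop), Dfn P → Dfn fun S v => ¬ P S v) ∧
    (∀ (n : ℕ) (ι : Type) [Countable ι] (P : ι → L.Structure ℕ → (Fin n → ℕ) → Prop),
      (∀ i, Dfn (P i)) → Dfn fun S v => ∀ i, P i S v) ∧
    (∀ (n : ℕ) (ι : Type) [Countable ι] (P : ι → L.Structure ℕ → (Fin n → ℕ) → Prop),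
      (∀ i, Dfn (P i)) → Dfn fun S v => ∃ i, P i S v) ∧
    (∀ (n : ℕ) (P Q : L.Structure ℕ → (Fin n → ℕ) → Prop), Dfn P → Dfn Q →
      Dfn (fun S v => P S v ∧ Q S v) ∧ Dfn (fun S v => P S v ∨ Q S v) ∧
      Dfn (fun S v => P S v → Q S v) ∧ Dfn (fun S v => P S v ↔ Q S v)) ∧
    (∀ (n : ℕ) (p : Prop), Dfn (L := L) (n := n) fun _ _ => p) ∧
    (∀ (n : ℕ) (i j : Fin n), Dfn (L := L) fun _ v => v i = v j) ∧
    (∀ (n k : ℕ) (R : L.Relations k) (w : Fin k → Fin n),
      Dfn fun (S : L.Structure ℕ) v => S.RelMap R (fun i => v (w i))) ∧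
    (∀ (n m : ℕ) (s : Fin n → Fin m) (P : L.Structure ℕ → (Fin n → ℕ) → Prop), Dfn P →
      Dfn fun S (v : Fin m → ℕ) => P S (fun i => v (s i))) ∧
    (∀ (n k : ℕ) (P : L.Structure ℕ → (Fin (n + k) → ℕ) → Prop), Dfn P →
      Dfn (fun S (v : Fin n → ℕ) => ∃ w : Fin k → ℕ, P S (Fin.append v w)) ∧
      Dfn (fun S (v : Fin n → ℕ) => ∀ w : Fin k → ℕ, P S (Fin.append v w)))

open Classical in
/-- the label of a pair -/
noncomputable def lab (S : LN.Structure ℕ) (x y : ℕ) : ℕ :=
  if h : ∃ a, Bn S (Nat.pair a 0) x y then Nat.find h else 0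

/-- the equivalence relation of a layered structure -/
def eqv (S : LN.Structure ℕ) (x y : ℕ) : Prop := x = y ∨ ∃ a, Bn S (Nat.pair a 1) x y

open Classical in
/-- genericity with the classes of an equivalence relation `E` instead of colours -/
structure GenE {V : Type} (ρ : V → V → ℕ) (E : V → V → Prop) : Prop where
  symm : ∀ x y, ρ x y = ρ y x
  emp : SM ρ ∅
  fin : ∀ X : Finset V, ∃ F : Finset V, X ⊆ F ∧ SM ρ F
  ext : ∀ F : Finset V, SM ρ F → ∀ r : V → ℕ, AdR ρ F r → ∀ h : V,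
    ∃ x : V, x ∉ F ∧ (∀ y ∈ F, ρ x y = r y) ∧ E x h ∧ SM ρ (insert x F)

/-- GDF. From DFN. For a tuple `v : Fin k → ℕ` the matrix `(v i = v j, lab S (v i) (v j))` has countably many values
`μ : Fin k → Fin k → Prop (or Bool) × ℕ`, each `{(S, v) | matrix = μ}` is definable (`lab S x y = a` is a Boolean combination of
the `Bn S (pair a' 0) x y`, `a' ≤ a`, or of all of them for `a = 0`). `Strg (lab S) (image v) (image w)` and `AdR` depend only on
this matrix: `∃ μ in a set, matrix = μ`. `SM`: for all `l` and all `w : Fin l → ℕ` with `image v ⊆ image w` (every finite set is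
an image). `r` ranges over functions `Fin k → ℕ` (countable). -/
def St_GDF : Prop := Dfn (L := LN) (n := 0) fun S _ => GenE (lab S) (eqv S)

section
variable {L : FirstOrder.Language.{0, 0}}

/-- the structure `A` is the quotient of the layered structure `S` by `π` -/
structure Quo (e1 : L.Relations 1 → ℕ) (e2 : L.Relations 2 → ℕ) (A : L.Structure ℕ)
    (S : LN.Structure ℕ) (π : ℕ → ℕ) : Prop where
  sur : Function.Surjective π
  eqv : ∀ x y, eqv S x y ↔ π x = π y
  col : ∀ (R : L.Relations 1) x, Un S (2 * e1 R) x ↔ A.RelMap R ![π x]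
  dia : ∀ (Q : L.Relations 2) x, Un S (2 * e2 Q + 1) x ↔ A.RelMap Q ![π x, π x]
  bin : ∀ (Q : L.Relations 2) x y, x ≠ y →
    ((∃ a, Bn S (Nat.pair a (2 * e2 Q + 3)) x y) ↔ A.RelMap Q ![π x, π y])

end

/-- QF. From DFN, by recursion on the formula (`falsum`, `equal`: terms are variables, no functions; `rel`: arity 1 or 2;
`imp`; `all`: `π` is surjective, `Fin.snoc`). -/
def St_QF : Prop :=
  ∀ (L : FirstOrder.Language.{0, 0}) (e1 : L.Relations 1 → ℕ) (e2 : L.Relations 2 → ℕ),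
    Base L e1 e2 → ∀ (n : ℕ) (φ : L.BoundedFormula Empty n), ∃ χ : FmI LN n,
    ∀ (A : L.Structure ℕ) (S : LN.Structure ℕ) (π : ℕ → ℕ), Quo e1 e2 A S π →
      ∀ v : Fin n → ℕ, Sat S χ v ↔
        @FirstOrder.Language.BoundedFormula.Realize L ℕ A Empty n φ Empty.elim (π ∘ v)

/-- CF. From DFN, GDF, QF. `S ∈ CodK e1 e2 T` iff: (a1) `Bn S i x x` never; for `x ≠ y` exactly one `a` with
`Bn S (pair a 0) x y`, the same for `(y, x)`; (a2) `Bn S (pair a b) x y → Bn S (pair a 0) x y`; (a3) `eqv S` is an equivalence relation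
with infinitely many classes (for all `k` there are `k` pairwise inequivalent points); `Bn S (pair a 2) x y ↔ Bn S (pair a 0) x y ∧
¬ eqv S x y`; (a4) with `q_Q(x,y) := (x ≠ y ∧ ∃ a, Bn S (pair a (2 * e2 Q + 3)) x y) ∨ (x = y ∧ Un S (2 * e2 Q + 1) x)`: `q_Q` and
`Un S (2 * e1 R)` respect `eqv S`; `Un S i` is empty for all other `i`; `Bn S (pair a (2 * e2 Q + 4)) x y ↔ Bn S (pair a 0) x y ∧
¬ q_Q(x,y)`; `Bn S (pair a b)` is empty for all other `b`; (a5) `GenE (lab S) (eqv S)`; (a6) the formulas of `QF` for the sentences of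
`T` (countable language!). Each is definable. `⇐`: the set of classes is countably infinite, take `π : ℕ → ℕ` with
`π x = π y ↔ eqv S x y` onto `ℕ`, `A` the induced structure, `ρ = lab S`. -/
def St_CF : Prop :=
  ∀ (L : FirstOrder.Language.{0, 0}) (e1 : L.Relations 1 → ℕ) (e2 : L.Relations 2 → ℕ),
    Base L e1 e2 → ∀ T : L.Theory, ∃ ψ : FmI LN 0, ModI ψ = CodK e1 e2 T

/-! ### Part 2 -/

/-- GU. The isomorphism acts on points and inner vertices. -/
def St_GU : Prop :=
  ∀ (ℓ : ℕ → ℕ) (V V' : Type) (S : LN.Structure V) (S' : LN.Structure V'), Iso S S' →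
    Iso (grS ℓ S) (grS ℓ S')

/-- GD. Points are the vertices of colour `0`. For points `x, y`: `Bn S i x y` iff there are vertices
`u_0, .., u_(ℓ i - 1)`, `u_k` of colour `2 * pair i k + 2`, with `x - u_0 - .. - u_(ℓ i - 1) - y` (consecutive ones adjacent): `u_0 = inr q`
with `q` of number `0`, so `x = q.x` (`0 + 1 ≠ ℓ i`); all `u_k` have the same pair; at the end `y = q.y`. -/
def St_GD : Prop :=
  ∀ (ℓ : ℕ → ℕ), (∀ i, 2 ≤ ℓ i) → ∀ (V V' : Type) (S : LN.Structure V) (S' : LN.Structure V'),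
    Iso (grS ℓ S) (grS ℓ S') → Iso S S'

/-- GG. -/
def St_GG : Prop :=
  ∀ (ℓ : ℕ → ℕ) (V : Type) (S : LN.Structure V) (W : LG.Structure ℕ), Iso (grS ℓ S) W → IsGraph W

/-- GS. Let `n = t r ≥ 3` and suppose there is such a subdivision; `Z` = its finitely many vertices. `G` = the graph
(`gaif (grS ℓ S)`, adjacency = `GA`). An inner vertex `((i,k),(x,y))` has exactly the two neighbours number `k-1` (or `x`) and
`k+1` (or `y`).
Case `n = 3`: `|Z| ≤ 3 r + 3`, each `z ∈ Z` has two different neighbours in `Z`. So `Z` contains an inner vertex, hence (both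
neighbours of an inner vertex of `Z` are in `Z`) all inner vertices of one path, `ℓ i ≤ 3 r + 3`, `4 ≤ i + 4 ≤ t r = 3`. Contradiction.
Case `n ≥ 4`: branch vertices have at least three neighbours: they are points. Let `N = n - 4`; every `i` with `ℓ i ≤ r` has
`i + 4 ≤ t r = n`, so `i ≤ N`. (PC) a simple path (chain, `Nodup`) in `G` from a point `x` to a point `y ≠ x` with at most `r` inner
vertices consists of whole paths of symbols `i < N + 1`: so it gives points `x = z_0, z_1, .., z_s = y` on it, all different,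
consecutive ones `LAdj S (N+1)`. (strong induction on the length; after entering the path of `(i, x, y')` at one end it has to be
run through, by the two neighbours and `Nodup`.) Take the ordering `f` of `Elim` for `X` = the points in `Z`. (FI) fill-in lemma: if
`b = z_0, z_1, .., z_s` are different points of `X`, consecutive ones `LAdj S (N+1)`, `f z_j > f b` for `0 < j < s`, `f z_s < f b`, then
`LAdj S (N+1) b z_s` (induction on `s`: if `s ≥ 2` take the inner `z_j` with the largest `f`; its neighbours `z_(j-1)`, `z_(j+1)` are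
earlier and different, so `LAdj`; delete `z_j`). Let `b` be the branch vertex with the largest `f`. For each of the `n - 1` other branch
vertices `b'` follow the path from `b` to `b'` up to the first point `y` with `f y < f b` (it exists: `b'`): `LAdj S (N+1) b y`. These `y` are
different (different paths have only `b` in common, apart from ... their ends, which are different branch vertices). So
`n - 1 ≤ N + 1 = n - 3`. Contradiction. -/
def St_GS : Prop :=
  ∀ (t ℓ : ℕ → ℕ), Monotone t → 3 ≤ t 0 → (∀ i, 2 ≤ ℓ i) → Suit t ℓ → ∀ (V : Type)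
    (S : LN.Structure V), Irr S → Elim S → ∀ r, ¬ HasSub (gaif (grS ℓ S)) r (t r)

/-- GSI. The property is invariant under isomorphism. -/
def St_GSI : Prop :=
  ∀ (V V' : Type) (W : LG.Structure V) (W' : LG.Structure V'), Iso W W' → ∀ r n,
    HasSub (gaif W') r n → HasSub (gaif W) r n

/-- GC. From GD: every `S ∈ K` has a graph on `ℕ` (`GV ℓ S` is countably infinite). -/
def St_GC : Prop :=
  ∀ (ℓ : ℕ → ℕ), (∀ i, 2 ≤ ℓ i) → ∀ K : Set (LN.Structure ℕ), CtblK (GrK ℓ K) → CtblK K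

/-- GP. From GU, GD. `f` into `GrK ℓ K` with clopen facts. `P_x(u) := Co (f x) 0 u` clopen, infinite; `p_x = Nat.nth (P_x)`,
`{x | p_x a = u}` clopen (as `clopen_count` in `VPF/CodC6`). For points `u ≠ v` and `i` let `D_i(u,v)` = there is a path
`u - w_0 - .. - w_(ℓ i - 1) - v` with the colours `2 * pair i k + 2`: a union over `w`'s of clopen sets, so open in `x`; by `Wit` its
complement (for points `u ≠ v`) is `∃ j ∈ C, D_j(u,v)`: open too. `h x` = `mkN` of `Un .. j a := Co (f x) (2 j + 1) (p_x a)`,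
`Bn .. i a b := a ≠ b ∧ D_i(p_x a, p_x b)`: clopen facts; it is isomorphic to the `S ∈ K` with `grS ℓ S ≅ f x`. `K` is closed under
isomorphism. -/
def St_GP : Prop :=
  ∀ (ℓ : ℕ → ℕ), (∀ i, 2 ≤ ℓ i) → ∀ K : Set (LN.Structure ℕ), (∀ S ∈ K, Irr S) → Wit K →
    (∀ S S' : LN.Structure ℕ, Iso S S' → S ∈ K → S' ∈ K) → PerfK (GrK ℓ K) → PerfK K

/-- TRF. From DFN, by recursion: `eq`, `col`, `bin` (the path formula of GD, `∃ w : Fin (ℓ i) → ℕ`), `neg`, `conj`, `ex` (relativised
to the colour `0`). `e` is the isomorphism `grS ℓ S ≃ W`. -/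
def St_TRF : Prop :=
  ∀ (ℓ : ℕ → ℕ), (∀ i, 2 ≤ ℓ i) → ∀ (n : ℕ) (φ : FmI LN n), ∃ χ : FmI LG n,
    ∀ (S : LN.Structure ℕ) (W : LG.Structure ℕ) (e : GV ℓ S ≃ ℕ), RelIso (grS ℓ S) W e →
      ∀ v : Fin n → ℕ, Sat W χ (fun i => e (Sum.inl (v i))) ↔ Sat S φ v

/-- GAX. From DFN. Write `P v := Co W 0 v`, `c i k v := Co W (2 * pair i k + 2) v`. `W` is isomorphic to `grS ℓ S` for some irreflexive
`S` on `ℕ` iff: (g1) for every `v` either `P v` and no `c i k v`, or not `P v` and `c i k v` for exactly one `(i, k)`, and then `k < ℓ i`;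
(g2) `Co W (2 * j + 1) v → P v`; (g3) `Ad` is symmetric; `Ad u v` implies one of: `P u, c i 0 v`; `P u, c i (ℓ i - 1) v`; `c i k u, c i (k+1) v`; or
one of these with `u, v` exchanged; (g4) `c i 0 v`: exactly one `x` with `P x, Ad x v`; `c i (ℓ i - 1) v`: exactly one `y` with `P y, Ad v y`;
`c i k v`, `k + 1 < ℓ i`: exactly one `u` with `c i (k+1) u`, `Ad v u`; `c i (k+1) v`: exactly one `u` with `c i k u`, `Ad u v`; (g5) if
`x - w_0 - .. - w_(ℓ i - 1) - y` and `x - w'_0 - .. - w'_(ℓ i - 1) - y` (colours `c i k`), `P x`, `P y`, then `x ≠ y` and `w_0 = w'_0`;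
(g6) for all `k` there are `k` different points. (`⇐`: enumerate the points by `ℕ`, `Bn S i a b` iff there is such a path; an inner
vertex is given by its number and the start and end of its path.) -/
def St_GAX : Prop :=
  ∀ (ℓ : ℕ → ℕ), (∀ i, 2 ≤ ℓ i) → ∃ χ : FmI LG 0, ∀ W : LG.Structure ℕ,
    W ∈ ModI χ ↔ ∃ S : LN.Structure ℕ, Irr S ∧ Iso (grS ℓ S) W

/-- GF. From DFN, TRF, GAX. -/
def St_GF : Prop :=
  ∀ (ℓ : ℕ → ℕ), (∀ i, 2 ≤ ℓ i) → ∀ ψ : FmI LN 0, (∀ S ∈ ModI ψ, Irr S) →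
    ∃ χ : FmI LG 0, ModI χ = GrK ℓ (ModI ψ)

/-! ### Part 3 -/

/-- POS. If `gaif S` contains a subdivision of the infinite complete graph, take its first `c` branch vertices and the
maximal length `r` of the finitely many paths between them: `HasSub (gaif S) r c`, so `HasSub (gaif S) r (t r)`, `t r ≤ c`. Now
`Pool.Agent.Helper6.VC` (`Final2.lean`, `Cover.lean`; the third case of `finBdry_of_cases`) gives the dichotomy. -/
def St_POS : Prop :=
  ∀ (t : ℕ → ℕ), (∃ c, ∀ r, t r ≤ c) → ∀ (L : FirstOrder.Language.{0, 0}), Countable L.Symbols →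
    (∀ n, IsEmpty (L.Functions n)) → ∀ (T : L.Theory) (φ : FmI L 0),
    (∀ S : L.Structure ℕ, Pool.Agent.Helper6.VC.IsMod T φ S → ∀ r, ¬ HasSub (gaif S) r (t r)) →
    (∃ g : ℕ → L.Structure ℕ, ∀ S : L.Structure ℕ, Pool.Agent.Helper6.VC.IsMod T φ S →
        ∃ n : ℕ, Nonempty (@FirstOrder.Language.Equiv L ℕ ℕ S (g n))) ∨
    (∃ f : (ℕ → Bool) → L.Structure ℕ, (∀ x : ℕ → Bool, Pool.Agent.Helper6.VC.IsMod T φ (f x)) ∧
        (∀ x y : ℕ → Bool,
            Nonempty (@FirstOrder.Language.Equiv L ℕ ℕ (f x) (f y)) → x = y) ∧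
        (∀ (n : ℕ) (R : L.Relations n) (a : Fin n → ℕ),
            IsClopen {x : ℕ → Bool | @FirstOrder.Language.Structure.RelMap L ℕ (f x) n R a}))

end VSG
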