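import Pool.Agent.VSG.St2

/-!
# Vaught's conjecture and sparse graphs: three scales of sparsity (definitions, statements, lemmas)

For `s : ℕ → ℕ` and a graph `G`:
* `ND s G` (nowhere density): `G` contains no `≤ r`-subdivision of the complete graph on `s r` vertices;
* `BE s G` (bounded expansion): if a graph `F` with `n` vertices has a `≤ r`-subdivision in `G`, then
  `F` has at most `s r * n` edges;
* `LT s G` (locally bounded tree-width): the balls of radius `r` have tree-width at most `s r`.
-/

set_option autoImplicit false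

namespace VSG

open FirstOrder Set Pool.Agent.Helper5.DU Pool.Agent.Helper6.Str Pool.Agent.Helper79.VC

section
variable {V : Type}

/-- `G` contains a `≤ r`-subdivision of `F` -/
def SubF (G : SimpleGraph V) (r n : ℕ) (F : SimpleGraph (Fin n)) : Prop :=
  ∃ (b : Fin n → V) (P : Fin n → Fin n → List V), Function.Injective b ∧
    (∀ i j, i < j → F.Adj i j → (P i j).length ≤ r ∧ (b i :: (P i j ++ [b j])).Nodup ∧
      List.IsChain G.Adj (b i :: (P i j ++ [b j]))) ∧
    (∀ i j k, i < j → F.Adj i j → b k ∉ P i j) ∧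
    (∀ i j i' j', i < j → F.Adj i j → i' < j' → F.Adj i' j' → (i, j) ≠ (i', j') →
      List.Disjoint (P i j) (P i' j'))

open Classical in
/-- `H[X]` arises by adding the vertices one at a time, each one joined to a clique of at most `k`
earlier ones -/
inductive Elm (H : SimpleGraph V) (k : ℕ) : Finset V → Prop
  | emp : Elm H k ∅
  | add (X : Finset V) (x : V) : Elm H k X → x ∉ X →
      (∀ y ∈ X, ∀ z ∈ X, y ≠ z → H.Adj x y → H.Adj x z → H.Adj y z) →
      (X.filter fun y => H.Adj x y).card ≤ k → Elm H k (insert x X)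

/-- `G[X]` has tree-width at most `k` -/
def Tw (G : SimpleGraph V) (X : Finset V) (k : ℕ) : Prop :=
  ∃ H : SimpleGraph V, (∀ x ∈ X, ∀ y ∈ X, G.Adj x y → H.Adj x y) ∧ Elm H k X

/-- nowhere density with the bound `s` -/
def ND (s : ℕ → ℕ) (G : SimpleGraph V) : Prop := ∀ r, ¬ HasSub G r (s r)

/-- bounded expansion with the bound `s` -/
def BE (s : ℕ → ℕ) (G : SimpleGraph V) : Prop :=
  ∀ (r n : ℕ) (F : SimpleGraph (Fin n)), SubF G r n F → F.edgeSet.ncard ≤ s r * n

/-- locally bounded tree-width with the bound `s` -/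
def LT (s : ℕ → ℕ) (G : SimpleGraph V) : Prop :=
  ∀ (r : ℕ) (v : V) (X : Finset V), (∀ u ∈ X, ∃ p : G.Walk v u, p.length ≤ r) → Tw G X (s r)

/-! ### Lemmas for the modules -/

open Classical in
/-- Adding the vertices of `Y` in the order of their ranks `g`. -/
theorem Elm.rank {H : SimpleGraph V} {k : ℕ} {X₀ : Finset V} (h0 : Elm H k X₀) (g : V → ℕ) :
    ∀ Y : Finset V, Disjoint X₀ Y →
      (∀ y ∈ Y, (∀ z ∈ X₀ ∪ Y, ∀ w ∈ X₀ ∪ Y, (z ∈ X₀ ∨ g z ≤ g y) → (w ∈ X₀ ∨ g w ≤ g y) → z ≠ w →
          H.Adj y z → H.Adj y w → H.Adj z w) ∧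
        ((X₀ ∪ Y).filter fun z => H.Adj y z ∧ (z ∈ X₀ ∨ g z ≤ g y)).card ≤ k) →
      Elm H k (X₀ ∪ Y) := by
  intro Y
  induction' hn : Y.card with n ih generalizing Y
  · intro _ _
    rw [Finset.card_eq_zero.1 hn, Finset.union_empty]
    exact h0
  · intro hd hY
    obtain ⟨y, hy, hmax⟩ := Y.exists_max_image g (Finset.card_pos.1 (by omega))
    have hyX : y ∉ X₀ := fun h1 => (Finset.disjoint_left.1 hd h1) hy
    have hsub : X₀ ∪ Y.erase y ⊆ X₀ ∪ Y :=
      Finset.union_subset_union_right (Finset.erase_subset _ _)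
    have h1 : Elm H k (X₀ ∪ Y.erase y) := by
      refine ih (Y.erase y) (by rw [Finset.card_erase_of_mem hy]; omega)
        (hd.mono_right (Finset.erase_subset _ _)) fun u hu => ?_
      have h2 := hY u (Finset.mem_of_mem_erase hu)
      refine ⟨fun z hz w hw => h2.1 z (hsub hz) w (hsub hw), ?_⟩
      exact (Finset.card_le_card (Finset.filter_subset_filter _ hsub)).trans h2.2
    have hle : ∀ z ∈ X₀ ∪ Y.erase y, z ∈ X₀ ∨ g z ≤ g y := by
      intro z hz
      rcases Finset.mem_union.1 hz with h3 | h3
      · exact Or.inl h3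
      · exact Or.inr (hmax z (Finset.mem_of_mem_erase h3))
    have h2 := hY y hy
    have h3 := h1.add _ y (by
      rw [Finset.mem_union, not_or]
      exact ⟨hyX, Finset.notMem_erase y Y⟩)
      (fun z hz w hw hzw => h2.1 z (hsub hz) w (hsub hw) (hle z hz) (hle w hw) hzw) (by
        refine le_trans (Finset.card_le_card ?_) h2.2
        intro z hz
        rw [Finset.mem_filter] at hz ⊢
        exact ⟨hsub hz.1, hz.2, hle z hz.1⟩)
    have h4 : insert y (X₀ ∪ Y.erase y) = X₀ ∪ Y := by
      rw [← Finset.union_insert, Finset.insert_erase hy]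
    rwa [h4] at h3

/-- counting edges: every edge is charged to one of its ends, at most `k` edges to each vertex -/
theorem card_edges_le {n k : ℕ} (F : SimpleGraph (Fin n)) (D : Fin n → Fin n → Prop)
    (h : ∀ i j, F.Adj i j → D i j ∨ D j i) (hk : ∀ i, {j | F.Adj i j ∧ D i j}.ncard ≤ k) :
    F.edgeSet.ncard ≤ k * n := by
  classical
  let A : Finset (Fin n × Fin n) := Finset.univ.filter fun p => F.Adj p.1 p.2 ∧ D p.1 p.2
  have h1 : F.edgeSet ⊆ ((A.image fun p => s(p.1, p.2) : Finset (Sym2 (Fin n))) :
      Set (Sym2 (Fin n))) := by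
    intro e he
    induction e using Sym2.ind with
    | _ i j =>
      rw [SimpleGraph.mem_edgeSet] at he
      rw [Finset.coe_image, Set.mem_image]
      rcases h i j he with h2 | h2
      · exact ⟨(i, j), by simp [A, he, h2], rfl⟩
      · exact ⟨(j, i), by simp [A, he.symm, h2], Sym2.eq_swap⟩
  have h2 : F.edgeSet.ncard ≤ A.card := by
    refine (Set.ncard_le_ncard h1 (Finset.finite_toSet _)).trans ?_
    rw [Set.ncard_coe_finset]
    exact Finset.card_image_le
  refine h2.trans ?_
  have h3 : A.card = ∑ i : Fin n, (A.filter fun p => p.1 = i).card :=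
    Finset.card_eq_sum_card_fiberwise fun p _ => Finset.mem_coe.2 (Finset.mem_univ p.1)
  rw [h3]
  refine (Finset.sum_le_card_nsmul _ _ k fun i _ => ?_).trans (by simp [mul_comm])
  refine le_trans ?_ (hk i)
  have h4 : (A.filter fun p => p.1 = i) = (Finset.univ.filter fun j => F.Adj i j ∧ D i j).image
      fun j => (i, j) := by
    ext ⟨a, c⟩
    simp only [A, Finset.mem_filter, Finset.mem_univ, true_and, Finset.mem_image, Prod.mk.injEq]
    constructor
    · rintro ⟨h5, rfl⟩
      exact ⟨c, h5, rfl, rfl⟩
    · rintro ⟨j, h5, rfl, rfl⟩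
      exact ⟨h5, rfl⟩
  rw [h4]
  refine Finset.card_image_le.trans ?_
  rw [← Set.ncard_coe_finset]
  refine Set.ncard_le_ncard ?_ (Set.toFinite _)
  intro j hj
  simpa using hj

/-- the paths of a subdivision in both directions -/
theorem SubF.dir {G : SimpleGraph V} {r n : ℕ} {F : SimpleGraph (Fin n)} (h : SubF G r n F) :
    ∃ (b : Fin n → V) (R : Fin n → Fin n → List V), Function.Injective b ∧
      (∀ i j, F.Adj i j → (R i j).length ≤ r ∧ (b i :: (R i j ++ [b j])).Nodup ∧
        List.IsChain G.Adj (b i :: (R i j ++ [b j])) ∧ ∀ k, b k ∉ R i j) ∧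
      (∀ i j, F.Adj i j → R j i = (R i j).reverse) ∧
      (∀ i j j', F.Adj i j → F.Adj i j' → j ≠ j' → ∀ z, z ∈ R i j ++ [b j] →
        z ∈ R i j' ++ [b j'] → False) ∧
      (∀ i j i' j', F.Adj i j → F.Adj i' j' → s(i, j) ≠ s(i', j') → ∀ z, z ∈ R i j →
        z ∈ R i' j' → False) := by
  classical
  obtain ⟨b, P, hb, hP, hbP, hdis⟩ := h
  let R : Fin n → Fin n → List V := fun i j => if i < j then P i j else (P j i).reverse
  have hR : ∀ i j, F.Adj i j → (R i j).length ≤ r ∧ (b i :: (R i j ++ [b j])).Nodup ∧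
      List.IsChain G.Adj (b i :: (R i j ++ [b j])) ∧ (∀ k, b k ∉ R i j) := by
    intro i j hij
    by_cases h : i < j
    · simp only [R, if_pos h]
      exact ⟨(hP i j h hij).1, (hP i j h hij).2.1, (hP i j h hij).2.2, fun k => hbP i j k h hij⟩
    · have h' : j < i := lt_of_le_of_ne (not_lt.1 h) hij.ne.symm
      simp only [R, if_neg h]
      have h1 : (b i :: ((P j i).reverse ++ [b j])) = (b j :: (P j i ++ [b i])).reverse := by
        simp
      refine ⟨by rw [List.length_reverse]; exact (hP j i h' hij.symm).1, ?_, ?_, fun k => ?_⟩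
      · rw [h1, List.nodup_reverse]
        exact (hP j i h' hij.symm).2.1
      · rw [h1, List.isChain_reverse]
        refine (hP j i h' hij.symm).2.2.imp fun a c hac => hac.symm
      · rw [List.mem_reverse]
        exact hbP j i k h' hij.symm
  have key : ∀ i k, F.Adj i k → ∀ z, z ∈ R i k → ∃ a c, a < c ∧ F.Adj a c ∧ z ∈ P a c ∧
      s(a, c) = s(i, k) := by
    intro i k hk z hz
    by_cases h : i < k
    · simp only [R, if_pos h] at hz
      exact ⟨i, k, h, hk, hz, rfl⟩
    · simp only [R, if_neg h, List.mem_reverse] at hz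
      exact ⟨k, i, lt_of_le_of_ne (not_lt.1 h) hk.ne.symm, hk.symm, hz, Sym2.eq_swap⟩
  have hdd : ∀ i j i' j', F.Adj i j → F.Adj i' j' → s(i, j) ≠ s(i', j') → ∀ z, z ∈ R i j →
      z ∈ R i' j' → False := by
    intro i j i' j' hij hij' hne z hz hz'
    obtain ⟨a, c, hac, hF, h1, h2⟩ := key i j hij z hz
    obtain ⟨a', c', hac', hF', h1', h2'⟩ := key i' j' hij' z hz'
    refine hdis a c a' c' hac hF hac' hF' ?_ h1 h1'
    intro h3
    obtain ⟨h4, h5⟩ := Prod.mk.inj h3
    exact hne (by rw [← h2, ← h2', h4, h5])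
  refine ⟨b, R, hb, hR, fun i j hij => ?_, fun i j j' hij hij' hjj' z hz hz' => ?_, hdd⟩
  · rcases lt_or_gt_of_ne hij.ne with h | h
    · simp only [R, if_pos h, if_neg (not_lt.2 h.le)]
    · simp only [R, if_pos h, if_neg (not_lt.2 h.le), List.reverse_reverse]
  · rw [List.mem_append, List.mem_singleton] at hz hz'
    rcases hz with hz | hz <;> rcases hz' with hz' | hz'
    · refine hdd i j i j' hij hij' (fun h => hjj' ?_) z hz hz'
      rcases Sym2.eq_iff.1 h with ⟨_, h2⟩ | ⟨h2, h3⟩
      · exact h2
      · exact absurd h2 hij'.ne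
    · exact (hR i j hij).2.2.2 j' (hz' ▸ hz)
    · exact (hR i j' hij').2.2.2 j (hz ▸ hz')
    · exact hjj' (hb (hz.symm.trans hz'))

end

/-! ### The modules -/

/-- LTB. Let `k = s (2 r + 1)`, `n = k + 2` and suppose `HasSub G r n`. All vertices of the subdivision have a walk of length
`≤ 2 r + 1` from `b 0` (branch vertices `≤ r + 1`, inner vertices of `P i j`: `≤ r` further from `b i`), so for the finite set `X` of
its vertices `Tw G X k`: `H`, `Elm H k X`. From `Elm` get `f : V → ℕ` injective on `X` with: for `x ∈ X` the earlier (`f y < f x`)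
`H`-neighbours in `X` are pairwise `H`-adjacent and at most `k` (induction on `Elm`, new point: `1 +` the maximum). Fill-in lemma
(as `GSF_pre` in GSF.lean, for `H.Adj` instead of `LAdj S M`). Then as in `GS_four` (GS.lean): `b` = the branch vertex with the
largest `f`; for each of the other `n - 1` branch vertices the path from `b` to it contains an earlier `z ≠ b` with `H.Adj b z`; these `z` are
different. So `n - 1 ≤ k`. -/
def St_LTB : Prop :=
  ∀ (V : Type) (G : SimpleGraph V) (s : ℕ → ℕ), LT s G → ∀ r, ¬ HasSub G r (s (2 * r + 1) + 2)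

/-- LTG. Let `X` be a finite set in the ball of radius `r` about `v`, `n = s r - 1`. A path `(i, x, y)` (`Bn S i x y`) is short if
`ℓ i ≤ 2 r + 1` (then `i + 2 ≤ s r`, so `i < n`, `2 ≤ s r`, and `LAdj S n x y`), otherwise long. (Cut) on a long path there is `k₀ < ℓ i` such that
the inner vertex number `k₀` has no walk of length `≤ r` from `v`: map the vertices to `ZMod (ℓ i + 1)`, inner vertex number `k` of this path to
`k + 1`, all other vertices to `0`; adjacent vertices go to elements with difference `0, 1, -1`; so a vertex with a walk of length `≤ r` goes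
to `φ v + d`, `d : ℤ`, `|d| ≤ r`: at most `2 r + 1 < ℓ i` values (pigeonhole on `Fin (ℓ i)`). `H`: on points `LAdj S n`; point `x`, inner
vertex `q`: `PA x q` or (`ℓ q.i ≤ 2 r + 1` and `x = q.y`, the end of its path); inner vertices: `GA`. First the points (`Elm.rank` from `∅` with
the `f` of `Elim`), then the inner vertices (`Elm.rank`) with the ranks: on a short path number `k`; on a long path `k` if `k < k₀`, `ℓ i - k` if
`k > k₀`. Earlier or equal neighbours: short: the previous vertex (or `x`) and `y` (`H`-adjacent); long: only one. -/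
def St_LTG : Prop :=
  ∀ (ℓ s : ℕ → ℕ), (∀ r, 1 ≤ s r) → (∀ i, 2 ≤ ℓ i) → (∀ i r, ℓ i ≤ 2 * r + 1 → i + 2 ≤ s r) →
    ∀ (V : Type) (S : LN.Structure V), Irr S → Elim S → LT s (gaif (grS ℓ S))

/-- LTP. Let `X` be a finite set in the ball of radius `r` about `v` in `gaif (pur W)`. The map `inl u ↦ u`, `inr ((u, c), k) ↦ u` maps adjacent
vertices to adjacent or equal ones, so a walk from `v` to `inl u` gives a walk in `gaif W` which is not longer. So `Tw (gaif W) X₀ (s r)` for
`X₀ = {u | inl u ∈ X}` with `H₀`. `H` on `V ⊕ PV W`: `H₀` between `inl`'s, otherwise `PG`. `Elm H (s r)` of the image of `X₀` by induction, then the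
`inr`'s (`Elm.rank` with the number `k`): only one earlier neighbour. -/
def St_LTP : Prop :=
  ∀ (V : Type) (W : LG.Structure V), IsGraph W → ∀ s : ℕ → ℕ, (∀ r, 1 ≤ s r) → LT s (gaif W) →
    LT s (gaif (pur W))

/-- BEG. Use `SubF.dir` and `card_edges_le` with `k = s r`. Write `W = grS ℓ S`, `G = gaif (pur W)`. Vertices: points `inl (inl x)`, inner vertices
`inl (inr q)`, pendant vertices `inr p`. `G`-adjacency is `PG`; a pendant vertex has at most two neighbours; an inner vertex has at
most two neighbours of the form `inl _` (`GS3_nbr` in GS3.lean). (Dead ends) A `Nodup` chain `inl a :: (R ++ [inl c])` in `G` consists of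
`inl`'s (so it is the image of a chain in `gaif W`); the first vertex of a chain from an inner vertex to an `inl` vertex is an `inl`.
Charge: `D i j` iff `rank (b j) < rank (b i)`, or `rank (b j) = rank (b i) > 0`, or both are points and `f (b j) < f (b i)`, where the ranks are
`0` (points), `1` (inner), `2` (pendant), and `f` is the ordering of `Elim` for the set `X` of all points on the subdivision. At most two edges
are charged to a pendant vertex (its neighbours on the paths are different by disjointness), at most two to an inner vertex, and at most `s r`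
to a point `b i`: for each such `j` the path from `b i` to `b j` is by `GSQ_pc` (GSQ.lean, `N + 1 = s r`) given by a chain of points for `LAdj S (s r)`, and
`GSF_pre` gives an earlier point `z` on it with `LAdj S (s r) x z`; different `j` give different `z`; there are at most `s r` such `z` by `Elim`. -/
def St_BEG : Prop :=
  ∀ (ℓ s : ℕ → ℕ), (∀ r, 2 ≤ s r) → (∀ i, 2 ≤ ℓ i) → (∀ i r, ℓ i ≤ r → i + 1 ≤ s r) →
    ∀ (V : Type) (S : LN.Structure V), Irr S → Elim S → BE s (gaif (pur (grS ℓ S)))

end VSG
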